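import Pool.Agent.Lib.MP_dd84fd_nt.EF.Av
import Pool.Agent.Lib.MP_dd84fd_nt.BY.ArE
import Pool.Agent.Lib.MP_dd84fd_nt.BY.ArMM
import Pool.Agent.Lib.MP_dd84fd_nt.BX.Ar7

/-!
# EF-Arc: `W_+ W_-` on the discs

`W_- = V + ε1` (`NarF` at `A2 = 2A + C`), `W_+ = W_- + 2 FX`, `FX = Mn FX + ε2` (`BX.ModBD` or `BY.ModY` for `wP, gP`):
`W_+ W_- = V² + 2 (Mn FX) V + ε1 (2V + ε1 + 2 FX) + 2 ε2 V`.  Sum over `a` of `V(a) e(-na/q)` is `0` for `q ≤ L^K1 (q,n)`: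
conductors `> L^K' > L^K1` (BX.Ar2 `Bd_VQ_zero`, BX.Ar7 `Bd_V_P`); Cauchy for the rest, `N2d V`, `N2d FX`, `N2d W_-`
`≤ X L^C` with absolute `C` (`N2d V ≤ 2 N2d W_- + 2 N2d ε1`).  `dsc`, `Bd`: BY.ArE `dsc_Bd`.
-/

set_option autoImplicit false

namespace Pool.MP_dd84fd_nt.EF

open Finset Pool.MP_67663b_nt.Odd Pool.MP_dd84fd_nt.En Pool.MP_dd84fd_nt.E2 Pool.MP_dd84fd_nt.LS
open Pool.MP_dd84fd_nt.GX Pool.MP_dd84fd_nt.HX Pool.MP_dd84fd_nt.IX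
open Pool.MP_dd84fd_nt.PL (rr tp hq)
open Pool.MP_dd84fd_nt.JX (wP gP DecJ Adm AdmP Str w1P)
open Pool.MP_dd84fd_nt.LX (FFL DecW PhU)
open Pool.MP_dd84fd_nt.LXP (tq)
open Pool.MP_dd84fd_nt.BX (PC pv IsPC PR SX sN prc ind Rm cf N2d DiscH Bd FX Mn mem_PR ar_ee_cont
  ar_ee_add Rm_zero Bd_cauchy Bd_add_left Bd_comm N2d_add N2d_sub N2d_congr N2d_tp Mn_cont WI_cont
  WI_plus FX_cont hq_le ap_WI_eq)
open Pool.MP_dd84fd_nt.IXP (WI_l2)

/-- a primitive character of modulus larger than `h_q` does not factor through `h_q` -/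
private theorem ea_fac (q n : ℕ) (hq1 : 1 ≤ q) (ψ : PC) (hψ : IsPC ψ) (hd : ψ.1 ∣ q) (Q : ℝ)
    (hQ : (hq q n : ℝ) ≤ Q) (hZ : Q < (ψ.1 : ℝ)) : ¬ (ind q ψ).FactorsThrough (hq q n) := by
  intro hf
  haveI : NeZero q := ⟨by omega⟩
  have hdv : hq q n ∣ q := Nat.div_dvd_of_dvd (Nat.gcd_dvd_left q n)
  have hpos : 0 < hq q n := Nat.pos_of_dvd_of_pos hdv hq1
  have h1 : (ind q ψ).conductor ∣ hq q n :=
    DirichletCharacter.conductor_dvd_of_mem_conductorSet (ind q ψ)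
      ((DirichletCharacter.mem_conductorSet_iff (ind q ψ)).2 hf)
  have h2 : (ind q ψ).conductor = ψ.1 := by
    unfold BX.ind
    rw [dif_pos hd, DirichletCharacter.conductor_changeLevel ψ.2 hd]
    exact hψ.2
  rw [h2] at h1
  have h3 : (ψ.1 : ℝ) ≤ (hq q n : ℝ) := by exact_mod_cast Nat.le_of_dvd hpos h1
  linarith

/-- the part of the characters is orthogonal to every function which does not depend on `a` -/
private theorem ea_zero (X : ℕ) (r : ℝ) (n q : ℕ) [NeZero q] (Y : Finset PC)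
    (hY : ∀ ψ ∈ Y, ψ.1 ∣ q → ¬ (ind q ψ).FactorsThrough (hq q n)) (P : ℝ → ℂ)
    (hP : Continuous P) :
    Bd X r n q (fun a x => VP X Y q a x) (fun _ x => P x) = 0 := by
  classical
  have hee := ar_ee_cont
  unfold Bd
  rw [← intervalIntegral.integral_finsetSum (fun a _ => by
    have := VP_cont X Y q a
    apply Continuous.intervalIntegrable; fun_prop)]
  have h1 : ∀ x : ℝ, ∑ a ∈ rr q, VP X Y q a x * P x * ee (-((n : ℝ) * ((a : ℝ) / q + x))) = 0 := by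
    intro x
    have h2 : ∀ a ∈ rr q, VP X Y q a x * P x * ee (-((n : ℝ) * ((a : ℝ) / q + x))) =
        ∑ ψ ∈ Y.filter (fun ψ => ψ.1 ∣ q), (1 / (Nat.totient q : ℂ)) * tq q (ind q ψ)⁻¹ *
          SX X ψ x * P x *
          ee (-((n : ℝ) * x)) * ((ind q ψ) (a : ZMod q) * ee (-((n : ℝ) * ((a : ℝ) / q)))) := by
      intro a _
      unfold VP
      rw [dif_neg (NeZero.ne q), mul_add, neg_add, ar_ee_add, Finset.mul_sum, Finset.sum_mul,
        Finset.sum_mul]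
      refine Finset.sum_congr rfl fun ψ _ => ?_
      ring
    rw [Finset.sum_congr rfl h2, Finset.sum_comm]
    refine Finset.sum_eq_zero fun ψ hψ => ?_
    rw [mem_filter] at hψ
    rw [← Finset.mul_sum]
    have h3 := Rm_zero q n (ind q ψ) (hY ψ hψ.1 hψ.2)
    unfold Rm at h3
    rw [h3, mul_zero]
  simp only [h1, intervalIntegral.integral_zero]

theorem arcF (hN : NarF) : ArcF := by
  classical
  intro A K2
  obtain ⟨B, hB⟩ : ∃ B : ℕ, B = 2 * A + 6 := ⟨_, rfl⟩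
  obtain ⟨A', hA'⟩ := hN B K2
  refine ⟨A', fun th e hp K1 K' hKK => ?_⟩
  obtain ⟨p1, p2, p3, p4, p5⟩ := id hp
  have hadm : Adm th e (1 / 10) := ⟨by linarith, p2, p3, le_rfl, by linarith⟩
  obtain ⟨D0, hD0⟩ := hA' th e hp K1 K'
  obtain ⟨D1, hD1⟩ := BY.modY 2 1 th e (1 / 10) hadm wP gP w1P B K1 K2
  refine ⟨max (max D0 D1) 1, fun D' hD' => ?_⟩
  simp only [max_le_iff] at hD'
  obtain ⟨⟨hDa, hDb⟩, hDc⟩ := hD'
  obtain ⟨X1, hX1⟩ := hD0 D' hDa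
  obtain ⟨X2, hX2⟩ := hD1 D' hDb
  obtain ⟨X3, hX3⟩ := BY.ay_sizes th e (1 / 10) hadm K1 K2
  obtain ⟨X4, hX4⟩ := WI_l2 2 1 wP gP w1P D' hDc
  obtain ⟨X5, hX5⟩ := MP_log_large 100
  refine ⟨max (max X1 X2) (max (max X3 X4) (max X5 1)), fun X hX n QQ N ρ hdisc => ?_⟩
  simp only [max_le_iff] at hX
  obtain ⟨⟨hXa, hXb⟩, ⟨hXc, hXd⟩, hXe, hXi⟩ := hX
  have hXR : (1 : ℝ) ≤ X := by exact_mod_cast hXi
  have hX0 : (0 : ℝ) < X := by linarith
  have hL := hX5 X hXe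
  rcases QQ.eq_empty_or_nonempty with hQe | hne
  · subst hQe
    simp only [Finset.sum_empty]
    have : 0 < Real.log X := by linarith
    positivity
  obtain ⟨hN1, -, hTN, hF, hρ, hQ⟩ := hX3 X hXc n QQ N ρ hdisc hne
  have hρ0 : ∀ q ∈ QQ, 0 ≤ ρ q := fun q hq => (hρ q hq).1
  have hQ1 : ∀ q ∈ QQ, 1 ≤ q := fun q hq => (hQ q hq).1
  have hq1 := hdisc.2.2.1
  have g1 := hX1 X hXa n QQ N ρ hdisc
  have g2 := hX2 X hXb n QQ N ρ hdisc
  have g4 := hX4 X hXd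
  obtain ⟨w, hw⟩ : ∃ w, w = wX D' X := ⟨_, rfl⟩
  rw [← hw] at g1 g2 g4 ⊢
  obtain ⟨Y, hY⟩ : ∃ Y, Y = YE X (4 * (Real.log X) ^ K2) ((Real.log X) ^ K') (RE th e X) A' :=
    ⟨_, rfl⟩
  have hYm : ∀ ψ ∈ Y, IsPC ψ ∧ (Real.log X) ^ K' < (ψ.1 : ℝ) := by
    intro ψ hψ
    rw [hY] at hψ
    unfold YE at hψ
    rw [mem_filter, mem_PR] at hψ
    exact ⟨hψ.1.2, hψ.2.1⟩
  rw [← hY] at g1 ⊢
  obtain ⟨L, hLd⟩ : ∃ L : ℝ, L = Real.log X := ⟨_, rfl⟩
  have hL1 : 1 ≤ L := by linarith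
  have hL0 : 0 < L := by linarith
  obtain ⟨T, hT⟩ : ∃ T : ℝ, T = 4 * (Real.log X) ^ K2 := ⟨_, rfl⟩
  have hT0 : 0 ≤ T := by
    rw [hT]
    positivity
  rw [← hT] at hTN hρ
  obtain ⟨R, hR⟩ : ∃ R : ℝ, R = X / (Real.log X) ^ B := ⟨_, rfl⟩
  rw [← hR] at g1 g2
  have hR0 : 0 ≤ R := by
    rw [hR]
    positivity
  -- the functions
  obtain ⟨Wm, hWm⟩ : ∃ Wm : ℕ → ℕ → ℝ → ℂ,
      Wm = fun (q a : ℕ) (x : ℝ) => WI wP gP (-1) w X ((a : ℝ) / q + x) := ⟨_, rfl⟩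
  obtain ⟨Wp, hWp⟩ : ∃ Wp : ℕ → ℕ → ℝ → ℂ,
      Wp = fun (q a : ℕ) (x : ℝ) => WI wP gP 1 w X ((a : ℝ) / q + x) := ⟨_, rfl⟩
  obtain ⟨V, hV⟩ : ∃ V : ℕ → ℕ → ℝ → ℂ, V = fun q a x => VP X Y q a x := ⟨_, rfl⟩
  obtain ⟨Pp, hPp⟩ : ∃ Pp : ℕ → ℕ → ℝ → ℂ,
      Pp = fun q _ x => 2 * Mn (FX w X) q x := ⟨_, rfl⟩
  obtain ⟨Fd, hFd⟩ : ∃ Fd : ℕ → ℕ → ℝ → ℂ,
      Fd = fun (q a : ℕ) (x : ℝ) => FX w X ((a : ℝ) / q + x) - Mn (FX w X) q x := ⟨_, rfl⟩
  -- continuity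
  have cWm : ∀ q a, Continuous (Wm q a) := fun q a => by
    have := WI_cont (-1) w X
    rw [hWm]
    fun_prop
  have cWp : ∀ q a, Continuous (Wp q a) := fun q a => by
    have := WI_cont 1 w X
    rw [hWp]
    fun_prop
  have cV : ∀ q a, Continuous (V q a) := fun q a => by
    rw [hV]
    exact VP_cont X Y q a
  have cPp : ∀ q a, Continuous (Pp q a) := fun q a => by
    have i1 := Mn_cont _ (FX_cont w X) q
    rw [hPp]
    fun_prop
  have cFd : ∀ q a, Continuous (Fd q a) := fun q a => by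
    have i1 := FX_cont w X
    have i2 := Mn_cont _ i1 q
    rw [hFd]
    fun_prop
  -- the errors
  obtain ⟨Em, hEm⟩ : ∃ Em : ℕ → ℕ → ℝ → ℂ, Em = fun q a x => Wm q a x - V q a x := ⟨_, rfl⟩
  obtain ⟨Ep, hEp⟩ : ∃ Ep : ℕ → ℕ → ℝ → ℂ,
      Ep = fun q a x => Wp q a x - V q a x - Pp q a x := ⟨_, rfl⟩
  have cEm : ∀ q a, Continuous (Em q a) := fun q a => by
    have i1 := cWm q a
    have i2 := cV q a
    rw [hEm]
    fun_prop
  have cEp : ∀ q a, Continuous (Ep q a) := fun q a => by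
    have i1 := cWp q a
    have i2 := cV q a
    have i3 := cPp q a
    rw [hEp]
    fun_prop
  have nEm : N2d X ρ QQ Em ≤ R := by
    rw [hEm, hWm, hV]
    exact g1
  have nFd : N2d X ρ QQ Fd ≤ R := by
    rw [hFd]
    exact g2
  have nEp : N2d X ρ QQ Ep ≤ 10 * R := by
    have i0 : N2d X ρ QQ Ep = N2d X ρ QQ (fun q a x => Em q a x + (Fd q a x + Fd q a x)) := by
      refine N2d_congr X ρ QQ _ _ fun q _ a _ x => ?_
      have e1 := WI_plus w X ((a : ℝ) / q + x)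
      have e2 := ap_WI_eq w X ((a : ℝ) / q + x)
      rw [hEp, hEm, hFd, hWp, hWm, hPp]
      show WI wP gP 1 w X ((a : ℝ) / q + x) - V q a x - 2 * Mn (FX w X) q x =
        (WI wP gP (-1) w X ((a : ℝ) / q + x) - V q a x) +
          ((FX w X ((a : ℝ) / q + x) - Mn (FX w X) q x) +
            (FX w X ((a : ℝ) / q + x) - Mn (FX w X) q x))
      rw [e1, e2]
      ring
    have i1 := N2d_add X ρ QQ hρ0 Fd Fd cFd cFd
    have i2 := N2d_add X ρ QQ hρ0 Em (fun q a x => Fd q a x + Fd q a x) cEm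
      (fun q a => (cFd q a).add (cFd q a))
    rw [i0]
    linarith
  -- norms of W_±, V
  have hW : ∀ s : ℝ, |s| ≤ 1 → N2d X ρ QQ (fun q a x => WI wP gP s w X ((a : ℝ) / q + x)) ≤
      2 * (X * L ^ 3) := by
    intro s hs
    obtain ⟨c, hc1, hc2⟩ := g4 s hs
    have i1 := N2d_tp X ρ T N QQ hρ hT0 hF hN1 X c
    have i2 : N2d X ρ QQ (fun q a x => WI wP gP s w X ((a : ℝ) / q + x)) =
        N2d X ρ QQ (fun q a x => tp X c ((a : ℝ) / q + x)) :=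
      N2d_congr X ρ QQ _ _ fun q _ a _ x => hc2 _
    rw [i2]
    refine i1.trans ?_
    have i3 : 2 * T * N / X + 1 ≤ 2 := by
      have : 2 * T * N / X ≤ 1 := by
        rw [div_le_one hX0]
        exact hTN
      linarith
    rw [← hLd] at hc1
    have i4 : 0 ≤ ∑ k ∈ Icc 1 X, ‖c k‖ ^ 2 := Finset.sum_nonneg fun k _ => by positivity
    calc (2 * T * N / X + 1) * ∑ k ∈ Icc 1 X, ‖c k‖ ^ 2 ≤ 2 * ∑ k ∈ Icc 1 X, ‖c k‖ ^ 2 :=
          mul_le_mul_of_nonneg_right i3 i4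
      _ ≤ 2 * (X * L ^ 3) := by linarith
  have nWm : N2d X ρ QQ Wm ≤ 2 * (X * L ^ 3) := by
    rw [hWm]
    exact hW (-1) (by norm_num)
  have nWp : N2d X ρ QQ Wp ≤ 2 * (X * L ^ 3) := by
    rw [hWp]
    exact hW 1 (by norm_num)
  have hRX : R ≤ X := by
    rw [hR]
    refine div_le_self hX0.le (one_le_pow₀ (by linarith))
  have hXL3 : (X : ℝ) ≤ X * L ^ 3 := by
    have : 1 ≤ L ^ 3 := one_le_pow₀ hL1
    nlinarith
  have nV : N2d X ρ QQ V ≤ 100 * (X * L ^ 3) := by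
    have i1 : N2d X ρ QQ V = N2d X ρ QQ (fun q a x => Wm q a x - Em q a x) := by
      refine N2d_congr X ρ QQ _ _ fun q _ a _ x => ?_
      rw [hEm]
      ring
    have i2 := N2d_sub X ρ QQ hρ0 Wm Em cWm cEm
    rw [i1]
    linarith
  -- the bilinear form
  have hBd : ∀ q ∈ QQ, dsc (FFL wP gP 1 wP gP (-1) w X n) X q (ρ q) - dV X Y n q (ρ q) =
      Bd X (ρ q) n q (Ep q) (V q) + Bd X (ρ q) n q (Em q) (Wp q) := by
    intro q hq
    haveI : NeZero q := ⟨by have := hQ1 q hq; omega⟩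
    have e0 : dsc (FFL wP gP 1 wP gP (-1) w X n) X q (ρ q) = Bd X (ρ q) n q (Wp q) (Wm q) := by
      rw [hWm, hWp]
      rfl
    have e1 : Bd X (ρ q) n q (Wm q) (Wp q) = Bd X (ρ q) n q (V q) (Wp q) +
        Bd X (ρ q) n q (Em q) (Wp q) := by
      rw [← Bd_add_left X (ρ q) n q (V q) (Em q) (Wp q) (cV q) (cEm q) (cWp q)]
      congr 1
      funext a x
      rw [hEm]
      ring
    have e2 : Bd X (ρ q) n q (V q) (Wp q) = Bd X (ρ q) n q (V q) (V q) +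
        (Bd X (ρ q) n q (Pp q) (V q) + Bd X (ρ q) n q (Ep q) (V q)) := by
      rw [← Bd_add_left X (ρ q) n q (Pp q) (Ep q) (V q) (cPp q) (cEp q) (cV q)]
      rw [
        ← Bd_add_left X (ρ q) n q (V q) (fun a x => Pp q a x + Ep q a x) (V q) (cV q)
          (fun a => (cPp q a).add (cEp q a)) (cV q),
        Bd_comm X (ρ q) n q (V q) (Wp q)]
      congr 1
      funext a x
      rw [hEp]
      ring
    have e3 : Bd X (ρ q) n q (Pp q) (V q) = 0 := by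
      rw [Bd_comm, hV, hPp]
      refine ea_zero X (ρ q) n q Y (fun ψ hψ hd => ?_) (fun x => 2 * Mn (FX w X) q x) ?_
      · refine ea_fac q n (hQ1 q hq) ψ (hYm ψ hψ).1 hd ((Real.log X) ^ K1)
          (hq_le q n (hQ1 q hq) _ (hq1 q hq).2) (lt_of_le_of_lt ?_ (hYm ψ hψ).2)
        exact pow_le_pow_right₀ (by linarith) hKK.le
      · have i1 := Mn_cont _ (FX_cont w X) q
        fun_prop
    have e4 : dV X Y n q (ρ q) = Bd X (ρ q) n q (V q) (V q) := by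
      unfold Bd dV
      refine Finset.sum_congr rfl fun a _ => ?_
      apply intervalIntegral.integral_congr
      intro x _
      rw [hV]
      show VP X Y q a x ^ 2 * _ = VP X Y q a x * VP X Y q a x * _
      rw [sq]
    rw [e0, Bd_comm X (ρ q) n q (Wp q) (Wm q), e1, e2, e3, e4]
    ring
  have t2 := Bd_cauchy X ρ QQ hρ0 n Ep V cEp cV
  have t3 := Bd_cauchy X ρ QQ hρ0 n Em Wp cEm cWp
  have hsum : ∑ q ∈ QQ, ‖dsc (FFL wP gP 1 wP gP (-1) w X n) X q (ρ q) - dV X Y n q (ρ q)‖ ≤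
      ∑ q ∈ QQ, ‖Bd X (ρ q) n q (Ep q) (V q)‖ + ∑ q ∈ QQ, ‖Bd X (ρ q) n q (Em q) (Wp q)‖ := by
    rw [← Finset.sum_add_distrib]
    refine Finset.sum_le_sum fun q hq => ?_
    rw [hBd q hq]
    exact norm_add_le _ _
  refine hsum.trans ?_
  have hS : Real.sqrt (R * (X * L ^ 3)) ≤ X / L ^ (A + 1) * (1 / L) ^ (1 / 2 : ℝ) := by
    have i1 : R * (X * L ^ 3) = (X / L ^ (A + 1)) ^ 2 * (1 / L) := by
      rw [hR, hB, ← hLd]
      have : L ^ (2 * A + 6) = (L ^ (A + 1)) ^ 2 * L * L ^ 3 := by ring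
      rw [this]
      field_simp
    rw [i1, Real.sqrt_mul (by positivity), Real.sqrt_sq (by positivity), Real.sqrt_eq_rpow]
  have hS2 : Real.sqrt (R * (X * L ^ 3)) ≤ X / L ^ (A + 1) := by
    refine hS.trans ?_
    have i1 : (1 / L) ^ (1 / 2 : ℝ) ≤ 1 := by
      apply Real.rpow_le_one (by positivity)
      · rw [div_le_one hL0]
        exact hL1
      · norm_num
    have i2 : 0 ≤ X / L ^ (A + 1) := by positivity
    nlinarith
  have hmul : ∀ c d u v : ℝ, 0 ≤ c → 0 ≤ d → u ≤ c * R → v ≤ d * (X * L ^ 3) →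
      Real.sqrt u * Real.sqrt v ≤ Real.sqrt (c * d) * (X / L ^ (A + 1)) := by
    intro c d u v hc hd hu hv
    have i1 : Real.sqrt u * Real.sqrt v ≤ Real.sqrt (c * R) * Real.sqrt (d * (X * L ^ 3)) :=
      mul_le_mul (Real.sqrt_le_sqrt hu) (Real.sqrt_le_sqrt hv) (Real.sqrt_nonneg _)
        (Real.sqrt_nonneg _)
    refine i1.trans ?_
    rw [← Real.sqrt_mul (mul_nonneg hc hR0), show c * R * (d * (X * L ^ 3)) =
      (c * d) * (R * (X * L ^ 3)) by ring, Real.sqrt_mul (mul_nonneg hc hd)]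
    exact mul_le_mul_of_nonneg_left hS2 (Real.sqrt_nonneg _)
  have u2 := hmul 10 100 (N2d X ρ QQ Ep) (N2d X ρ QQ V) (by norm_num) (by norm_num) nEp nV
  have u3 := hmul 1 2 (N2d X ρ QQ Em) (N2d X ρ QQ Wp) (by norm_num) (by norm_num)
    (by linarith) nWp
  have s2 : Real.sqrt (10 * 100) ≤ 60 := by
    rw [show (60 : ℝ) = Real.sqrt (60 ^ 2) by rw [Real.sqrt_sq (by norm_num)]]
    apply Real.sqrt_le_sqrt
    norm_num
  have s3 : Real.sqrt (1 * 2) ≤ 8 := by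
    rw [show (8 : ℝ) = Real.sqrt (8 ^ 2) by rw [Real.sqrt_sq (by norm_num)]]
    apply Real.sqrt_le_sqrt
    norm_num
  have hXA : 0 ≤ X / L ^ (A + 1) := by positivity
  have hfin : 100 * (X / L ^ (A + 1)) ≤ X / (Real.log X) ^ A := by
    rw [← hLd, pow_succ, le_div_iff₀ (by positivity)]
    have i1 : 100 * (X / (L ^ A * L)) * L ^ A = X * (100 / L) := by
      field_simp
    rw [i1]
    have i2 : 100 / L ≤ 1 := by
      rw [div_le_one hL0, hLd]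
      exact hL
    nlinarith
  have v2 := mul_le_mul_of_nonneg_right s2 hXA
  have v3 := mul_le_mul_of_nonneg_right s3 hXA
  linarith

end Pool.MP_dd84fd_nt.EF
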