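import Pool.Agent.Lib.MP_dd84fd_nt.EF.Defs

/-!
# EF-Av: averages (helper39)
-/

set_option autoImplicit false

namespace Pool.MP_dd84fd_nt.EF

open Finset Pool.MP_67663b_nt.Odd Pool.MP_dd84fd_nt.En Pool.MP_dd84fd_nt.E2 Pool.MP_dd84fd_nt.LS
open Pool.MP_dd84fd_nt.GX Pool.MP_dd84fd_nt.HX Pool.MP_dd84fd_nt.IX
open Pool.MP_dd84fd_nt.PL (rr)
open Pool.MP_dd84fd_nt.JX (wP gP DecJ Adm AdmP Str)
open Pool.MP_dd84fd_nt.LX (FFL DecW PhU)
open Pool.MP_dd84fd_nt.LXP (tq)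
open Pool.MP_dd84fd_nt.BX (PC pv IsPC PR SX sN prc ind Rm cf N2d DiscH)

private theorem av_int {Φ : ℝ → ℂ} (hc : Continuous Φ) (v : ℝ) :
    IntervalIntegrable (fun u : ℝ => Φ (v * u) * ((1 / u : ℝ) : ℂ)) MeasureTheory.volume 1 2 := by
  apply ContinuousOn.intervalIntegrable
  have h1 : ContinuousOn (fun u : ℝ => Φ (v * u)) (Set.uIcc 1 2) :=
    (hc.comp (continuous_const.mul continuous_id)).continuousOn
  refine h1.mul ?_
  refine Complex.continuous_ofReal.comp_continuousOn ?_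
  refine ContinuousOn.div continuousOn_const continuousOn_id ?_
  intro u hu
  rw [Set.uIcc_of_le (by norm_num : (1 : ℝ) ≤ 2)] at hu
  have := hu.1
  intro h
  have h' : u = 0 := h
  linarith

private theorem av_norm_aux (g : ℝ → ℂ) (C : ℝ)
    (h : ∀ u : ℝ, 1 ≤ u → u ≤ 2 → ‖g u‖ ≤ C) :
    ‖((1 / Real.log 2 : ℝ) : ℂ) * ∫ u in (1 : ℝ)..2, g u * ((1 / u : ℝ) : ℂ)‖ ≤ C := by
  have hl : 0 < Real.log 2 := Real.log_pos (by norm_num)
  have hC : 0 ≤ C := (norm_nonneg _).trans (h 1 le_rfl (by norm_num))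
  have h1 : ‖∫ u in (1 : ℝ)..2, g u * ((1 / u : ℝ) : ℂ)‖ ≤ ∫ u in (1 : ℝ)..2, C * (1 / u) := by
    apply intervalIntegral.norm_integral_le_of_norm_le (by norm_num)
    · refine Filter.Eventually.of_forall fun u hu => ?_
      have hu0 : 0 < u := lt_trans (by norm_num) hu.1
      rw [norm_mul, Complex.norm_real, Real.norm_eq_abs, abs_of_pos (by positivity)]
      exact mul_le_mul_of_nonneg_right (h u hu.1.le hu.2) (by positivity)
    · apply ContinuousOn.intervalIntegrable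
      refine continuousOn_const.mul (ContinuousOn.div continuousOn_const continuousOn_id ?_)
      intro u hu
      rw [Set.uIcc_of_le (by norm_num : (1 : ℝ) ≤ 2)] at hu
      have := hu.1
      intro h
      have h' : u = 0 := h
      linarith
  have h2 : ∫ u in (1 : ℝ)..2, C * (1 / u) = C * Real.log 2 := by
    rw [intervalIntegral.integral_const_mul, integral_one_div_of_pos (by norm_num) (by norm_num)]
    norm_num
  rw [h2] at h1
  rw [norm_mul, Complex.norm_real, Real.norm_eq_abs, abs_of_pos (by positivity)]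
  calc 1 / Real.log 2 * ‖∫ u in (1 : ℝ)..2, g u * ((1 / u : ℝ) : ℂ)‖
      ≤ 1 / Real.log 2 * (C * Real.log 2) := mul_le_mul_of_nonneg_left h1 (by positivity)
    _ = C := by field_simp

private theorem av_sum_eq {ι : Type} (S : Finset ι) (Φ : ι → ℝ → ℂ) (v : ι → ℝ)
    (hc : ∀ i ∈ S, Continuous (Φ i)) :
    ∑ i ∈ S, av (Φ i) (v i) = ((1 / Real.log 2 : ℝ) : ℂ) *
      ∫ u in (1 : ℝ)..2, (∑ i ∈ S, Φ i (v i * u)) * ((1 / u : ℝ) : ℂ) := by
  unfold av
  rw [← mul_sum, ← intervalIntegral.integral_finsetSum fun i hi => av_int (hc i hi) (v i)]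
  congr 1
  refine intervalIntegral.integral_congr fun u _ => ?_
  exact (sum_mul _ _ _).symm

/-- a sum of averages is bounded by the supremum over `u` of the sum -/
theorem sum_av_le {ι : Type} (S : Finset ι) (Φ : ι → ℝ → ℂ) (v : ι → ℝ)
    (hc : ∀ i ∈ S, Continuous (Φ i)) (C : ℝ)
    (h : ∀ u : ℝ, 1 ≤ u → u ≤ 2 → ‖∑ i ∈ S, Φ i (v i * u)‖ ≤ C) :
    ‖∑ i ∈ S, av (Φ i) (v i)‖ ≤ C := by
  rw [av_sum_eq S Φ v hc]
  exact av_norm_aux _ C h

private theorem av_cont_sum {ι : Type} (S : Finset ι) (Φ : ι → ℝ → ℂ) (v : ι → ℝ)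
    (hc : ∀ i ∈ S, Continuous (Φ i)) : Continuous fun u => ∑ i ∈ S, Φ i (v i * u) :=
  continuous_finsetSum _ fun i hi => (hc i hi).comp (continuous_const.mul continuous_id)

/-- the same for the difference of two sums -/
theorem sum_av_sub_le {ι κ : Type} (S : Finset ι) (S' : Finset κ) (Φ : ι → ℝ → ℂ) (Φ' : κ → ℝ → ℂ)
    (v : ι → ℝ) (v' : κ → ℝ) (hc : ∀ i ∈ S, Continuous (Φ i)) (hc' : ∀ i ∈ S', Continuous (Φ' i))
    (C : ℝ)
    (h : ∀ u : ℝ, 1 ≤ u → u ≤ 2 → ‖∑ i ∈ S, Φ i (v i * u) - ∑ i ∈ S', Φ' i (v' i * u)‖ ≤ C) :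
    ‖∑ i ∈ S, av (Φ i) (v i) - ∑ i ∈ S', av (Φ' i) (v' i)‖ ≤ C := by
  rw [av_sum_eq S Φ v hc, av_sum_eq S' Φ' v' hc', ← mul_sub, ← intervalIntegral.integral_sub]
  · have e1 : ∀ u : ℝ, (∑ i ∈ S, Φ i (v i * u)) * ((1 / u : ℝ) : ℂ) -
        (∑ i ∈ S', Φ' i (v' i * u)) * ((1 / u : ℝ) : ℂ) =
        (∑ i ∈ S, Φ i (v i * u) - ∑ i ∈ S', Φ' i (v' i * u)) * ((1 / u : ℝ) : ℂ) := by
      intro u
      ring
    simp only [e1]
    exact av_norm_aux _ C h
  · have := av_int (Φ := fun u => ∑ i ∈ S, Φ i (v i * u)) (av_cont_sum S Φ v hc) 1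
    simpa only [one_mul] using this
  · have := av_int (Φ := fun u => ∑ i ∈ S', Φ' i (v' i * u)) (av_cont_sum S' Φ' v' hc') 1
    simpa only [one_mul] using this

theorem av_const_mul (Φ : ℝ → ℂ) (c : ℂ) (v : ℝ) : av (fun s => c * Φ s) v = c * av Φ v := by
  unfold av
  have e1 : ∀ u : ℝ, c * Φ (v * u) * ((1 / u : ℝ) : ℂ) = c * (Φ (v * u) * ((1 / u : ℝ) : ℂ)) := by
    intro u
    ring
  simp only [e1]
  rw [intervalIntegral.integral_const_mul]
  ring

theorem av_finset_sum {ι : Type} (S : Finset ι) (Φ : ι → ℝ → ℂ) (v : ℝ)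
    (hc : ∀ i ∈ S, Continuous (Φ i)) : av (fun s => ∑ i ∈ S, Φ i s) v = ∑ i ∈ S, av (Φ i) v := by
  rw [av_sum_eq S Φ (fun _ => v) hc]
  rfl

theorem norm_av_le (Φ : ℝ → ℂ) (v C : ℝ) (h : ∀ u : ℝ, 1 ≤ u → u ≤ 2 → ‖Φ (v * u)‖ ≤ C) :
    ‖av Φ v‖ ≤ C :=
  av_norm_aux _ C h

theorem ee_cont : Continuous ee := by
  unfold ee
  fun_prop

theorem SX_cont (X : ℕ) (ψ : PC) : Continuous (SX X ψ) := by
  unfold SX
  exact continuous_finsetSum _ fun n _ =>
    continuous_const.mul (ee_cont.comp (continuous_const.mul continuous_id))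

theorem VP_cont (X : ℕ) (Y : Finset PC) (q a : ℕ) : Continuous (VP X Y q a) := by
  unfold VP
  by_cases h : q = 0
  · simp only [h, dite_true]
    exact continuous_const
  · simp only [h, dite_false]
    refine continuous_const.mul (continuous_finsetSum _ fun ψ _ => ?_)
    exact continuous_const.mul (SX_cont X ψ)

private theorem disc_cont (G : ℝ → ℂ) (hG : Continuous G) (X : ℕ) :
    Continuous fun v : ℝ => ∫ x in (-(v / X))..(v / X), G x := by
  have h0 : ∀ a b : ℝ, IntervalIntegrable G MeasureTheory.volume a b :=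
    fun a b => hG.intervalIntegrable a b
  have h1 : ∀ v : ℝ, ∫ x in (-(v / X))..(v / X), G x =
      (∫ x in (0 : ℝ)..(v / X), G x) - ∫ x in (0 : ℝ)..(-(v / X)), G x := by
    intro v
    rw [intervalIntegral.integral_interval_sub_left (h0 _ _) (h0 _ _)]
  simp only [h1]
  have h2 : Continuous fun b : ℝ => ∫ x in (0 : ℝ)..b, G x :=
    intervalIntegral.continuous_primitive h0 0
  have h3 : Continuous fun v : ℝ => v / (X : ℝ) := continuous_id.div_const _
  exact (h2.comp h3).sub (h2.comp h3.neg)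

theorem dV_cont (X : ℕ) (Y : Finset PC) (n q : ℕ) : Continuous (dV X Y n q) := by
  unfold dV
  refine continuous_finsetSum _ fun a _ => disc_cont _ ?_ X
  have h1 := VP_cont X Y q a
  have h2 : Continuous fun x : ℝ => ee (-((n : ℝ) * ((a : ℝ) / q + x))) :=
    ee_cont.comp (by fun_prop)
  exact (h1.pow 2).mul h2

theorem dsc_cont (F : ℝ → ℂ) (hF : Continuous F) (X q : ℕ) : Continuous (dsc F X q) := by
  unfold dsc
  refine continuous_finsetSum _ fun a _ => disc_cont _ ?_ X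
  exact hF.comp (by fun_prop)

theorem IS_cont (X n : ℕ) (ψ₁ ψ₂ : PC) : Continuous (IS X n ψ₁ ψ₂) := by
  unfold IS
  refine disc_cont _ ?_ X
  exact ((SX_cont X ψ₁).mul (SX_cont X ψ₂)).mul (ee_cont.comp (by fun_prop))

end Pool.MP_dd84fd_nt.EF
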