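import Pool.Agent.Lib.MP_dd84fd_nt.EF.Av
import Pool.Agent.Lib.MP_dd84fd_nt.BY.SqHv
import Pool.Agent.Lib.MP_dd84fd_nt.BX.Gau
import Pool.Agent.Lib.MP_dd84fd_nt.BX.As3
import Pool.Agent.Lib.MP_dd84fd_nt.DX.GdP

/-!
# EF-Cnt: the number of the characters (helper39)

`BY.sqY` with `w = wP X` (`sNf = sN`): `∑_{ψ ∈ Y} sN² ≤ C` for `#Y ≤ X^c`; a subset of `YE` with
`min (#YE) ⌊X^c⌋` elements gives `#YE ≤ C L^(2A')`.  Large sums: `DX.gd_p` (contraposition).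
-/

set_option autoImplicit false

namespace Pool.MP_dd84fd_nt.EF

open Finset Pool.MP_67663b_nt.Odd Pool.MP_dd84fd_nt.En Pool.MP_dd84fd_nt.E2 Pool.MP_dd84fd_nt.LS
open Pool.MP_dd84fd_nt.GX Pool.MP_dd84fd_nt.HX Pool.MP_dd84fd_nt.IX
open Pool.MP_dd84fd_nt.PL (rr)
open Pool.MP_dd84fd_nt.JX (wP gP DecJ Adm AdmP Str)
open Pool.MP_dd84fd_nt.LX (FFL DecW PhU)
open Pool.MP_dd84fd_nt.LXP (tq)
open Pool.MP_dd84fd_nt.BX (PC pv IsPC PR SX sN prc ind Rm cf N2d DiscH)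

theorem mem_YE {X : ℕ} {T Z R : ℝ} {A' : ℕ} (hR : 0 ≤ R) {ψ : PC} :
    ψ ∈ YE X T Z R A' ↔ IsPC ψ ∧ Z < (ψ.1 : ℝ) ∧ (ψ.1 : ℝ) ≤ R ∧
      1 / (Real.log X) ^ A' < sN X T ψ := by
  unfold YE
  rw [mem_filter, BX.mem_PR, Nat.le_floor_iff hR]
  tauto

/-- a primitive character induces itself -/
theorem prc_self (ψ : PC) (h : IsPC ψ) : prc ψ.2 = ψ := by
  have h1 : IsPC (prc ψ.2) := BX.isPC_prc h.1 ψ.2
  refine BX.ind_inj ψ.1 h.1 (prc ψ.2) ψ h1 h ψ.2.conductor_dvd_level dvd_rfl ?_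
  rw [BX.ind_prc]
  unfold BX.ind
  rw [dif_pos dvd_rfl, DirichletCharacter.changeLevel_self]

theorem badC_prim (B X : ℕ) (ψ : PC) (h : IsPC ψ)
    (hb : DX.BadC B X ψ.2.primitiveCharacter) : DX.BadC B X ψ.2 := by
  have h1 := prc_self ψ h
  have h2 : DX.BadC B X (prc ψ.2).2 := hb
  rw [h1] at h2
  exact h2

theorem sN_le (X : ℕ) (hX : 1 ≤ X) (T M : ℝ) (hT : 0 ≤ T) (ψ : PC)
    (h : ∀ x : ℝ, |x| ≤ T / X → ‖SX X ψ x‖ ≤ M) (hL : 0 ≤ Real.log X) :
    sN X T ψ ≤ Real.log X / Real.sqrt X * Real.sqrt (2 * (T / X) * M ^ 2) := by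
  unfold sN
  have hX0 : (0 : ℝ) < X := by exact_mod_cast hX
  have hTX : 0 ≤ T / X := by positivity
  refine mul_le_mul_of_nonneg_left (Real.sqrt_le_sqrt ?_) (by positivity)
  calc ∫ x in (-(T / X))..(T / X), ‖SX X ψ x‖ ^ 2
      ≤ ∫ _x in (-(T / X))..(T / X), M ^ 2 := by
        refine intervalIntegral.integral_mono_on (by linarith)
          (((SX_cont X ψ).norm.pow 2).intervalIntegrable _ _)
          (continuous_const.intervalIntegrable _ _) fun x hx => ?_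
        exact pow_le_pow_left₀ (norm_nonneg _) (h x (abs_le.2 ⟨hx.1, hx.2⟩)) 2
    _ = 2 * (T / X) * M ^ 2 := by
        rw [intervalIntegral.integral_const, smul_eq_mul]
        ring

private theorem wP_rg (X n : ℕ) (hX : 2 ≤ X) : |wP X n| ≤ ((1 : ℕ) : ℝ) * rg (zI X) n := by
  unfold wP
  by_cases h : n.Prime ∧ zI X ≤ n
  · rw [if_pos h]
    have h1 : Rgh (zI X) n := by
      refine ⟨h.1.ne_zero, fun p hp => ?_⟩
      rw [Nat.Prime.primeFactors h.1, mem_singleton] at hp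
      rw [hp]
      exact h.2
    unfold rg
    rw [if_pos h1]
    norm_num
  · rw [if_neg h]
    unfold rg
    split_ifs <;> norm_num

theorem cntF : CntF := by
  classical
  intro A' K2
  obtain ⟨C, c, hC, hc, hsq⟩ := BY.sqY (1 / 3) 1 (by norm_num)
  obtain ⟨X1, hX1⟩ := hsq (K2 + 1)
  obtain ⟨Bb, X2, hX2⟩ := DX.gd_p (A' + K2 + 3) (K2 + 1)
  obtain ⟨X3, hX3⟩ := MP_log_large (C + 8)
  obtain ⟨X4, hX4⟩ := MP_log_pow (C + 2) (2 * A' + 1) (ε := c) hc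
  refine ⟨max Bb (2 * A' + 1), fun th e hP => ⟨max (max X1 X2) (max X3 (max X4 2)),
    fun X hX Z hZ => ?_⟩⟩
  simp only [max_le_iff] at hX
  obtain ⟨⟨gX1, gX2⟩, gX3, gX4, gX5⟩ := hX
  have g1 := hX1 X gX1
  have g2 := hX2 X gX2
  have hL := hX3 X gX3
  have g4 := hX4 X gX4
  obtain ⟨hth, hth2, he0, he1, he2⟩ := hP
  have hX0 : (0 : ℝ) < X := by exact_mod_cast (by omega : 0 < X)
  have hX1r : (1 : ℝ) ≤ X := by exact_mod_cast (by omega : 1 ≤ X)
  set L : ℝ := Real.log X with hLd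
  have hL8 : 8 ≤ L := by linarith
  have hL0 : 0 < L := by linarith
  have hL1 : 1 ≤ L := by linarith
  set T : ℝ := 4 * L ^ K2 with hTd
  have hT1 : 1 ≤ T := by
    have : (1 : ℝ) ≤ L ^ K2 := one_le_pow₀ hL1
    rw [hTd]
    linarith
  have hT2 : T ≤ L ^ (K2 + 1) := by
    rw [hTd, pow_succ, mul_comm (L ^ K2)]
    exact mul_le_mul_of_nonneg_right (by linarith) (by positivity)
  have hR0 : 0 ≤ RE th e X := by unfold RE; positivity
  have hR1 : RE th e X ≤ (X : ℝ) ^ (1 - 1 / 3 : ℝ) := by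
    unfold RE
    exact Real.rpow_le_rpow_of_exponent_le hX1r (by linarith)
  have hRX : RE th e X ≤ X := by
    refine hR1.trans ?_
    calc (X : ℝ) ^ (1 - 1 / 3 : ℝ) ≤ (X : ℝ) ^ (1 : ℝ) :=
          Real.rpow_le_rpow_of_exponent_le hX1r (by norm_num)
      _ = X := Real.rpow_one _
  set Y := YE X T Z (RE th e X) A' with hY
  have hmem : ∀ ψ ∈ Y, IsPC ψ ∧ 2 ≤ ψ.1 ∧ (ψ.1 : ℝ) ≤ (X : ℝ) ^ (1 - 1 / 3 : ℝ) ∧
      1 / L ^ A' < sN X T ψ := by
    intro ψ hψ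
    obtain ⟨h1, h2, h3, h4⟩ := (mem_YE hR0).1 hψ
    refine ⟨h1, ?_, h3.trans hR1, h4⟩
    have : (1 : ℝ) < ψ.1 := by linarith
    exact_mod_cast this
  refine ⟨?_, ?_⟩
  · -- the number
    have hsub : ∀ S ⊆ Y, (S.card : ℝ) ≤ (X : ℝ) ^ c → (S.card : ℝ) ≤ C * L ^ (2 * A') := by
      intro S hS hSc
      have h1 := g1 T hT1 hT2 (wP X) (fun n => wP_rg X n gX5) S
        (fun ψ hψ => ⟨(hmem ψ (hS hψ)).1, (hmem ψ (hS hψ)).2.1, (hmem ψ (hS hψ)).2.2.1⟩) hSc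
      have h2 : ∀ ψ ∈ S, (1 / L ^ A') ^ 2 ≤ BY.sNf X T (wP X) ψ ^ 2 := by
        intro ψ hψ
        exact pow_le_pow_left₀ (by positivity) (hmem ψ (hS hψ)).2.2.2.le 2
      have h3 := card_nsmul_le_sum _ _ _ h2
      rw [nsmul_eq_mul] at h3
      have h4 : (S.card : ℝ) * (1 / L ^ A') ^ 2 ≤ C := h3.trans h1
      have h5 : (1 / L ^ A') ^ 2 = 1 / L ^ (2 * A') := by
        rw [_root_.div_pow, one_pow, ← pow_mul, mul_comm A' 2]
      rw [h5, mul_one_div, div_le_iff₀ (by positivity)] at h4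
      exact h4
    have hle : (Y.card : ℝ) ≤ C * L ^ (2 * A') := by
      by_contra hcon
      push Not at hcon
      have hnot : ¬ (Y.card : ℝ) ≤ (X : ℝ) ^ c := by
        intro h
        have := hsub Y subset_rfl h
        linarith
      push Not at hnot
      have hfl : ⌊(X : ℝ) ^ c⌋₊ ≤ Y.card := by
        have h1 : ((⌊(X : ℝ) ^ c⌋₊ : ℕ) : ℝ) ≤ (X : ℝ) ^ c := Nat.floor_le (by positivity)
        have h2 : ((⌊(X : ℝ) ^ c⌋₊ : ℕ) : ℝ) ≤ Y.card := by linarith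
        exact_mod_cast h2
      obtain ⟨S, hS1, hS2⟩ := exists_subset_card_eq hfl
      have h3 := hsub S hS1 (by rw [hS2]; exact Nat.floor_le (by positivity))
      rw [hS2] at h3
      have h4 : (X : ℝ) ^ c < ((⌊(X : ℝ) ^ c⌋₊ : ℕ) : ℝ) + 1 := Nat.lt_floor_add_one _
      have h5 : (C + 2) * L ^ (2 * A' + 1) ≤ (X : ℝ) ^ c := g4
      have h6 : L ^ (2 * A') ≤ L ^ (2 * A' + 1) := pow_le_pow_right₀ hL1 (by omega)
      have h7 : (1 : ℝ) ≤ L ^ (2 * A' + 1) := one_le_pow₀ hL1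
      nlinarith
    refine hle.trans ?_
    calc C * L ^ (2 * A') ≤ L * L ^ (2 * A') :=
          mul_le_mul_of_nonneg_right (by linarith) (by positivity)
      _ = L ^ (2 * A' + 1) := by ring
      _ ≤ L ^ (max Bb (2 * A' + 1)) := pow_le_pow_right₀ hL1 (le_max_right _ _)
  · -- large sums
    intro ψ hψ
    obtain ⟨h1, h2, h3, h4⟩ := (mem_YE hR0).1 hψ
    have hqX : ψ.1 ≤ X := by
      have : (ψ.1 : ℝ) ≤ X := h3.trans hRX
      exact_mod_cast this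
    by_contra hcon
    push Not at hcon
    have hnb : ¬ DX.BadC Bb X ψ.2.primitiveCharacter := by
      intro hb
      obtain ⟨y, hy1, hy2, hy3⟩ := badC_prim Bb X ψ h1 hb
      have h5 := hcon y hy1 hy2
      have h6 : (y : ℝ) / L ^ (max Bb (2 * A' + 1)) ≤ (y : ℝ) / L ^ Bb :=
        div_le_div_of_nonneg_left (Nat.cast_nonneg _) (by positivity)
          (pow_le_pow_right₀ hL1 (le_max_left _ _))
      exact absurd hy3 (not_lt.2 (h5.trans h6))
    have hne : ψ.2 ≠ 1 := by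
      intro h5
      have h6 := (hmem ψ hψ).2.1
      have h7 : ψ.2.conductor = 1 := by
        rw [h5]
        haveI : NeZero ψ.1 := ⟨by omega⟩
        exact DirichletCharacter.conductor_one
      have h8 : ψ.2.conductor = ψ.1 := h1.2
      omega
    have h5 : sN X T ψ ≤ L / Real.sqrt X * Real.sqrt (2 * (T / X) * (X / L ^ (A' + K2 + 3)) ^ 2) := by
      refine sN_le X (by omega) T _ (by linarith) ψ (fun x hx => ?_) hL0.le
      refine g2 ψ.1 h1.1 hqX ψ.2 hne hnb x (hx.trans ?_)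
      exact div_le_div_of_nonneg_right hT2 hX0.le
    have e1 : 2 * (T / X) * (X / L ^ (A' + K2 + 3)) ^ 2 =
        X * (8 * L ^ K2 / (L ^ (A' + K2 + 3)) ^ 2) := by
      rw [hTd]
      field_simp
      ring
    have e2 : Real.sqrt (2 * (T / X) * (X / L ^ (A' + K2 + 3)) ^ 2) ≤
        Real.sqrt X * (1 / L ^ (A' + 2)) := by
      rw [e1, Real.sqrt_mul hX0.le]
      refine mul_le_mul_of_nonneg_left ?_ (Real.sqrt_nonneg _)
      rw [Real.sqrt_le_left (by positivity), _root_.div_pow, one_pow,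
        div_le_div_iff₀ (by positivity) (by positivity), one_mul]
      have e3 : (L ^ (A' + K2 + 3)) ^ 2 = L ^ (2 * K2) * L ^ 2 * (L ^ (A' + 2)) ^ 2 := by ring
      rw [e3]
      refine mul_le_mul_of_nonneg_right ?_ (by positivity)
      have e4 : L ^ K2 ≤ L ^ (2 * K2) := pow_le_pow_right₀ hL1 (by omega)
      have e5 : 8 ≤ L ^ 2 := by nlinarith
      calc 8 * L ^ K2 ≤ L ^ 2 * L ^ (2 * K2) := mul_le_mul e5 e4 (by positivity) (by positivity)
        _ = L ^ (2 * K2) * L ^ 2 := by ring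
    have hsq : 0 < Real.sqrt X := Real.sqrt_pos.2 hX0
    have e6 : sN X T ψ ≤ 1 / L ^ (A' + 1) := by
      refine h5.trans ?_
      calc L / Real.sqrt X * Real.sqrt (2 * (T / X) * (X / L ^ (A' + K2 + 3)) ^ 2)
          ≤ L / Real.sqrt X * (Real.sqrt X * (1 / L ^ (A' + 2))) :=
            mul_le_mul_of_nonneg_left e2 (by positivity)
        _ = 1 / L ^ (A' + 1) := by
            rw [pow_succ L (A' + 1)]
            field_simp
    have e7 : 1 / L ^ (A' + 1) ≤ 1 / L ^ A' :=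
      one_div_le_one_div_of_le (by positivity) (pow_le_pow_right₀ hL1 (by omega))
    linarith

end Pool.MP_dd84fd_nt.EF
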