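import Pool.Agent.Lib.MP_dd84fd_nt.EF.Defs

/-!
# Project EF: the explicit formula, uniform in the error (helper39)

`δ ∈ [(log X)^(-A), 1]`: at most `C δ^(-18)` characters, error `δ (n/φ(n)) X/(log X)²`.  `δ` constant:
boundedly many characters; `δ = (log X)^(-A)`: error with a power of the logarithm.
-/

set_option autoImplicit false

namespace Pool.MP_dd84fd_nt.EF

open Finset Pool.MP_67663b_nt.Odd Pool.MP_dd84fd_nt.En Pool.MP_dd84fd_nt.E2 Pool.MP_dd84fd_nt.LS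
open Pool.MP_dd84fd_nt.GX Pool.MP_dd84fd_nt.HX Pool.MP_dd84fd_nt.IX
open Pool.MP_dd84fd_nt.PL (rr)
open Pool.MP_dd84fd_nt.JX (wP gP DecJ Adm AdmP Str)
open Pool.MP_dd84fd_nt.LX (FFL DecW PhU)
open Pool.MP_dd84fd_nt.LXP (tq)
open Pool.MP_dd84fd_nt.BX (PC pv IsPC PR SX sN prc Rm cf N2d DiscH)

open Classical in
/-- the characters of `Y` with norm at least `κ` -/
noncomputable def YH (X : ℕ) (T κ : ℝ) (Y : Finset PC) : Finset PC :=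
  Y.filter (fun ψ => κ ≤ sN X T ψ)

/-- (PRUNE) the characters with norm `< δ^9` contribute `≤ C δ (n/φ(n)) X/L²` -/
def PruneF : Prop := ∀ ν : ℝ, 0 < ν → ν ≤ 1 / 20 → ∃ C : ℝ, 0 < C ∧ ∀ A' B : ℕ, ∃ X0 : ℕ,
  ∀ X : ℕ, X0 ≤ X → ∀ T : ℝ, 1 ≤ T → T ≤ (Real.log X) ^ B → ∀ Y : Finset PC,
    (∀ ψ ∈ Y, IsPC ψ ∧ 2 ≤ ψ.1 ∧ 1 / (Real.log X) ^ A' < sN X T ψ) → ∀ δ : ℝ, 0 < δ → δ ≤ 1 →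
    ∀ n : ℕ, 1 ≤ n → ∀ (QQ : Finset ℕ) (N : ℝ) (ρ : ℕ → ℝ), (∀ q ∈ QQ, 1 ≤ q) →
    (∀ q ∈ QQ, ∀ q' ∈ QQ, (Nat.lcm q q' : ℝ) ≤ N) → N ≤ (X : ℝ) ^ (2 / 3 - ν) →
    (∀ q ∈ QQ, 0 ≤ ρ q ∧ ρ q ≤ T) →
    ∑ q ∈ QQ, ‖dV X Y n q (ρ q) - dV X (YH X T (δ ^ 9) Y) n q (ρ q)‖ ≤
      C * δ * ((n : ℝ) / (Nat.totient n : ℝ)) * (X / (Real.log X) ^ 2)

/-- (CNT) the number of characters, uniform; large sums over primes -/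
def CntG : Prop := ∃ C : ℝ, 0 < C ∧ ∀ A' K2 : ℕ, ∃ M : ℕ, ∀ th e : ℝ, AdmP th e → ∃ X0 : ℕ,
  ∀ X : ℕ, X0 ≤ X → ∀ Z : ℝ, 1 ≤ Z →
    (∀ κ : ℝ, 0 < κ → ((YH X (4 * (Real.log X) ^ K2) κ
        (YE X (4 * (Real.log X) ^ K2) Z (RE th e X) A')).card : ℝ) ≤ C / κ ^ 2) ∧
    ((YE X (4 * (Real.log X) ^ K2) Z (RE th e X) A').card : ℝ) ≤ (Real.log X) ^ M ∧
    ∀ ψ ∈ YE X (4 * (Real.log X) ^ K2) Z (RE th e X) A', ∃ y : ℕ,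
      (X : ℝ) ^ (1 / 11 : ℝ) ≤ y ∧ y ≤ X ∧
      (y : ℝ) / (Real.log X) ^ M < ‖∑ p ∈ (Icc 1 y).filter Nat.Prime, ψ.2 (p : ZMod ψ.1)‖

/-- the explicit formula at one scale, uniform in `δ` -/
def ScaleG : Prop := ∀ th e : ℝ, AdmP th e → ∃ C : ℝ, 0 < C ∧ ∀ A : ℕ, ∃ B M : ℕ, ∀ K : ℕ,
  ∃ X0 : ℕ, ∀ X : ℕ, X0 ≤ X → ∀ δ : ℝ, 1 / (Real.log X) ^ A ≤ δ → δ ≤ 1 →
  ∃ (Y : Finset PC) (Ex : Finset ℕ), (Y.card : ℝ) ≤ C / δ ^ 18 ∧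
    (∀ ψ ∈ Y, IsPC ψ ∧ (Real.log X) ^ K ≤ (ψ.1 : ℝ) ∧ (ψ.1 : ℝ) ≤ RE th e X ∧ ∃ y : ℕ,
      (X : ℝ) ^ (1 / 11 : ℝ) ≤ y ∧ y ≤ X ∧
      (y : ℝ) / (Real.log X) ^ M < ‖∑ p ∈ (Icc 1 y).filter Nat.Prime, ψ.2 (p : ZMod ψ.1)‖) ∧
    (Ex.card : ℝ) ≤ (X : ℝ) ^ (th - e / 4) ∧
    ∀ n : ℕ, X < 2 * n → n ≤ X → Even n → n ∉ Ex →
      ‖(((g n : ℝ) - SS n * JJ n : ℝ) : ℂ) -
        ∑ ψ₁ ∈ Y, ∑ ψ₂ ∈ Y, SP n ψ₁ ψ₂ * II X n ((Real.log X) ^ B) ψ₁ ψ₂‖ ≤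
        δ * ((n : ℝ) / (Nat.totient n : ℝ)) * (X / (Real.log X) ^ 2)

end Pool.MP_dd84fd_nt.EF
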