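import Pool.Agent.Lib.MP_dd84fd_nt.EF.Cnt
import Pool.Agent.Lib.MP_dd84fd_nt.EF.DefsG

/-!
# EF-CntG: the number of the characters, uniform in the norm (helper39)
-/

set_option autoImplicit false

namespace Pool.MP_dd84fd_nt.EF

open Finset Pool.MP_67663b_nt.Odd Pool.MP_dd84fd_nt.En Pool.MP_dd84fd_nt.E2 Pool.MP_dd84fd_nt.LS
open Pool.MP_dd84fd_nt.GX Pool.MP_dd84fd_nt.HX Pool.MP_dd84fd_nt.IX
open Pool.MP_dd84fd_nt.PL (rr)
open Pool.MP_dd84fd_nt.JX (wP gP DecJ Adm AdmP Str)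
open Pool.MP_dd84fd_nt.LX (FFL DecW PhU)
open Pool.MP_dd84fd_nt.LXP (tq)
open Pool.MP_dd84fd_nt.BX (PC pv IsPC PR SX sN prc Rm cf N2d DiscH)

private theorem wP_rg (X n : ℕ) : |wP X n| ≤ ((1 : ℕ) : ℝ) * rg (zI X) n := by
  unfold wP
  by_cases h : n.Prime ∧ zI X ≤ n
  · rw [if_pos h]
    have h1 : Rgh (zI X) n := by
      refine ⟨h.1.ne_zero, fun p hp => ?_⟩
      rw [Nat.Prime.primeFactors h.1, mem_singleton] at hp
      rw [hp]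
      exact h.2
    unfold rg
    rw [if_pos h1]
    norm_num
  · rw [if_neg h]
    unfold rg
    split_ifs <;> norm_num

theorem cntG : CntG := by
  classical
  obtain ⟨C, c, hC, hc, hsq⟩ := BY.sqY (1 / 3) 1 (by norm_num)
  refine ⟨C, hC, fun A' K2 => ?_⟩
  obtain ⟨M, hM⟩ := cntF A' K2
  obtain ⟨X1, hX1⟩ := hsq (K2 + 1)
  obtain ⟨X3, hX3⟩ := MP_log_large (C + 8)
  obtain ⟨X4, hX4⟩ := MP_log_pow (C + 2) (2 * A' + 1) (ε := c) hc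
  refine ⟨M, fun th e hP => ?_⟩
  obtain ⟨X2, hX2⟩ := hM th e hP
  refine ⟨max (max X1 X2) (max X3 (max X4 2)), fun X hX Z hZ => ?_⟩
  simp only [max_le_iff] at hX
  obtain ⟨⟨gX1, gX2⟩, gX3, gX4, gX5⟩ := hX
  have g1 := hX1 X gX1
  have g2 := hX2 X gX2 Z hZ
  have hL := hX3 X gX3
  have g4 := hX4 X gX4
  obtain ⟨hth, hth2, he0, he1, he2⟩ := hP
  have hX0 : (0 : ℝ) < X := by exact_mod_cast (by omega : 0 < X)
  have hX1r : (1 : ℝ) ≤ X := by exact_mod_cast (by omega : 1 ≤ X)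
  set L : ℝ := Real.log X with hLd
  have hL8 : 8 ≤ L := by linarith
  have hL0 : 0 < L := by linarith
  have hL1 : 1 ≤ L := by linarith
  set T : ℝ := 4 * L ^ K2 with hTd
  have hT1 : 1 ≤ T := by
    have : (1 : ℝ) ≤ L ^ K2 := one_le_pow₀ hL1
    rw [hTd]
    linarith
  have hT2 : T ≤ L ^ (K2 + 1) := by
    rw [hTd, pow_succ, mul_comm (L ^ K2)]
    exact mul_le_mul_of_nonneg_right (by linarith) (by positivity)
  have hR0 : 0 ≤ RE th e X := by unfold RE; positivity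
  have hR1 : RE th e X ≤ (X : ℝ) ^ (1 - 1 / 3 : ℝ) := by
    unfold RE
    exact Real.rpow_le_rpow_of_exponent_le hX1r (by linarith)
  set Y := YE X T Z (RE th e X) A' with hY
  have hmem : ∀ ψ ∈ Y, IsPC ψ ∧ 2 ≤ ψ.1 ∧ (ψ.1 : ℝ) ≤ (X : ℝ) ^ (1 - 1 / 3 : ℝ) ∧
      1 / L ^ A' < sN X T ψ := by
    intro ψ hψ
    obtain ⟨h1, h2, h3, h4⟩ := (mem_YE hR0).1 hψ
    refine ⟨h1, ?_, h3.trans hR1, h4⟩
    have : (1 : ℝ) < ψ.1 := by linarith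
    exact_mod_cast this
  have hsq' : ∀ S ⊆ Y, (S.card : ℝ) ≤ (X : ℝ) ^ c → ∀ κ : ℝ, 0 < κ → (∀ ψ ∈ S, κ ≤ sN X T ψ) →
      (S.card : ℝ) * κ ^ 2 ≤ C := by
    intro S hS hSc κ hκ hκS
    have h1 := g1 T hT1 hT2 (wP X) (fun n => wP_rg X n) S
      (fun ψ hψ => ⟨(hmem ψ (hS hψ)).1, (hmem ψ (hS hψ)).2.1, (hmem ψ (hS hψ)).2.2.1⟩) hSc
    have h2 : ∀ ψ ∈ S, κ ^ 2 ≤ BY.sNf X T (wP X) ψ ^ 2 := by
      intro ψ hψ
      exact pow_le_pow_left₀ hκ.le (hκS ψ hψ) 2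
    have h3 := card_nsmul_le_sum _ _ _ h2
    rw [nsmul_eq_mul] at h3
    exact h3.trans h1
  have hsub : ∀ S ⊆ Y, (S.card : ℝ) ≤ (X : ℝ) ^ c → (S.card : ℝ) ≤ C * L ^ (2 * A') := by
    intro S hS hSc
    have h4 := hsq' S hS hSc (1 / L ^ A') (by positivity) fun ψ hψ => (hmem ψ (hS hψ)).2.2.2.le
    have h5 : (1 / L ^ A') ^ 2 = 1 / L ^ (2 * A') := by
      rw [_root_.div_pow, one_pow, ← pow_mul, mul_comm A' 2]
    rw [h5, mul_one_div, div_le_iff₀ (by positivity)] at h4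
    exact h4
  have hYc : (Y.card : ℝ) ≤ (X : ℝ) ^ c := by
    by_contra hnot
    push Not at hnot
    have hfl : ⌊(X : ℝ) ^ c⌋₊ ≤ Y.card := by
      have h1 : ((⌊(X : ℝ) ^ c⌋₊ : ℕ) : ℝ) ≤ (X : ℝ) ^ c := Nat.floor_le (by positivity)
      have h2 : ((⌊(X : ℝ) ^ c⌋₊ : ℕ) : ℝ) ≤ Y.card := by linarith
      exact_mod_cast h2
    obtain ⟨S, hS1, hS2⟩ := exists_subset_card_eq hfl
    have h3 := hsub S hS1 (by rw [hS2]; exact Nat.floor_le (by positivity))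
    rw [hS2] at h3
    have h4 : (X : ℝ) ^ c < ((⌊(X : ℝ) ^ c⌋₊ : ℕ) : ℝ) + 1 := Nat.lt_floor_add_one _
    have h5 : (C + 2) * L ^ (2 * A' + 1) ≤ (X : ℝ) ^ c := g4
    have h6 : L ^ (2 * A') ≤ L ^ (2 * A' + 1) := pow_le_pow_right₀ hL1 (by omega)
    have h7 : (1 : ℝ) ≤ L ^ (2 * A' + 1) := one_le_pow₀ hL1
    nlinarith
  refine ⟨fun κ hκ => ?_, g2.1, g2.2⟩
  have hs : YH X T κ Y ⊆ Y := by
    unfold YH
    exact filter_subset _ _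
  have hcard : ((YH X T κ Y).card : ℝ) ≤ (X : ℝ) ^ c :=
    le_trans (by exact_mod_cast card_le_card hs) hYc
  rw [le_div_iff₀ (by positivity)]
  refine hsq' _ hs hcard κ hκ fun ψ hψ => ?_
  unfold YH at hψ
  exact (mem_filter.1 hψ).2

end Pool.MP_dd84fd_nt.EF
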