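import Pool.Agent.Lib.MP_dd84fd_nt.EF.CorA

/-!
# EF-Cor: the asymptotic formula outside the multiples of few moduli (helper44)

From the explicit formula (`fin_r`): the set `D` of at most `C δ^(-C)` integers `d`,
`(log X)^K ≤ d ≤ X^(1-θ)`, each of them the modulus of a `ψ ∈ Y` divided by an integer `≤ N δ^(-C)`:
all even `X/2 < n ≤ X` divisible by no `d ∈ D`, but at most `X^(θ+ε)`, satisfy
`|g(n) - S(n) J(n)| ≤ δ S(n) J(n)`; for `δ ≥ ν` at most one `d ∈ D` is `< X^(1/N)`.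
-/

set_option autoImplicit false

namespace Pool.MP_dd84fd_nt.EF

open Finset Pool.MP_67663b_nt.Odd Pool.MP_dd84fd_nt.En Pool.MP_dd84fd_nt.E2 Pool.MP_dd84fd_nt.LS
open Pool.MP_dd84fd_nt.GX Pool.MP_dd84fd_nt.HX Pool.MP_dd84fd_nt.IX
open Pool.MP_dd84fd_nt.BX (PC pv IsPC PR SX sN prc ind Rm cf GauBD h0 cP)

open Classical in
/-- the moduli and the exceptional set -/
def CoD (θ ε : ℝ) (C N K X : ℕ) (δ : ℝ) (Y : Finset PC) (D : Finset ℕ) : Prop :=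
  (D.card : ℝ) ≤ C / δ ^ C ∧
  (∀ d ∈ D, Real.log X ^ K ≤ (d : ℝ) ∧ (d : ℝ) ≤ (X : ℝ) ^ (1 - θ) ∧
    ∃ ψ ∈ Y, ∃ h : ℕ, d * h = ψ.1 ∧ (h : ℝ) ≤ N / δ ^ C) ∧
  (((Icc 1 X).filter (fun n : ℕ => X < 2 * n ∧ Even n ∧ (∀ d ∈ D, ¬ d ∣ n) ∧
    δ * (SS n * JJ n) < |(g n : ℝ) - SS n * JJ n|)).card : ℝ) ≤ (X : ℝ) ^ (θ + ε)

/-- weaker constants in `FnC` -/
theorem fnc_mono (θ ε : ℝ) (C C' B M K K' X : ℕ) (δ : ℝ) (Y : Finset PC) (hC : C * 2 ^ 18 ≤ C')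
    (hK : K ≤ K') (hX : 1 ≤ X) (hL : 1 ≤ Real.log X) (hδ : 0 < δ) (hε : 0 < ε)
    (hSJ : ∀ n : ℕ, X < 2 * n → n ≤ X → Even n → 0 ≤ SS n * JJ n)
    (hF : FnC θ (ε / 2) C B M K' X (δ / 2) Y) : FnC θ ε C' B M K X δ Y := by
  classical
  obtain ⟨f1, f2, f3, f4⟩ := hF
  have hXR : (1 : ℝ) ≤ X := by exact_mod_cast hX
  have hCR : (C : ℝ) * 2 ^ 18 ≤ C' := by exact_mod_cast hC
  have hC0 : (0 : ℝ) ≤ C := Nat.cast_nonneg _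
  have hCC : (C : ℝ) ≤ C' := by linarith
  refine ⟨?_, fun ψ hψ => ?_, fun ψ₁ h₁ ψ₂ h₂ n hn => ?_, ?_⟩
  · refine f1.trans ?_
    have e1 : (C : ℝ) / (δ / 2) ^ 18 = C * 2 ^ 18 / δ ^ 18 := by
      rw [_root_.div_pow]
      field_simp
    rw [e1]
    exact div_le_div_of_nonneg_right hCR (by positivity)
  · obtain ⟨q1, q2, q3, q4⟩ := f2 ψ hψ
    exact ⟨q1, (pow_le_pow_right₀ hL hK).trans q2, q3, q4⟩
  · obtain ⟨s1, s2, s3⟩ := f3 ψ₁ h₁ ψ₂ h₂ n hn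
    have e2 : 0 ≤ (n : ℝ) / (Nat.totient n : ℝ) := by positivity
    have e3 : 0 ≤ ((Nat.lcm ψ₁.1 ψ₂.1 / Nat.gcd (Nat.lcm ψ₁.1 ψ₂.1) n : ℕ) : ℝ) ^
      (-(1 / 4 : ℝ)) := by positivity
    exact ⟨s1, s2.trans (mul_le_mul_of_nonneg_right (mul_le_mul_of_nonneg_right hCC e2) e3),
      s3.trans (mul_le_mul_of_nonneg_right hCC (by positivity))⟩
  · have h1 : (Icc 1 X).filter (fun n : ℕ => X < 2 * n ∧ Even n ∧ δ * (SS n * JJ n) <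
        ‖(((g n : ℝ) - SS n * JJ n : ℝ) : ℂ) - secE X n (Real.log X ^ B) Y‖) ⊆
        (Icc 1 X).filter (fun n : ℕ => X < 2 * n ∧ Even n ∧ δ / 2 * (SS n * JJ n) <
        ‖(((g n : ℝ) - SS n * JJ n : ℝ) : ℂ) - secE X n (Real.log X ^ B) Y‖) := by
      intro n hn
      rw [mem_filter] at hn ⊢
      obtain ⟨a1, a2, a3, a4⟩ := hn
      refine ⟨a1, a2, a3, lt_of_le_of_lt ?_ a4⟩
      have a5 := hSJ n a2 (mem_Icc.1 a1).2 a3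
      have a6 : 0 ≤ δ * (SS n * JJ n) := mul_nonneg hδ.le a5
      linarith
    calc _ ≤ (((Icc 1 X).filter (fun n : ℕ => X < 2 * n ∧ Even n ∧ δ / 2 * (SS n * JJ n) <
        ‖(((g n : ℝ) - SS n * JJ n : ℝ) : ℂ) - secE X n (Real.log X ^ B) Y‖)).card : ℝ) := by
          exact_mod_cast card_le_card h1
      _ ≤ (X : ℝ) ^ (θ + ε / 2) := f4
      _ ≤ _ := Real.rpow_le_rpow_of_exponent_le hXR (by linarith)

/-- from the explicit formula for one `X` to the set `D` -/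
theorem cor_core (θ ε : ℝ) (hε : 0 < ε) (C : ℕ) : ∃ C' : ℕ, ∀ ν : ℝ, 0 < ν →
    ∀ N : ℕ, 1 ≤ N → ∃ N' : ℕ, 2 * N ≤ N' ∧ ∀ A K : ℕ, ∃ X0 : ℕ, ∀ X : ℕ, X0 ≤ X →
      ∀ δ : ℝ, 1 / Real.log X ^ A ≤ δ → δ ≤ 1 → 1 / Real.log X ^ (A + 1) ≤ δ / 2 ∧
      ∀ (B M : ℕ) (Y : Finset PC) (sm : Prop), FnC θ (ε / 2) C B M (K + (148 * A + 1)) X (δ / 2) Y →
        (sm → ν ≤ δ ∧ ∀ ψ ∈ Y, (ψ.1 : ℝ) ≤ (X : ℝ) ^ (1 / (N : ℝ)) →
          ∀ ψ' ∈ Y, (ψ'.1 : ℝ) ≤ (X : ℝ) ^ (1 / (N : ℝ)) → ψ' = ψ) →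
        FnC θ ε C' B M K X δ Y ∧ ∃ D : Finset ℕ, CoD θ ε C' N' K X δ Y D ∧
          (sm → (D.filter (fun d : ℕ => (d : ℝ) < (X : ℝ) ^ (1 / (N' : ℝ)))).card ≤ 1) := by
  classical
  have hC2 := C2_pos
  obtain ⟨c, hc⟩ : ∃ c : ℕ, 1 + (C : ℝ) ^ 4 * 2 ^ 41 / C2 ≤ c := exists_nat_ge _
  have hcq : 0 ≤ (C : ℝ) ^ 4 * 2 ^ 41 / C2 := by positivity
  have hc1 : (1 : ℝ) ≤ c := by linarith
  have hc2 : (C : ℝ) ^ 4 * 2 ^ 41 / C2 ≤ c := by linarith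
  refine ⟨C * 2 ^ 19 * c ^ 4 + C * 2 ^ 18 + 167, fun ν hν N hN => ?_⟩
  obtain ⟨C', hC'⟩ : ∃ C' : ℕ, C' = C * 2 ^ 19 * c ^ 4 + C * 2 ^ 18 + 167 := ⟨_, rfl⟩
  rw [← hC']
  have hC'1 : C * 2 ^ 18 ≤ C' := by omega
  have hC'2 : 166 ≤ C' := by omega
  have hC'3 : (C : ℝ) * 2 ^ 19 * c ^ 4 + 1 ≤ C' := by
    have e1 : C * 2 ^ 19 * c ^ 4 + 1 ≤ C' := by omega
    exact_mod_cast e1
  obtain ⟨Hn, hHn⟩ : ∃ h : ℕ, 2 * (c : ℝ) ^ 4 / ν ^ 148 ≤ h := exists_nat_ge _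
  refine ⟨2 * N + 2 * c ^ 4 + Hn.factorial, by omega, fun A K => ?_⟩
  obtain ⟨N', hN'⟩ : ∃ N' : ℕ, N' = 2 * N + 2 * c ^ 4 + Hn.factorial := ⟨_, rfl⟩
  rw [← hN']
  have hN'1 : 2 * N ≤ N' := by omega
  have hN'2 : 2 * (c : ℝ) ^ 4 ≤ N' := by
    have e1 : 2 * c ^ 4 ≤ N' := by omega
    exact_mod_cast e1
  have hN'3 : (Hn.factorial : ℝ) ≤ N' := by
    have e1 : Hn.factorial ≤ N' := by omega
    exact_mod_cast e1
  have hNR : (0 : ℝ) < N := by exact_mod_cast hN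
  obtain ⟨X2, hX2⟩ := MP_log_large (2 + 2 * (c : ℝ) ^ 4 + (Hn.factorial : ℝ))
  obtain ⟨X4, hX4⟩ := Pool.MP_dd84fd_nt.IY.JJ_ge
  obtain ⟨X5, hX5⟩ := MP_log_pow (Hn : ℝ) 0 (ε := 1 / ((2 * N : ℕ) : ℝ)) (by
    push_cast
    positivity)
  refine ⟨max X2 (max X4 (max X5 1)), fun X hX δ hδ hδ1 => ?_⟩
  simp only [max_le_iff] at hX
  obtain ⟨x2, x4, x5, x6⟩ := hX
  have hL := hX2 X x2
  have hcp : 0 < 2 * (c : ℝ) ^ 4 := by positivity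
  have hfp : (0 : ℝ) < (Hn.factorial : ℝ) := by exact_mod_cast Nat.factorial_pos Hn
  have hL2 : 2 ≤ Real.log X := by linarith
  have hLc : 2 * (c : ℝ) ^ 4 ≤ Real.log X := by linarith
  have hLf : (Hn.factorial : ℝ) ≤ Real.log X := by linarith
  have hL1 : 1 ≤ Real.log X := by linarith
  have hL0 : 0 < Real.log X := by linarith
  have hXR : (1 : ℝ) ≤ X := by exact_mod_cast x6
  have hXp : (0 : ℝ) < X := by linarith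
  have hLA : 0 < Real.log X ^ A := by positivity
  have hδ0 : 0 < δ := lt_of_lt_of_le (by positivity) hδ
  have hδL : 1 ≤ δ * Real.log X ^ A := by
    rw [div_le_iff₀ hLA] at hδ
    exact hδ
  have hδ2 : 1 / Real.log X ^ (A + 1) ≤ δ / 2 := by
    rw [div_le_div_iff₀ (by positivity) (by norm_num), pow_succ]
    have : δ * Real.log X ^ A * 2 ≤ δ * Real.log X ^ A * Real.log X :=
      mul_le_mul_of_nonneg_left hL2 (by linarith)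
    calc (1 : ℝ) * 2 ≤ δ * Real.log X ^ A * 2 := by linarith
      _ ≤ δ * Real.log X ^ A * Real.log X := this
      _ = δ * (Real.log X ^ A * Real.log X) := by ring
  refine ⟨hδ2, fun B M Y sm hF hQ => ?_⟩
  have hSJ : ∀ n : ℕ, X < 2 * n → n ≤ X → Even n →
      C2 / 16 * ((n : ℝ) / (Nat.totient n : ℝ)) * (X / Real.log X ^ 2) ≤ SS n * JJ n := by
    intro n n1 n2 n3
    have hn0 : 0 < n := by omega
    have hnR : (X : ℝ) < 2 * n := by exact_mod_cast n1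
    have i1 := BX.ss_phi n n3 hn0
    have i2 := hX4 X x4 n n1 n2
    have i3 : (X : ℝ) / (16 * Real.log X ^ 2) ≤ JJ n := by
      refine le_trans ?_ i2
      rw [div_le_div_iff₀ (by positivity) (by positivity)]
      have : 0 < Real.log X ^ 2 := by positivity
      nlinarith
    calc C2 / 16 * ((n : ℝ) / (Nat.totient n : ℝ)) * (X / Real.log X ^ 2) =
          (C2 * ((n : ℝ) / (Nat.totient n : ℝ))) * (X / (16 * Real.log X ^ 2)) := by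
          field_simp
      _ ≤ _ := mul_le_mul i1 i3 (by positivity) (le_trans (by positivity) i1)
  have hSJ0 : ∀ n : ℕ, X < 2 * n → n ≤ X → Even n → 0 ≤ SS n * JJ n := fun n n1 n2 n3 =>
    le_trans (by positivity) (hSJ n n1 n2 n3)
  refine ⟨fnc_mono θ ε C C' B M K (K + (148 * A + 1)) X δ Y hC'1 (by omega) x6 hL1 hδ0 hε
    hSJ0 hF, ?_⟩
  obtain ⟨f1, f2, f3, f4⟩ := id hF
  -- the bound for `h`
  obtain ⟨H, hH⟩ : ∃ H : ℕ, H = ⌈((c : ℝ) / δ ^ 37) ^ 4⌉₊ := ⟨_, rfl⟩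
  have hq : ((c : ℝ) / δ ^ 37) ^ 4 = (c : ℝ) ^ 4 / δ ^ 148 := by
    rw [_root_.div_pow, ← pow_mul]
  have hq1 : 1 ≤ (c : ℝ) ^ 4 / δ ^ 148 := by
    rw [le_div_iff₀ (by positivity), one_mul]
    exact (pow_le_one₀ hδ0.le hδ1).trans (one_le_pow₀ hc1)
  have hHlo : ((c : ℝ) / δ ^ 37) ^ 4 ≤ H := by
    rw [hH]
    exact Nat.le_ceil _
  have hHhi : (H : ℝ) ≤ 2 * (c : ℝ) ^ 4 / δ ^ 148 := by
    have i1 : (H : ℝ) ≤ ((c : ℝ) / δ ^ 37) ^ 4 + 1 := by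
      rw [hH]
      exact (Nat.ceil_lt_add_one (by positivity)).le
    rw [hq] at i1
    have i2 : 2 * (c : ℝ) ^ 4 / δ ^ 148 = (c : ℝ) ^ 4 / δ ^ 148 + (c : ℝ) ^ 4 / δ ^ 148 := by ring
    linarith
  have hLp : ∀ k : ℕ, 1 ≤ δ ^ k * Real.log X ^ (k * A) := by
    intro k
    have : δ ^ k * Real.log X ^ (k * A) = (δ * Real.log X ^ A) ^ k := by
      rw [mul_pow, ← pow_mul, mul_comm A k]
    rw [this]
    exact one_le_pow₀ hδL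
  have hHL : (H : ℝ) ≤ 2 * (c : ℝ) ^ 4 * Real.log X ^ (148 * A) := by
    refine hHhi.trans ?_
    rw [div_le_iff₀ (by positivity)]
    calc 2 * (c : ℝ) ^ 4 = 2 * (c : ℝ) ^ 4 * 1 := (mul_one _).symm
      _ ≤ 2 * (c : ℝ) ^ 4 * (δ ^ 148 * Real.log X ^ (148 * A)) :=
          mul_le_mul_of_nonneg_left (hLp 148) (by positivity)
      _ = _ := by ring
  obtain ⟨W, hW⟩ : ∃ W : ℝ, W = Real.log X ^ (148 * A + 1) := ⟨_, rfl⟩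
  have hW1 : 1 ≤ W := by rw [hW]; exact one_le_pow₀ hL1
  have hHW : (H : ℝ) ≤ W := by
    rw [hW]
    calc (H : ℝ) ≤ 2 * (c : ℝ) ^ 4 * Real.log X ^ (148 * A) := hHL
      _ ≤ Real.log X * Real.log X ^ (148 * A) :=
          mul_le_mul_of_nonneg_right hLc (by positivity)
      _ = _ := by ring
  have hLW : Real.log X ≤ W := by
    rw [hW]
    calc Real.log X = Real.log X ^ 1 := (pow_one _).symm
      _ ≤ _ := pow_le_pow_right₀ hL1 (by omega)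
  have hYm : ∀ ψ ∈ Y, 1 ≤ ψ.1 ∧ Real.log X ^ K * W ≤ (ψ.1 : ℝ) ∧
      (ψ.1 : ℝ) ≤ (X : ℝ) ^ (1 - θ) := by
    intro ψ hψ
    obtain ⟨q1, q2, q3, -⟩ := f2 ψ hψ
    have i1 : (1 : ℝ) ≤ ψ.1 := le_trans (one_le_pow₀ hL1) q2
    refine ⟨by exact_mod_cast i1, ?_, q3⟩
    rw [hW, ← pow_add]
    exact q2
  have hpw : ∀ k : ℕ, k ≤ C' → δ ^ C' ≤ δ ^ k := fun k hk => pow_le_pow_of_le_one hδ0.le hδ1 hk
  have hHQ : (H : ℝ) ≤ N' / δ ^ C' := by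
    refine hHhi.trans ?_
    calc 2 * (c : ℝ) ^ 4 / δ ^ 148 ≤ N' / δ ^ 148 :=
          div_le_div_of_nonneg_right hN'2 (by positivity)
      _ ≤ N' / δ ^ C' :=
          div_le_div_of_nonneg_left (Nat.cast_nonneg _) (by positivity) (hpw 148 (by omega))
  obtain ⟨D, D1, D2, D3, D4⟩ := co_D X N H K θ W (N' / δ ^ C') Y sm x6 hN hL1 hW1 hHW hHQ hYm
    (fun hsm => by
      have hνδ := (hQ hsm).1
      have i1 : (H : ℝ) ≤ Hn := by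
        refine hHhi.trans (le_trans ?_ hHn)
        exact div_le_div_of_nonneg_left hcp.le (by positivity) (pow_le_pow_left₀ hν.le hνδ 148)
      have i2 : H ≤ Hn := by exact_mod_cast i1
      have i3 : (H.factorial : ℝ) ≤ (Hn.factorial : ℝ) := by
        exact_mod_cast Nat.factorial_le i2
      refine ⟨by linarith, ?_, ?_⟩
      · have i4 : δ ^ C' ≤ 1 := pow_le_one₀ hδ0.le hδ1
        rw [le_div_iff₀ (by positivity)]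
        have i5 : (0 : ℝ) ≤ H.factorial := Nat.cast_nonneg _
        calc (H.factorial : ℝ) * δ ^ C' ≤ H.factorial * 1 := mul_le_mul_of_nonneg_left i4 i5
          _ ≤ N' := by linarith
      · have i4 := hX5 X x5
        rw [pow_zero, mul_one] at i4
        exact i1.trans i4)
    (fun hsm => (hQ hsm).2)
  have hone := co_one θ (ε / 2) C B M (K + (148 * A + 1)) X H δ c Y D hδ0 (by linarith) hF
    hSJ hc2 hHlo (fun ψ hψ => (hYm ψ hψ).1) D3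
  refine ⟨D, ⟨?_, D2, ?_⟩, fun hsm => ?_⟩
  · refine D1.trans ?_
    have i0 : (Y.card : ℝ) * H ≤ C * 2 ^ 19 * c ^ 4 / δ ^ 166 := by
      calc (Y.card : ℝ) * H ≤ (C / (δ / 2) ^ 18) * (2 * (c : ℝ) ^ 4 / δ ^ 148) :=
            mul_le_mul f1 hHhi (Nat.cast_nonneg _) (by positivity)
        _ = _ := by
            rw [_root_.div_pow]
            field_simp
    have i1 : (1 : ℝ) ≤ 1 / δ ^ 166 := by
      rw [le_div_iff₀ (by positivity), one_mul]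
      exact pow_le_one₀ hδ0.le hδ1
    calc (Y.card : ℝ) * H + 1 ≤ C * 2 ^ 19 * c ^ 4 / δ ^ 166 + 1 / δ ^ 166 := add_le_add i0 i1
      _ = (C * 2 ^ 19 * c ^ 4 + 1) / δ ^ 166 := by ring
      _ ≤ C' / δ ^ 166 := div_le_div_of_nonneg_right hC'3 (by positivity)
      _ ≤ C' / δ ^ C' :=
          div_le_div_of_nonneg_left (Nat.cast_nonneg _) (by positivity) (hpw 166 hC'2)
  · have i1 : (X : ℝ) ^ (θ + ε / 2) ≤ (X : ℝ) ^ (θ + ε) :=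
      Real.rpow_le_rpow_of_exponent_le hXR (by linarith)
    exact hone.trans i1
  · refine le_trans (card_le_card ?_) (D4 hsm)
    intro d hd
    rw [mem_filter] at hd ⊢
    refine ⟨hd.1, lt_of_lt_of_le hd.2 ?_⟩
    refine Real.rpow_le_rpow_of_exponent_le hXR ?_
    refine one_div_le_one_div_of_le ?_ ?_
    · have : (0 : ℝ) < ((2 * N : ℕ) : ℝ) := by exact_mod_cast (by omega : 0 < 2 * N)
      exact this
    · exact_mod_cast hN'1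

/-- the explicit formula with the set `D`, without the clause for `δ ≥ ν` -/
theorem cor_rg (hS : ScaleG) (hG : GauBD) : ∀ θ ε : ℝ, 1 / 3 ≤ θ → 0 < ε →
    ∃ C N : ℕ, ∀ A : ℕ, ∃ B M : ℕ, ∀ K : ℕ, ∃ X0 : ℕ, ∀ X : ℕ,
      X0 ≤ X → ∀ δ : ℝ, 1 / Real.log X ^ A ≤ δ → δ ≤ 1 → ∃ Y : Finset PC,
        FnC θ ε C B M K X δ Y ∧ ∃ D : Finset ℕ, CoD θ ε C N K X δ Y D := by
  intro θ ε h1 hε
  obtain ⟨C0, hC0⟩ := fin_rg hS hG θ (ε / 2) h1 (by linarith)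
  obtain ⟨C, hC⟩ := cor_core θ ε hε C0
  obtain ⟨N, -, hC⟩ := hC 1 one_pos 1 le_rfl
  refine ⟨C, N, fun A => ?_⟩
  obtain ⟨B, M, hB⟩ := hC0 (A + 1)
  refine ⟨B, M, fun K => ?_⟩
  obtain ⟨X1, hX1⟩ := hB (K + (148 * A + 1))
  obtain ⟨X2, hX2⟩ := hC A K
  refine ⟨max X1 X2, fun X hX δ hδ hδ1 => ?_⟩
  simp only [max_le_iff] at hX
  obtain ⟨x1, x2⟩ := hX
  obtain ⟨a1, a2⟩ := hX2 X x2 δ hδ hδ1
  obtain ⟨Y, hY⟩ := hX1 X x1 (δ / 2) a1 (by linarith)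
  obtain ⟨b1, D, b2, -⟩ := a2 B M Y False hY (fun h => h.elim)
  exact ⟨Y, b1, D, b2⟩

/-- the explicit formula with the set `D` -/
theorem cor_r (hS : ScaleQ) (hG : GauBD) : ∀ θ ε : ℝ, 1 / 3 ≤ θ → 0 < ε →
    ∃ C : ℕ, ∀ ν : ℝ, 0 < ν → ∃ N : ℕ, 1 ≤ N ∧ ∀ A : ℕ, ∃ B M : ℕ, ∀ K : ℕ, ∃ X0 : ℕ, ∀ X : ℕ,
      X0 ≤ X → ∀ δ : ℝ, 1 / Real.log X ^ A ≤ δ → δ ≤ 1 → ∃ Y : Finset PC, ∃ D : Finset ℕ,
        CoD θ ε C N K X δ Y D ∧ FnC θ ε C B M K X δ Y ∧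
        (ν ≤ δ → (D.filter (fun d : ℕ => (d : ℝ) < (X : ℝ) ^ (1 / (N : ℝ)))).card ≤ 1 ∧
          ∀ ψ ∈ Y, (∃ x H : ℝ, 0 < H ∧ (X : ℝ) ^ (1 / 2 : ℝ) ≤ x ∧ x + H ≤ X ∧ H ≤ x ∧
            x ≤ H * Real.log X ^ M ∧ H / N ≤ ‖∑ n ∈ Ioc ⌊x⌋₊ ⌊x + H⌋₊,
              ((ArithmeticFunction.vonMangoldt n : ℝ) : ℂ) * ψ.2 (n : ZMod ψ.1)‖) ∧
          ((ψ.1 : ℝ) ≤ (X : ℝ) ^ (1 / (N : ℝ)) → ψ.2 ^ 2 = 1 ∧
            ∀ ψ' ∈ Y, (ψ'.1 : ℝ) ≤ (X : ℝ) ^ (1 / (N : ℝ)) → ψ' = ψ)) := by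
  intro θ ε h1 hε
  obtain ⟨C0, hC0⟩ := fin_r hS hG θ (ε / 2) h1 (by linarith)
  obtain ⟨C, hC⟩ := cor_core θ ε hε C0
  refine ⟨C, fun ν hν => ?_⟩
  obtain ⟨N, hN, hC0⟩ := hC0 (ν / 2) (by linarith)
  obtain ⟨N', hN', hC⟩ := hC ν hν N hN
  refine ⟨N', by omega, fun A => ?_⟩
  obtain ⟨B, M, hB⟩ := hC0 (A + 1)
  refine ⟨B, M, fun K => ?_⟩
  obtain ⟨X1, hX1⟩ := hB (K + (148 * A + 1))
  obtain ⟨X2, hX2⟩ := hC A K
  refine ⟨max X1 (max X2 1), fun X hX δ hδ hδ1 => ?_⟩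
  simp only [max_le_iff] at hX
  obtain ⟨x1, x2, x3⟩ := hX
  have hXR : (1 : ℝ) ≤ X := by exact_mod_cast x3
  have hNR : (0 : ℝ) < N := by exact_mod_cast hN
  have hNN : (N : ℝ) ≤ N' := by
    have : N ≤ N' := by omega
    exact_mod_cast this
  have hpow : (X : ℝ) ^ (1 / (N' : ℝ)) ≤ (X : ℝ) ^ (1 / (N : ℝ)) :=
    Real.rpow_le_rpow_of_exponent_le hXR (one_div_le_one_div_of_le hNR hNN)
  obtain ⟨a1, a2⟩ := hX2 X x2 δ hδ hδ1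
  obtain ⟨Y, hY, hQ⟩ := hX1 X x1 (δ / 2) a1 (by linarith)
  obtain ⟨b1, D, b2, b3⟩ := a2 B M Y (ν ≤ δ) hY
    (fun h => ⟨h, fun ψ hψ hs => ((hQ (by linarith) ψ hψ).2 hs).2⟩)
  refine ⟨Y, D, b2, b1, fun hνδ => ⟨b3 hνδ, fun ψ hψ => ?_⟩⟩
  obtain ⟨⟨x, H, w1, w2, w3, w4, w5, w6⟩, w⟩ := hQ (by linarith) ψ hψ
  refine ⟨⟨x, H, w1, w2, w3, w4, w5, le_trans ?_ w6⟩, fun hs => ?_⟩
  · exact div_le_div_of_nonneg_left w1.le hNR hNN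
  · obtain ⟨v1, v2⟩ := w (hs.trans hpow)
    exact ⟨v1, fun ψ' hψ' hs' => v2 ψ' hψ' (hs'.trans hpow)⟩

end Pool.MP_dd84fd_nt.EF
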