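import Pool.Agent.Lib.MP_dd84fd_nt.EF.FinR

/-!
# EF-CorA: from the explicit formula to few moduli, lemmas (helper44)
-/

set_option autoImplicit false

namespace Pool.MP_dd84fd_nt.EF

open Finset Pool.MP_67663b_nt.Odd Pool.MP_dd84fd_nt.En Pool.MP_dd84fd_nt.E2 Pool.MP_dd84fd_nt.LS
open Pool.MP_dd84fd_nt.GX Pool.MP_dd84fd_nt.HX Pool.MP_dd84fd_nt.IX
open Pool.MP_dd84fd_nt.BX (PC pv IsPC PR SX sN prc ind Rm cf GauBD h0 cP)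

/-- the size of the secondary terms -/
theorem co_sec (X B : ℕ) (Y : Finset PC) (C η : ℝ) (n : ℕ)
    (hY : ∀ ψ₁ ∈ Y, ∀ ψ₂ ∈ Y,
        ‖∑' q : ℕ, coE n ψ₁ ψ₂ q‖ ≤ C * ((n : ℝ) / (Nat.totient n : ℝ)) * η ∧
        ‖IE X n (Real.log X ^ B / X) ψ₁ ψ₂‖ ≤ C * (X / Real.log X ^ 2)) :
    ‖secE X n (Real.log X ^ B) Y‖ ≤
      (Y.card : ℝ) ^ 2 * (C ^ 2 * ((n : ℝ) / (Nat.totient n : ℝ)) * η * (X / Real.log X ^ 2)) := by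
  unfold secE
  obtain ⟨V, hV⟩ : ∃ V : ℝ, V = C ^ 2 * ((n : ℝ) / (Nat.totient n : ℝ)) * η *
    (X / Real.log X ^ 2) := ⟨_, rfl⟩
  rw [← hV]
  have h1 : ∀ ψ₁ ∈ Y, ‖∑ ψ₂ ∈ Y, (∑' q : ℕ, coE n ψ₁ ψ₂ q) *
      IE X n (Real.log X ^ B / X) ψ₁ ψ₂‖ ≤ Y.card * V := by
    intro ψ₁ hψ₁
    refine (norm_sum_le _ _).trans ?_
    rw [← nsmul_eq_mul]
    refine sum_le_card_nsmul _ _ _ fun ψ₂ hψ₂ => ?_
    obtain ⟨a1, a2⟩ := hY ψ₁ hψ₁ ψ₂ hψ₂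
    rw [norm_mul]
    have a3 : 0 ≤ C * ((n : ℝ) / (Nat.totient n : ℝ)) * η := (norm_nonneg _).trans a1
    calc _ ≤ (C * ((n : ℝ) / (Nat.totient n : ℝ)) * η) * (C * (X / Real.log X ^ 2)) :=
          mul_le_mul a1 a2 (norm_nonneg _) a3
      _ = V := by
          rw [hV]
          ring
  calc _ ≤ ∑ ψ₁ ∈ Y, ‖∑ ψ₂ ∈ Y, (∑' q : ℕ, coE n ψ₁ ψ₂ q) *
        IE X n (Real.log X ^ B / X) ψ₁ ψ₂‖ := norm_sum_le _ _
    _ ≤ Y.card • (Y.card * V) := sum_le_card_nsmul _ _ _ h1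
    _ = _ := by
        rw [nsmul_eq_mul]
        ring

/-- `r / (r, n)` divides `h` if `g h` is a multiple of `r` and `g ∣ n` -/
theorem co_dv (r g h n : ℕ) (hr : 1 ≤ r) (h1 : r ∣ g * h) (h2 : g ∣ n) :
    r / Nat.gcd r n ∣ h := by
  have e0 : 0 < Nat.gcd r n := Nat.gcd_pos_of_pos_left _ hr
  have e1 : r ∣ n * h := h1.trans (Nat.mul_dvd_mul_right h2 h)
  have e2 : Nat.Coprime (r / Nat.gcd r n) (n / Nat.gcd r n) := Nat.coprime_div_gcd_div_gcd e0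
  refine e2.dvd_of_dvd_mul_left ?_
  have e3 : r / Nat.gcd r n * Nat.gcd r n = r := Nat.div_mul_cancel (Nat.gcd_dvd_left _ _)
  have e4 : n / Nat.gcd r n * Nat.gcd r n = n := Nat.div_mul_cancel (Nat.gcd_dvd_right _ _)
  refine Nat.dvd_of_mul_dvd_mul_right e0 ?_
  rw [e3]
  calc r ∣ n * h := e1
    _ = n / Nat.gcd r n * h * Nat.gcd r n := by
        nth_rewrite 1 [← e4]
        ring

/-- a pair with a small `h0`: the first modulus has a small cofactor in `n` -/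
theorem co_h0 (n H : ℕ) (ψ₁ ψ₂ : PC) (h1 : 1 ≤ ψ₁.1) (h2 : 1 ≤ ψ₂.1) (hh : h0 n ψ₁ ψ₂ < H) :
    ψ₁.1 / Nat.gcd ψ₁.1 n < H := by
  unfold h0 at hh
  have e1 : Nat.gcd (Nat.lcm ψ₁.1 ψ₂.1) n * (Nat.lcm ψ₁.1 ψ₂.1 /
      Nat.gcd (Nat.lcm ψ₁.1 ψ₂.1) n) = Nat.lcm ψ₁.1 ψ₂.1 :=
    Nat.mul_div_cancel' (Nat.gcd_dvd_left _ _)
  have hl : 0 < Nat.lcm ψ₁.1 ψ₂.1 := Nat.lcm_pos h1 h2
  have e2 : ψ₁.1 / Nat.gcd ψ₁.1 n ∣ Nat.lcm ψ₁.1 ψ₂.1 / Nat.gcd (Nat.lcm ψ₁.1 ψ₂.1) n := by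
    refine co_dv ψ₁.1 (Nat.gcd (Nat.lcm ψ₁.1 ψ₂.1) n) _ n h1 ?_ (Nat.gcd_dvd_right _ _)
    rw [e1]
    exact Nat.dvd_lcm_left _ _
  have e3 : 0 < Nat.lcm ψ₁.1 ψ₂.1 / Nat.gcd (Nat.lcm ψ₁.1 ψ₂.1) n := by
    rcases Nat.eq_zero_or_pos (Nat.lcm ψ₁.1 ψ₂.1 / Nat.gcd (Nat.lcm ψ₁.1 ψ₂.1) n) with h | h
    · rw [h, mul_zero] at e1
      omega
    · exact h
  exact lt_of_le_of_lt (Nat.le_of_dvd e3 e2) hh

/-- all `r/h`, `h < H`, `h ∣ r` -/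
noncomputable def dvs (Y : Finset PC) (H : ℕ) : Finset ℕ := by
  classical
  exact ((Y ×ˢ range H).filter (fun t => t.2 ∣ t.1.1)).image fun t => t.1.1 / t.2

theorem dvs_card (Y : Finset PC) (H : ℕ) : ((dvs Y H).card : ℝ) ≤ (Y.card : ℝ) * H := by
  classical
  unfold dvs
  have h1 := card_image_le (s := (Y ×ˢ range H).filter (fun t => t.2 ∣ t.1.1))
    (f := fun t : PC × ℕ => t.1.1 / t.2)
  have h2 := card_filter_le (Y ×ˢ range H) (fun t => t.2 ∣ t.1.1)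
  rw [card_product, card_range] at h2
  exact_mod_cast h1.trans h2

/-- the members of `dvs` -/
theorem dvs_spec (Y : Finset PC) (H d : ℕ) (hd : d ∈ dvs Y H) :
    ∃ ψ ∈ Y, ∃ h : ℕ, d * h = ψ.1 ∧ h < H := by
  classical
  unfold dvs at hd
  rw [mem_image] at hd
  obtain ⟨t, ht, rfl⟩ := hd
  rw [mem_filter, mem_product, mem_range] at ht
  exact ⟨t.1, ht.1.1, t.2, Nat.div_mul_cancel ht.2, ht.1.2⟩

theorem dvs_mem (Y : Finset PC) (H n : ℕ) (ψ : PC) (h1 : ψ ∈ Y) (hp : 1 ≤ ψ.1)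
    (hh : ψ.1 / Nat.gcd ψ.1 n < H) : Nat.gcd ψ.1 n ∈ dvs Y H := by
  classical
  have e0 : 0 < Nat.gcd ψ.1 n := Nat.gcd_pos_of_pos_left _ hp
  have e1 : Nat.gcd ψ.1 n * (ψ.1 / Nat.gcd ψ.1 n) = ψ.1 :=
    Nat.mul_div_cancel' (Nat.gcd_dvd_left _ _)
  have e2 : 0 < ψ.1 / Nat.gcd ψ.1 n :=
    Nat.div_pos (Nat.le_of_dvd hp (Nat.gcd_dvd_left _ _)) e0
  unfold dvs
  rw [mem_image]
  refine ⟨(ψ, ψ.1 / Nat.gcd ψ.1 n), ?_, ?_⟩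
  · rw [mem_filter, mem_product, mem_range]
    exact ⟨⟨h1, hh⟩, Dvd.intro_left _ e1⟩
  · show ψ.1 / (ψ.1 / Nat.gcd ψ.1 n) = _
    exact Nat.div_eq_of_eq_mul_left e2 e1.symm

/-- `x ≥ (c/δ^37)^4` implies `x^(-1/4) ≤ δ^37/c` -/
theorem co_rpow (c δ x : ℝ) (hc : 0 < c) (hδ : 0 < δ) (hx : (c / δ ^ 37) ^ 4 ≤ x) :
    x ^ (-(1 / 4 : ℝ)) ≤ δ ^ 37 / c := by
  have h0 : 0 < c / δ ^ 37 := by positivity
  have hx0 : 0 < x := lt_of_lt_of_le (by positivity) hx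
  have h1 : c / δ ^ 37 ≤ x ^ (1 / 4 : ℝ) := by
    have h2 : ((c / δ ^ 37) ^ 4) ^ (1 / 4 : ℝ) = c / δ ^ 37 := by
      rw [← Real.rpow_natCast, ← Real.rpow_mul h0.le]
      norm_num
    rw [← h2]
    exact Real.rpow_le_rpow (by positivity) hx (by norm_num)
  rw [Real.rpow_neg hx0.le, show δ ^ 37 / c = (c / δ ^ 37)⁻¹ by rw [inv_div]]
  exact inv_anti₀ h0 h1

/-- a divisor `h ≤ H` of `r`: `r / gcd(r, H!)` divides `r / h` -/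
theorem co_fac (r H g h : ℕ) (hr : 1 ≤ r) (hgh : g * h = r) (hh : h ≤ H) :
    r / Nat.gcd r H.factorial ∣ g := by
  have hg0 : 0 < g := Nat.pos_of_ne_zero (by
    rintro rfl
    simp at hgh
    omega)
  have hh0 : 0 < h := Nat.pos_of_ne_zero (by
    rintro rfl
    simp at hgh
    omega)
  have h1 : h ∣ H.factorial := Nat.dvd_factorial hh0 hh
  have h2 : h ∣ r := Dvd.intro_left g hgh
  obtain ⟨k, hk⟩ := Nat.dvd_gcd h2 h1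
  have h3 : Nat.gcd r H.factorial ∣ r := Nat.gcd_dvd_left _ _
  obtain ⟨d, hd⟩ := h3
  have h4 : 0 < Nat.gcd r H.factorial := Nat.gcd_pos_of_pos_left _ hr
  have h5 : r / Nat.gcd r H.factorial = d := Nat.div_eq_of_eq_mul_right h4 hd
  rw [h5]
  refine ⟨k, ?_⟩
  have h6 : h * g = h * (d * k) := by
    calc h * g = r := by rw [mul_comm, hgh]
      _ = Nat.gcd r H.factorial * d := hd
      _ = h * k * d := by rw [hk]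
      _ = h * (d * k) := by ring
  exact Nat.eq_of_mul_eq_mul_left hh0 h6

open Classical in
/-- the exceptional even numbers outside the multiples of `D` -/
noncomputable def exD (X : ℕ) (δ : ℝ) (D : Finset ℕ) : Finset ℕ :=
  (Icc 1 X).filter (fun n : ℕ => X < 2 * n ∧ Even n ∧ (∀ d ∈ D, ¬ d ∣ n) ∧
    δ * (SS n * JJ n) < |(g n : ℝ) - SS n * JJ n|)

theorem co_one (θ ε : ℝ) (C B M K X H : ℕ) (δ c : ℝ) (Y : Finset PC) (D : Finset ℕ)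
    (hδ : 0 < δ) (hc : 0 < c)
    (hF : FnC θ ε C B M K X (δ / 2) Y)
    (hSJ : ∀ n : ℕ, X < 2 * n → n ≤ X → Even n →
      C2 / 16 * ((n : ℝ) / (Nat.totient n : ℝ)) * (X / Real.log X ^ 2) ≤ SS n * JJ n)
    (hc1 : (C : ℝ) ^ 4 * 2 ^ 41 / C2 ≤ c) (hH : (c / δ ^ 37) ^ 4 ≤ H)
    (hY1 : ∀ ψ ∈ Y, 1 ≤ ψ.1)
    (hD : ∀ ψ ∈ Y, ∀ n : ℕ, ψ.1 / Nat.gcd ψ.1 n < H → ∃ d ∈ D, d ∣ n) :
    ((exD X δ D).card : ℝ) ≤ (X : ℝ) ^ (θ + ε) := by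
  classical
  have hC2 := C2_pos
  obtain ⟨f1, f2, f3, f4⟩ := hF
  obtain ⟨F1, hF1⟩ : ∃ F1 : Finset ℕ, F1 = (Icc 1 X).filter (fun n : ℕ => X < 2 * n ∧ Even n ∧
    δ / 2 * (SS n * JJ n) < ‖(((g n : ℝ) - SS n * JJ n : ℝ) : ℂ) -
      secE X n (Real.log X ^ B) Y‖) := ⟨_, rfl⟩
  rw [← hF1] at f4
  have hsub : exD X δ D ⊆ F1 := by
    intro n hn
    unfold exD at hn
    rw [mem_filter] at hn
    obtain ⟨hnI, n1, n2, n3, n4⟩ := hn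
    have hn1 : 1 ≤ n := (mem_Icc.1 hnI).1
    have hnX : n ≤ X := (mem_Icc.1 hnI).2
    by_contra c1
    have k1 : ‖(((g n : ℝ) - SS n * JJ n : ℝ) : ℂ) - secE X n (Real.log X ^ B) Y‖ ≤
        δ / 2 * (SS n * JJ n) := by
      by_contra hk
      push Not at hk
      exact c1 (by
        rw [hF1, mem_filter]
        exact ⟨hnI, n1, n2, hk⟩)
    have k2 : δ / 2 * (SS n * JJ n) < ‖secE X n (Real.log X ^ B) Y‖ := by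
      have i1 : ‖(((g n : ℝ) - SS n * JJ n : ℝ) : ℂ)‖ = |(g n : ℝ) - SS n * JJ n| := by
        rw [Complex.norm_real, Real.norm_eq_abs]
      have i2 := norm_sub_norm_le (((g n : ℝ) - SS n * JJ n : ℝ) : ℂ)
        (secE X n (Real.log X ^ B) Y)
      rw [i1] at i2
      linarith
    -- a pair with small `h0`
    have k3 : ∃ ψ₁ ∈ Y, ∃ ψ₂ ∈ Y, h0 n ψ₁ ψ₂ < H := by
      by_contra hk
      push Not at hk
      have i1 := co_sec X B Y C (δ ^ 37 / c) n (fun ψ₁ h₁ ψ₂ h₂ => by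
        obtain ⟨-, s2, s3⟩ := f3 ψ₁ h₁ ψ₂ h₂ n hn1
        refine ⟨s2.trans ?_, s3⟩
        refine mul_le_mul_of_nonneg_left ?_ (by positivity)
        refine co_rpow c δ _ hc hδ (hH.trans ?_)
        exact_mod_cast hk ψ₁ h₁ ψ₂ h₂)
      have i2 : (Y.card : ℝ) ^ 2 ≤ (C / (δ / 2) ^ 18) ^ 2 :=
        pow_le_pow_left₀ (Nat.cast_nonneg _) f1 2
      obtain ⟨R, hR⟩ : ∃ R : ℝ, R = (n : ℝ) / (Nat.totient n : ℝ) := ⟨_, rfl⟩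
      have hR0 : 0 ≤ R := by rw [hR]; positivity
      rw [← hR] at i1
      have i3 := hSJ n n1 hnX n2
      rw [← hR] at i3
      have hXL : 0 ≤ (X : ℝ) / Real.log X ^ 2 := by positivity
      have i4 : (Y.card : ℝ) ^ 2 * ((C : ℝ) ^ 2 * R * (δ ^ 37 / c) * (X / Real.log X ^ 2)) ≤
          δ / 2 * (C2 / 16 * R * (X / Real.log X ^ 2)) := by
        have j1 : (Y.card : ℝ) ^ 2 * ((C : ℝ) ^ 2 * R * (δ ^ 37 / c) * (X / Real.log X ^ 2)) ≤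
            (C / (δ / 2) ^ 18) ^ 2 * ((C : ℝ) ^ 2 * R * (δ ^ 37 / c) * (X / Real.log X ^ 2)) :=
          mul_le_mul_of_nonneg_right i2 (by positivity)
        have j2 : (C / (δ / 2) ^ 18) ^ 2 * ((C : ℝ) ^ 2 * R * (δ ^ 37 / c) *
            (X / Real.log X ^ 2)) = (C ^ 4 * 2 ^ 36 / c) * (δ * R * (X / Real.log X ^ 2)) := by
          obtain ⟨Z, hZ⟩ : ∃ Z : ℝ, Z = (X : ℝ) / Real.log X ^ 2 := ⟨_, rfl⟩
          rw [← hZ]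
          field_simp
        have j3 : (C : ℝ) ^ 4 * 2 ^ 36 / c ≤ C2 / 32 := by
          rw [div_le_iff₀ hC2] at hc1
          rw [div_le_iff₀ hc]
          linarith
        have j4 : 0 ≤ δ * R * (X / Real.log X ^ 2) := by positivity
        calc _ ≤ (C ^ 4 * 2 ^ 36 / c) * (δ * R * (X / Real.log X ^ 2)) := j1.trans_eq j2
          _ ≤ C2 / 32 * (δ * R * (X / Real.log X ^ 2)) := mul_le_mul_of_nonneg_right j3 j4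
          _ = _ := by ring
      have i5 : δ / 2 * (C2 / 16 * R * (X / Real.log X ^ 2)) ≤ δ / 2 * (SS n * JJ n) :=
        mul_le_mul_of_nonneg_left i3 (by positivity)
      linarith
    obtain ⟨ψ₁, h₁, ψ₂, h₂, hh⟩ := k3
    obtain ⟨d, hd, hdn⟩ := hD ψ₁ h₁ n (co_h0 n H ψ₁ ψ₂ (hY1 ψ₁ h₁) (hY1 ψ₂ h₂) hh)
    exact n3 d hd hdn
  calc ((exD X δ D).card : ℝ) ≤ (F1.card : ℝ) := by exact_mod_cast card_le_card hsub
    _ ≤ _ := f4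

/-- the set of moduli -/
theorem co_D (X N H K : ℕ) (θ W Q : ℝ) (Y : Finset PC) (small : Prop) (hX : 1 ≤ X) (hN : 1 ≤ N)
    (hL : 1 ≤ Real.log X) (hW : 1 ≤ W) (hHW : (H : ℝ) ≤ W) (hHQ : (H : ℝ) ≤ Q)
    (hY : ∀ ψ ∈ Y, 1 ≤ ψ.1 ∧ Real.log X ^ K * W ≤ (ψ.1 : ℝ) ∧ (ψ.1 : ℝ) ≤ (X : ℝ) ^ (1 - θ))
    (hs1 : small → (H.factorial : ℝ) ≤ W ∧ (H.factorial : ℝ) ≤ Q ∧
      (H : ℝ) ≤ (X : ℝ) ^ (1 / ((2 * N : ℕ) : ℝ)))
    (hs2 : small → ∀ ψ ∈ Y, (ψ.1 : ℝ) ≤ (X : ℝ) ^ (1 / (N : ℝ)) →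
      ∀ ψ' ∈ Y, (ψ'.1 : ℝ) ≤ (X : ℝ) ^ (1 / (N : ℝ)) → ψ' = ψ) :
    ∃ D : Finset ℕ, (D.card : ℝ) ≤ (Y.card : ℝ) * H + 1 ∧
      (∀ d ∈ D, Real.log X ^ K ≤ (d : ℝ) ∧ (d : ℝ) ≤ (X : ℝ) ^ (1 - θ) ∧
        ∃ ψ ∈ Y, ∃ h : ℕ, d * h = ψ.1 ∧ (h : ℝ) ≤ Q) ∧
      (∀ ψ ∈ Y, ∀ n : ℕ, ψ.1 / Nat.gcd ψ.1 n < H → ∃ d ∈ D, d ∣ n) ∧
      (small → (D.filter (fun d : ℕ => (d : ℝ) < (X : ℝ) ^ (1 / ((2 * N : ℕ) : ℝ)))).card ≤ 1) := by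
  classical
  have hXR : (1 : ℝ) ≤ X := by exact_mod_cast hX
  have hXp : (0 : ℝ) < X := by linarith
  have hLK : 0 < Real.log X ^ K := by positivity
  have hNR : (0 : ℝ) < N := by exact_mod_cast hN
  -- a cofactor `h ≤ W` leaves a large `d`
  have hlow : ∀ ψ ∈ Y, ∀ d h : ℕ, d * h = ψ.1 → (h : ℝ) ≤ W → Real.log X ^ K ≤ (d : ℝ) ∧
      (d : ℝ) ≤ (X : ℝ) ^ (1 - θ) := by
    intro ψ hψ d h hdh hh
    obtain ⟨y1, y2, y3⟩ := hY ψ hψ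
    have e1 : (d : ℝ) * (h : ℝ) = (ψ.1 : ℝ) := by exact_mod_cast hdh
    constructor
    · have e3 : Real.log X ^ K * W ≤ (d : ℝ) * W := by
        calc Real.log X ^ K * W ≤ (ψ.1 : ℝ) := y2
          _ = (d : ℝ) * (h : ℝ) := e1.symm
          _ ≤ (d : ℝ) * W := mul_le_mul_of_nonneg_left hh (Nat.cast_nonneg _)
      exact le_of_mul_le_mul_right e3 (by linarith)
    · refine le_trans ?_ y3
      exact_mod_cast Nat.le_of_dvd y1 (Dvd.intro _ hdh)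
  by_cases hsm : small
  swap
  · refine ⟨dvs Y H, ?_, fun d hd => ?_, fun ψ hψ n hh => ?_, fun h => absurd h hsm⟩
    · linarith [dvs_card Y H]
    · obtain ⟨ψ, hψ, h, e1, e2⟩ := dvs_spec Y H d hd
      have e3 : (h : ℝ) ≤ H := by exact_mod_cast e2.le
      obtain ⟨a1, a2⟩ := hlow ψ hψ d h e1 (by linarith)
      exact ⟨a1, a2, ψ, hψ, h, e1, by linarith⟩
    · exact ⟨_, dvs_mem Y H n ψ hψ (hY ψ hψ).1 hh, Nat.gcd_dvd_right _ _⟩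
  obtain ⟨hf1, hf2, hf3⟩ := hs1 hsm
  have huni := hs2 hsm
  obtain ⟨Yb, hYb⟩ : ∃ Yb : Finset PC, Yb = Y.filter (fun ψ => (X : ℝ) ^ (1 / (N : ℝ)) < ψ.1) :=
    ⟨_, rfl⟩
  have hYbs : Yb ⊆ Y := by rw [hYb]; exact filter_subset _ _
  have hpow : (X : ℝ) ^ (1 / ((2 * N : ℕ) : ℝ)) * (X : ℝ) ^ (1 / ((2 * N : ℕ) : ℝ)) =
      (X : ℝ) ^ (1 / (N : ℝ)) := by
    rw [← Real.rpow_add hXp]
    congr 1
    push_cast
    field_simp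
    norm_num
  have hpow0 : 0 < (X : ℝ) ^ (1 / ((2 * N : ℕ) : ℝ)) := by positivity
  have hcard : ((dvs Yb H).card : ℝ) ≤ (Y.card : ℝ) * H := by
    refine (dvs_card Yb H).trans (mul_le_mul_of_nonneg_right ?_ (Nat.cast_nonneg _))
    exact_mod_cast card_le_card hYbs
  have hbig : ∀ d ∈ dvs Yb H, (Real.log X ^ K ≤ (d : ℝ) ∧ (d : ℝ) ≤ (X : ℝ) ^ (1 - θ) ∧
      ∃ ψ ∈ Y, ∃ h : ℕ, d * h = ψ.1 ∧ (h : ℝ) ≤ Q) ∧
      (X : ℝ) ^ (1 / ((2 * N : ℕ) : ℝ)) ≤ (d : ℝ) := by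
    intro d hd
    obtain ⟨ψ, hψ, h, e1, e2⟩ := dvs_spec Yb H d hd
    have hψY := hYbs hψ
    have e3 : (h : ℝ) ≤ H := by exact_mod_cast e2.le
    obtain ⟨a1, a2⟩ := hlow ψ hψY d h e1 (by linarith)
    refine ⟨⟨a1, a2, ψ, hψY, h, e1, by linarith⟩, ?_⟩
    rw [hYb, mem_filter] at hψ
    have e4 : (d : ℝ) * (h : ℝ) = (ψ.1 : ℝ) := by exact_mod_cast e1
    have e5 : (X : ℝ) ^ (1 / ((2 * N : ℕ) : ℝ)) * (X : ℝ) ^ (1 / ((2 * N : ℕ) : ℝ)) ≤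
        (d : ℝ) * (X : ℝ) ^ (1 / ((2 * N : ℕ) : ℝ)) := by
      rw [hpow]
      calc (X : ℝ) ^ (1 / (N : ℝ)) ≤ (ψ.1 : ℝ) := hψ.2.le
        _ = (d : ℝ) * (h : ℝ) := e4.symm
        _ ≤ _ := mul_le_mul_of_nonneg_left (e3.trans hf3) (Nat.cast_nonneg _)
    exact le_of_mul_le_mul_right e5 hpow0
  by_cases hex : ∃ ψ ∈ Y, (ψ.1 : ℝ) ≤ (X : ℝ) ^ (1 / (N : ℝ))
  · obtain ⟨ψ, hψ, hψs⟩ := hex
    obtain ⟨y1, y2, y3⟩ := hY ψ hψ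
    obtain ⟨d1, hd1⟩ : ∃ d1 : ℕ, d1 = ψ.1 / Nat.gcd ψ.1 H.factorial := ⟨_, rfl⟩
    have hd1r : d1 * Nat.gcd ψ.1 H.factorial = ψ.1 := by
      rw [hd1]
      exact Nat.div_mul_cancel (Nat.gcd_dvd_left _ _)
    have hgf : ((Nat.gcd ψ.1 H.factorial : ℕ) : ℝ) ≤ (H.factorial : ℝ) := by
      exact_mod_cast Nat.le_of_dvd (Nat.factorial_pos _) (Nat.gcd_dvd_right _ _)
    obtain ⟨l1, l2⟩ := hlow ψ hψ d1 _ hd1r (hgf.trans hf1)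
    refine ⟨insert d1 (dvs Yb H), ?_, fun d hd => ?_, fun ψ' hψ' n hh => ?_, fun _ => ?_⟩
    · have e1 : (insert d1 (dvs Yb H)).card ≤ (dvs Yb H).card + 1 := card_insert_le _ _
      have e2 : ((insert d1 (dvs Yb H)).card : ℝ) ≤ (dvs Yb H).card + 1 := by exact_mod_cast e1
      linarith
    · rw [mem_insert] at hd
      rcases hd with rfl | hd
      · exact ⟨l1, l2, ψ, hψ, _, hd1r, hgf.trans hf2⟩
      · exact (hbig d hd).1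
    · by_cases hs : (ψ'.1 : ℝ) ≤ (X : ℝ) ^ (1 / (N : ℝ))
      · have k4 := huni ψ hψ hψs ψ' hψ' hs
        rw [k4] at hh
        refine ⟨d1, mem_insert_self _ _, ?_⟩
        rw [hd1]
        exact (co_fac ψ.1 H (Nat.gcd ψ.1 n) (ψ.1 / Nat.gcd ψ.1 n) y1
          (Nat.mul_div_cancel' (Nat.gcd_dvd_left _ _)) hh.le).trans (Nat.gcd_dvd_right _ _)
      · refine ⟨Nat.gcd ψ'.1 n, mem_insert_of_mem ?_, Nat.gcd_dvd_right _ _⟩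
        refine dvs_mem Yb H n ψ' ?_ (hY ψ' hψ').1 hh
        rw [hYb, mem_filter]
        exact ⟨hψ', not_le.1 hs⟩
    · have e1 : (insert d1 (dvs Yb H)).filter (fun d : ℕ =>
          (d : ℝ) < (X : ℝ) ^ (1 / ((2 * N : ℕ) : ℝ))) ⊆ {d1} := by
        intro d hd
        rw [mem_filter, mem_insert] at hd
        rw [mem_singleton]
        rcases hd.1 with h | h
        · exact h
        · linarith [hd.2, (hbig d h).2]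
      have e2 := card_le_card e1
      rwa [card_singleton] at e2
  · refine ⟨dvs Yb H, by linarith, fun d hd => (hbig d hd).1, fun ψ hψ n hh => ?_, fun _ => ?_⟩
    · refine ⟨Nat.gcd ψ.1 n, dvs_mem Yb H n ψ ?_ (hY ψ hψ).1 hh, Nat.gcd_dvd_right _ _⟩
      rw [hYb, mem_filter]
      refine ⟨hψ, ?_⟩
      by_contra hcon
      exact hex ⟨ψ, hψ, not_lt.1 hcon⟩
    · have e1 : (dvs Yb H).filter (fun d : ℕ =>
          (d : ℝ) < (X : ℝ) ^ (1 / ((2 * N : ℕ) : ℝ))) = ∅ := by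
        rw [filter_eq_empty_iff]
        intro d hd
        exact not_lt.2 (hbig d hd).2
      rw [e1, card_empty]
      norm_num

end Pool.MP_dd84fd_nt.EF
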