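import Pool.Agent.Lib.MP_dd84fd_nt.EF.FinR
import Mathlib.NumberTheory.LSeries.DirichletContinuation

/-!
# EF-FinS: the exceptional real character has a real zero

`RzF`: `real_zero` of project RZ; `NuC`: the conclusions for `δ ≥ ν`, with the real zero.
-/

set_option autoImplicit false

namespace Pool.MP_dd84fd_nt.EF

open Finset Pool.MP_67663b_nt.Odd Pool.MP_dd84fd_nt.En Pool.MP_dd84fd_nt.E2 Pool.MP_dd84fd_nt.LS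
open Pool.MP_dd84fd_nt.GX Pool.MP_dd84fd_nt.HX Pool.MP_dd84fd_nt.IX
open Pool.MP_dd84fd_nt.BX (PC pv IsPC)

/-- (RZ) a real heavy character of small conductor has a real zero near `1` -/
def RzF : Prop := ∀ lam c : ℝ, 0 < lam → 0 < c → ∃ δ M : ℝ, 0 < δ ∧ 0 < M ∧
    ∀ B : ℕ, ∃ X0 : ℕ, ∀ X : ℕ, X0 ≤ X → ∀ ψ : PC, IsPC ψ → 2 ≤ ψ.1 → (ψ.1 : ℝ) ≤ (X : ℝ) ^ δ →
    ψ.2 ^ 2 = 1 → Hvi lam c B X ψ →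
    ∃ β : ℝ, 1 - M / Real.log X ≤ β ∧ β < 1 ∧ ∃ _ : NeZero ψ.1, ψ.2.LFunction β = 0

/-- the conclusions for `δ ≥ ν` without the zero -/
def QuC (N M X : ℕ) (Y : Finset PC) : Prop :=
  ∀ ψ ∈ Y, (∃ x H : ℝ, 0 < H ∧ (X : ℝ) ^ (1 / 2 : ℝ) ≤ x ∧ x + H ≤ X ∧ H ≤ x ∧
      x ≤ H * Real.log X ^ M ∧ H / N ≤ ‖∑ n ∈ Ioc ⌊x⌋₊ ⌊x + H⌋₊,
        ((ArithmeticFunction.vonMangoldt n : ℝ) : ℂ) * ψ.2 (n : ZMod ψ.1)‖) ∧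
    ((ψ.1 : ℝ) ≤ (X : ℝ) ^ (1 / (N : ℝ)) → ψ.2 ^ 2 = 1 ∧
      ∀ ψ' ∈ Y, (ψ'.1 : ℝ) ≤ (X : ℝ) ^ (1 / (N : ℝ)) → ψ' = ψ)

/-- the conclusions for `δ ≥ ν` -/
def NuC (N M X : ℕ) (Y : Finset PC) : Prop :=
  ∀ ψ ∈ Y, (∃ x H : ℝ, 0 < H ∧ (X : ℝ) ^ (1 / 2 : ℝ) ≤ x ∧ x + H ≤ X ∧ H ≤ x ∧
      x ≤ H * Real.log X ^ M ∧ H / N ≤ ‖∑ n ∈ Ioc ⌊x⌋₊ ⌊x + H⌋₊,
        ((ArithmeticFunction.vonMangoldt n : ℝ) : ℂ) * ψ.2 (n : ZMod ψ.1)‖) ∧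
    ((ψ.1 : ℝ) ≤ (X : ℝ) ^ (1 / (N : ℝ)) → ψ.2 ^ 2 = 1 ∧
      (∃ β : ℝ, 1 - N / Real.log X ≤ β ∧ β < 1 ∧ ∃ _ : NeZero ψ.1, ψ.2.LFunction β = 0) ∧
      ∀ ψ' ∈ Y, (ψ'.1 : ℝ) ≤ (X : ℝ) ^ (1 / (N : ℝ)) → ψ' = ψ)

/-- from `QuC` to `NuC` -/
theorem nuC_of (hR : RzF) (N : ℕ) (hN : 1 ≤ N) : ∃ N' : ℕ, N ≤ N' ∧ ∀ M : ℕ, ∃ X0 : ℕ, ∀ X : ℕ,
    X0 ≤ X → ∀ Y : Finset PC, (∀ ψ ∈ Y, ψ.2.IsPrimitive ∧ Real.log X ^ 1 ≤ (ψ.1 : ℝ)) →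
    QuC N M X Y → NuC N' M X Y := by
  have hNR : (1 : ℝ) ≤ N := by exact_mod_cast hN
  obtain ⟨d, b, hd, hb, h⟩ := hR (1 / N) (1 / 2) (by positivity) (by norm_num)
  obtain ⟨N1, hN1⟩ := exists_nat_ge (max (1 / d) b)
  have hNd : 1 / d ≤ N1 := (le_max_left _ _).trans hN1
  have hNb : b ≤ N1 := (le_max_right _ _).trans hN1
  refine ⟨max N N1, le_max_left _ _, fun M => ?_⟩
  have hNa' : (N : ℝ) ≤ ((max N N1 : ℕ) : ℝ) := by exact_mod_cast le_max_left _ _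
  have hNb' : (N1 : ℝ) ≤ ((max N N1 : ℕ) : ℝ) := by exact_mod_cast le_max_right _ _
  obtain ⟨N', hN'⟩ : ∃ N' : ℕ, N' = max N N1 := ⟨_, rfl⟩
  rw [← hN'] at hNa' hNb' ⊢
  have hN'p : (0 : ℝ) < N' := by linarith
  obtain ⟨X1, h⟩ := h M
  obtain ⟨X2, hX2⟩ := MP_log_large 2
  refine ⟨max X1 (max X2 1), fun X hX Y hY hQ ψ hψ => ?_⟩
  simp only [max_le_iff] at hX
  obtain ⟨x1, x2, x3⟩ := hX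
  have hL := hX2 X x2
  have hL0 : 0 < Real.log X := by linarith
  have hXR : (1 : ℝ) ≤ X := by exact_mod_cast x3
  obtain ⟨⟨x, H, w1, w2, w3, w4, w5, w6⟩, hq⟩ := hQ ψ hψ
  obtain ⟨hp, hr⟩ := hY ψ hψ
  rw [pow_one] at hr
  have hr2 : 2 ≤ ψ.1 := by
    have : (2 : ℝ) ≤ ψ.1 := hL.trans hr
    exact_mod_cast this
  have hpow1 : (X : ℝ) ^ (1 / (N' : ℝ)) ≤ (X : ℝ) ^ (1 / (N : ℝ)) :=
    Real.rpow_le_rpow_of_exponent_le hXR (one_div_le_one_div_of_le (by linarith) hNa')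
  have hpow2 : (X : ℝ) ^ (1 / (N' : ℝ)) ≤ (X : ℝ) ^ d := by
    refine Real.rpow_le_rpow_of_exponent_le hXR ?_
    rw [div_le_iff₀ hN'p]
    rw [div_le_iff₀ hd] at hNd
    nlinarith
  refine ⟨⟨x, H, w1, w2, w3, w4, w5, le_trans ?_ w6⟩, fun hs => ?_⟩
  · exact div_le_div_of_nonneg_left w1.le (by linarith) hNa'
  · obtain ⟨v1, v2⟩ := hq (hs.trans hpow1)
    refine ⟨v1, ?_, fun ψ' hψ' hs' => v2 ψ' hψ' (hs'.trans hpow1)⟩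
    obtain ⟨β, b1, b2, b3⟩ := h X x1 ψ ⟨by omega, hp⟩ hr2 (hs.trans hpow2) v1
      ⟨x, H, w1, w2, w3, w4, w5, by
        rw [one_div, inv_mul_eq_div]
        exact w6⟩
    refine ⟨β, le_trans ?_ b1, b2, b3⟩
    have : b / Real.log X ≤ N' / Real.log X :=
      div_le_div_of_nonneg_right (hNb.trans hNb') hL0.le
    linarith

open Pool.MP_dd84fd_nt.BX (GauBD) in
/-- the explicit formula for all `θ ≥ 1/3`, uniform in `δ`; for `δ ≥ ν` every character has a heavy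
interval, at most one has conductor `≤ X^(1/N)`, this one is real and has a real zero near `1` -/
theorem fin_s (hS : ScaleQ) (hG : GauBD) (hR : RzF) : ∀ θ ε : ℝ, 1 / 3 ≤ θ → 0 < ε →
    ∃ C : ℕ, ∀ ν : ℝ, 0 < ν → ∃ N : ℕ, 1 ≤ N ∧ ∀ A : ℕ, ∃ B M : ℕ, ∀ K : ℕ, ∃ X0 : ℕ, ∀ X : ℕ,
      X0 ≤ X → ∀ δ : ℝ, 1 / Real.log X ^ A ≤ δ → δ ≤ 1 → ∃ Y : Finset PC,
        FnC θ ε C B M K X δ Y ∧ (ν ≤ δ → NuC N M X Y) := by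
  intro θ ε h1 hε
  obtain ⟨C, hC⟩ := fin_r hS hG θ ε h1 hε
  refine ⟨C, fun ν hν => ?_⟩
  obtain ⟨N, hN, h⟩ := hC ν hν
  obtain ⟨N', hN', hz⟩ := nuC_of hR N hN
  refine ⟨N', hN.trans hN', fun A => ?_⟩
  obtain ⟨B, M, h⟩ := h A
  refine ⟨B, M, fun K => ?_⟩
  obtain ⟨X1, h⟩ := h (K + 1)
  obtain ⟨X2, hz⟩ := hz M
  obtain ⟨X3, hX3⟩ := MP_log_large 1
  refine ⟨max X1 (max X2 X3), fun X hX δ hδ hδ1 => ?_⟩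
  simp only [max_le_iff] at hX
  obtain ⟨x1, x2, x3⟩ := hX
  have hL1 := hX3 X x3
  obtain ⟨Y, ⟨y1, y2, y3, y4⟩, y5⟩ := h X x1 δ hδ hδ1
  refine ⟨Y, ⟨y1, fun ψ hψ => ?_, y3, y4⟩, fun hνδ => ?_⟩
  · obtain ⟨q1, q2, q3⟩ := y2 ψ hψ
    exact ⟨q1, (pow_le_pow_right₀ hL1 (Nat.le_succ K)).trans q2, q3⟩
  · refine hz X x2 Y (fun ψ hψ => ?_) (y5 hνδ)
    obtain ⟨q1, q2, -⟩ := y2 ψ hψ
    exact ⟨q1, (pow_le_pow_right₀ hL1 (by omega)).trans q2⟩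

end Pool.MP_dd84fd_nt.EF
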