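import Pool.Agent.Lib.MP_dd84fd_nt.EF.Cor
import Pool.Agent.Lib.MP_dd84fd_nt.EF.FinS

/-!
# EF-CorS: the set of moduli together with the real zero (helper44)
-/

set_option autoImplicit false

namespace Pool.MP_dd84fd_nt.EF

open Finset Pool.MP_67663b_nt.Odd Pool.MP_dd84fd_nt.En Pool.MP_dd84fd_nt.E2 Pool.MP_dd84fd_nt.LS
open Pool.MP_dd84fd_nt.GX Pool.MP_dd84fd_nt.HX Pool.MP_dd84fd_nt.IX
open Pool.MP_dd84fd_nt.BX (PC pv IsPC PR SX sN prc ind Rm cf GauBD h0 cP)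

/-- a larger `N` in `NuC` -/
theorem nuC_mono (N N' M X : ℕ) (Y : Finset PC) (hN : 1 ≤ N) (hNN : N ≤ N') (hX : 1 ≤ X)
    (hL : 0 < Real.log X) (h : NuC N M X Y) : NuC N' M X Y := by
  have hXR : (1 : ℝ) ≤ X := by exact_mod_cast hX
  have hNR : (0 : ℝ) < N := by exact_mod_cast hN
  have hNR' : (N : ℝ) ≤ N' := by exact_mod_cast hNN
  have hpow : (X : ℝ) ^ (1 / (N' : ℝ)) ≤ (X : ℝ) ^ (1 / (N : ℝ)) :=
    Real.rpow_le_rpow_of_exponent_le hXR (one_div_le_one_div_of_le hNR hNR')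
  intro ψ hψ
  obtain ⟨⟨x, H, w1, w2, w3, w4, w5, w6⟩, w⟩ := h ψ hψ
  refine ⟨⟨x, H, w1, w2, w3, w4, w5, le_trans ?_ w6⟩, fun hs => ?_⟩
  · exact div_le_div_of_nonneg_left w1.le hNR hNR'
  · obtain ⟨v1, ⟨β, z1, z2, z3⟩, v2⟩ := w (hs.trans hpow)
    refine ⟨v1, ⟨β, le_trans ?_ z1, z2, z3⟩, fun ψ' hψ' hs' => v2 ψ' hψ' (hs'.trans hpow)⟩
    have e1 : (N : ℝ) / Real.log X ≤ N' / Real.log X := div_le_div_of_nonneg_right hNR' hL.le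
    linarith

/-- the explicit formula with the set `D` and the real zero -/
theorem cor_s (hS : ScaleQ) (hG : GauBD) (hR : RzF) : ∀ θ ε : ℝ, 1 / 3 ≤ θ → 0 < ε →
    ∃ C : ℕ, ∀ ν : ℝ, 0 < ν → ∃ N : ℕ, 1 ≤ N ∧ ∀ A : ℕ, ∃ B M : ℕ, ∀ K : ℕ, ∃ X0 : ℕ, ∀ X : ℕ,
      X0 ≤ X → ∀ δ : ℝ, 1 / Real.log X ^ A ≤ δ → δ ≤ 1 → ∃ Y : Finset PC, ∃ D : Finset ℕ,
        CoD θ ε C N K X δ Y D ∧ FnC θ ε C B M K X δ Y ∧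
        (ν ≤ δ → (D.filter (fun d : ℕ => (d : ℝ) < (X : ℝ) ^ (1 / (N : ℝ)))).card ≤ 1 ∧
          NuC N M X Y) := by
  intro θ ε h1 hε
  obtain ⟨C0, hC0⟩ := fin_s hS hG hR θ (ε / 2) h1 (by linarith)
  obtain ⟨C, hC⟩ := cor_core θ ε hε C0
  refine ⟨C, fun ν hν => ?_⟩
  obtain ⟨N, hN, hC0⟩ := hC0 (ν / 2) (by linarith)
  obtain ⟨N', hN', hC⟩ := hC ν hν N hN
  refine ⟨N', by omega, fun A => ?_⟩
  obtain ⟨B, M, hB⟩ := hC0 (A + 1)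
  refine ⟨B, M, fun K => ?_⟩
  obtain ⟨X1, hX1⟩ := hB (K + (148 * A + 1))
  obtain ⟨X2, hX2⟩ := hC A K
  obtain ⟨X3, hX3⟩ := MP_log_large 1
  refine ⟨max X1 (max X2 (max X3 1)), fun X hX δ hδ hδ1 => ?_⟩
  simp only [max_le_iff] at hX
  obtain ⟨x1, x2, x3, x4⟩ := hX
  have hL := hX3 X x3
  obtain ⟨a1, a2⟩ := hX2 X x2 δ hδ hδ1
  obtain ⟨Y, hY, hQ⟩ := hX1 X x1 (δ / 2) a1 (by linarith)
  obtain ⟨b1, D, b2, b3⟩ := a2 B M Y (ν ≤ δ) hY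
    (fun h => ⟨h, fun ψ hψ hs => ((hQ (by linarith) ψ hψ).2 hs).2.2⟩)
  exact ⟨Y, D, b2, b1, fun hνδ => ⟨b3 hνδ,
    nuC_mono N N' M X Y hN (by omega) x4 (by linarith) (hQ (by linarith))⟩⟩

end Pool.MP_dd84fd_nt.EF
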