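import Pool.Agent.Lib.MP_dd84fd_nt.EF.Cor
import Pool.Agent.Lib.MP_dd84fd_nt.XP.WinA
import Pool.Agent.Lib.MP_dd84fd_nt.XP.Every

/-!
# EF-CorW: windows and intervals, uniform in `δ` (helper44)
-/

set_option autoImplicit false

namespace Pool.MP_dd84fd_nt.EF

open Finset Pool.MP_67663b_nt.Odd Pool.MP_dd84fd_nt.En Pool.MP_dd84fd_nt.E2 Pool.MP_dd84fd_nt.LS
open Pool.MP_dd84fd_nt.GX Pool.MP_dd84fd_nt.HX Pool.MP_dd84fd_nt.IX
open Pool.MP_dd84fd_nt.BX (PC pv IsPC PR SX sN prc ind Rm cf GauBD h0 cP)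

open Classical in
/-- for all but `X^(θ+ε)` of the `n ≤ X` and every `W`: at most `C δ^(-C) + W/(log X)^K` of the even `m`
in `[n, n+W]` fail -/
theorem cor_w (hS : ScaleG) (hG : GauBD) : ∀ θ ε : ℝ, 1 / 3 ≤ θ → 0 < ε →
    ∃ C : ℕ, ∀ A K : ℕ, ∃ X0 : ℕ, ∀ X : ℕ, X0 ≤ X → ∀ δ : ℝ, 1 / Real.log X ^ A ≤ δ → δ ≤ 1 →
      (((Icc 1 X).filter (fun n => ∃ W : ℕ, n + W ≤ X ∧ C / δ ^ C + W / Real.log X ^ K <
        (((Icc n (n + W)).filter (fun m : ℕ => Even m ∧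
          δ * (SS m * JJ m) < |(g m : ℝ) - SS m * JJ m|)).card : ℝ))).card : ℝ) ≤
            (X : ℝ) ^ (θ + ε) := by
  intro θ ε h1 hε
  obtain ⟨C0, N, h⟩ := cor_rg hS hG θ (ε / 2) h1 (by linarith)
  refine ⟨2 * C0, fun A K => ?_⟩
  obtain ⟨B, M, h⟩ := h (A + 1)
  obtain ⟨X1, h⟩ := h (K + (A * C0 + 1) + 2)
  obtain ⟨X2, hw⟩ := XP.win_at (θ := θ) (ε := ε) (by linarith) hε (A * C0 + 1) K
  obtain ⟨X3, hX3⟩ := MP_log_large (C0 + 1 / θ ^ (A + 1) + 1)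
  have hθ0 : 0 < θ := by linarith
  have ht : Filter.Tendsto (fun X : ℕ => (X : ℝ) ^ θ) Filter.atTop Filter.atTop :=
    (tendsto_rpow_atTop hθ0).comp tendsto_natCast_atTop_atTop
  obtain ⟨X4, hX4⟩ := Filter.eventually_atTop.1 (ht.eventually_ge_atTop (X1 : ℝ))
  refine ⟨max X2 (max X3 (max X4 1)), fun X hX δ hδ hδ1 => ?_⟩
  simp only [max_le_iff] at hX
  obtain ⟨x2, x3, x4, x5⟩ := hX
  have hL := hX3 X x3
  have hθA : 0 < θ ^ (A + 1) := by positivity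
  have hq : 0 < 1 / θ ^ (A + 1) := by positivity
  have hC0R : (0 : ℝ) ≤ C0 := Nat.cast_nonneg _
  have hL1 : 1 ≤ Real.log X := by linarith
  have hL0 : 0 < Real.log X := by linarith
  have hXR : (1 : ℝ) ≤ X := by exact_mod_cast x5
  have hXp : (0 : ℝ) < X := by linarith
  have hδ0 : 0 < δ := lt_of_lt_of_le (by positivity) hδ
  have hδL : 1 / δ ≤ Real.log X ^ A := by
    rw [div_le_iff₀ hδ0]
    rw [div_le_iff₀ (by positivity)] at hδ
    linarith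
  obtain ⟨M0, hM0⟩ : ∃ M0 : ℕ, M0 = ⌊(C0 : ℝ) / δ ^ C0⌋₊ := ⟨_, rfl⟩
  have hMle : (M0 : ℝ) ≤ C0 / δ ^ C0 := by rw [hM0]; exact Nat.floor_le (by positivity)
  have hML : (M0 : ℝ) ≤ Real.log X ^ (A * C0 + 1) := by
    refine hMle.trans ?_
    have e1 : (1 / δ) ^ C0 ≤ (Real.log X ^ A) ^ C0 := pow_le_pow_left₀ (by positivity) hδL C0
    calc (C0 : ℝ) / δ ^ C0 = C0 * (1 / δ) ^ C0 := by rw [_root_.div_pow, one_pow]; ring
      _ ≤ Real.log X * (Real.log X ^ A) ^ C0 :=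
          mul_le_mul (by linarith) e1 (by positivity) hL0.le
      _ = _ := by rw [← pow_mul, pow_succ]; ring
  have hwin := hw X x2 (fun m : ℕ => δ * (SS m * JJ m) < |(g m : ℝ) - SS m * JJ m|) M0 hML ?_
  · refine le_trans ?_ hwin
    have hsub : (Icc 1 X).filter (fun n => ∃ W : ℕ, n + W ≤ X ∧
        ((2 * C0 : ℕ) : ℝ) / δ ^ (2 * C0) + W / Real.log X ^ K <
        (((Icc n (n + W)).filter (fun m : ℕ => Even m ∧
          δ * (SS m * JJ m) < |(g m : ℝ) - SS m * JJ m|)).card : ℝ)) ⊆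
        (Icc 1 X).filter (fun n => ∃ W : ℕ, n + W ≤ X ∧ 2 * (M0 : ℝ) + W / Real.log X ^ K <
        (((Icc n (n + W)).filter (fun m : ℕ => Even m ∧
          δ * (SS m * JJ m) < |(g m : ℝ) - SS m * JJ m|)).card : ℝ)) := by
      intro n hn
      rw [mem_filter] at hn ⊢
      obtain ⟨n1, W, n2, n3⟩ := hn
      refine ⟨n1, W, n2, lt_of_le_of_lt ?_ n3⟩
      have e1 : 2 * (C0 : ℝ) / δ ^ C0 ≤ 2 * C0 / δ ^ (2 * C0) := by
        refine div_le_div_of_nonneg_left (by positivity) (by positivity) ?_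
        exact pow_le_pow_of_le_one hδ0.le hδ1 (by omega)
      have e2 : 2 * (M0 : ℝ) ≤ 2 * C0 / δ ^ C0 := by
        rw [mul_div_assoc]
        linarith
      push_cast
      linarith
    exact_mod_cast card_le_card hsub
  · intro Y hY1 hY2
    have hYX : (X : ℝ) ^ θ ≤ Y := hY1
    have hYR : (1 : ℝ) ≤ Y := (Real.one_le_rpow hXR hθ0.le).trans hYX
    have hlY : θ * Real.log X ≤ Real.log Y := by
      rw [← Real.log_rpow hXp]
      exact Real.log_le_log (by positivity) hYX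
    have hlY0 : 0 < Real.log Y := lt_of_lt_of_le (by positivity) hlY
    have hY0 : X1 ≤ Y := by
      have : (X1 : ℝ) ≤ Y := (hX4 X x4).trans hYX
      exact_mod_cast this
    have hδY : 1 / Real.log Y ^ (A + 1) ≤ δ := by
      refine le_trans ?_ hδ
      rw [div_le_div_iff₀ (by positivity) (by positivity), one_mul, one_mul]
      have e1 : (θ * Real.log X) ^ (A + 1) ≤ Real.log Y ^ (A + 1) :=
        pow_le_pow_left₀ (by positivity) hlY _
      refine le_trans ?_ e1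
      rw [mul_pow, pow_succ (Real.log X)]
      have e2 : 1 ≤ θ ^ (A + 1) * Real.log X := by
        have : 1 / θ ^ (A + 1) ≤ Real.log X := by linarith
        rw [div_le_iff₀ hθA] at this
        linarith
      have e3 : 0 ≤ Real.log X ^ A := by positivity
      nlinarith
    obtain ⟨YY, -, D, d1, d2, d3⟩ := h Y hY0 δ hδY hδ1
    refine ⟨D, ?_, fun d hd => (d2 d hd).1, d3⟩
    rw [hM0]
    exact Nat.le_floor d1

open Classical in
/-- every interval of length `≥ X^(θ+ε)` -/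
theorem cor_e (hS : ScaleG) (hG : GauBD) : ∀ θ ε : ℝ, 1 / 3 ≤ θ → 0 < ε →
    ∀ A K : ℕ, ∃ X0 : ℕ, ∀ X : ℕ, X0 ≤ X → ∀ δ : ℝ, 1 / Real.log X ^ A ≤ δ → δ ≤ 1 →
      ∀ n W : ℕ, 1 ≤ n → n + W ≤ X → (X : ℝ) ^ (θ + ε) ≤ W →
        (((Icc n (n + W)).filter (fun m : ℕ => Even m ∧
          δ * (SS m * JJ m) < |(g m : ℝ) - SS m * JJ m|)).card : ℝ) ≤ W / Real.log X ^ K := by
  intro θ ε h1 hε A K
  obtain ⟨C, h⟩ := cor_w hS hG θ (ε / 2) h1 (by linarith)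
  obtain ⟨X1, h⟩ := h A (K + 1)
  obtain ⟨X2, hw⟩ := XP.every_log (θ := θ) (ε := ε) (by linarith) hε (A * C + 1) K
  obtain ⟨X3, hX3⟩ := MP_log_large (C + 1)
  refine ⟨max X1 (max X2 X3), fun X hX δ hδ hδ1 => ?_⟩
  simp only [max_le_iff] at hX
  obtain ⟨x1, x2, x3⟩ := hX
  have hL := hX3 X x3
  have hCR : (0 : ℝ) ≤ C := Nat.cast_nonneg _
  have hL0 : 0 < Real.log X := by linarith
  have hδ0 : 0 < δ := lt_of_lt_of_le (by positivity) hδ
  have hδL : 1 / δ ≤ Real.log X ^ A := by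
    rw [div_le_iff₀ hδ0]
    rw [div_le_iff₀ (by positivity)] at hδ
    linarith
  refine hw X x2 _ (C / δ ^ C) ?_ (h X x1 δ hδ hδ1)
  have e1 : (1 / δ) ^ C ≤ (Real.log X ^ A) ^ C := pow_le_pow_left₀ (by positivity) hδL C
  calc (C : ℝ) / δ ^ C = C * (1 / δ) ^ C := by rw [_root_.div_pow, one_pow]; ring
    _ ≤ Real.log X * (Real.log X ^ A) ^ C :=
        mul_le_mul (by linarith) e1 (by positivity) hL0.le
    _ = _ := by rw [← pow_mul, pow_succ]; ring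

end Pool.MP_dd84fd_nt.EF
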