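import Pool.Agent.Lib.MP_dd84fd_nt.BY.ArDefs
import Pool.Agent.Lib.MP_dd84fd_nt.BX.AsDefs
import Pool.Agent.Lib.MP_dd84fd_nt.JX.JF2
import Pool.Agent.Lib.MP_dd84fd_nt.HX.TrStep

/-!
# Project EF (MP_dd84fd_nt): the explicit formula with `X^(1/3 + ε)` exceptions: definitions

Paper: /team-store/EF_paper_h39.md (helper39).  `PC`, `pv`, `IsPC`, `PR`: BX/Defs; `SX`, `sN`, `ind`, `prc`,
`Rm`, `cf`: BX/AsDefs; `tq`: LX/PwDefs; `QQi`, `rdi`, `dsc`: IX/FaDefs, HX/FaDefs; `FFL`, `PhU`: LX/Defs.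
`cc`: coefficient of a pair of characters modulo `q`; `VP`: the part of the characters in `Y`; `dV`: its
square on the discs of one denominator; `av`: average over `s ∈ [v, 2v]` with respect to `ds/s`.
-/

set_option autoImplicit false

namespace Pool.MP_dd84fd_nt.EF

open Finset Pool.MP_67663b_nt.Odd Pool.MP_dd84fd_nt.En Pool.MP_dd84fd_nt.E2 Pool.MP_dd84fd_nt.LS
open Pool.MP_dd84fd_nt.GX Pool.MP_dd84fd_nt.HX Pool.MP_dd84fd_nt.IX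
open Pool.MP_dd84fd_nt.PL (rr)
open Pool.MP_dd84fd_nt.JX (wP gP DecJ Adm AdmP Str)
open Pool.MP_dd84fd_nt.LX (FFL DecW PhU)
open Pool.MP_dd84fd_nt.LXP (tq)
open Pool.MP_dd84fd_nt.BX (PC pv IsPC PR SX sN prc ind Rm cf N2d DiscH)

/-! ### Characters -/

open Classical in
/-- the coefficient of a pair of characters modulo `q` -/
noncomputable def cc (q n : ℕ) (ψ₁ ψ₂ : PC) : ℂ :=
  if h : q = 0 then 0 else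
    haveI : NeZero q := ⟨h⟩
    tq q (ind q ψ₁)⁻¹ * tq q (ind q ψ₂)⁻¹ * Rm q n (ind q ψ₁ * ind q ψ₂) /
      (Nat.totient q : ℂ) ^ 2

open Classical in
/-- the part of the exponential sum over the primes at `a/q + x` which belongs to the characters
in `Y` -/
noncomputable def VP (X : ℕ) (Y : Finset PC) (q a : ℕ) (x : ℝ) : ℂ :=
  if h : q = 0 then 0 else
    haveI : NeZero q := ⟨h⟩
    (1 / (Nat.totient q : ℂ)) * ∑ ψ ∈ Y.filter (fun ψ => ψ.1 ∣ q),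
      tq q (ind q ψ)⁻¹ * (ind q ψ) (a : ZMod q) * SX X ψ x

/-- the integral of `VP² e(-n .)` over the discs of radius `v/X` with denominator `q` -/
noncomputable def dV (X : ℕ) (Y : Finset PC) (n q : ℕ) (v : ℝ) : ℂ :=
  ∑ a ∈ rr q, ∫ x in (-(v / X))..(v / X),
    VP X Y q a x ^ 2 * ee (-((n : ℝ) * ((a : ℝ) / q + x)))

/-- average over `s = v u`, `1 ≤ u ≤ 2`, with respect to `du/u` -/
noncomputable def av (Φ : ℝ → ℂ) (v : ℝ) : ℂ :=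
  ((1 / Real.log 2 : ℝ) : ℂ) * ∫ u in (1 : ℝ)..2, Φ (v * u) * ((1 / u : ℝ) : ℂ)

/-- `∫ S_ψ₁ S_ψ₂ e(-n x)` over `|x| ≤ v/X` -/
noncomputable def IS (X n : ℕ) (ψ₁ ψ₂ : PC) (v : ℝ) : ℂ :=
  ∫ x in (-(v / X))..(v / X), SX X ψ₁ x * SX X ψ₂ x * ee (-((n : ℝ) * x))

/-- the integral of the explicit formula, smooth cut-off at `T/X` -/
noncomputable def II (X n : ℕ) (T : ℝ) (ψ₁ ψ₂ : PC) : ℂ := av (IS X n ψ₁ ψ₂) T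

/-- the singular series of a pair of characters -/
noncomputable def SP (n : ℕ) (ψ₁ ψ₂ : PC) : ℂ :=
  ∑' q : ℕ, if ψ₁.1 ∣ q ∧ ψ₂.1 ∣ q then cc q n ψ₁ ψ₂ else 0

open Classical in
/-- the primitive characters with modulus in `(Z, R]` and norm `> L^(-A')` -/
noncomputable def YE (X : ℕ) (T Z R : ℝ) (A' : ℕ) : Finset PC :=
  (PR ⌊R⌋₊).filter (fun ψ => Z < (ψ.1 : ℝ) ∧ 1 / (Real.log X) ^ A' < sN X T ψ)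

/-- `X^(1 - th + 3e/2)` -/
noncomputable def RE (th e : ℝ) (X : ℕ) : ℝ := (X : ℝ) ^ (1 - th + 3 / 2 * e)

/-- the range of the denominators -/
def ZE (X : ℕ) : ℕ := X ^ 16

/-! ### The tree -/

/-- `E` is well spread modulo every `q` outside the structured set -/
def NoQ (e : ℝ) (X Λ : ℕ) (bb : ℝ) (E : Finset ℕ) (ρ : ℝ) : Prop :=
  ∀ (q : ℕ) (y : ℝ), 1 ≤ q → 1 ≤ y →
    (X : ℝ) ^ (e / 10) * Λ * bb < (Nat.lcm Λ q : ℝ) * max bb y →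
    ∀ E' ⊆ E, Thin X q y E' → (E'.card : ℝ) ≤ ρ * E.card

/-- the exponent of the tree -/
noncomputable def etaF (e : ℝ) : ℝ := e / (2 * ((⌈10 / e⌉₊ + 1 : ℕ) : ℝ))

/-- the tree theorem for two functionals: `PhU` with weights supported outside the structured set,
and any `Ψ` which is small on well spread sets -/
def TreeF : Prop := ∀ (A C CV : ℕ) (th e τ : ℝ), Adm th e τ → ∃ X0 : ℕ, ∀ X : ℕ, X0 ≤ X →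
  ∀ (G : ℕ) [NeZero G], X ^ 5 ≤ G → ∀ U : ZMod G → ℂ, VBH G X CV U → ∀ v : ℕ → ℝ,
    Str C th e τ X v → ∀ Ω : ℕ → ℝ → ZMod G → ℂ, (∀ Λ bb j, ‖Ω Λ bb j‖ ≤ 1) →
    (∀ Λ bb j, Ω Λ bb j ≠ 0 → wSI G th e X Λ bb j ≠ 0) → ∀ Ψ : ℕ → ℝ → ℕ → ℂ,
    (∀ (Λ : ℕ) (bb : ℝ), 1 ≤ Λ → 1 ≤ bb → (Λ : ℝ) * bb ≤ (X : ℝ) ^ (1 - th + e) →
      ∀ E : Finset ℕ, E ⊆ Icc 1 X → NoQ e X Λ bb E ((X : ℝ) ^ (-(etaF e))) →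
      ∀ ph : ℕ → ℂ, (∀ n, ‖ph n‖ ≤ 1) →
        ‖∑ n ∈ E, ph n * Ψ Λ bb n‖ ≤ X / (Real.log X) ^ (A + 1) * E.card) →
    ∀ Bx : Finset ℕ, Bx ⊆ Icc 1 X →
    (∀ n ∈ Bx, ∀ (Λ : ℕ) (bb : ℝ), 1 ≤ Λ → 1 ≤ bb → (Λ : ℝ) * bb ≤ (X : ℝ) ^ (1 - th + e) →
      (X : ℝ) / (Real.log X) ^ A < ‖PhU G X U v (Ω Λ bb) n‖ + ‖Ψ Λ bb n‖) →
    (Bx.card : ℝ) ≤ (X : ℝ) ^ (th - e / 4)

open Classical in
/-- the secondary terms outside the structured set -/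
noncomputable def PsiF (X : ℕ) (Y : Finset PC) (T th e : ℝ) (Λ : ℕ) (bb : ℝ) (n : ℕ) : ℂ :=
  ∑ q ∈ Icc 1 (ZE X), (av (dV X Y n q) T -
    if q ∈ QQi th e X Λ then av (dV X Y n q) (min (rdi th e X Λ bb q) T) else 0)

/-- (SPREAD) the secondary terms outside the structured set are small on well spread sets -/
def SpreadF : Prop := ∀ (C B A : ℕ) (th e τ η : ℝ), Adm th e τ → 0 < η → ∃ X0 : ℕ, ∀ X : ℕ,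
  X0 ≤ X → ∀ Y : Finset PC, (∀ ψ ∈ Y, IsPC ψ) → (Y.card : ℝ) ≤ (Real.log X) ^ C → ∀ T : ℝ,
    1 ≤ T → T ≤ (Real.log X) ^ B → ∀ (Λ : ℕ) (bb : ℝ), 1 ≤ Λ → 1 ≤ bb →
    (Λ : ℝ) * bb ≤ (X : ℝ) ^ (1 - th + e) → ∀ E : Finset ℕ, E ⊆ Icc 1 X →
    NoQ e X Λ bb E ((X : ℝ) ^ (-η)) → ∀ ph : ℕ → ℂ, (∀ n, ‖ph n‖ ≤ 1) →
      ‖∑ n ∈ E, ph n * PsiF X Y T th e Λ bb n‖ ≤ X / (Real.log X) ^ A * E.card

/-! ### The discs -/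

open Classical in
/-- the denominators with `q ≤ L^K1 (q,n)` -/
noncomputable def Qs (th e : ℝ) (X Λ n K1 : ℕ) : Finset ℕ :=
  (QQi th e X Λ).filter (fun q : ℕ => (q : ℝ) ≤ (Real.log X) ^ K1 * (Nat.gcd q n : ℝ))

/-- (DISC) the averaged discs reduce to the denominators with `q ≤ L^K1 (q,n)` and radii `≤ T` -/
def DiscF : Prop := ∀ A : ℕ, ∃ B : ℕ, ∀ K0 C1 C2 : ℕ, ∃ K1 K2 : ℕ, ∀ th e τ : ℝ, Adm th e τ →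
  ∀ ww1 gg1 ww2 gg2 : ℕ → ℕ → ℝ, W1 K0 C1 ww1 gg1 → DecW B C2 th e τ ww1 → W1 K0 C1 ww2 gg2 →
  DecJ B C2 th e τ ww2 → ∀ D' : ℕ, 1 ≤ D' → ∀ K1' : ℕ, K1 ≤ K1' → ∃ X0 : ℕ, ∀ X : ℕ, X0 ≤ X →
  ∀ s1 s2 : ℝ, |s1| ≤ 1 → |s2| ≤ 1 → ∀ n : ℕ, X < 2 * n → n ≤ X → ∀ (Λ : ℕ) (bb : ℝ), 1 ≤ Λ →
    1 ≤ bb → (Λ : ℝ) * bb ≤ (X : ℝ) ^ (1 - th + e) → ∀ T : ℝ, 2 * (Real.log X) ^ K2 ≤ T →
    ‖∑ q ∈ QQi th e X Λ, av (dsc (FFL ww1 gg1 s1 ww2 gg2 s2 (wX D' X) X n) X q)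
        (rdi th e X Λ bb q) -
      ∑ q ∈ Qs th e X Λ n K1', av (dsc (FFL ww1 gg1 s1 ww2 gg2 s2 (wX D' X) X n) X q)
        (min (rdi th e X Λ bb q) T)‖ ≤ X / (Real.log X) ^ A

/-- (GEN) outside a small set the convolution is the sum of the averaged discs and the secondary
terms outside the structured set are small -/
def GenF : Prop := ∀ A : ℕ, ∃ B : ℕ, ∀ (K0 C1 C2 : ℕ) (th e τ : ℝ), Adm th e τ →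
  ∀ ww1 gg1 ww2 gg2 : ℕ → ℕ → ℝ, W1 K0 C1 ww1 gg1 → W1 K0 C1 ww2 gg2 →
  DecJ B C2 th e τ ww2 → ∀ D' : ℕ, 1 ≤ D' → ∀ C Bt : ℕ, ∃ X0 : ℕ, ∀ X : ℕ, X0 ≤ X →
  ∀ s1 s2 : ℝ, |s1| ≤ 1 → |s2| ≤ 1 → ∀ Y : Finset PC, (∀ ψ ∈ Y, IsPC ψ) →
    (Y.card : ℝ) ≤ (Real.log X) ^ C → ∀ T : ℝ, 1 ≤ T → T ≤ (Real.log X) ^ Bt →
    ∃ Ex : Finset ℕ, (Ex.card : ℝ) ≤ (X : ℝ) ^ (th - e / 4) ∧
    ∀ n : ℕ, X < 2 * n → n ≤ X → n ∉ Ex → ∃ (Λ : ℕ) (bb : ℝ), 1 ≤ Λ ∧ 1 ≤ bb ∧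
      (Λ : ℝ) * bb ≤ (X : ℝ) ^ (1 - th + e) ∧
      ‖((cvv (fun m => ww1 X m + s1 * fI gg1 X (wX D' X) m)
          (fun m => ww2 X m + s2 * fI gg2 X (wX D' X) m) n : ℝ) : ℂ) -
        ∑ q ∈ QQi th e X Λ, av (dsc (FFL ww1 gg1 s1 ww2 gg2 s2 (wX D' X) X n) X q)
          (rdi th e X Λ bb q)‖ ≤ X / (Real.log X) ^ A ∧
      ‖PsiF X Y T th e Λ bb n‖ ≤ X / (Real.log X) ^ A

/-- (NAR) `W_-` is close, in `L²` on the discs, to the part of the characters in `YE`; `A'` does not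
depend on `K1` -/
def NarF : Prop := ∀ A K2 : ℕ, ∃ A' : ℕ, ∀ th e : ℝ, AdmP th e → ∀ K1 K' : ℕ, ∃ D0 : ℕ,
  ∀ D' : ℕ, D0 ≤ D' → ∃ X0 : ℕ, ∀ X : ℕ, X0 ≤ X → ∀ (n : ℕ) (QQ : Finset ℕ) (N : ℝ)
    (ρ : ℕ → ℝ), DiscH e th K1 K2 X n QQ N ρ →
    N2d X ρ QQ (fun q a x => WI wP gP (-1) (wX D' X) X ((a : ℝ) / q + x) -
      VP X (YE X (4 * (Real.log X) ^ K2) ((Real.log X) ^ K') (RE th e X) A') q a x) ≤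
      X / (Real.log X) ^ A

/-- (ARC) on the discs `W_+ W_-` may be replaced by the square of the part of the characters -/
def ArcF : Prop := ∀ A K2 : ℕ, ∃ A' : ℕ, ∀ th e : ℝ, AdmP th e → ∀ K1 K' : ℕ, K1 < K' →
  ∃ D0 : ℕ, ∀ D' : ℕ, D0 ≤ D' → ∃ X0 : ℕ, ∀ X : ℕ, X0 ≤ X → ∀ (n : ℕ) (QQ : Finset ℕ) (N : ℝ)
    (ρ : ℕ → ℝ), DiscH e th K1 K2 X n QQ N ρ →
    ∑ q ∈ QQ, ‖dsc (FFL wP gP 1 wP gP (-1) (wX D' X) X n) X q (ρ q) -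
      dV X (YE X (4 * (Real.log X) ^ K2) ((Real.log X) ^ K') (RE th e X) A') n q (ρ q)‖ ≤
      X / (Real.log X) ^ A

/-! ### Characters: number and coefficients -/

/-- (CNT) the number of characters; a character with large norm has a large sum over primes -/
def CntF : Prop := ∀ A' K2 : ℕ, ∃ C : ℕ, ∀ th e : ℝ, AdmP th e → ∃ X0 : ℕ, ∀ X : ℕ, X0 ≤ X →
  ∀ Z : ℝ, 1 ≤ Z →
    ((YE X (4 * (Real.log X) ^ K2) Z (RE th e X) A').card : ℝ) ≤ (Real.log X) ^ C ∧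
    ∀ ψ ∈ YE X (4 * (Real.log X) ^ K2) Z (RE th e X) A', ∃ y : ℕ,
      (X : ℝ) ^ (1 / 11 : ℝ) ≤ y ∧ y ≤ X ∧
      (y : ℝ) / (Real.log X) ^ C < ‖∑ p ∈ (Icc 1 y).filter Nat.Prime, ψ.2 (p : ZMod ψ.1)‖

open Classical in
/-- (TAIL) the denominators with `q > L^K1 (q,n)` contribute little to the secondary terms -/
def TailF : Prop := ∀ C B A : ℕ, ∃ K1 X0 : ℕ, ∀ X : ℕ, X0 ≤ X → ∀ Y : Finset PC,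
  (∀ ψ ∈ Y, IsPC ψ ∧ ψ.1 ≤ X) → (Y.card : ℝ) ≤ (Real.log X) ^ C → ∀ ρ : ℕ → ℝ,
    (∀ q, 0 ≤ ρ q ∧ ρ q ≤ (Real.log X) ^ B) → ∀ n : ℕ, 1 ≤ n → n ≤ X →
    ∑ q ∈ (Icc 1 (ZE X)).filter (fun q : ℕ => ¬ (q : ℝ) ≤ (Real.log X) ^ K1 * (Nat.gcd q n : ℝ)),
      ‖dV X Y n q (ρ q)‖ ≤ X / (Real.log X) ^ A

open Classical in
/-- (SER) the series: absolutely convergent, the tail is small -/
def SerF : Prop := ∃ X0 : ℕ, ∀ X : ℕ, X0 ≤ X → ∀ n : ℕ, 1 ≤ n → n ≤ X → ∀ ψ₁ ψ₂ : PC,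
  IsPC ψ₁ → IsPC ψ₂ → ψ₁.1 ≤ X → ψ₂.1 ≤ X →
    (Summable fun q : ℕ => ‖if ψ₁.1 ∣ q ∧ ψ₂.1 ∣ q then cc q n ψ₁ ψ₂ else 0‖) ∧
    ‖SP n ψ₁ ψ₂ - ∑ q ∈ (Icc 1 (ZE X)).filter (fun q => ψ₁.1 ∣ q ∧ ψ₂.1 ∣ q), cc q n ψ₁ ψ₂‖ ≤
      (X : ℝ) ^ (-(1 / 8) : ℝ)

/-! ### One scale -/

/-- the explicit formula at one scale -/
def ScaleF : Prop := ∀ A : ℕ, ∃ C B : ℕ, ∀ th e : ℝ, AdmP th e → ∀ K : ℕ, ∃ X0 : ℕ, ∀ X : ℕ,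
  X0 ≤ X → ∃ (Y : Finset PC) (Ex : Finset ℕ), (Y.card : ℝ) ≤ (Real.log X) ^ C ∧
    (∀ ψ ∈ Y, IsPC ψ ∧ (Real.log X) ^ K ≤ (ψ.1 : ℝ) ∧ (ψ.1 : ℝ) ≤ RE th e X ∧ ∃ y : ℕ,
      (X : ℝ) ^ (1 / 11 : ℝ) ≤ y ∧ y ≤ X ∧
      (y : ℝ) / (Real.log X) ^ C < ‖∑ p ∈ (Icc 1 y).filter Nat.Prime, ψ.2 (p : ZMod ψ.1)‖) ∧
    (Ex.card : ℝ) ≤ (X : ℝ) ^ (th - e / 4) ∧
    ∀ n : ℕ, X < 2 * n → n ≤ X → Even n → n ∉ Ex →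
      ‖(((g n : ℝ) - SS n * JJ n : ℝ) : ℂ) -
        ∑ ψ₁ ∈ Y, ∑ ψ₂ ∈ Y, SP n ψ₁ ψ₂ * II X n ((Real.log X) ^ B) ψ₁ ψ₂‖ ≤
        X / (Real.log X) ^ A

end Pool.MP_dd84fd_nt.EF
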