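import Pool.Agent.Lib.MP_dd84fd_nt.EF.DefsG

/-!
# Project EF: the explicit formula, uniform in the error, with the norms of the characters (helper39)

`ScaleH`: `ScaleG` and in addition every character in `Y` has norm `sN ≥ (δ/C)^9`.
-/

set_option autoImplicit false

namespace Pool.MP_dd84fd_nt.EF

open Finset Pool.MP_67663b_nt.Odd Pool.MP_dd84fd_nt.En Pool.MP_dd84fd_nt.E2 Pool.MP_dd84fd_nt.LS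
open Pool.MP_dd84fd_nt.GX Pool.MP_dd84fd_nt.HX Pool.MP_dd84fd_nt.IX
open Pool.MP_dd84fd_nt.PL (rr)
open Pool.MP_dd84fd_nt.JX (wP gP DecJ Adm AdmP Str)
open Pool.MP_dd84fd_nt.LX (FFL DecW PhU)
open Pool.MP_dd84fd_nt.LXP (tq)
open Pool.MP_dd84fd_nt.BX (PC pv IsPC PR SX sN prc Rm cf N2d DiscH)

/-- the explicit formula at one scale, uniform in `δ`, with the norms of the characters -/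
def ScaleH : Prop := ∀ th e : ℝ, AdmP th e → ∃ C : ℝ, 0 < C ∧ ∀ A : ℕ, ∃ B M : ℕ, ∀ K : ℕ,
  ∃ X0 : ℕ, ∀ X : ℕ, X0 ≤ X → ∀ δ : ℝ, 1 / (Real.log X) ^ A ≤ δ → δ ≤ 1 →
  ∃ (Y : Finset PC) (Ex : Finset ℕ), (Y.card : ℝ) ≤ C / δ ^ 18 ∧
    (∀ ψ ∈ Y, IsPC ψ ∧ (Real.log X) ^ K ≤ (ψ.1 : ℝ) ∧ (ψ.1 : ℝ) ≤ RE th e X ∧
      (δ / C) ^ 9 ≤ sN X (4 * (Real.log X) ^ B) ψ ∧ ∃ y : ℕ,
      (X : ℝ) ^ (1 / 11 : ℝ) ≤ y ∧ y ≤ X ∧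
      (y : ℝ) / (Real.log X) ^ M < ‖∑ p ∈ (Icc 1 y).filter Nat.Prime, ψ.2 (p : ZMod ψ.1)‖) ∧
    (Ex.card : ℝ) ≤ (X : ℝ) ^ (th - e / 4) ∧
    ∀ n : ℕ, X < 2 * n → n ≤ X → Even n → n ∉ Ex →
      ‖(((g n : ℝ) - SS n * JJ n : ℝ) : ℂ) -
        ∑ ψ₁ ∈ Y, ∑ ψ₂ ∈ Y, SP n ψ₁ ψ₂ * II X n ((Real.log X) ^ B) ψ₁ ψ₂‖ ≤
        δ * ((n : ℝ) / (Nat.totient n : ℝ)) * (X / (Real.log X) ^ 2)

theorem scaleG_of_H (h : ScaleH) : ScaleG := by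
  intro th e hP
  obtain ⟨C, hC, h⟩ := h th e hP
  refine ⟨C, hC, fun A => ?_⟩
  obtain ⟨B, M, h⟩ := h A
  refine ⟨B, M, fun K => ?_⟩
  obtain ⟨X0, h⟩ := h K
  refine ⟨X0, fun X hX δ h1 h2 => ?_⟩
  obtain ⟨Y, Ex, a1, a2, a3, a4⟩ := h X hX δ h1 h2
  exact ⟨Y, Ex, a1, fun ψ hψ => ⟨(a2 ψ hψ).1, (a2 ψ hψ).2.1, (a2 ψ hψ).2.2.1, (a2 ψ hψ).2.2.2.2⟩,
    a3, a4⟩

end Pool.MP_dd84fd_nt.EF
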