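import Pool.Agent.Lib.MP_dd84fd_nt.EF.DiscA

/-!
# EF-Disc: reduction of the averaged discs (helper39)
-/

set_option autoImplicit false

namespace Pool.MP_dd84fd_nt.EF

open Finset Pool.MP_67663b_nt.Odd Pool.MP_dd84fd_nt.En Pool.MP_dd84fd_nt.E2 Pool.MP_dd84fd_nt.LS
open Pool.MP_dd84fd_nt.GX Pool.MP_dd84fd_nt.HX Pool.MP_dd84fd_nt.IX
open Pool.MP_dd84fd_nt.PL (rr)
open Pool.MP_dd84fd_nt.JX (wP gP DecJ Adm AdmP Str qq_factsJ decJ_mono)
open Pool.MP_dd84fd_nt.LX (FFL DecW PhU dscG dsc_leG)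
open Pool.MP_dd84fd_nt.LXP (tq)
open Pool.MP_dd84fd_nt.BX (PC pv IsPC PR SX sN prc ind Rm cf N2d DiscH)

private theorem df_exI (A0 : ℕ) : ∃ X0 : ℕ, ∀ X : ℕ, X0 ≤ X → ∃ I : ℕ,
    4 * (Real.log X) ^ A0 ≤ (2 : ℝ) ^ I ∧ (2 : ℝ) ^ I ≤ (Real.log X) ^ (A0 + 1) ∧
    (I : ℝ) ≤ Real.log X := by
  obtain ⟨X1, hX1⟩ := MP_log_large 10
  have hlit : (fun L : ℝ => ((A0 : ℝ) + 1) * Real.log L) =o[Filter.atTop] (id : ℝ → ℝ) :=
    Asymptotics.IsLittleO.const_mul_left Real.isLittleO_log_id_atTop _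
  have hev : ∀ᶠ L : ℝ in Filter.atTop, ‖((A0 : ℝ) + 1) * Real.log L‖ ≤ 1 / 2 * ‖L‖ :=
    hlit.def (by norm_num)
  have h : Filter.Tendsto (fun n : ℕ => Real.log (n : ℝ)) Filter.atTop Filter.atTop :=
    Real.tendsto_log_atTop.comp tendsto_natCast_atTop_atTop
  obtain ⟨X2, hX2⟩ := Filter.eventually_atTop.1 (h.eventually hev)
  refine ⟨max X1 X2, fun X hX => ?_⟩
  have h1 : 10 ≤ Real.log (X : ℝ) := hX1 X ((le_max_left _ _).trans hX)
  have h2 := hX2 X ((le_max_right _ _).trans hX)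
  set L : ℝ := Real.log (X : ℝ) with hL
  have hL0 : 0 < L := by linarith
  have hp1 : 1 ≤ L ^ A0 := one_le_pow₀ (by linarith)
  set m : ℕ := ⌈4 * L ^ A0⌉₊ with hm
  have hm1 : 4 * L ^ A0 ≤ (m : ℝ) := Nat.le_ceil _
  have hm2 : (m : ℝ) ≤ 4 * L ^ A0 + 1 := (Nat.ceil_lt_add_one (by positivity)).le
  have hm3 : 1 < m := by
    have : (1 : ℝ) < (m : ℝ) := by linarith
    exact_mod_cast this
  have h3 : 4 * L ^ A0 ≤ (2 : ℝ) ^ (Nat.clog 2 m) := by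
    have : (m : ℝ) ≤ (2 : ℝ) ^ (Nat.clog 2 m) := by
      exact_mod_cast Nat.le_pow_clog (by norm_num) m
    linarith
  have h4 : (2 : ℝ) ^ (Nat.clog 2 m) ≤ L ^ (A0 + 1) := by
    have h5 : 2 ^ (Nat.clog 2 m).pred < m := Nat.pow_pred_clog_lt_self (by norm_num) hm3
    have h6 : 0 < Nat.clog 2 m := Nat.clog_pos (by norm_num) hm3
    have h7 : 2 ^ (Nat.clog 2 m) ≤ 2 * m := by
      obtain ⟨k, hk⟩ := Nat.exists_eq_succ_of_ne_zero h6.ne'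
      rw [hk] at h5 ⊢
      rw [Nat.pred_succ] at h5
      rw [pow_succ]
      omega
    have h8 : (2 : ℝ) ^ (Nat.clog 2 m) ≤ 2 * m := by exact_mod_cast h7
    calc (2 : ℝ) ^ (Nat.clog 2 m) ≤ 2 * m := h8
      _ ≤ 2 * (4 * L ^ A0 + 1) := by linarith
      _ ≤ 10 * L ^ A0 := by linarith
      _ ≤ L * L ^ A0 := by gcongr
      _ = L ^ (A0 + 1) := by ring
  refine ⟨Nat.clog 2 m, h3, h4, ?_⟩
  have h9 : ((Nat.clog 2 m : ℕ) : ℝ) * Real.log 2 ≤ ((A0 : ℝ) + 1) * Real.log L := by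
    have := Real.log_le_log (by positivity) h4
    rw [Real.log_pow, Real.log_pow] at this
    push_cast at this
    exact this
  have h10 : ((A0 : ℝ) + 1) * Real.log L ≤ 1 / 2 * L := by
    have h11 := (le_abs_self _).trans (h2 : |((A0 : ℝ) + 1) * Real.log L| ≤ 1 / 2 * |L|)
    rw [Real.norm_eq_abs, abs_of_pos hL0] at h11
    exact h11
  have h12 : (1 : ℝ) / 2 ≤ Real.log 2 := by
    have := Real.log_two_gt_d9
    linarith
  have h13 : ((Nat.clog 2 m : ℕ) : ℝ) * (1 / 2) ≤ ((Nat.clog 2 m : ℕ) : ℝ) * Real.log 2 :=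
    mul_le_mul_of_nonneg_left h12 (Nat.cast_nonneg _)
  linarith

/-- what is used of `F`: the annuli are small -/
private def Hpl (th e : ℝ) (F : ℝ → ℂ) (X n A K1 K2 A0 : ℕ) : Prop :=
  ∀ (QQ : Finset ℕ) (N b : ℝ) (bq : ℕ → ℝ), (∀ q ∈ QQ, 1 ≤ q ∧ b ≤ bq q ∧ bq q ≤ 2 * b) →
    (∀ q ∈ QQ, ∀ q' ∈ QQ, (Nat.lcm q q' : ℝ) ≤ N) → (QQ.card : ℝ) ≤ (X : ℝ) ^ (e / 2) →
    1 / (Real.log X) ^ (A0 + 1) ≤ b → N * b ≤ (X : ℝ) ^ (1 - th + 3 / 2 * e) →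
    ((Real.log X) ^ K2 < b ∨ ∀ q ∈ QQ, (Real.log X) ^ K1 * (Nat.gcd q n : ℝ) < q) →
    ∑ q ∈ QQ, ‖∑ a ∈ rr q, ((∫ x in (bq q / X)..(2 * bq q / X), F ((a : ℝ) / q + x)) +
      ∫ x in (bq q / X)..(2 * bq q / X), F ((a : ℝ) / q - x))‖ ≤
      X / (Real.log X) ^ (A + 4)

/-- one pair `(c, t)` -/
private theorem df_one {th e : ℝ} {F : ℝ → ℂ} {X n A K1 K2 I c t : ℕ} {N u : ℝ}
    (hL2 : 2 ≤ Real.log (X : ℝ)) (hu1 : 1 ≤ u) (hu2 : u ≤ 2) (Q : Finset ℕ) (r : ℕ → ℝ)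
    (hQ1 : ∀ q ∈ Q, 1 ≤ q ∧ (2 : ℝ) ^ c ≤ r q ∧ r q ≤ 2 ^ (c + 1) ∧
      N * r q ≤ (X : ℝ) ^ (1 - th + 3 / 2 * e))
    (hN0 : 0 ≤ N)
    (hQ2 : ∀ q ∈ Q, ∀ q' ∈ Q, (Nat.lcm q q' : ℝ) ≤ N) (hQ3 : (Q.card : ℝ) ≤ (X : ℝ) ^ (e / 2))
    {A0 : ℕ}
    (hI : (2 : ℝ) ^ I ≤ (Real.log X) ^ (A0 + 1)) (ht : t < c + I)
    (hpl : Hpl th e F X n A K1 K2 A0)
    (hor : (∀ q ∈ Q, (Real.log X) ^ K2 < (2 : ℝ) ^ c / 2 ^ (t + 1)) ∨
      ∀ q ∈ Q, (Real.log X) ^ K1 * (Nat.gcd q n : ℝ) < q) :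
    ‖∑ q ∈ Q, ann F X q (r q * u / 2 ^ (t + 1)) (2 * (r q * u / 2 ^ (t + 1)))‖ ≤
      X / (Real.log X) ^ (A + 4) := by
  classical
  set L : ℝ := Real.log (X : ℝ) with hLd
  have hL0 : 0 < L := by linarith
  have hXr : (0 : ℝ) ≤ X := Nat.cast_nonneg X
  have hu0 : 0 < u := by linarith
  rcases Finset.eq_empty_or_nonempty Q with hQe | ⟨q0, hq0⟩
  · rw [hQe, Finset.sum_empty, norm_zero]
    positivity
  set b : ℝ := 2 ^ c * u / 2 ^ (t + 1) with hb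
  have hb0 : 0 < b := by positivity
  have hbq : ∀ q ∈ Q, 1 ≤ q ∧ b ≤ r q * u / 2 ^ (t + 1) ∧ r q * u / 2 ^ (t + 1) ≤ 2 * b := by
    intro q hq
    obtain ⟨h1, h2, h3, _⟩ := hQ1 q hq
    refine ⟨h1, ?_, ?_⟩
    · rw [hb]
      gcongr
    · have : 2 * b = 2 ^ (c + 1) * u / 2 ^ (t + 1) := by
        rw [hb, pow_succ (2 : ℝ) c]
        ring
      rw [this]
      gcongr
  have hbc : (2 : ℝ) ^ c / 2 ^ (t + 1) ≤ b := by
    rw [hb]
    refine div_le_div_of_nonneg_right ?_ (by positivity)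
    exact le_mul_of_one_le_right (by positivity) hu1
  have hbI : 1 / L ^ (A0 + 1) ≤ b := by
    have h1 : (1 : ℝ) / L ^ (A0 + 1) ≤ 1 / 2 ^ I := by
      apply one_div_le_one_div_of_le (by positivity) hI
    refine h1.trans (le_trans ?_ hbc)
    rw [div_le_div_iff₀ (by positivity) (by positivity), one_mul, ← pow_add]
    exact pow_le_pow_right₀ (by norm_num) (by omega)
  have hNb : N * b ≤ (X : ℝ) ^ (1 - th + 3 / 2 * e) := by
    obtain ⟨_, h2, _, h4⟩ := hQ1 q0 hq0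
    refine le_trans ?_ h4
    apply mul_le_mul_of_nonneg_left _ hN0
    refine le_trans ?_ h2
    rw [hb, div_le_iff₀ (by positivity)]
    have h5 : (2 : ℝ) ≤ 2 ^ (t + 1) := by
      calc (2 : ℝ) = 2 ^ 1 := by norm_num
        _ ≤ 2 ^ (t + 1) := pow_le_pow_right₀ (by norm_num) (by omega)
    exact mul_le_mul_of_nonneg_left (hu2.trans h5) (by positivity)
  refine (norm_sum_le _ _).trans ?_
  refine hpl Q N b (fun q => r q * u / 2 ^ (t + 1)) hbq hQ2 hQ3 hbI hNb ?_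
  rcases hor with h | h
  · exact Or.inl (lt_of_lt_of_le (h q0 hq0) hbc)
  · exact Or.inr h

/-- rearrangement of a sum over pairs `(q, t)`, `t < J q` -/
private theorem df_re {M : Type} [AddCommMonoid M] (Q : Finset ℕ) (cc J : ℕ → ℕ) (C I : ℕ)
    (hC : ∀ q ∈ Q, cc q < C) (hJ : ∀ q ∈ Q, J q ≤ cc q + I) (f : ℕ → ℕ → M) :
    ∑ q ∈ Q, ∑ t ∈ range (J q), f q t =
      ∑ c ∈ range C, ∑ t ∈ range (c + I), ∑ q ∈ Q.filter (fun q => cc q = c ∧ t < J q), f q t := by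
  classical
  have h1 : ∀ c ∈ range C, ∑ t ∈ range (c + I), ∑ q ∈ Q.filter (fun q => cc q = c ∧ t < J q), f q t =
      ∑ q ∈ Q.filter (fun q => cc q = c), ∑ t ∈ range (J q), f q t := by
    intro c _
    have h2 : ∀ t ∈ range (c + I), ∑ q ∈ Q.filter (fun q => cc q = c ∧ t < J q), f q t =
        ∑ q ∈ Q.filter (fun q => cc q = c), if t < J q then f q t else 0 := by
      intro t _
      rw [← sum_filter, filter_filter]
    rw [sum_congr rfl h2, sum_comm]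
    refine sum_congr rfl fun q hq => ?_
    obtain ⟨hq1, hq2⟩ := mem_filter.1 hq
    rw [← sum_filter]
    refine sum_congr ?_ fun _ _ => rfl
    ext t
    rw [mem_filter, mem_range, mem_range]
    have := hJ q hq1
    rw [hq2] at this
    omega
  rw [sum_congr rfl h1]
  exact (Finset.sum_fiberwise_of_maps_to (fun q hq => Finset.mem_range.2 (hC q hq)) _).symm

theorem disc_gen (th e τ : ℝ) (hA : Adm th e τ) (A K1 K2 A0 : ℕ) :
    ∃ X0 : ℕ, ∀ X : ℕ, X0 ≤ X → ∀ n : ℕ, ∀ F : ℝ → ℂ, Continuous F →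
    (∀ (QQ : Finset ℕ) (N b : ℝ) (bq : ℕ → ℝ), (∀ q ∈ QQ, 1 ≤ q ∧ b ≤ bq q ∧ bq q ≤ 2 * b) →
      (∀ q ∈ QQ, ∀ q' ∈ QQ, (Nat.lcm q q' : ℝ) ≤ N) → (QQ.card : ℝ) ≤ (X : ℝ) ^ (e / 2) →
      1 / (Real.log X) ^ (A0 + 1) ≤ b → N * b ≤ (X : ℝ) ^ (1 - th + 3 / 2 * e) →
      ((Real.log X) ^ K2 < b ∨ ∀ q ∈ QQ, (Real.log X) ^ K1 * (Nat.gcd q n : ℝ) < q) →
      ∑ q ∈ QQ, ‖∑ a ∈ rr q, ((∫ x in (bq q / X)..(2 * bq q / X), F ((a : ℝ) / q + x)) +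
        ∫ x in (bq q / X)..(2 * bq q / X), F ((a : ℝ) / q - x))‖ ≤
        X / (Real.log X) ^ (A + 4)) →
    (∀ (QQ : Finset ℕ) (N : ℝ), (∀ q ∈ QQ, 1 ≤ q) →
      (∀ q ∈ QQ, ∀ q' ∈ QQ, (Nat.lcm q q' : ℝ) ≤ N) → N ≤ (X : ℝ) ^ (1 - th + 3 / 2 * e) →
      ∑ q ∈ QQ, dscG (fun x => ‖F x‖) X q (1 / (Real.log X) ^ A0) ≤
        X / (Real.log X) ^ (A + 4)) →
    ∀ (Λ : ℕ) (bb : ℝ), 1 ≤ Λ → 1 ≤ bb → Λ * bb ≤ 2 * (X : ℝ) ^ (1 - th + e) →
    ∀ K1' : ℕ, K1 ≤ K1' → ∀ T : ℝ, 2 * (Real.log X) ^ K2 ≤ T →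
    ‖∑ q ∈ QQi th e X Λ, av (dsc F X q) (rdi th e X Λ bb q) -
      ∑ q ∈ Qs th e X Λ n K1', av (dsc F X q) (min (rdi th e X Λ bb q) T)‖ ≤
      X / (Real.log X) ^ A := by
  classical
  obtain ⟨X3, hX3⟩ := qq_factsJ th e τ hA
  obtain ⟨X4, hX4⟩ := df_exI A0
  obtain ⟨X5, hX5⟩ := MP_log_large 6
  refine ⟨max (max X3 X4) (max X5 1), fun X hX n F hFc hpl' hce' Λ bb hΛ hbb hΛb K1' hK1' T hT => ?_⟩
  have g3 : X3 ≤ X := by omega
  have g4 : X4 ≤ X := by omega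
  have g5 : X5 ≤ X := by omega
  have g6 : 1 ≤ X := by omega
  obtain ⟨hq1, hq2, hq3, hq4⟩ := hX3 X g3 Λ bb hΛ hbb hΛb
  obtain ⟨I, hI1, hI2, hI3⟩ := hX4 X g4
  have hL6 := hX5 X g5
  have hpl : Hpl th e F X n A K1 K2 A0 := hpl'
  set L : ℝ := Real.log (X : ℝ) with hLd
  set Q := QQi th e X Λ with hQ
  set N : ℝ := (X : ℝ) ^ (e / 5) * Λ with hN
  set r : ℕ → ℝ := fun q => rdi th e X Λ bb q with hr
  have hL0 : 0 < L := by linarith
  have hXr : (1 : ℝ) ≤ X := by exact_mod_cast g6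
  have hX0 : (0 : ℝ) < X := by linarith
  have hN0 : 0 ≤ N := by positivity
  have hrX : ∀ q ∈ Q, r q ≤ X := by
    intro q hq
    obtain ⟨h1, h2, h3, _⟩ := hq1 q hq
    have h4 : rdi th e X Λ bb q ≤ q * rdi th e X Λ bb q := by
      have : (1 : ℝ) ≤ q := by exact_mod_cast h1
      nlinarith
    refine h4.trans (h3.trans ?_)
    rw [y3_dl]
    calc (X : ℝ) ^ (1 - th + 3 * e) ≤ (X : ℝ) ^ (1 : ℝ) :=
          Real.rpow_le_rpow_of_exponent_le hXr (by linarith [hA.1, hA.2.1, hA.2.2.1, hA.2.2.2.1, hA.2.2.2.2])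
      _ = X := Real.rpow_one _
  have hr1 : ∀ q ∈ Q, 1 ≤ r q := fun q hq => (hq1 q hq).2.1
  -- the index `c`
  set cc : ℕ → ℕ := fun q => Nat.log 2 ⌊r q⌋₊ with hcc
  have hcc1 : ∀ q ∈ Q, (2 : ℝ) ^ (cc q) ≤ r q ∧ r q < 2 ^ (cc q + 1) := by
    intro q hq
    have h2 := hr1 q hq
    have h3 : ⌊r q⌋₊ ≠ 0 := by
      have : 1 ≤ ⌊r q⌋₊ := Nat.le_floor (by exact_mod_cast h2)
      omega
    constructor
    · have h4 : 2 ^ (cc q) ≤ ⌊r q⌋₊ := Nat.pow_log_le_self 2 h3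
      calc (2 : ℝ) ^ (cc q) ≤ (⌊r q⌋₊ : ℝ) := by exact_mod_cast h4
        _ ≤ _ := Nat.floor_le (by linarith)
    · have h4 : ⌊r q⌋₊ < 2 ^ (cc q + 1) := Nat.lt_pow_succ_log_self (by norm_num) _
      have h5 : r q < (⌊r q⌋₊ : ℝ) + 1 := Nat.lt_floor_add_one _
      have h6 : (⌊r q⌋₊ : ℝ) + 1 ≤ 2 ^ (cc q + 1) := by exact_mod_cast h4
      linarith
  have hcc2 : ∀ q ∈ Q, cc q < Nat.log 2 X + 1 := by
    intro q hq
    have h1 : ⌊r q⌋₊ ≤ X := by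
      have := Nat.floor_le_floor (hrX q hq)
      rwa [Nat.floor_natCast] at this
    exact Nat.lt_succ_of_le (Nat.log_mono_right h1)
  have hE0 : 0 ≤ (X : ℝ) / L ^ (A + 4) := by positivity
  have hTT : ((Nat.log 2 X + 1 : ℕ) : ℝ) ≤ 2 * L := by
    have h1 : 2 ^ (Nat.log 2 X) ≤ X := Nat.pow_log_le_self 2 (by omega)
    have h2 : (2 : ℝ) ^ (Nat.log 2 X) ≤ X := by exact_mod_cast h1
    have h3 := Real.log_le_log (by positivity) h2
    rw [Real.log_pow] at h3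
    have h4 : (2 : ℝ) / 3 ≤ Real.log 2 := by
      have := Real.log_two_gt_d9
      linarith
    have h5 : ((Nat.log 2 X : ℕ) : ℝ) * (2 / 3) ≤ ((Nat.log 2 X : ℕ) : ℝ) * Real.log 2 :=
      mul_le_mul_of_nonneg_left h4 (Nat.cast_nonneg _)
    push_cast
    linarith
  -- annuli
  have hann : ∀ (Q' : Finset ℕ) (J : ℕ → ℕ) (u : ℝ), 1 ≤ u → u ≤ 2 → Q' ⊆ Q →
      (∀ q ∈ Q', J q ≤ cc q + I) →
      ((∀ q ∈ Q', ∀ t, t < J q → L ^ K2 < (2 : ℝ) ^ (cc q) / 2 ^ (t + 1)) ∨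
        ∀ q ∈ Q', L ^ K1 * (Nat.gcd q n : ℝ) < q) →
      ‖∑ q ∈ Q', ∑ t ∈ range (J q), ann F X q
          (r q * u / 2 ^ (t + 1)) (2 * (r q * u / 2 ^ (t + 1)))‖ ≤
      (2 * L) * ((4 * L) * (X / L ^ (A + 4))) := by
    intro Q' J u hu1 hu2 hQ' hJ hJor
    rw [df_re Q' cc J (Nat.log 2 X + 1) I (fun q hq => hcc2 q (hQ' hq)) hJ]
    refine (norm_sum_le _ _).trans ?_
    have h1 : ∀ c ∈ range (Nat.log 2 X + 1), ‖∑ t ∈ range (c + I),
        ∑ q ∈ Q'.filter (fun q => cc q = c ∧ t < J q), ann F X q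
          (r q * u / 2 ^ (t + 1)) (2 * (r q * u / 2 ^ (t + 1)))‖ ≤
        (4 * L) * (X / L ^ (A + 4)) := by
      intro c hc
      refine (norm_sum_le _ _).trans ?_
      have h2 : ∀ t ∈ range (c + I), ‖∑ q ∈ Q'.filter (fun q => cc q = c ∧ t < J q),
          ann F X q (r q * u / 2 ^ (t + 1)) (2 * (r q * u / 2 ^ (t + 1)))‖ ≤
          X / L ^ (A + 4) := by
        intro t ht
        have ht' := Finset.mem_range.1 ht
        have hsub : Q'.filter (fun q => cc q = c ∧ t < J q) ⊆ Q :=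
          (Finset.filter_subset _ _).trans hQ'
        refine df_one (by linarith) hu1 hu2 (Q'.filter (fun q => cc q = c ∧ t < J q)) r
          ?_ hN0 (fun q hq q' hq' => hq2 q (hsub hq) q' (hsub hq')) ?_ hI2 ht' hpl ?_
        · intro q hq
          obtain ⟨h3, h4, h4'⟩ := Finset.mem_filter.1 hq
          obtain ⟨h5, h6⟩ := hcc1 q (hQ' h3)
          rw [h4] at h5 h6
          exact ⟨(hq1 q (hQ' h3)).1, h5, h6.le, (hq1 q (hQ' h3)).2.2.2⟩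
        · exact le_trans (by exact_mod_cast Finset.card_le_card hsub) hq3
        · rcases hJor with h5 | h5
          · left
            intro q hq
            obtain ⟨h3, h4, h4'⟩ := Finset.mem_filter.1 hq
            have := h5 q h3 t h4'
            rwa [h4] at this
          · exact Or.inr fun q hq => h5 q (Finset.mem_filter.1 hq).1
      refine (Finset.sum_le_sum h2).trans ?_
      rw [Finset.sum_const, Finset.card_range, nsmul_eq_mul]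
      apply mul_le_mul_of_nonneg_right _ (by positivity)
      have hc' : c ≤ Nat.log 2 X := Nat.lt_succ_iff.1 (Finset.mem_range.1 hc)
      have hc'' : (c : ℝ) ≤ ((Nat.log 2 X + 1 : ℕ) : ℝ) := by
        exact_mod_cast hc'.trans (Nat.le_succ _)
      push_cast at hc'' hTT ⊢
      linarith
    refine (Finset.sum_le_sum h1).trans ?_
    rw [Finset.sum_const, Finset.card_range, nsmul_eq_mul]
    exact mul_le_mul_of_nonneg_right hTT (by positivity)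
  -- large denominators
  set Qs' := Qs th e X Λ n K1' with hQs'
  have hQsm : ∀ q, q ∈ Qs' ↔ q ∈ Q ∧ (q : ℝ) ≤ L ^ K1' * (Nat.gcd q n : ℝ) := by
    intro q
    rw [hQs']
    unfold Qs
    rw [mem_filter]
  have hsubs : Qs' ⊆ Q := fun q hq => ((hQsm q).1 hq).1
  have hQl : ∀ q ∈ Q \ Qs', L ^ K1 * (Nat.gcd q n : ℝ) < q := by
    intro q hq
    rw [mem_sdiff, hQsm] at hq
    obtain ⟨h1, h2⟩ := hq
    have h3 : L ^ K1' * (Nat.gcd q n : ℝ) < q := by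
      by_contra h4
      exact h2 ⟨h1, not_lt.1 h4⟩
    refine lt_of_le_of_lt ?_ h3
    exact mul_le_mul_of_nonneg_right (pow_le_pow_right₀ (by linarith) hK1') (Nat.cast_nonneg _)
  have hl : ‖∑ q ∈ Q \ Qs', av (dsc F X q) (r q)‖ ≤
      (2 * L) * ((4 * L) * (X / L ^ (A + 4))) + X / L ^ (A + 4) := by
    refine sum_av_le _ _ _ (fun q _ => dsc_cont F hFc X q) _ fun u hu1 hu2 => ?_
    have h1 : ∑ q ∈ Q \ Qs', dsc F X q (r q * u) =
        ∑ q ∈ Q \ Qs', ∑ t ∈ range (cc q + I), ann F X q (r q * u / 2 ^ (t + 1))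
          (2 * (r q * u / 2 ^ (t + 1))) + ∑ q ∈ Q \ Qs', dsc F X q (r q * u / 2 ^ (cc q + I)) := by
      rw [← sum_add_distrib]
      exact sum_congr rfl fun q _ => dsc_split F hFc X q _ (cc q + I)
    rw [h1]
    refine (norm_add_le _ _).trans (add_le_add
      (hann _ (fun q => cc q + I) u hu1 hu2 sdiff_subset (fun q _ => le_rfl) (Or.inr hQl)) ?_)
    refine (norm_sum_le _ _).trans ?_
    have h2 := hce' (Q \ Qs') N (fun q hq => (hq1 q (sdiff_subset hq)).1)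
      (fun q hq q' hq' => hq2 q (sdiff_subset hq) q' (sdiff_subset hq')) hq4
    refine le_trans (Finset.sum_le_sum fun q hq => ?_) h2
    obtain ⟨h3, h4⟩ := hcc1 q (sdiff_subset hq)
    have h5 := hr1 q (sdiff_subset hq)
    have h6 : 0 ≤ r q * u / 2 ^ (cc q + I) := by positivity
    refine dsc_leG F hFc X q g6 _ (1 / L ^ A0) h6 ?_
    calc r q * u / 2 ^ (cc q + I) ≤ 2 ^ (cc q + 1) * 2 / 2 ^ (cc q + I) := by gcongr
      _ = 4 / 2 ^ I := by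
        rw [pow_add, pow_add]
        field_simp
        norm_num
      _ ≤ 1 / L ^ A0 := by
        rw [div_le_div_iff₀ (by positivity) (by positivity)]
        linarith
  -- small denominators
  have hK2 : 1 ≤ L ^ K2 := one_le_pow₀ (by linarith)
  have hT0 : 0 < T := by linarith
  have hT1 : 1 ≤ T := by linarith
  set Qt := Qs'.filter (fun q => T ≤ r q) with hQt
  have hsubt : Qt ⊆ Q := (filter_subset _ _).trans hsubs
  set m : ℕ → ℕ := fun q => Nat.log 2 ⌊r q / T⌋₊ with hm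
  have hm1 : ∀ q ∈ Qt, (2 : ℝ) ^ (m q) ≤ r q / T ∧ r q / T < 2 ^ (m q + 1) := by
    intro q hq
    have h2 : 1 ≤ r q / T := by
      rw [le_div_iff₀ hT0, one_mul]
      exact (mem_filter.1 hq).2
    have h3 : ⌊r q / T⌋₊ ≠ 0 := by
      have : 1 ≤ ⌊r q / T⌋₊ := Nat.le_floor (by exact_mod_cast h2)
      omega
    constructor
    · have h4 : 2 ^ (m q) ≤ ⌊r q / T⌋₊ := Nat.pow_log_le_self 2 h3
      calc (2 : ℝ) ^ (m q) ≤ (⌊r q / T⌋₊ : ℝ) := by exact_mod_cast h4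
        _ ≤ _ := Nat.floor_le (by linarith)
    · have h4 : ⌊r q / T⌋₊ < 2 ^ (m q + 1) := Nat.lt_pow_succ_log_self (by norm_num) _
      have h5 : r q / T < (⌊r q / T⌋₊ : ℝ) + 1 := Nat.lt_floor_add_one _
      have h6 : (⌊r q / T⌋₊ : ℝ) + 1 ≤ 2 ^ (m q + 1) := by exact_mod_cast h4
      linarith
  set θ : ℕ → ℝ := fun q => r q / T / 2 ^ (m q) with hθ
  have hθ1 : ∀ q ∈ Qt, 1 ≤ θ q ∧ θ q ≤ 2 := by
    intro q hq
    obtain ⟨h1, h2⟩ := hm1 q hq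
    constructor
    · show 1 ≤ r q / T / 2 ^ (m q)
      rw [le_div_iff₀ (by positivity), one_mul]
      exact h1
    · show r q / T / 2 ^ (m q) ≤ 2
      rw [div_le_iff₀ (by positivity)]
      rw [pow_succ, mul_comm] at h2
      exact h2.le
  have hTθ : ∀ q, T * θ q = r q / 2 ^ (m q) := by
    intro q
    show T * (r q / T / 2 ^ (m q)) = r q / 2 ^ (m q)
    field_simp
  have hs1 : ‖∑ q ∈ Qt, av (dsc F X q) (r q) - ∑ q ∈ Qt, av (dsc F X q) (T * θ q)‖ ≤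
      (2 * L) * ((4 * L) * (X / L ^ (A + 4))) := by
    refine sum_av_sub_le _ _ _ _ _ _ (fun q _ => dsc_cont F hFc X q)
      (fun q _ => dsc_cont F hFc X q) _ fun u hu1 hu2 => ?_
    have h1 : ∑ q ∈ Qt, dsc F X q (r q * u) - ∑ q ∈ Qt, dsc F X q (T * θ q * u) =
        ∑ q ∈ Qt, ∑ t ∈ range (m q), ann F X q (r q * u / 2 ^ (t + 1))
          (2 * (r q * u / 2 ^ (t + 1))) := by
      rw [← sum_sub_distrib]
      refine sum_congr rfl fun q _ => ?_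
      have h2 := dsc_split F hFc X q (r q * u) (m q)
      have h3 : T * θ q * u = r q * u / 2 ^ (m q) := by
        rw [hTθ]
        ring
      rw [h3, h2]
      ring
    rw [h1]
    refine hann Qt m u hu1 hu2 hsubt (fun q hq => ?_) (Or.inl fun q hq t ht => ?_)
    · obtain ⟨h2, h3⟩ := hm1 q hq
      obtain ⟨h4, h5⟩ := hcc1 q (hsubt hq)
      have h6 : (2 : ℝ) ^ (m q) < 2 ^ (cc q + 1) := by
        refine lt_of_le_of_lt (h2.trans ?_) h5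
        exact div_le_self (le_trans (by norm_num) (hr1 q (hsubt hq))) hT1
      have h7 : m q < cc q + 1 := (pow_lt_pow_iff_right₀ (by norm_num : (1 : ℝ) < 2)).1 h6
      omega
    · obtain ⟨h2, h3⟩ := hm1 q hq
      obtain ⟨h4, h5⟩ := hcc1 q (hsubt hq)
      have h6 : T ≤ r q / 2 ^ (m q) := by
        rw [le_div_iff₀ (by positivity)]
        rw [le_div_iff₀ hT0] at h2
        linarith
      have h7 : r q / 2 ^ (m q) ≤ r q / 2 ^ (t + 1) := by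
        refine div_le_div_of_nonneg_left (le_trans (by norm_num) (hr1 q (hsubt hq)))
          (by positivity) ?_
        exact pow_le_pow_right₀ (by norm_num) (by omega)
      have h8 : r q / 2 ^ (t + 1) < 2 ^ (cc q + 1) / 2 ^ (t + 1) :=
        div_lt_div_of_pos_right h5 (by positivity)
      have h9 : (2 : ℝ) ^ (cc q + 1) / 2 ^ (t + 1) = 2 * (2 ^ (cc q) / 2 ^ (t + 1)) := by
        rw [pow_succ (2 : ℝ) (cc q)]
        ring
      rw [h9] at h8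
      linarith
  have hs2 : ‖∑ q ∈ Qt, (av (dsc F X q) (T * θ q) - av (dsc F X q) T)‖ ≤ X / L ^ (A + 4) := by
    refine sum_av_shift _ _ (fun q _ => dsc_cont F hFc X q) T θ hθ1 _ fun v hv1 hv2 => ?_
    have hv0 : 0 < v := by linarith
    have h1 : ∀ q ∈ Qt, Set.indicator {v : ℝ | v ≤ θ q}
        (fun v => dsc F X q (2 * (T * v)) - dsc F X q (T * v)) v =
        if v ≤ θ q then ann F X q (T * v) (2 * (T * v)) else 0 := by
      intro q _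
      by_cases h : v ≤ θ q
      · rw [Set.indicator_of_mem (by exact h), if_pos h, faAnn_step F hFc X q (T * v)]
        ring
      · rw [Set.indicator_of_notMem (by exact h), if_neg h]
    rw [sum_congr rfl h1, ← sum_filter]
    have hsub2 : Qt.filter (fun q => v ≤ θ q) ⊆ Q := (filter_subset _ _).trans hsubt
    rcases (Qt.filter (fun q => v ≤ θ q)).eq_empty_or_nonempty with h0 | ⟨q0, hq0⟩
    · rw [h0, sum_empty, norm_zero]
      exact hE0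
    refine (norm_sum_le _ _).trans ?_
    have hTv : T ≤ T * v := le_mul_of_one_le_right hT0.le hv1
    refine hpl (Qt.filter (fun q => v ≤ θ q)) N (T * v) (fun _ => T * v)
      (fun q hq => ⟨(hq1 q (hsub2 hq)).1, le_rfl, by linarith⟩)
      (fun q hq q' hq' => hq2 q (hsub2 hq) q' (hsub2 hq'))
      (le_trans (by exact_mod_cast Finset.card_le_card hsub2) hq3) ?_ ?_ (Or.inl ?_)
    · refine le_trans ?_ (hT1.trans hTv)
      rw [div_le_one (by positivity)]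
      exact one_le_pow₀ (by linarith)
    · obtain ⟨h2, h3⟩ := mem_filter.1 hq0
      refine le_trans ?_ (hq1 q0 (hsubt h2)).2.2.2
      refine mul_le_mul_of_nonneg_left ?_ hN0
      calc T * v ≤ T * θ q0 := mul_le_mul_of_nonneg_left h3 hT0.le
        _ = r q0 / 2 ^ (m q0) := hTθ q0
        _ ≤ r q0 := div_le_self (by linarith [hr1 q0 (hsubt h2)]) (one_le_pow₀ (by norm_num))
    · linarith
  -- assembly
  have hsp1 : ∑ q ∈ Q, av (dsc F X q) (r q) =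
      ∑ q ∈ Q \ Qs', av (dsc F X q) (r q) + ∑ q ∈ Qs', av (dsc F X q) (r q) :=
    (sum_sdiff hsubs).symm
  have hsp2 : ∑ q ∈ Qs', av (dsc F X q) (r q) - ∑ q ∈ Qs', av (dsc F X q) (min (r q) T) =
      ∑ q ∈ Qt, (av (dsc F X q) (r q) - av (dsc F X q) T) := by
    rw [← sum_sub_distrib, hQt, sum_filter]
    refine sum_congr rfl fun q _ => ?_
    by_cases h : T ≤ r q
    · rw [if_pos h, min_eq_right h]
    · rw [if_neg h, min_eq_left (not_le.1 h).le, sub_self]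
  have hsp3 : ∑ q ∈ Qt, (av (dsc F X q) (r q) - av (dsc F X q) T) =
      (∑ q ∈ Qt, av (dsc F X q) (r q) - ∑ q ∈ Qt, av (dsc F X q) (T * θ q)) +
        ∑ q ∈ Qt, (av (dsc F X q) (T * θ q) - av (dsc F X q) T) := by
    rw [sum_sub_distrib, sum_sub_distrib]
    ring
  show ‖∑ q ∈ Q, av (dsc F X q) (r q) - ∑ q ∈ Qs', av (dsc F X q) (min (r q) T)‖ ≤ X / L ^ A
  rw [hsp1, add_sub_assoc, hsp2, hsp3]
  refine (norm_add_le _ _).trans ?_
  refine (add_le_add hl ((norm_add_le _ _).trans (add_le_add hs1 hs2))).trans ?_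
  have hfin : (2 * L) * ((4 * L) * (X / L ^ (A + 4))) + X / L ^ (A + 4) +
      ((2 * L) * ((4 * L) * (X / L ^ (A + 4))) + X / L ^ (A + 4)) =
      (16 * L ^ 2 + 2) * (X / L ^ (A + 4)) := by ring
  rw [hfin]
  have h16 : 16 * L ^ 2 + 2 ≤ L ^ 4 := by
    have h1 : (36 : ℝ) ≤ L ^ 2 := by nlinarith
    nlinarith
  calc (16 * L ^ 2 + 2) * (X / L ^ (A + 4)) ≤ L ^ 4 * (X / L ^ (A + 4)) :=
        mul_le_mul_of_nonneg_right h16 hE0
    _ = X / L ^ A := by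
        rw [pow_add]
        field_simp

theorem discF : DiscF := by
  classical
  intro A
  obtain ⟨Bp, hp⟩ := LXP.plL (A + 4)
  obtain ⟨A0, hc⟩ := LX.centre_l (2 * (A + 4) + 6)
  refine ⟨Bp, fun K0 C1 C2 => ?_⟩
  obtain ⟨K1, K2, hp⟩ := hp K0 C1 C2
  refine ⟨K1, K2, fun th e τ hA ww1 gg1 ww2 gg2 hW1 hDec1 hW2 hDec2 D' hD3 K1' hK1' => ?_⟩
  obtain ⟨Xp, hXp⟩ := hp th e τ hA ww1 gg1 ww2 gg2 hW1 hDec1 hW2 hDec2 D' (A0 + 1) hD3
  obtain ⟨Xc, hXc⟩ := hc K0 C1 ww2 gg2 hW2 D' hD3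
  obtain ⟨Xb, hXb⟩ := disc_gen th e τ hA A K1 K2 A0
  obtain ⟨Xe, hXe⟩ := LX.centre_of th e τ hA (A + 4) A0
  obtain ⟨Xq, hXq⟩ := LX.cf_sq K0 C1 ww1 gg1 hW1 D'
  refine ⟨max (max Xp Xc) (max Xb (max Xe (max Xq 1))), fun X hX s1 s2 hs1 hs2 n hn1 hn2 Λ bb hΛ hbb
    hΛb T hT => ?_⟩
  simp only [max_le_iff] at hX
  obtain ⟨⟨g1, g2⟩, g3, g4, g5, g6⟩ := hX
  have hXp := hXp X g1
  have hXc := hXc X g2
  have hXb := hXb X g3
  have hXe := hXe X g4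
  have hXq := hXq X g5
  obtain ⟨w, hw⟩ : ∃ w : ℕ, w = wX D' X := ⟨_, rfl⟩
  rw [← hw] at hXp hXc hXq ⊢
  obtain ⟨c1, hc1⟩ : ∃ c1 : ℕ → ℝ, c1 = cfI ww1 gg1 s1 w X := ⟨_, rfl⟩
  obtain ⟨c2, hc2⟩ : ∃ c2 : ℕ → ℝ, c2 = cfI ww2 gg2 s2 w X := ⟨_, rfl⟩
  have hsq := hXq s1 hs1
  rw [← hc1] at hsq
  obtain ⟨F, hF⟩ : ∃ F : ℝ → ℂ, F = FFL ww1 gg1 s1 ww2 gg2 s2 w X n := ⟨_, rfl⟩
  have hFc : Continuous F := by
    rw [hF]
    exact LX.ffl_cont ww1 gg1 ww2 gg2 s1 s2 w X n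
  have hFn : ∀ θ, ‖F θ‖ = ‖ES X c1 θ‖ * ‖ES X c2 θ‖ := by
    intro θ
    rw [hF, LX.ffl_norm, hc1, hc2]
    rfl
  have hcen : ∀ (QQ : Finset ℕ) (N : ℝ), (∀ q ∈ QQ, 1 ≤ q) →
      (∀ q ∈ QQ, ∀ q' ∈ QQ, (Nat.lcm q q' : ℝ) ≤ N) → N ≤ X →
      ∑ q ∈ QQ, WtE X c2 c2 (1 / (Real.log X) ^ A0) q ≤
        X / (Real.log X) ^ (2 * (A + 4) + 6) := by
    intro QQ N h1 h2 h3
    have h4 := hXc s2 hs2 QQ N h1 h2 h3
    refine le_trans (le_of_eq ?_) h4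
    refine Finset.sum_congr rfl fun q _ => ?_
    rw [hc2]
    exact LX.wt_sq ww2 gg2 s2 w X (1 / (Real.log X) ^ A0) q
  have hcentre := hXe c1 c2 hsq F hFn hcen
  have hΛb2 : (Λ : ℝ) * bb ≤ 2 * (X : ℝ) ^ (1 - th + e) := by
    have : 0 ≤ (X : ℝ) ^ (1 - th + e) := by positivity
    linarith
  have h1 := hXb n F hFc (by rw [hF]; exact hXp s1 s2 hs1 hs2 n hn1 hn2) hcentre Λ bb hΛ hbb hΛb2
    K1' hK1' T hT
  rw [← hF]
  exact h1

end Pool.MP_dd84fd_nt.EF
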