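import Pool.Agent.Lib.MP_dd84fd_nt.EF.Av
import Pool.Agent.Lib.MP_dd84fd_nt.DX.PgBd
import Pool.Agent.Lib.MP_dd84fd_nt.DX.PgGen
import Pool.Agent.Lib.MP_dd84fd_nt.LX.Cen
import Pool.Agent.Lib.MP_dd84fd_nt.LX.PlAll

/-!
# EF-DiscA: reduction of the averaged discs (helper39)
-/

set_option autoImplicit false

namespace Pool.MP_dd84fd_nt.EF

open Finset Pool.MP_67663b_nt.Odd Pool.MP_dd84fd_nt.En Pool.MP_dd84fd_nt.E2 Pool.MP_dd84fd_nt.LS
open Pool.MP_dd84fd_nt.GX Pool.MP_dd84fd_nt.HX Pool.MP_dd84fd_nt.IX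
open Pool.MP_dd84fd_nt.PL (rr)
open Pool.MP_dd84fd_nt.JX (wP gP DecJ Adm AdmP Str qq_factsJ decJ_mono)
open Pool.MP_dd84fd_nt.LX (FFL DecW PhU dscG dsc_leG)
open Pool.MP_dd84fd_nt.LXP (tq)
open Pool.MP_dd84fd_nt.BX (PC pv IsPC PR SX sN prc ind Rm cf N2d DiscH)

/-- change of the radius by a factor `θ ∈ [1,2]` -/
theorem av_shift (Φ : ℝ → ℂ) (hc : Continuous Φ) (T θ : ℝ) (h1 : 1 ≤ θ) (h2 : θ ≤ 2) :
    av Φ (T * θ) - av Φ T =
      av (Set.indicator {v : ℝ | v ≤ θ} (fun v => Φ (2 * (T * v)) - Φ (T * v))) 1 := by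
  have hθ0 : 0 < θ := by linarith
  obtain ⟨Fn, hFn⟩ : ∃ Fn : ℝ → ℂ, Fn = fun v => Φ (T * v) * ((1 / v : ℝ) : ℂ) := ⟨_, rfl⟩
  have hFc : ContinuousOn Fn (Set.Ioi (0 : ℝ)) := by
    rw [hFn]
    refine (hc.comp (continuous_const.mul continuous_id)).continuousOn.mul ?_
    refine Complex.continuous_ofReal.comp_continuousOn ?_
    refine continuousOn_const.div continuousOn_id fun x hx => (ne_of_gt hx)
  have hFi : ∀ a b : ℝ, 0 < a → 0 < b → IntervalIntegrable Fn MeasureTheory.volume a b := by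
    intro a b ha hb
    refine ContinuousOn.intervalIntegrable (hFc.mono fun x hx => ?_)
    have h3 := Set.mem_uIcc.1 hx
    show 0 < x
    rcases h3 with h3 | h3 <;> linarith [h3.1]
  have e1 : ∫ u in (1 : ℝ)..2, Φ (T * θ * u) * ((1 / u : ℝ) : ℂ) = ∫ v in θ..(2 * θ), Fn v := by
    have h3 : (fun u : ℝ => Φ (T * θ * u) * ((1 / u : ℝ) : ℂ)) = fun u => (θ : ℂ) * Fn (θ * u) := by
      funext u
      rw [hFn]
      simp only
      rw [mul_assoc T θ u]
      by_cases hu : u = 0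
      · rw [hu]
        simp
      · have h4 : ((1 / u : ℝ) : ℂ) = (θ : ℂ) * ((1 / (θ * u) : ℝ) : ℂ) := by
          rw [← Complex.ofReal_mul]
          congr 1
          field_simp
        rw [h4]
        ring
    rw [h3, intervalIntegral.integral_const_mul, intervalIntegral.integral_comp_mul_left _ hθ0.ne',
      mul_one, mul_comm θ 2, Complex.real_smul, ← mul_assoc, Complex.ofReal_inv,
      mul_inv_cancel₀ (by exact_mod_cast hθ0.ne'), one_mul]
  have e2 : ∫ u in (1 : ℝ)..2, Φ (T * u) * ((1 / u : ℝ) : ℂ) = ∫ v in (1 : ℝ)..2, Fn v := by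
    rw [hFn]
  have e3 : ∫ v in (1 : ℝ)..θ, Φ (2 * (T * v)) * ((1 / v : ℝ) : ℂ) =
      ∫ v in (2 : ℝ)..(2 * θ), Fn v := by
    have h3 : (fun u : ℝ => Φ (2 * (T * u)) * ((1 / u : ℝ) : ℂ)) =
        fun u => ((2 : ℝ) : ℂ) * Fn (2 * u) := by
      funext u
      rw [hFn]
      simp only
      have h5 : T * (2 * u) = 2 * (T * u) := by ring
      rw [h5]
      by_cases hu : u = 0
      · rw [hu]
        simp
      · have h4 : ((1 / u : ℝ) : ℂ) = ((2 : ℝ) : ℂ) * ((1 / (2 * u) : ℝ) : ℂ) := by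
          rw [← Complex.ofReal_mul]
          congr 1
          field_simp
        rw [h4]
        ring
    rw [h3, intervalIntegral.integral_const_mul, intervalIntegral.integral_comp_mul_left _ two_ne_zero,
      mul_one, Complex.real_smul, ← mul_assoc, Complex.ofReal_inv,
      mul_inv_cancel₀ (by norm_num), one_mul]
  have e4 : ∫ v in (1 : ℝ)..θ, Φ (T * v) * ((1 / v : ℝ) : ℂ) = ∫ v in (1 : ℝ)..θ, Fn v := by
    rw [hFn]
  have hadd : (∫ v in θ..(2 * θ), Fn v) - ∫ v in (1 : ℝ)..2, Fn v =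
      (∫ v in (2 : ℝ)..(2 * θ), Fn v) - ∫ v in (1 : ℝ)..θ, Fn v := by
    have h3 := intervalIntegral.integral_add_adjacent_intervals (hFi 1 θ one_pos hθ0)
      (hFi θ (2 * θ) hθ0 (by linarith))
    have h4 := intervalIntegral.integral_add_adjacent_intervals (hFi 1 2 one_pos two_pos)
      (hFi 2 (2 * θ) two_pos (by linarith))
    rw [← h4] at h3
    linear_combination h3
  have hi1 : IntervalIntegrable (fun v : ℝ => Φ (2 * (T * v)) * ((1 / v : ℝ) : ℂ))
      MeasureTheory.volume 1 θ := by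
    refine ContinuousOn.intervalIntegrable ?_
    refine (hc.comp (continuous_const.mul (continuous_const.mul continuous_id))).continuousOn.mul ?_
    refine Complex.continuous_ofReal.comp_continuousOn ?_
    refine continuousOn_const.div continuousOn_id fun x hx => ?_
    rw [Set.uIcc_of_le h1] at hx
    have := hx.1
    show x ≠ 0
    linarith
  have hi2 : IntervalIntegrable (fun v : ℝ => Φ (T * v) * ((1 / v : ℝ) : ℂ))
      MeasureTheory.volume 1 θ := by
    have := hFi 1 θ one_pos hθ0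
    rwa [hFn] at this
  unfold av
  rw [← mul_sub]
  congr 1
  rw [e1, e2, hadd, ← e3, ← e4, ← intervalIntegral.integral_sub hi1 hi2]
  have h6 : (fun u : ℝ => Set.indicator {v : ℝ | v ≤ θ} (fun v => Φ (2 * (T * v)) - Φ (T * v))
      (1 * u) * ((1 / u : ℝ) : ℂ)) = Set.indicator {v : ℝ | v ≤ θ}
        (fun v => (Φ (2 * (T * v)) * ((1 / v : ℝ) : ℂ) - Φ (T * v) * ((1 / v : ℝ) : ℂ))) := by
    funext u
    rw [one_mul]
    by_cases hu : u ≤ θ
    · rw [Set.indicator_of_mem (by exact hu), Set.indicator_of_mem (by exact hu)]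
      ring
    · rw [Set.indicator_of_notMem (by exact hu), Set.indicator_of_notMem (by exact hu), zero_mul]
  rw [h6, intervalIntegral.integral_indicator ⟨h1, h2⟩]

/-- the sum over a finite set of the shifts -/
theorem sum_av_shift {ι : Type} (S : Finset ι) (Φ : ι → ℝ → ℂ) (hc : ∀ i ∈ S, Continuous (Φ i))
    (T : ℝ) (θ : ι → ℝ) (hθ : ∀ i ∈ S, 1 ≤ θ i ∧ θ i ≤ 2) (C : ℝ)
    (h : ∀ v : ℝ, 1 ≤ v → v ≤ 2 →
      ‖∑ i ∈ S, Set.indicator {v : ℝ | v ≤ θ i} (fun v => Φ i (2 * (T * v)) - Φ i (T * v)) v‖ ≤ C) :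
    ‖∑ i ∈ S, (av (Φ i) (T * θ i) - av (Φ i) T)‖ ≤ C := by
  have e1 : ∑ i ∈ S, (av (Φ i) (T * θ i) - av (Φ i) T) =
      av (fun v => ∑ i ∈ S, Set.indicator {v : ℝ | v ≤ θ i}
        (fun v => Φ i (2 * (T * v)) - Φ i (T * v)) v) 1 := by
    rw [sum_congr rfl fun i hi => av_shift (Φ i) (hc i hi) T (θ i) (hθ i hi).1 (hθ i hi).2]
    unfold av
    rw [← mul_sum, ← intervalIntegral.integral_finsetSum]
    · congr 1
      refine intervalIntegral.integral_congr fun u _ => ?_
      simp only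
      rw [sum_mul]
    · intro i hi
      have h3 : (fun u : ℝ => Set.indicator {v : ℝ | v ≤ θ i}
          (fun v => Φ i (2 * (T * v)) - Φ i (T * v)) (1 * u) * ((1 / u : ℝ) : ℂ)) =
          Set.indicator {v : ℝ | v ≤ θ i}
            (fun v => (Φ i (2 * (T * v)) - Φ i (T * v)) * ((1 / v : ℝ) : ℂ)) := by
        funext u
        rw [one_mul]
        by_cases hu : u ≤ θ i
        · rw [Set.indicator_of_mem (by exact hu), Set.indicator_of_mem (by exact hu)]
        · rw [Set.indicator_of_notMem (by exact hu), Set.indicator_of_notMem (by exact hu), zero_mul]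
      rw [h3]
      have h4 : IntervalIntegrable (fun v : ℝ => (Φ i (2 * (T * v)) - Φ i (T * v)) *
          ((1 / v : ℝ) : ℂ)) MeasureTheory.volume 1 2 := by
        refine ContinuousOn.intervalIntegrable ?_
        refine (((hc i hi).comp (continuous_const.mul (continuous_const.mul continuous_id))).sub
          ((hc i hi).comp (continuous_const.mul continuous_id))).continuousOn.mul ?_
        refine Complex.continuous_ofReal.comp_continuousOn ?_
        refine continuousOn_const.div continuousOn_id fun x hx => ?_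
        rw [Set.uIcc_of_le one_le_two] at hx
        have := hx.1
        show x ≠ 0
        linarith
      exact ⟨MeasureTheory.Integrable.indicator h4.1 measurableSet_Iic,
        MeasureTheory.Integrable.indicator h4.2 measurableSet_Iic⟩
  rw [e1]
  refine norm_av_le _ _ _ fun u hu1 hu2 => ?_
  rw [one_mul]
  exact h u hu1 hu2

end Pool.MP_dd84fd_nt.EF
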