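import Pool.Agent.Lib.MP_dd84fd_nt.EF.Av

/-!
# EF-Exp: expansion in pairs of characters

`VP² e(-n(a/q+x))`, sum over `a`: `∑_a χ₁(a) χ₂(a) e(-na/q) = Rm q n (χ₁ χ₂)`.
-/

set_option autoImplicit false

namespace Pool.MP_dd84fd_nt.EF

open Finset Pool.MP_67663b_nt.Odd Pool.MP_dd84fd_nt.En Pool.MP_dd84fd_nt.E2 Pool.MP_dd84fd_nt.LS
open Pool.MP_dd84fd_nt.GX Pool.MP_dd84fd_nt.HX Pool.MP_dd84fd_nt.IX
open Pool.MP_dd84fd_nt.PL (rr)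
open Pool.MP_dd84fd_nt.JX (wP gP DecJ Adm AdmP Str)
open Pool.MP_dd84fd_nt.LX (FFL DecW PhU)
open Pool.MP_dd84fd_nt.LXP (tq)
open Pool.MP_dd84fd_nt.BX (PC pv IsPC PR SX sN prc ind Rm cf N2d DiscH)

open Classical in
theorem dV_expand (X : ℕ) (Y : Finset PC) (n q : ℕ) (hq : 1 ≤ q) (v : ℝ) :
    dV X Y n q v = ∑ ψ₁ ∈ Y.filter (fun ψ => ψ.1 ∣ q), ∑ ψ₂ ∈ Y.filter (fun ψ => ψ.1 ∣ q),
      cc q n ψ₁ ψ₂ * IS X n ψ₁ ψ₂ v := by
  have hq0 : q ≠ 0 := by omega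
  haveI : NeZero q := ⟨hq0⟩
  set F : Finset PC := Y.filter (fun ψ => ψ.1 ∣ q) with hF
  have key : ∀ (a : ℕ) (x : ℝ), VP X Y q a x ^ 2 * ee (-((n : ℝ) * ((a : ℝ) / q + x))) =
      ∑ ψ₁ ∈ F, ∑ ψ₂ ∈ F, (1 / (Nat.totient q : ℂ) ^ 2 * tq q (ind q ψ₁)⁻¹ * tq q (ind q ψ₂)⁻¹ *
        (((ind q ψ₁) * (ind q ψ₂)) (a : ZMod q) * ee (-((n : ℝ) * ((a : ℝ) / q))))) *
        (SX X ψ₁ x * SX X ψ₂ x * ee (-((n : ℝ) * x))) := by
    intro a x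
    have h1 : ee (-((n : ℝ) * ((a : ℝ) / q + x))) =
        ee (-((n : ℝ) * ((a : ℝ) / q))) * ee (-((n : ℝ) * x)) := by
      rw [← ee_add]
      congr 1
      ring
    rw [h1]
    unfold VP
    rw [dif_neg hq0, mul_pow, sq (∑ ψ ∈ _, _), sum_mul_sum, mul_sum, sum_mul]
    refine sum_congr rfl fun ψ₁ _ => ?_
    rw [mul_sum, sum_mul]
    refine sum_congr rfl fun ψ₂ _ => ?_
    rw [MulChar.mul_apply]
    ring
  have hcont : ∀ ψ₁ ψ₂ : PC, Continuous fun x : ℝ => SX X ψ₁ x * SX X ψ₂ x * ee (-((n : ℝ) * x)) :=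
    fun ψ₁ ψ₂ => ((SX_cont X ψ₁).mul (SX_cont X ψ₂)).mul (ee_cont.comp (by fun_prop))
  have hint : ∀ a : ℕ, (∫ x in (-(v / X))..(v / X),
      VP X Y q a x ^ 2 * ee (-((n : ℝ) * ((a : ℝ) / q + x)))) =
      ∑ ψ₁ ∈ F, ∑ ψ₂ ∈ F, (1 / (Nat.totient q : ℂ) ^ 2 * tq q (ind q ψ₁)⁻¹ * tq q (ind q ψ₂)⁻¹ *
        (((ind q ψ₁) * (ind q ψ₂)) (a : ZMod q) * ee (-((n : ℝ) * ((a : ℝ) / q))))) *
        IS X n ψ₁ ψ₂ v := by
    intro a
    simp only [key]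
    rw [intervalIntegral.integral_finsetSum]
    · refine sum_congr rfl fun ψ₁ _ => ?_
      rw [intervalIntegral.integral_finsetSum]
      · refine sum_congr rfl fun ψ₂ _ => ?_
        rw [intervalIntegral.integral_const_mul]
        rfl
      · intro ψ₂ _
        exact (continuous_const.mul (hcont ψ₁ ψ₂)).intervalIntegrable _ _
    · intro ψ₁ _
      exact (continuous_finsetSum _ fun ψ₂ _ =>
        continuous_const.mul (hcont ψ₁ ψ₂)).intervalIntegrable _ _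
  unfold dV
  simp only [hint]
  rw [sum_comm]
  refine sum_congr rfl fun ψ₁ _ => ?_
  rw [sum_comm]
  refine sum_congr rfl fun ψ₂ _ => ?_
  rw [← sum_mul]
  congr 1
  rw [← mul_sum]
  unfold cc Rm
  rw [dif_neg hq0]
  ring

theorem cc_norm (q n : ℕ) (ψ₁ ψ₂ : PC) : ‖cc q n ψ₁ ψ₂‖ = cf q n (ind q ψ₁) (ind q ψ₂) := by
  unfold cc cf
  by_cases h : q = 0
  · rw [dif_pos h, dif_pos h, norm_zero]
  · rw [dif_neg h, dif_neg h]
    rw [norm_div, norm_mul, norm_mul, norm_pow, Complex.norm_natCast]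

/-- trivial bound -/
theorem IS_le (X n : ℕ) (hX : 1 ≤ X) (ψ₁ ψ₂ : PC) (v : ℝ) (hv : 0 ≤ v) :
    ‖IS X n ψ₁ ψ₂ v‖ ≤ 2 * v * X := by
  have hX0 : (0 : ℝ) < X := by exact_mod_cast hX
  have hSX : ∀ (ψ : PC) (x : ℝ), ‖SX X ψ x‖ ≤ X := by
    intro ψ x
    unfold SX
    calc ‖∑ m ∈ Icc 1 X, ((wP X m : ℝ) : ℂ) * pv ψ m * ee ((m : ℝ) * x)‖
        ≤ ∑ m ∈ Icc 1 X, (1 : ℝ) := by
          refine norm_sum_le_of_le _ fun m _ => ?_
          rw [norm_mul, norm_mul, norm_ee, mul_one, Complex.norm_real, Real.norm_eq_abs,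
            abs_of_nonneg (Pool.MP_dd84fd_nt.JX.wP_nonneg X m)]
          exact mul_le_one₀ (Pool.MP_dd84fd_nt.JX.wP_le_one X m) (norm_nonneg _)
            (Pool.MP_dd84fd_nt.BX.pv_norm_le ψ m)
      _ = X := by simp
  unfold IS
  have h1 := intervalIntegral.norm_integral_le_of_norm_le_const
    (a := -(v / X)) (b := v / X) (C := (X : ℝ) * X)
    (f := fun x : ℝ => SX X ψ₁ x * SX X ψ₂ x * ee (-((n : ℝ) * x))) (by
      intro x _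
      rw [norm_mul, norm_mul, norm_ee, mul_one]
      exact mul_le_mul (hSX ψ₁ x) (hSX ψ₂ x) (norm_nonneg _) hX0.le)
  refine h1.trans (le_of_eq ?_)
  have h2 : v / (X : ℝ) - -(v / X) = 2 * v / X := by ring
  rw [h2, abs_of_nonneg (by positivity)]
  field_simp

end Pool.MP_dd84fd_nt.EF
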