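import Pool.Agent.Lib.MP_dd84fd_nt.EF.FamG
import Pool.Agent.Lib.MP_dd84fd_nt.JX.Main

/-!
# EF-Fam: the asymptotic formula for families of even numbers with small pairwise gcds
-/

set_option autoImplicit false

namespace Pool.MP_dd84fd_nt.EF

open Finset Pool.MP_67663b_nt.Odd Pool.MP_dd84fd_nt.En Pool.MP_dd84fd_nt.E2 Pool.MP_dd84fd_nt.LS
open Pool.MP_dd84fd_nt.GX Pool.MP_dd84fd_nt.HX Pool.MP_dd84fd_nt.IX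

open Classical in
/-- exponent `1/3` -/
theorem fam_j (A : ℕ) : ∀ θ ε : ℝ, 1 / 3 ≤ θ → θ ≤ 1 → 0 < ε → ∀ K : ℕ, ∃ X₀ : ℕ, ∀ X : ℕ,
    X₀ ≤ X → ∀ N : Finset ℕ, (∀ n ∈ N, 1 ≤ n ∧ n ≤ X ∧ Even n) →
      (∀ n ∈ N, ∀ m ∈ N, n ≠ m → (Nat.gcd n m : ℝ) < Real.log X ^ K) →
      ((N.filter (fun n : ℕ => (n : ℝ) / Real.log (n : ℝ) ^ A <
        |(g n : ℝ) - SS n * JJ n|)).card : ℝ) ≤ (X : ℝ) ^ (θ + ε) := by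
  intro θ ε h1 h2 hε K
  obtain ⟨C, hC⟩ := Pool.MP_dd84fd_nt.JX.fin_j A
  refine fam_gen (by linarith) hε C K ?_
  obtain ⟨Y, hY⟩ := hC θ (ε / 2) h1 h2 (by linarith) K
  refine ⟨Y, fun X hX => ?_⟩
  obtain ⟨D, d1, d2, d3⟩ := hY X hX
  exact ⟨D, d1, fun d hd => (d2 d hd).1, d3 _ _ fun n hn => hn⟩

end Pool.MP_dd84fd_nt.EF
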