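import Mathlib

/-!
# EF-FamG: families of even numbers with small pairwise greatest common divisors

If for all large `X` there is a set `D` of at most `(log X)^C` integers `d ≥ (log X)^K` such that at
most `X^(θ+ε/2)` of the even `n ≤ X` divisible by no `d ∈ D` with `d ≤ n^(1-θ)` have the property
`P`, then for all large `X` and EVERY family `N` of even numbers `n ≤ X` with pairwise greatest common
divisors `< (log X)^K` at most `X^(θ+ε)` members have the property `P`: each `d ∈ D` divides at most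
one member of `N`. (The same as `XP.fam_of`, with light imports.)
-/

set_option autoImplicit false

namespace Pool.MP_dd84fd_nt.EF

open Finset

open Classical in
theorem fam_gen {P : ℕ → Prop} {θ ε : ℝ} (hθ : 0 ≤ θ) (hε : 0 < ε) (C K : ℕ)
    (h : ∃ X₀ : ℕ, ∀ X : ℕ, X₀ ≤ X → ∃ D : Finset ℕ, (D.card : ℝ) ≤ Real.log X ^ C ∧
      (∀ d ∈ D, Real.log X ^ K ≤ (d : ℝ)) ∧
      (((Icc 1 X).filter (fun n : ℕ => Even n ∧
        (∀ d ∈ D, (d : ℝ) ≤ (n : ℝ) ^ (1 - θ) → ¬ d ∣ n) ∧ P n)).card : ℝ) ≤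
          (X : ℝ) ^ (θ + ε / 2)) :
    ∃ X₀ : ℕ, ∀ X : ℕ, X₀ ≤ X → ∀ N : Finset ℕ, (∀ n ∈ N, 1 ≤ n ∧ n ≤ X ∧ Even n) →
      (∀ n ∈ N, ∀ m ∈ N, n ≠ m → (Nat.gcd n m : ℝ) < Real.log X ^ K) →
      ((N.filter P).card : ℝ) ≤ (X : ℝ) ^ (θ + ε) := by
  obtain ⟨X0, hX0⟩ := h
  have ht1 : Filter.Tendsto (fun X : ℕ => (X : ℝ) ^ (ε / 2)) Filter.atTop Filter.atTop :=
    (tendsto_rpow_atTop (by linarith)).comp tendsto_natCast_atTop_atTop
  have ht2 : ∀ᶠ X : ℕ in Filter.atTop, Real.log (X : ℝ) ^ C ≤ (X : ℝ) ^ (ε / 2) / 2 := by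
    have h1 := (isLittleO_log_rpow_rpow_atTop (C : ℝ) (show 0 < ε / 2 by linarith)).bound
      (show (0 : ℝ) < 1 / 2 by norm_num)
    have h2 := tendsto_natCast_atTop_atTop (R := ℝ) |>.eventually h1
    filter_upwards [h2] with X hX
    have h3 := (le_abs_self _).trans hX
    rw [Real.rpow_natCast, Real.norm_of_nonneg (by positivity)] at h3
    linarith
  have hev : ∀ᶠ X : ℕ in Filter.atTop, X0 ≤ X ∧ 1 ≤ X ∧
      Real.log (X : ℝ) ^ C ≤ (X : ℝ) ^ (ε / 2) / 2 ∧ 2 ≤ (X : ℝ) ^ (ε / 2) := by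
    filter_upwards [Filter.eventually_ge_atTop X0, Filter.eventually_ge_atTop 1,
      ht2, ht1.eventually_ge_atTop 2] with X a b c d using ⟨a, b, c, d⟩
  obtain ⟨X1, hX1⟩ := Filter.eventually_atTop.1 hev
  refine ⟨X1, fun X hX N hN hg => ?_⟩
  obtain ⟨ha, hb, hc, hd⟩ := hX1 X hX
  obtain ⟨D, hD0, hD1, hD2⟩ := hX0 X ha
  have hXr : (1 : ℝ) ≤ (X : ℝ) := by exact_mod_cast hb
  have hsub : N.filter P ⊆ ((Icc 1 X).filter (fun n : ℕ => Even n ∧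
      (∀ d ∈ D, (d : ℝ) ≤ (n : ℝ) ^ (1 - θ) → ¬ d ∣ n) ∧ P n)) ∪
      D.biUnion (fun d => N.filter (fun n => d ∣ n)) := by
    intro n hn
    rw [mem_filter] at hn
    obtain ⟨a1, a2, a3⟩ := hN n hn.1
    rw [mem_union]
    by_cases hex : ∃ d ∈ D, d ∣ n
    · obtain ⟨d, hdD, hdn⟩ := hex
      exact Or.inr (mem_biUnion.2 ⟨d, hdD, mem_filter.2 ⟨hn.1, hdn⟩⟩)
    · push Not at hex
      exact Or.inl (mem_filter.2 ⟨mem_Icc.2 ⟨a1, a2⟩, a3, fun d hdD _ => hex d hdD, hn.2⟩)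
  have hone : ∀ d ∈ D, (N.filter (fun n => d ∣ n)).card ≤ 1 := by
    intro d hdD
    rw [card_le_one]
    intro n hn m hm
    rw [mem_filter] at hn hm
    by_contra hne
    have h1 := hg n hn.1 m hm.1 hne
    have h2 : d ∣ Nat.gcd n m := Nat.dvd_gcd hn.2 hm.2
    have h3 : 0 < Nat.gcd n m := Nat.gcd_pos_of_pos_left _ (hN n hn.1).1
    have h4 : (d : ℝ) ≤ (Nat.gcd n m : ℝ) := by exact_mod_cast Nat.le_of_dvd h3 h2
    linarith [hD1 d hdD]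
  have hcard : ((N.filter P).card : ℝ) ≤ (X : ℝ) ^ (θ + ε / 2) + Real.log X ^ C := by
    have h1 : (N.filter P).card ≤ ((Icc 1 X).filter (fun n : ℕ => Even n ∧
      (∀ d ∈ D, (d : ℝ) ≤ (n : ℝ) ^ (1 - θ) → ¬ d ∣ n) ∧ P n)).card + D.card := by
      refine (card_le_card hsub).trans ((card_union_le _ _).trans ?_)
      refine Nat.add_le_add_left ?_ _
      refine card_biUnion_le.trans ((sum_le_sum hone).trans ?_)
      rw [sum_const, smul_eq_mul, mul_one]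
    have h2 : ((N.filter P).card : ℝ) ≤ (((Icc 1 X).filter (fun n : ℕ => Even n ∧
      (∀ d ∈ D, (d : ℝ) ≤ (n : ℝ) ^ (1 - θ) → ¬ d ∣ n) ∧ P n)).card : ℝ) + (D.card : ℝ) := by
      exact_mod_cast h1
    linarith
  have h5 : (1 : ℝ) ≤ (X : ℝ) ^ (θ + ε / 2) :=
    Real.one_le_rpow hXr (by linarith)
  have h6 : (X : ℝ) ^ (θ + ε) = (X : ℝ) ^ (θ + ε / 2) * (X : ℝ) ^ (ε / 2) := by
    rw [← Real.rpow_add (by linarith)]
    congr 1
    ring
  rw [h6]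
  obtain ⟨a, haa⟩ : ∃ a : ℝ, a = (X : ℝ) ^ (θ + ε / 2) := ⟨_, rfl⟩
  obtain ⟨b, hbb⟩ : ∃ b : ℝ, b = (X : ℝ) ^ (ε / 2) := ⟨_, rfl⟩
  rw [← haa] at hcard h5 ⊢
  rw [← hbb] at hc hd ⊢
  have h7 : 0 ≤ (a - 1) * (b - 1) := mul_nonneg (by linarith) (by linarith)
  nlinarith

end Pool.MP_dd84fd_nt.EF
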