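import Pool.Agent.Lib.MP_dd84fd_nt.EF.Defs
import Pool.Agent.Lib.MP_dd84fd_nt.BX.Gau
import Pool.Agent.Lib.MP_dd84fd_nt.En.Tot

/-!
# EF-Fin: the explicit formula in its final form

From `ScaleF` and `GauBD`: all primes `p ≤ X` instead of the primes `≥ X^(1/10)`, `θ`, `ε` instead of
`th`, `e`, the size of the coefficients.  `tauF`: the Gauss sum `∑_{a mod q} conj ψ(a) e(a/q)`; `coF`: the
coefficient modulo `q`; `SF`: the singular series of a pair of characters; `SA`: the sum over the primes;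
`IF`: the integral.
-/

set_option autoImplicit false

namespace Pool.MP_dd84fd_nt.EF

open Finset Pool.MP_67663b_nt.Odd Pool.MP_dd84fd_nt.En Pool.MP_dd84fd_nt.E2 Pool.MP_dd84fd_nt.LS
open Pool.MP_dd84fd_nt.GX Pool.MP_dd84fd_nt.HX Pool.MP_dd84fd_nt.IX
open Pool.MP_dd84fd_nt.PL (rr)
open Pool.MP_dd84fd_nt.JX (wP gP DecJ Adm AdmP Str)
open Pool.MP_dd84fd_nt.LXP (tq)
open Pool.MP_dd84fd_nt.BX (PC pv IsPC PR SX sN prc ind Rm cf GauBD h0 cP)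

/-- `∑_{a mod q, (a,q)=1} conj ψ(a) e(a/q)` -/
noncomputable def tauF (q : ℕ) (ψ : PC) : ℂ :=
  ∑ a ∈ (range q).filter (fun a => Nat.Coprime a q), (ψ.2 (a : ZMod ψ.1))⁻¹ * ee ((a : ℝ) / q)

/-- the coefficient of a pair of characters modulo `q` -/
noncomputable def coF (n : ℕ) (ψ₁ ψ₂ : PC) (q : ℕ) : ℂ :=
  if ψ₁.1 ∣ q ∧ ψ₂.1 ∣ q then tauF q ψ₁ * tauF q ψ₂ *
    (∑ a ∈ (range q).filter (fun a => Nat.Coprime a q),
      ψ₁.2 (a : ZMod ψ₁.1) * ψ₂.2 (a : ZMod ψ₂.1) * ee (-((n : ℝ) * ((a : ℝ) / q)))) /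
    (Nat.totient q : ℂ) ^ 2 else 0

/-- the singular series of a pair of characters -/
noncomputable def SF (n : ℕ) (ψ₁ ψ₂ : PC) : ℂ := ∑' q : ℕ, coF n ψ₁ ψ₂ q

/-- the exponential sum over the primes `p ≤ X` twisted by `ψ` -/
noncomputable def SA (X : ℕ) (ψ : PC) (x : ℝ) : ℂ :=
  ∑ p ∈ (Icc 1 X).filter Nat.Prime, ψ.2 (p : ZMod ψ.1) * ee ((p : ℝ) * x)

/-- the integral of the explicit formula -/
noncomputable def IF (X n : ℕ) (T : ℝ) (ψ₁ ψ₂ : PC) : ℂ :=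
  ((1 / Real.log 2 : ℝ) : ℂ) * ∫ u in (1 : ℝ)..2,
    (∫ x in (-(T * u / X))..(T * u / X), SA X ψ₁ x * SA X ψ₂ x * ee (-((n : ℝ) * x))) *
      ((1 / u : ℝ) : ℂ)

/-! ### Coefficients -/

private theorem fn_sum (q : ℕ) [NeZero q] (f : ℕ → ℂ) :
    ∑ y ∈ range q, f y = ∑ y : ZMod q, f y.val := by
  symm
  refine Finset.sum_nbij' (fun y => y.val) (fun y => (y : ZMod q)) ?_ ?_ ?_ ?_ ?_
  · intro y _
    exact Finset.mem_range.2 (ZMod.val_lt y)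
  · intro y _
    exact Finset.mem_univ _
  · intro y _
    exact ZMod.natCast_zmod_val y
  · intro y hy
    exact ZMod.val_cast_of_lt (Finset.mem_range.1 hy)
  · intro y _
    rfl

theorem ind_apply (q : ℕ) (ψ : PC) (h : ψ.1 ∣ q) (a : ℕ) (ha : Nat.Coprime a q) :
    (BX.ind q ψ) (a : ZMod q) = ψ.2 (a : ZMod ψ.1) := by
  unfold BX.ind
  rw [dif_pos h]
  have hc : IsCoprime (a : ℤ) (q : ℤ) := Nat.isCoprime_iff_coprime.mpr ha
  have e1 := DirichletCharacter.changeLevel_eq_cast_of_dvd' ψ.2 h hc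
  rw [Int.cast_natCast, Int.cast_natCast] at e1
  exact e1

private theorem fn_rr (q : ℕ) [NeZero q] (f : ℕ → ℂ) (hf : ∀ y : ℕ, ¬ Nat.Coprime y q → f y = 0) :
    ∑ y : ZMod q, f y.val = ∑ a ∈ (range q).filter (fun a => Nat.Coprime a q), f a := by
  rw [← fn_sum, sum_filter]
  refine sum_congr rfl fun y _ => ?_
  by_cases hy : Nat.Coprime y q
  · rw [if_pos hy]
  · rw [if_neg hy, hf y hy]

theorem tq_tauF (q : ℕ) [NeZero q] (ψ : PC) (h : ψ.1 ∣ q) :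
    tq q (BX.ind q ψ)⁻¹ = tauF q ψ := by
  unfold tq tauF
  have h1 : ∀ y : ZMod q, (BX.ind q ψ)⁻¹ y * ee ((y.val : ℝ) / q) =
      (fun a : ℕ => (BX.ind q ψ)⁻¹ (a : ZMod q) * ee ((a : ℝ) / q)) y.val := by
    intro y
    simp only [ZMod.natCast_zmod_val]
  rw [sum_congr rfl fun y _ => h1 y,
    fn_rr q (fun a : ℕ => (BX.ind q ψ)⁻¹ (a : ZMod q) * ee ((a : ℝ) / q))]
  · refine sum_congr rfl fun a ha => ?_
    rw [mem_filter] at ha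
    rw [MulChar.inv_apply_eq_inv', ind_apply q ψ h a ha.2]
  · intro y hy
    have hu : ¬ IsUnit ((y : ℕ) : ZMod q) := fun hh => hy ((ZMod.isUnit_iff_coprime y q).1 hh)
    rw [MulChar.map_nonunit _ hu, zero_mul]

theorem cc_coF (n : ℕ) (ψ₁ ψ₂ : PC) (q : ℕ) :
    (if ψ₁.1 ∣ q ∧ ψ₂.1 ∣ q then cc q n ψ₁ ψ₂ else 0) = coF n ψ₁ ψ₂ q := by
  unfold coF
  by_cases h : ψ₁.1 ∣ q ∧ ψ₂.1 ∣ q
  · rw [if_pos h, if_pos h]
    unfold cc
    by_cases hq : q = 0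
    · rw [dif_pos hq]
      subst hq
      unfold tauF
      simp
    · rw [dif_neg hq]
      have : NeZero q := ⟨hq⟩
      rw [tq_tauF q ψ₁ h.1, tq_tauF q ψ₂ h.2]
      congr 2
      unfold Rm rr
      refine sum_congr rfl fun a ha => ?_
      rw [mem_filter] at ha
      rw [MulChar.mul_apply, ind_apply q ψ₁ h.1 a ha.2, ind_apply q ψ₂ h.2 a ha.2]
  · rw [if_neg h, if_neg h]

theorem SP_SF (n : ℕ) (ψ₁ ψ₂ : PC) : SP n ψ₁ ψ₂ = SF n ψ₁ ψ₂ := by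
  unfold SP SF
  exact tsum_congr fun q => cc_coF n ψ₁ ψ₂ q

private theorem norm_coF (n : ℕ) (ψ₁ ψ₂ : PC) (q : ℕ) (hq : 1 ≤ q) (h : ψ₁.1 ∣ q ∧ ψ₂.1 ∣ q) :
    ‖coF n ψ₁ ψ₂ q‖ = cf q n (BX.ind q ψ₁) (BX.ind q ψ₂) := by
  rw [← cc_coF, if_pos h]
  unfold cc cf
  have hq0 : q ≠ 0 := by omega
  rw [dif_neg hq0, dif_neg hq0]
  rw [norm_div, norm_mul, norm_mul, norm_pow]
  simp

/-- the size of the coefficients -/
theorem sf_bound (hG : GauBD) : ∃ C : ℝ, 0 < C ∧ ∀ n : ℕ, 1 ≤ n → ∀ ψ₁ ψ₂ : PC, IsPC ψ₁ →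
    IsPC ψ₂ → (Summable fun q : ℕ => ‖coF n ψ₁ ψ₂ q‖) ∧
    ‖SF n ψ₁ ψ₂‖ ≤ C * ((n : ℝ) / (Nat.totient n : ℝ)) * (h0 n ψ₁ ψ₂ : ℝ) ^ (-(1 / 4 : ℝ)) ∧
    (¬ cP ψ₁ ψ₂ ∣ h0 n ψ₁ ψ₂ → SF n ψ₁ ψ₂ = 0) := by
  classical
  obtain ⟨C, hC, hG⟩ := hG
  refine ⟨C, hC, fun n hn ψ₁ ψ₂ h1 h2 => ?_⟩
  have hz : ∀ q : ℕ, ¬ (1 ≤ q ∧ ψ₁.1 ∣ q ∧ ψ₂.1 ∣ q) → coF n ψ₁ ψ₂ q = 0 := by
    intro q hq
    by_cases hd : ψ₁.1 ∣ q ∧ ψ₂.1 ∣ q
    · have : q = 0 := by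
        by_contra hne
        exact hq ⟨by omega, hd⟩
      subst this
      unfold coF tauF
      simp
    · unfold coF
      rw [if_neg hd]
  have hpart : ∀ s : Finset ℕ, ∑ q ∈ s, ‖coF n ψ₁ ψ₂ q‖ ≤
      C * ((n : ℝ) / (Nat.totient n : ℝ)) * (h0 n ψ₁ ψ₂ : ℝ) ^ (-(1 / 4 : ℝ)) := by
    intro s
    have e1 : ∑ q ∈ s, ‖coF n ψ₁ ψ₂ q‖ =
        ∑ q ∈ s.filter (fun q => 1 ≤ q ∧ ψ₁.1 ∣ q ∧ ψ₂.1 ∣ q), ‖coF n ψ₁ ψ₂ q‖ := by
      rw [sum_filter]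
      refine sum_congr rfl fun q _ => ?_
      by_cases hq : 1 ≤ q ∧ ψ₁.1 ∣ q ∧ ψ₂.1 ∣ q
      · rw [if_pos hq]
      · rw [if_neg hq, hz q hq, norm_zero]
    rw [e1]
    have e2 := (hG n hn ψ₁ ψ₂ h1 h2 (s.filter (fun q => 1 ≤ q ∧ ψ₁.1 ∣ q ∧ ψ₂.1 ∣ q))
      (fun q hq => (mem_filter.1 hq).2)).1
    refine le_trans (le_of_eq ?_) e2
    refine sum_congr rfl fun q hq => ?_
    have hq' := (mem_filter.1 hq).2
    exact norm_coF n ψ₁ ψ₂ q hq'.1 hq'.2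
  have hsum : Summable fun q : ℕ => ‖coF n ψ₁ ψ₂ q‖ :=
    summable_of_sum_le (fun q => norm_nonneg _) hpart
  refine ⟨hsum, ?_, fun hne => ?_⟩
  · exact (norm_tsum_le_tsum_norm hsum).trans (hsum.tsum_le_of_sum_le hpart)
  · unfold SF
    have e3 : ∀ q : ℕ, coF n ψ₁ ψ₂ q = 0 := by
      intro q
      by_cases hq : 1 ≤ q ∧ ψ₁.1 ∣ q ∧ ψ₂.1 ∣ q
      · have e4 := (hG n hn ψ₁ ψ₂ h1 h2 {q} (fun q' hq' => by
          rw [mem_singleton] at hq'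
          subst hq'
          exact hq)).2 hne q (mem_singleton_self q)
        rw [← norm_coF n ψ₁ ψ₂ q hq.1 hq.2] at e4
        exact norm_eq_zero.1 e4
      · exact hz q hq
    simp [e3]

/-! ### All primes `p ≤ X` -/

private theorem pv_le (ψ : PC) (n : ℕ) : ‖ψ.2 (n : ZMod ψ.1)‖ ≤ 1 := DirichletCharacter.norm_le_one ψ.2 _

theorem SA_le (X : ℕ) (ψ : PC) (x : ℝ) : ‖SA X ψ x‖ ≤ X := by
  unfold SA
  refine (norm_sum_le _ _).trans ?_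
  have h1 : ∀ p ∈ (Icc 1 X).filter Nat.Prime, ‖ψ.2 (p : ZMod ψ.1) * ee ((p : ℝ) * x)‖ ≤ 1 := by
    intro p _
    rw [norm_mul, norm_ee, mul_one]
    exact pv_le ψ p
  have h2 := sum_le_card_nsmul _ _ _ h1
  rw [nsmul_eq_mul, mul_one] at h2
  refine h2.trans ?_
  have h3 : ((Icc 1 X).filter Nat.Prime).card ≤ X := by
    have := card_filter_le (Icc 1 X) Nat.Prime
    rwa [Nat.card_Icc, Nat.add_sub_cancel] at this
  exact_mod_cast h3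

private theorem SX_eq (X : ℕ) (ψ : PC) (x : ℝ) :
    SX X ψ x = ∑ p ∈ (Icc 1 X).filter (fun p => p.Prime ∧ zI X ≤ p),
      ψ.2 (p : ZMod ψ.1) * ee ((p : ℝ) * x) := by
  unfold SX
  rw [sum_filter]
  refine sum_congr rfl fun n _ => ?_
  unfold wP BX.pv
  by_cases h : n.Prime ∧ zI X ≤ n
  · rw [if_pos h, if_pos h]
    simp
  · rw [if_neg h, if_neg h]
    simp

theorem SX_le (X : ℕ) (ψ : PC) (x : ℝ) : ‖SX X ψ x‖ ≤ X := by
  rw [SX_eq]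
  refine (norm_sum_le _ _).trans ?_
  have h1 : ∀ p ∈ (Icc 1 X).filter (fun p => p.Prime ∧ zI X ≤ p),
      ‖ψ.2 (p : ZMod ψ.1) * ee ((p : ℝ) * x)‖ ≤ 1 := by
    intro p _
    rw [norm_mul, norm_ee, mul_one]
    exact pv_le ψ p
  have h2 := sum_le_card_nsmul _ _ _ h1
  rw [nsmul_eq_mul, mul_one] at h2
  refine h2.trans ?_
  have h3 : ((Icc 1 X).filter (fun p => p.Prime ∧ zI X ≤ p)).card ≤ X := by
    have := card_filter_le (Icc 1 X) (fun p => p.Prime ∧ zI X ≤ p)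
    rwa [Nat.card_Icc, Nat.add_sub_cancel] at this
  exact_mod_cast h3

theorem SA_sub (X : ℕ) (hX : 1 ≤ X) (ψ : PC) (x : ℝ) :
    ‖SA X ψ x - SX X ψ x‖ ≤ 2 * (X : ℝ) ^ (1 / 10 : ℝ) := by
  have hXr : (1 : ℝ) ≤ X := by exact_mod_cast hX
  have e1 : SA X ψ x - SX X ψ x = ∑ p ∈ (Icc 1 X).filter (fun p => p.Prime ∧ ¬ zI X ≤ p),
      ψ.2 (p : ZMod ψ.1) * ee ((p : ℝ) * x) := by
    rw [SX_eq]
    unfold SA
    rw [sub_eq_iff_eq_add', ← filter_filter, ← filter_filter, sum_filter_add_sum_filter_not]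
  rw [e1]
  refine (norm_sum_le _ _).trans ?_
  have h1 : ∀ p ∈ (Icc 1 X).filter (fun p => p.Prime ∧ ¬ zI X ≤ p),
      ‖ψ.2 (p : ZMod ψ.1) * ee ((p : ℝ) * x)‖ ≤ 1 := by
    intro p _
    rw [norm_mul, norm_ee, mul_one]
    exact pv_le ψ p
  have h2 := sum_le_card_nsmul _ _ _ h1
  rw [nsmul_eq_mul, mul_one] at h2
  refine h2.trans ?_
  have h3 : ((Icc 1 X).filter (fun p => p.Prime ∧ ¬ zI X ≤ p)).card ≤ zI X := by
    have h4 : (Icc 1 X).filter (fun p => p.Prime ∧ ¬ zI X ≤ p) ⊆ Finset.range (zI X) := by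
      intro p hp
      rw [mem_filter] at hp
      rw [Finset.mem_range]
      omega
    have := card_le_card h4
    rwa [card_range] at this
  have h5 : ((zI X : ℕ) : ℝ) ≤ (X : ℝ) ^ (1 / 10 : ℝ) + 1 := by
    unfold zI
    exact (Nat.ceil_lt_add_one (by positivity)).le
  have h6 : (1 : ℝ) ≤ (X : ℝ) ^ (1 / 10 : ℝ) := Real.one_le_rpow hXr (by norm_num)
  have h7 : (((Icc 1 X).filter (fun p => p.Prime ∧ ¬ zI X ≤ p)).card : ℝ) ≤ zI X := by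
    exact_mod_cast h3
  linarith

private theorem ee_cont (c : ℝ) : Continuous fun x : ℝ => ee (c * x) := by
  unfold ee
  fun_prop

private theorem SA_cont (X : ℕ) (ψ : PC) : Continuous (SA X ψ) := by
  unfold SA
  exact continuous_finsetSum _ fun p _ => continuous_const.mul (ee_cont _)

private theorem SX_cont' (X : ℕ) (ψ : PC) : Continuous (SX X ψ) := by
  unfold SX
  exact continuous_finsetSum _ fun p _ => continuous_const.mul (ee_cont _)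

/-- `∫ S S e(-n x)` over `|x| ≤ v/X`, all primes -/
noncomputable def JS (X n : ℕ) (ψ₁ ψ₂ : PC) (v : ℝ) : ℂ :=
  ∫ x in (-(v / X))..(v / X), SA X ψ₁ x * SA X ψ₂ x * ee (-((n : ℝ) * x))

private theorem fA_cont (X n : ℕ) (ψ₁ ψ₂ : PC) :
    Continuous fun x : ℝ => SA X ψ₁ x * SA X ψ₂ x * ee (-((n : ℝ) * x)) := by
  have h : Continuous fun x : ℝ => ee (-((n : ℝ) * x)) := by
    have : (fun x : ℝ => ee (-((n : ℝ) * x))) = fun x : ℝ => ee ((-(n : ℝ)) * x) := by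
      funext x
      rw [neg_mul]
    rw [this]
    exact ee_cont _
  exact ((SA_cont X ψ₁).mul (SA_cont X ψ₂)).mul h

private theorem fX_cont (X n : ℕ) (ψ₁ ψ₂ : PC) :
    Continuous fun x : ℝ => SX X ψ₁ x * SX X ψ₂ x * ee (-((n : ℝ) * x)) := by
  have h : Continuous fun x : ℝ => ee (-((n : ℝ) * x)) := by
    have : (fun x : ℝ => ee (-((n : ℝ) * x))) = fun x : ℝ => ee ((-(n : ℝ)) * x) := by
      funext x
      rw [neg_mul]
    rw [this]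
    exact ee_cont _
  exact ((SX_cont' X ψ₁).mul (SX_cont' X ψ₂)).mul h

private theorem prim_cont (F : ℝ → ℂ) (hF : Continuous F) (c : ℝ) :
    Continuous fun v : ℝ => ∫ x in (-(v / c))..(v / c), F x := by
  have h0 : ∀ a b : ℝ, IntervalIntegrable F MeasureTheory.volume a b :=
    fun a b => hF.intervalIntegrable a b
  have h1 : Continuous fun t : ℝ => ∫ x in (0 : ℝ)..t, F x :=
    intervalIntegral.continuous_primitive h0 0
  have h2 : (fun v : ℝ => ∫ x in (-(v / c))..(v / c), F x) = fun v : ℝ =>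
      (∫ x in (0 : ℝ)..(v / c), F x) - ∫ x in (0 : ℝ)..(-(v / c)), F x := by
    funext v
    rw [intervalIntegral.integral_interval_sub_left (h0 _ _) (h0 _ _)]
  rw [h2]
  exact (h1.comp (continuous_id.div_const c)).sub (h1.comp (continuous_id.div_const c).neg)

private theorem JS_sub (X n : ℕ) (hX : 1 ≤ X) (ψ₁ ψ₂ : PC) (v : ℝ) (hv : 0 ≤ v) :
    ‖JS X n ψ₁ ψ₂ v - IS X n ψ₁ ψ₂ v‖ ≤ 8 * v * (X : ℝ) ^ (1 / 10 : ℝ) := by
  have hXr : (1 : ℝ) ≤ X := by exact_mod_cast hX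
  unfold JS IS
  rw [← intervalIntegral.integral_sub ((fA_cont X n ψ₁ ψ₂).intervalIntegrable _ _)
    ((fX_cont X n ψ₁ ψ₂).intervalIntegrable _ _)]
  have h1 : ∀ x ∈ Set.uIoc (-(v / (X : ℝ))) (v / X),
      ‖SA X ψ₁ x * SA X ψ₂ x * ee (-((n : ℝ) * x)) -
        SX X ψ₁ x * SX X ψ₂ x * ee (-((n : ℝ) * x))‖ ≤ 4 * X * (X : ℝ) ^ (1 / 10 : ℝ) := by
    intro x _
    have e1 : SA X ψ₁ x * SA X ψ₂ x * ee (-((n : ℝ) * x)) -
        SX X ψ₁ x * SX X ψ₂ x * ee (-((n : ℝ) * x)) =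
        ((SA X ψ₁ x - SX X ψ₁ x) * SA X ψ₂ x + SX X ψ₁ x * (SA X ψ₂ x - SX X ψ₂ x)) *
          ee (-((n : ℝ) * x)) := by ring
    rw [e1, norm_mul, norm_ee, mul_one]
    refine (norm_add_le _ _).trans ?_
    rw [norm_mul, norm_mul]
    have i1 := mul_le_mul (SA_sub X hX ψ₁ x) (SA_le X ψ₂ x) (norm_nonneg _) (by positivity)
    have i2 := mul_le_mul (SX_le X ψ₁ x) (SA_sub X hX ψ₂ x) (norm_nonneg _) (by positivity)
    linarith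
  have h2 := intervalIntegral.norm_integral_le_of_norm_le_const h1
  refine h2.trans ?_
  have h3 : |v / (X : ℝ) - -(v / X)| = 2 * (v / X) := by
    rw [show v / (X : ℝ) - -(v / X) = 2 * (v / X) by ring]
    exact abs_of_nonneg (by positivity)
  rw [h3]
  have hX0 : (X : ℝ) ≠ 0 := by linarith
  have h4 : 4 * X * (X : ℝ) ^ (1 / 10 : ℝ) * (2 * (v / X)) = 8 * v * (X : ℝ) ^ (1 / 10 : ℝ) := by
    field_simp
    ring
  rw [h4]

private theorem av_int (Φ : ℝ → ℂ) (hΦ : Continuous Φ) (T : ℝ) :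
    IntervalIntegrable (fun u : ℝ => Φ (T * u) * ((1 / u : ℝ) : ℂ)) MeasureTheory.volume 1 2 := by
  refine ContinuousOn.intervalIntegrable ?_
  rw [Set.uIcc_of_le (by norm_num)]
  refine ((hΦ.comp (continuous_const.mul continuous_id)).continuousOn).mul ?_
  refine Complex.continuous_ofReal.comp_continuousOn ?_
  refine ContinuousOn.div continuousOn_const continuousOn_id fun u hu => ?_
  have := hu.1
  intro h0
  have h1 : u = 0 := h0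
  linarith

/-- the integral with all primes and the integral with the primes `≥ X^(1/10)` -/
theorem IF_sub (X n : ℕ) (hX : 1 ≤ X) (ψ₁ ψ₂ : PC) (T : ℝ) (hT : 0 ≤ T) :
    ‖IF X n T ψ₁ ψ₂ - II X n T ψ₁ ψ₂‖ ≤ 16 * T * (X : ℝ) ^ (1 / 10 : ℝ) := by
  have e1 : IF X n T ψ₁ ψ₂ = av (JS X n ψ₁ ψ₂) T := by
    unfold IF av JS
    rfl
  have hJ : Continuous (JS X n ψ₁ ψ₂) := prim_cont _ (fA_cont X n ψ₁ ψ₂) X
  have hI : Continuous (IS X n ψ₁ ψ₂) := prim_cont _ (fX_cont X n ψ₁ ψ₂) X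
  rw [e1]
  unfold II av
  rw [← mul_sub, ← intervalIntegral.integral_sub (av_int _ hJ T) (av_int _ hI T), norm_mul]
  have hl : (0.69 : ℝ) < Real.log 2 := by
    have := Real.log_two_gt_d9
    linarith
  have h1 : ∀ u ∈ Set.uIoc (1 : ℝ) 2, ‖JS X n ψ₁ ψ₂ (T * u) * ((1 / u : ℝ) : ℂ) -
      IS X n ψ₁ ψ₂ (T * u) * ((1 / u : ℝ) : ℂ)‖ ≤ 8 * T * (X : ℝ) ^ (1 / 10 : ℝ) := by
    intro u hu
    rw [Set.uIoc_of_le (by norm_num)] at hu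
    have hu0 : 0 < u := by linarith [hu.1]
    rw [← sub_mul, norm_mul, Complex.norm_real, Real.norm_of_nonneg (by positivity)]
    have h2 := JS_sub X n hX ψ₁ ψ₂ (T * u) (by positivity)
    calc _ ≤ 8 * (T * u) * (X : ℝ) ^ (1 / 10 : ℝ) * (1 / u) :=
          mul_le_mul_of_nonneg_right h2 (by positivity)
      _ = _ := by field_simp
  have h2 := intervalIntegral.norm_integral_le_of_norm_le_const h1
  rw [show |(2 : ℝ) - 1| = 1 by norm_num, mul_one] at h2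
  have h3 : ‖((1 / Real.log 2 : ℝ) : ℂ)‖ ≤ 2 := by
    rw [Complex.norm_real, Real.norm_of_nonneg (by positivity), div_le_iff₀ (by linarith)]
    linarith
  calc _ ≤ 2 * (8 * T * (X : ℝ) ^ (1 / 10 : ℝ)) :=
        mul_le_mul h3 h2 (norm_nonneg _) (by norm_num)
    _ = _ := by ring

/-- the explicit formula -/
theorem fin_e (hS : ScaleF) (hG : GauBD) (A : ℕ) : ∃ C B : ℕ, ∀ θ ε : ℝ, 1 / 3 ≤ θ →
    θ < 1 / 2 → 0 < ε → ∀ K : ℕ, ∃ X0 : ℕ, ∀ X : ℕ, X0 ≤ X → ∃ Y : Finset PC,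
      (Y.card : ℝ) ≤ (Real.log X) ^ C ∧
      (∀ ψ ∈ Y, ψ.2.IsPrimitive ∧ (Real.log X) ^ K ≤ (ψ.1 : ℝ) ∧
        (ψ.1 : ℝ) ≤ (X : ℝ) ^ (1 - θ) ∧ ∃ y : ℕ, (X : ℝ) ^ (1 / 11 : ℝ) ≤ y ∧ y ≤ X ∧
        (y : ℝ) / (Real.log X) ^ C <
          ‖∑ p ∈ (Icc 1 y).filter Nat.Prime, ψ.2 (p : ZMod ψ.1)‖) ∧
      ∀ P : ℕ → Prop, ∀ _ : DecidablePred P,
        (∀ n, P n → X < 2 * n ∧ Even n ∧ (n : ℝ) / (Real.log n) ^ A <
          ‖(((g n : ℝ) - SS n * JJ n : ℝ) : ℂ) -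
            ∑ ψ₁ ∈ Y, ∑ ψ₂ ∈ Y, SF n ψ₁ ψ₂ * IF X n ((Real.log X) ^ B) ψ₁ ψ₂‖) →
        (((Icc 1 X).filter P).card : ℝ) ≤ (X : ℝ) ^ (θ + ε) := by
  classical
  obtain ⟨C, B, hCB⟩ := hS (A + 1)
  obtain ⟨C0, hC0, hsf⟩ := sf_bound hG
  refine ⟨C, B, fun θ ε h1 h2 hε K => ?_⟩
  obtain ⟨t, ht⟩ : ∃ t : ℝ, t = min (θ + ε) (1 / 2) := ⟨_, rfl⟩
  have ht1 : t ≤ θ + ε := by rw [ht]; exact min_le_left _ _
  have ht2 : t ≤ 1 / 2 := by rw [ht]; exact min_le_right _ _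
  have ht3 : θ < t := by rw [ht]; exact lt_min (by linarith) h2
  obtain ⟨e, he⟩ : ∃ e : ℝ, e = (t - θ) / 10000 := ⟨_, rfl⟩
  have he0 : 0 < e := by rw [he]; linarith
  obtain ⟨X1, hX1⟩ := hCB t e ⟨by linarith, ht2, he0, by rw [he]; linarith,
    by rw [he]; linarith⟩ K
  obtain ⟨X2, hX2⟩ := MP_log_pow (48 * C0) (2 * C + B + 1 + (A + 1)) (ε := 9 / 10) (by norm_num)
  obtain ⟨X3, hX3⟩ := MP_log_large 4
  refine ⟨max X1 (max X2 (max X3 1)), fun X hX => ?_⟩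
  simp only [max_le_iff] at hX
  obtain ⟨x1, x2, x3, x4⟩ := hX
  obtain ⟨Y, Ex, y1, y2, y3, y4⟩ := hX1 X x1
  have hpow := hX2 X x2
  have hL := hX3 X x3
  have hXR : (1 : ℝ) ≤ X := by exact_mod_cast x4
  have hXp : (0 : ℝ) < X := by linarith
  have hL0 : 0 < Real.log X := by linarith
  refine ⟨Y, y1, fun ψ hψ => ?_, fun P _ hP => ?_⟩
  · obtain ⟨q1, q2, q3, q4⟩ := y2 ψ hψ
    refine ⟨q1.2, q2, q3.trans ?_, q4⟩
    unfold RE
    exact Real.rpow_le_rpow_of_exponent_le hXR (by rw [he]; linarith)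
  · have hsub : (Icc 1 X).filter P ⊆ Ex := by
      intro n hn
      rw [mem_filter, mem_Icc] at hn
      obtain ⟨⟨n1, n2⟩, n3⟩ := hn
      obtain ⟨n4, n5, n6⟩ := hP n n3
      by_contra hEx
      have k1 := y4 n n4 n2 n5 hEx
      have hn2 : 2 ≤ n := by
        obtain ⟨k, hk⟩ := n5
        omega
      have hnR : (X : ℝ) < 2 * n := by exact_mod_cast n4
      have hnX : (n : ℝ) ≤ X := by exact_mod_cast n2
      have hn2R : (2 : ℝ) ≤ n := by exact_mod_cast hn2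
      have hlogn : 0 < Real.log n := Real.log_pos (by linarith)
      have hlogle : Real.log n ≤ Real.log X := Real.log_le_log (by linarith) hnX
      -- the coefficients
      have hphi : (n : ℝ) / (Nat.totient n : ℝ) ≤ 3 * Real.log X := by
        have i1 := totient_ge n (by omega)
        have i2 : 0 < (Nat.totient n : ℝ) := by exact_mod_cast Nat.totient_pos.2 (by omega)
        rw [div_le_iff₀ i2]
        have i3 : Real.logb 2 n ≤ 2 * Real.log X := by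
          rw [Real.logb, div_le_iff₀ (Real.log_pos (by norm_num))]
          have := Real.log_two_gt_d9
          nlinarith
        have i4 : 1 + Real.logb 2 n ≤ 3 * Real.log X := by linarith
        calc (n : ℝ) ≤ (Nat.totient n : ℝ) * (1 + Real.logb 2 n) := i1
          _ ≤ (Nat.totient n : ℝ) * (3 * Real.log X) := mul_le_mul_of_nonneg_left i4 i2.le
          _ = _ := by ring
      have hco : ∀ ψ₁ ∈ Y, ∀ ψ₂ ∈ Y, ‖SF n ψ₁ ψ₂‖ ≤ 3 * C0 * Real.log X := by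
        intro ψ₁ h₁ ψ₂ h₂
        have p1 := (y2 ψ₁ h₁).1
        have p2 := (y2 ψ₂ h₂).1
        have j1 := (hsf n (by omega) ψ₁ ψ₂ p1 p2).2.1
        have j2 : (h0 n ψ₁ ψ₂ : ℝ) ^ (-(1 / 4 : ℝ)) ≤ 1 := by
          refine Real.rpow_le_one_of_one_le_of_nonpos ?_ (by norm_num)
          exact_mod_cast BX.h0_pos n ψ₁ ψ₂ p1 p2
        have j3 : 0 ≤ (n : ℝ) / (Nat.totient n : ℝ) := by positivity
        calc _ ≤ C0 * ((n : ℝ) / (Nat.totient n : ℝ)) * (h0 n ψ₁ ψ₂ : ℝ) ^ (-(1 / 4 : ℝ)) := j1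
          _ ≤ C0 * ((n : ℝ) / (Nat.totient n : ℝ)) * 1 :=
              mul_le_mul_of_nonneg_left j2 (by positivity)
          _ ≤ C0 * (3 * Real.log X) := by
              rw [mul_one]
              exact mul_le_mul_of_nonneg_left hphi hC0.le
          _ = _ := by ring
      -- the change of the integral
      have hdiff : ‖(∑ ψ₁ ∈ Y, ∑ ψ₂ ∈ Y, SF n ψ₁ ψ₂ * IF X n ((Real.log X) ^ B) ψ₁ ψ₂) -
          ∑ ψ₁ ∈ Y, ∑ ψ₂ ∈ Y, SP n ψ₁ ψ₂ * II X n ((Real.log X) ^ B) ψ₁ ψ₂‖ ≤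
          X / (Real.log X) ^ (A + 1) := by
        have d1 : (∑ ψ₁ ∈ Y, ∑ ψ₂ ∈ Y, SF n ψ₁ ψ₂ * IF X n ((Real.log X) ^ B) ψ₁ ψ₂) -
            ∑ ψ₁ ∈ Y, ∑ ψ₂ ∈ Y, SP n ψ₁ ψ₂ * II X n ((Real.log X) ^ B) ψ₁ ψ₂ =
            ∑ ψ₁ ∈ Y, ∑ ψ₂ ∈ Y, SF n ψ₁ ψ₂ * (IF X n ((Real.log X) ^ B) ψ₁ ψ₂ -
              II X n ((Real.log X) ^ B) ψ₁ ψ₂) := by
          rw [← sum_sub_distrib]
          refine sum_congr rfl fun ψ₁ _ => ?_
          rw [← sum_sub_distrib]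
          refine sum_congr rfl fun ψ₂ _ => ?_
          rw [SP_SF]
          ring
        rw [d1]
        have d2 : ∀ ψ₁ ∈ Y, ‖∑ ψ₂ ∈ Y, SF n ψ₁ ψ₂ * (IF X n ((Real.log X) ^ B) ψ₁ ψ₂ -
            II X n ((Real.log X) ^ B) ψ₁ ψ₂)‖ ≤
            Y.card * (48 * C0 * (Real.log X) ^ (B + 1) * (X : ℝ) ^ (1 / 10 : ℝ)) := by
          intro ψ₁ h₁
          refine (norm_sum_le _ _).trans ?_
          rw [← nsmul_eq_mul]
          refine sum_le_card_nsmul _ _ _ fun ψ₂ h₂ => ?_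
          rw [norm_mul]
          have d3 := mul_le_mul (hco ψ₁ h₁ ψ₂ h₂)
            (IF_sub X n x4 ψ₁ ψ₂ ((Real.log X) ^ B) (by positivity)) (norm_nonneg _)
            (by positivity)
          refine d3.trans (le_of_eq ?_)
          ring
        have d3 : ‖∑ ψ₁ ∈ Y, ∑ ψ₂ ∈ Y, SF n ψ₁ ψ₂ * (IF X n ((Real.log X) ^ B) ψ₁ ψ₂ -
            II X n ((Real.log X) ^ B) ψ₁ ψ₂)‖ ≤ Y.card * (Y.card *
            (48 * C0 * (Real.log X) ^ (B + 1) * (X : ℝ) ^ (1 / 10 : ℝ))) := by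
          refine (norm_sum_le _ _).trans ?_
          rw [← nsmul_eq_mul (Y.card) ((Y.card : ℝ) *
            (48 * C0 * (Real.log X) ^ (B + 1) * (X : ℝ) ^ (1 / 10 : ℝ)))]
          exact sum_le_card_nsmul _ _ _ d2
        refine d3.trans ?_
        have d4 : (Y.card : ℝ) * (Y.card *
            (48 * C0 * (Real.log X) ^ (B + 1) * (X : ℝ) ^ (1 / 10 : ℝ))) ≤
            (Real.log X) ^ C * ((Real.log X) ^ C *
              (48 * C0 * (Real.log X) ^ (B + 1) * (X : ℝ) ^ (1 / 10 : ℝ))) := by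
          have d5 : 0 ≤ 48 * C0 * (Real.log X) ^ (B + 1) * (X : ℝ) ^ (1 / 10 : ℝ) := by positivity
          exact mul_le_mul y1 (mul_le_mul_of_nonneg_right y1 d5) (by positivity) (by positivity)
        refine d4.trans ?_
        rw [le_div_iff₀ (by positivity)]
        have d6 : (X : ℝ) = (X : ℝ) ^ (9 / 10 : ℝ) * (X : ℝ) ^ (1 / 10 : ℝ) := by
          rw [← Real.rpow_add hXp]
          norm_num
        calc _ = 48 * C0 * (Real.log X) ^ (2 * C + B + 1 + (A + 1)) * (X : ℝ) ^ (1 / 10 : ℝ) := by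
              ring
          _ ≤ (X : ℝ) ^ (9 / 10 : ℝ) * (X : ℝ) ^ (1 / 10 : ℝ) :=
              mul_le_mul_of_nonneg_right hpow (by positivity)
          _ = X := d6.symm
      have k2 : ‖(((g n : ℝ) - SS n * JJ n : ℝ) : ℂ) -
            ∑ ψ₁ ∈ Y, ∑ ψ₂ ∈ Y, SF n ψ₁ ψ₂ * IF X n ((Real.log X) ^ B) ψ₁ ψ₂‖ ≤
          X / (Real.log X) ^ (A + 1) + X / (Real.log X) ^ (A + 1) := by
        have e1 : (((g n : ℝ) - SS n * JJ n : ℝ) : ℂ) -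
            ∑ ψ₁ ∈ Y, ∑ ψ₂ ∈ Y, SF n ψ₁ ψ₂ * IF X n ((Real.log X) ^ B) ψ₁ ψ₂ =
            ((((g n : ℝ) - SS n * JJ n : ℝ) : ℂ) -
              ∑ ψ₁ ∈ Y, ∑ ψ₂ ∈ Y, SP n ψ₁ ψ₂ * II X n ((Real.log X) ^ B) ψ₁ ψ₂) -
            ((∑ ψ₁ ∈ Y, ∑ ψ₂ ∈ Y, SF n ψ₁ ψ₂ * IF X n ((Real.log X) ^ B) ψ₁ ψ₂) -
              ∑ ψ₁ ∈ Y, ∑ ψ₂ ∈ Y, SP n ψ₁ ψ₂ * II X n ((Real.log X) ^ B) ψ₁ ψ₂) := by
          ring
        rw [e1]
        exact (norm_sub_le _ _).trans (add_le_add k1 hdiff)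
      have hp0 : 0 < (Real.log n) ^ A := by positivity
      have hp1 : (Real.log n) ^ A ≤ (Real.log X) ^ A := pow_le_pow_left₀ hlogn.le hlogle A
      have hp2 : 0 < (Real.log X) ^ A := by linarith
      have e3 : (X : ℝ) / (Real.log X) ^ (A + 1) + X / (Real.log X) ^ (A + 1) ≤
          (X / 2) / (Real.log X) ^ A := by
        have e4 : (X : ℝ) / (Real.log X) ^ (A + 1) + X / (Real.log X) ^ (A + 1) =
            (X / 2) / (Real.log X) ^ A * (4 / Real.log X) := by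
          rw [pow_succ]
          field_simp
          ring
        rw [e4]
        have e5 : 4 / Real.log X ≤ 1 := by
          rw [div_le_one (by linarith)]
          exact hL
        exact mul_le_of_le_one_right (by positivity) e5
      have e4 : (X / 2 : ℝ) / (Real.log X) ^ A ≤ n / (Real.log n) ^ A := by
        rw [div_le_div_iff₀ hp2 hp0]
        have : (X : ℝ) / 2 ≤ n := by linarith
        exact mul_le_mul this hp1 hp0.le (by linarith)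
      linarith
    have hc : (((Icc 1 X).filter P).card : ℝ) ≤ Ex.card := by exact_mod_cast card_le_card hsub
    exact (hc.trans y3).trans (Real.rpow_le_rpow_of_exponent_le hXR (by linarith))

/-- the secondary terms -/
noncomputable def secF (X n : ℕ) (T : ℝ) (Y : Finset PC) : ℂ :=
  ∑ ψ₁ ∈ Y, ∑ ψ₂ ∈ Y, SF n ψ₁ ψ₂ * IF X n T ψ₁ ψ₂

open Classical in
/-- the explicit formula with the size of the coefficients -/
theorem fin_c (hS : ScaleF) (hG : GauBD) (A : ℕ) : ∃ C B : ℕ, ∀ θ ε : ℝ, 1 / 3 ≤ θ →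
    θ < 1 / 2 → 0 < ε → ∀ K : ℕ, ∃ X0 : ℕ, ∀ X : ℕ, X0 ≤ X → ∃ Y : Finset PC,
      (Y.card : ℝ) ≤ Real.log X ^ C ∧
      (∀ ψ ∈ Y, ψ.2.IsPrimitive ∧ Real.log X ^ K ≤ (ψ.1 : ℝ) ∧
        (ψ.1 : ℝ) ≤ (X : ℝ) ^ (1 - θ) ∧ ∃ y : ℕ, (X : ℝ) ^ (1 / 11 : ℝ) ≤ y ∧ y ≤ X ∧
        (y : ℝ) / Real.log X ^ C <
          ‖∑ p ∈ (Icc 1 y).filter Nat.Prime, ψ.2 (p : ZMod ψ.1)‖) ∧
      (∀ ψ₁ ∈ Y, ∀ ψ₂ ∈ Y, ∀ n : ℕ, 1 ≤ n → (Summable fun q : ℕ => ‖coF n ψ₁ ψ₂ q‖) ∧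
        ‖SF n ψ₁ ψ₂‖ ≤ C * ((n : ℝ) / (Nat.totient n : ℝ)) *
          ((Nat.lcm ψ₁.1 ψ₂.1 / Nat.gcd (Nat.lcm ψ₁.1 ψ₂.1) n : ℕ) : ℝ) ^ (-(1 / 4 : ℝ))) ∧
      (((Icc 1 X).filter (fun n : ℕ => X < 2 * n ∧ Even n ∧ (n : ℝ) / Real.log n ^ A <
        ‖(((g n : ℝ) - SS n * JJ n : ℝ) : ℂ) - secF X n (Real.log X ^ B) Y‖)).card : ℝ) ≤
          (X : ℝ) ^ (θ + ε) := by
  obtain ⟨C, B, h⟩ := fin_e hS hG A
  obtain ⟨C0, hC0, hsf⟩ := sf_bound hG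
  obtain ⟨C1, hC1⟩ : ∃ C1 : ℕ, C0 ≤ C1 := exists_nat_ge C0
  refine ⟨C + C1, B, fun θ ε h1 h2 hε K => ?_⟩
  obtain ⟨X1, hX1⟩ := h θ ε h1 h2 hε (K + 1)
  obtain ⟨X2, hX2⟩ := MP_log_large 1
  refine ⟨max X1 X2, fun X hX => ?_⟩
  simp only [max_le_iff] at hX
  obtain ⟨Y, y1, y2, y3⟩ := hX1 X hX.1
  have hL := hX2 X hX.2
  have hLC : Real.log X ^ C ≤ Real.log X ^ (C + C1) := pow_le_pow_right₀ hL (by omega)
  have hLp : 0 < Real.log X ^ C := by positivity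
  have hpc : ∀ ψ ∈ Y, IsPC ψ := by
    intro ψ hψ
    obtain ⟨q1, q2, q3, q4⟩ := y2 ψ hψ
    refine ⟨?_, q1⟩
    have h0 : (0 : ℝ) < ψ.1 := lt_of_lt_of_le (by positivity) q2
    exact_mod_cast h0
  refine ⟨Y, y1.trans hLC, fun ψ hψ => ?_, fun ψ₁ h₁ ψ₂ h₂ n hn => ?_, ?_⟩
  · obtain ⟨q1, q2, q3, y, q4, q5, q6⟩ := y2 ψ hψ
    refine ⟨q1, (pow_le_pow_right₀ hL (by omega)).trans q2, q3, y, q4, q5,
      lt_of_le_of_lt ?_ q6⟩
    exact div_le_div_of_nonneg_left (Nat.cast_nonneg _) hLp hLC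
  · obtain ⟨s1, s2, -⟩ := hsf n hn ψ₁ ψ₂ (hpc ψ₁ h₁) (hpc ψ₂ h₂)
    refine ⟨s1, s2.trans ?_⟩
    have e1 : C0 ≤ ((C + C1 : ℕ) : ℝ) := by
      push_cast
      have : (0 : ℝ) ≤ C := Nat.cast_nonneg _
      linarith
    have e2 : 0 ≤ (n : ℝ) / (Nat.totient n : ℝ) := by positivity
    have e3 : 0 ≤ (h0 n ψ₁ ψ₂ : ℝ) ^ (-(1 / 4 : ℝ)) := by positivity
    exact mul_le_mul_of_nonneg_right (mul_le_mul_of_nonneg_right e1 e2) e3
  · exact y3 _ _ fun n hn => hn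

end Pool.MP_dd84fd_nt.EF
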