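import Pool.Agent.Lib.MP_dd84fd_nt.EF.Fin

/-!
# EF-FinA: the coefficient of a pair of characters in elementary terms (helper44)
-/

set_option autoImplicit false

namespace Pool.MP_dd84fd_nt.EF

open Finset Pool.MP_67663b_nt.Odd
open Pool.MP_dd84fd_nt.PL (rr)
open Pool.MP_dd84fd_nt.LXP (tq)
open Pool.MP_dd84fd_nt.BX (PC pv IsPC ind Rm)

/-- the Ramanujan sum `c_q(m)` -/
noncomputable def rama (q : ℕ) (m : ℤ) : ℂ := ∑ a ∈ rr q, ee ((a : ℝ) * (m : ℝ) / (q : ℝ))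

/-- the coefficient of a pair of characters, elementary form -/
noncomputable def ccE (q n : ℕ) (ψ₁ ψ₂ : PC) : ℂ :=
  1 / (Nat.totient q : ℂ) ^ 2 * ∑ b ∈ rr q, ∑ c ∈ rr q,
    (starRingEnd ℂ) (ψ₁.2 (b : ZMod ψ₁.1)) * (starRingEnd ℂ) (ψ₂.2 (c : ZMod ψ₂.1)) *
      rama q ((b : ℤ) + c - n)

private theorem fa_add (x y : ℝ) : ee (x + y) = ee x * ee y := by
  unfold ee
  rw [← Complex.exp_add]
  congr 1
  push_cast
  ring

private theorem fa_int (n : ℤ) : ee (n : ℝ) = 1 := by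
  unfold ee
  rw [Complex.exp_eq_one_iff]
  exact ⟨n, by push_cast; ring⟩

private theorem fa_conj (q : ℕ) [NeZero q] (χ : DirichletCharacter ℂ q) (a : ZMod q) :
    (starRingEnd ℂ) (χ a) = χ⁻¹ a := by
  by_cases hu : IsUnit a
  · obtain ⟨u, hu⟩ := hu
    rw [← hu]
    have h1 : ‖χ (u : ZMod q)‖ = 1 := DirichletCharacter.unit_norm_eq_one χ u
    rw [← Complex.inv_eq_conj h1]
    have h2 : χ⁻¹ (u : ZMod q) * χ (u : ZMod q) = 1 := by
      rw [← MulChar.mul_apply, inv_mul_cancel, MulChar.one_apply_coe]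
    exact (eq_inv_of_mul_eq_one_left h2).symm
  · rw [MulChar.map_nonunit _ hu, MulChar.map_nonunit _ hu, map_zero]

private theorem fa_zr {M : Type} [AddCommMonoid M] (q : ℕ) [NeZero q] (f : ZMod q → M) :
    ∑ y : ZMod q, f y = ∑ y ∈ range q, f (y : ZMod q) := by
  refine sum_nbij' (fun y => y.val) (fun y => (y : ZMod q)) ?_ ?_ ?_ ?_ ?_
  · intro y _
    exact mem_range.2 (ZMod.val_lt y)
  · intro y _
    exact mem_univ _
  · intro y _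
    exact ZMod.natCast_zmod_val y
  · intro y hy
    exact ZMod.val_cast_of_lt (mem_range.1 hy)
  · intro y _
    rw [ZMod.natCast_zmod_val]

private theorem fa_rr {M : Type} [AddCommMonoid M] (q : ℕ) [NeZero q] (f : ℕ → M) (g : ZMod q → M)
    (h1 : ∀ a, a < q → Nat.Coprime a q → g (a : ZMod q) = f a) (h2 : ∀ b, ¬ IsUnit b → g b = 0) :
    ∑ b : ZMod q, g b = ∑ a ∈ rr q, f a := by
  rw [fa_zr]
  unfold rr
  rw [sum_filter]
  refine sum_congr rfl fun a ha => ?_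
  split_ifs with hc
  · exact h1 a (mem_range.1 ha) hc
  · refine h2 _ fun h => hc ?_
    exact (ZMod.isUnit_iff_coprime a q).1 h

/-- the value of the induced character -/
private theorem fa_ind (q : ℕ) (ψ : PC) (h : ψ.1 ∣ q) (b : ℕ) (hb : Nat.Coprime b q) :
    ind q ψ (b : ZMod q) = ψ.2 (b : ZMod ψ.1) := by
  unfold ind
  rw [dif_pos h]
  have hc : IsCoprime (b : ℤ) (q : ℤ) := Nat.isCoprime_iff_coprime.mpr hb
  have e1 := DirichletCharacter.changeLevel_eq_cast_of_dvd' ψ.2 h hc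
  rw [Int.cast_natCast, Int.cast_natCast] at e1
  exact e1

/-- twisted Gauss sums: `∑_b conj χ(b) e(ab/q) = χ(a) τ(χ⁻¹)` -/
private theorem fa_tw (q : ℕ) [NeZero q] (χ : DirichletCharacter ℂ q) (a : ℕ)
    (ha : Nat.Coprime a q) :
    ∑ b ∈ rr q, (starRingEnd ℂ) (χ (b : ZMod q)) * ee ((a : ℝ) * (b : ℝ) / q) =
      χ (a : ZMod q) * tq q χ⁻¹ := by
  have hq0 : (q : ℝ) ≠ 0 := by exact_mod_cast NeZero.ne q
  have hu : IsUnit ((a : ℕ) : ZMod q) := (ZMod.isUnit_iff_coprime a q).2 ha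
  obtain ⟨u, hu'⟩ := hu
  have key : ∀ m : ℕ, ee ((m : ℝ) / q) = ee ((((m : ZMod q).val : ℕ) : ℝ) / q) := by
    intro m
    have e1 : (m : ZMod q).val = m % q := ZMod.val_natCast q m
    rw [e1]
    have e2 : (m : ℝ) / q = ((m % q : ℕ) : ℝ) / q + (((m / q : ℕ) : ℤ) : ℝ) := by
      have e3 : (m : ℝ) = ((m % q : ℕ) : ℝ) + (q : ℝ) * ((m / q : ℕ) : ℝ) := by
        exact_mod_cast (Nat.mod_add_div m q).symm
      rw [Int.cast_natCast]
      field_simp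
      linarith
    rw [e2, fa_add, fa_int, mul_one]
  have h1 : ∑ b ∈ rr q, (starRingEnd ℂ) (χ (b : ZMod q)) * ee ((a : ℝ) * (b : ℝ) / q) =
      ∑ y : ZMod q, χ⁻¹ y * ee ((((a : ZMod q) * y).val : ℝ) / q) := by
    symm
    refine fa_rr q _ _ ?_ ?_
    · intro b _ _
      rw [fa_conj]
      congr 1
      have e1 := key (a * b)
      rw [Nat.cast_mul, Nat.cast_mul] at e1
      rw [e1]
    · intro b hb
      rw [MulChar.map_nonunit _ hb, zero_mul]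
  rw [h1]
  unfold tq
  rw [mul_sum]
  refine Fintype.sum_equiv (Units.mulLeft u) _ _ fun y => ?_
  rw [Units.mulLeft_apply, hu', map_mul]
  have e2 : χ (a : ZMod q) * χ⁻¹ ((a : ℕ) : ZMod q) = 1 := by
    rw [← MulChar.mul_apply, mul_inv_cancel, ← hu', MulChar.one_apply_coe]
  rw [← mul_assoc, ← mul_assoc, e2, one_mul]

/-- the two forms of the coefficient agree -/
theorem cc_eq (q n : ℕ) (ψ₁ ψ₂ : PC) (h1 : ψ₁.1 ∣ q) (h2 : ψ₂.1 ∣ q) :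
    cc q n ψ₁ ψ₂ = ccE q n ψ₁ ψ₂ := by
  classical
  rcases Nat.eq_zero_or_pos q with hq | hq
  · subst hq
    unfold cc ccE rr
    simp
  have hq0 : q ≠ 0 := by omega
  have : NeZero q := ⟨hq0⟩
  have hq' : (q : ℝ) ≠ 0 := by exact_mod_cast hq0
  unfold cc ccE
  rw [dif_neg hq0]
  have e1 : ∑ b ∈ rr q, ∑ c ∈ rr q, (starRingEnd ℂ) (ψ₁.2 (b : ZMod ψ₁.1)) *
      (starRingEnd ℂ) (ψ₂.2 (c : ZMod ψ₂.1)) * rama q ((b : ℤ) + c - n) =
      ∑ a ∈ rr q, (∑ b ∈ rr q, (starRingEnd ℂ) (ind q ψ₁ (b : ZMod q)) *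
        ee ((a : ℝ) * (b : ℝ) / q)) * (∑ c ∈ rr q, (starRingEnd ℂ) (ind q ψ₂ (c : ZMod q)) *
        ee ((a : ℝ) * (c : ℝ) / q)) * ee (-((n : ℝ) * ((a : ℝ) / q))) := by
    have e2 : ∀ b ∈ rr q, ∀ c ∈ rr q, (starRingEnd ℂ) (ψ₁.2 (b : ZMod ψ₁.1)) *
        (starRingEnd ℂ) (ψ₂.2 (c : ZMod ψ₂.1)) * rama q ((b : ℤ) + c - n) =
        ∑ a ∈ rr q, ((starRingEnd ℂ) (ind q ψ₁ (b : ZMod q)) * ee ((a : ℝ) * (b : ℝ) / q)) *
          ((starRingEnd ℂ) (ind q ψ₂ (c : ZMod q)) * ee ((a : ℝ) * (c : ℝ) / q)) *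
            ee (-((n : ℝ) * ((a : ℝ) / q))) := by
      intro b hb c hc
      have hb' : Nat.Coprime b q := (mem_filter.1 hb).2
      have hc' : Nat.Coprime c q := (mem_filter.1 hc).2
      rw [fa_ind q ψ₁ h1 b hb', fa_ind q ψ₂ h2 c hc']
      unfold rama
      rw [mul_sum]
      refine sum_congr rfl fun a _ => ?_
      have e3 : (a : ℝ) * (((b : ℤ) + c - n : ℤ) : ℝ) / q =
          (a : ℝ) * (b : ℝ) / q + ((a : ℝ) * (c : ℝ) / q + -((n : ℝ) * ((a : ℝ) / q))) := by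
        push_cast
        ring
      rw [e3, fa_add, fa_add]
      ring
    rw [sum_congr rfl fun b hb => sum_congr rfl fun c hc => e2 b hb c hc]
    have e4 : ∀ b ∈ rr q, ∑ c ∈ rr q, ∑ a ∈ rr q,
        ((starRingEnd ℂ) (ind q ψ₁ (b : ZMod q)) * ee ((a : ℝ) * (b : ℝ) / q)) *
          ((starRingEnd ℂ) (ind q ψ₂ (c : ZMod q)) * ee ((a : ℝ) * (c : ℝ) / q)) *
            ee (-((n : ℝ) * ((a : ℝ) / q))) = ∑ a ∈ rr q, ∑ c ∈ rr q,
        ((starRingEnd ℂ) (ind q ψ₁ (b : ZMod q)) * ee ((a : ℝ) * (b : ℝ) / q)) *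
          ((starRingEnd ℂ) (ind q ψ₂ (c : ZMod q)) * ee ((a : ℝ) * (c : ℝ) / q)) *
            ee (-((n : ℝ) * ((a : ℝ) / q))) := fun b _ => sum_comm
    rw [sum_congr rfl e4, sum_comm]
    refine sum_congr rfl fun a _ => ?_
    rw [sum_mul_sum, sum_mul]
    refine sum_congr rfl fun b _ => ?_
    rw [sum_mul]
  rw [e1]
  have e5 : ∀ a ∈ rr q, (∑ b ∈ rr q, (starRingEnd ℂ) (ind q ψ₁ (b : ZMod q)) *
        ee ((a : ℝ) * (b : ℝ) / q)) * (∑ c ∈ rr q, (starRingEnd ℂ) (ind q ψ₂ (c : ZMod q)) *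
        ee ((a : ℝ) * (c : ℝ) / q)) * ee (-((n : ℝ) * ((a : ℝ) / q))) =
      tq q (ind q ψ₁)⁻¹ * tq q (ind q ψ₂)⁻¹ *
        ((ind q ψ₁ * ind q ψ₂) (a : ZMod q) * ee (-((n : ℝ) * ((a : ℝ) / q)))) := by
    intro a ha
    have ha' : Nat.Coprime a q := (mem_filter.1 ha).2
    rw [fa_tw q (ind q ψ₁) a ha', fa_tw q (ind q ψ₂) a ha', MulChar.mul_apply]
    ring
  rw [sum_congr rfl e5, ← mul_sum]
  unfold Rm
  ring

/-- the coefficient in terms of Ramanujan sums -/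
theorem coF_rama (n : ℕ) (ψ₁ ψ₂ : PC) (q : ℕ) :
    coF n ψ₁ ψ₂ q = if ψ₁.1 ∣ q ∧ ψ₂.1 ∣ q then ccE q n ψ₁ ψ₂ else 0 := by
  rw [← cc_coF]
  split_ifs with h
  · exact cc_eq q n ψ₁ ψ₂ h.1 h.2
  · rfl

/-- the singular series in terms of Ramanujan sums -/
theorem SF_rama (n : ℕ) (ψ₁ ψ₂ : PC) :
    SF n ψ₁ ψ₂ = ∑' q : ℕ, if ψ₁.1 ∣ q ∧ ψ₂.1 ∣ q then ccE q n ψ₁ ψ₂ else 0 := by
  unfold SF
  exact tsum_congr fun q => coF_rama n ψ₁ ψ₂ q

end Pool.MP_dd84fd_nt.EF
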