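import Pool.Agent.Lib.MP_dd84fd_nt.EF.Exp
import Pool.Agent.Lib.MP_dd84fd_nt.EF.Fin

/-!
# EF-FinB: the averaged integral is a weighted integral; all primes (helper44)
-/

set_option autoImplicit false

namespace Pool.MP_dd84fd_nt.EF

open Finset Pool.MP_67663b_nt.Odd MeasureTheory
open Pool.MP_dd84fd_nt.PL (rr)
open Pool.MP_dd84fd_nt.LXP (tq)
open Pool.MP_dd84fd_nt.IX (zI)
open Pool.MP_dd84fd_nt.JX (wP)
open Pool.MP_dd84fd_nt.BX (PC pv IsPC SX)

/-- `1` for `|x| ≤ t`, `0` for `|x| ≥ 2t`, `1 - log₂(|x|/t)` between -/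
noncomputable def wgt (t x : ℝ) : ℝ := max 0 (min 1 (1 - Real.logb 2 (|x| / t)))

/-- the weighted integral -/
noncomputable def IE (X n : ℕ) (t : ℝ) (ψ₁ ψ₂ : PC) : ℂ :=
  ∫ x in (-(1 / 2) : ℝ)..(1 / 2), ((wgt t x : ℝ) : ℂ) * (SA X ψ₁ x * SA X ψ₂ x *
    ee (-((n : ℝ) * x)))

private theorem fb_log (a b : ℝ) (ha : 0 < a) (hab : a ≤ b) :
    ∫ u in a..b, 1 / u = Real.log b - Real.log a := by
  rw [integral_one_div_of_pos ha (lt_of_lt_of_le ha hab), Real.log_div (by linarith) (by linarith)]

private theorem fb_ker (t : ℝ) (ht : 0 < t) (x : ℝ) :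
    ∫ u in (1 : ℝ)..2, (if |x| ≤ t * u then 1 / u else 0) = Real.log 2 * wgt t x := by
  have hl2 : 0 < Real.log 2 := Real.log_pos (by norm_num)
  set s : ℝ := |x| / t with hs
  have hs0 : 0 ≤ s := div_nonneg (abs_nonneg x) ht.le
  have hiff : ∀ u : ℝ, |x| ≤ t * u ↔ s ≤ u := fun u => by
    rw [hs, div_le_iff₀ ht, mul_comm]
  simp only [hiff]
  unfold wgt
  rw [← hs]
  rcases le_or_gt s 1 with h1 | h1
  · have e1 : ∫ u in (1 : ℝ)..2, (if s ≤ u then 1 / u else 0) = ∫ u in (1 : ℝ)..2, 1 / u := by
      refine intervalIntegral.integral_congr fun u hu => ?_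
      rw [Set.uIcc_of_le (by norm_num)] at hu
      exact if_pos (h1.trans hu.1)
    rw [e1, fb_log 1 2 one_pos (by norm_num), Real.log_one, sub_zero]
    have e2 : Real.logb 2 s ≤ 0 := by
      rcases hs0.eq_or_lt with h | h
      · rw [← h, Real.logb_zero]
      · exact Real.logb_nonpos (by norm_num) h.le h1
    rw [min_eq_left (by linarith), max_eq_right zero_le_one, mul_one]
  · have hspos : 0 < s := by linarith
    rcases le_or_gt s 2 with h2 | h2
    · have hii : ∀ a b : ℝ, IntervalIntegrable (fun u : ℝ => if s ≤ u then 1 / u else 0)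
          volume a b := by
        intro a b
        have hm : Measurable fun u : ℝ => if s ≤ u then 1 / u else (0 : ℝ) :=
          Measurable.ite measurableSet_Ici (measurable_const.div measurable_id) measurable_const
        refine (intervalIntegrable_const (c := (1 / s : ℝ))).mono_fun' hm.aestronglyMeasurable
          (Filter.Eventually.of_forall fun u => ?_)
        dsimp only
        split_ifs with h
        · have hu : 0 < u := lt_of_lt_of_le hspos h
          rw [Real.norm_eq_abs, abs_of_pos (by positivity)]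
          exact one_div_le_one_div_of_le hspos h
        · rw [norm_zero]
          positivity
      rw [← intervalIntegral.integral_add_adjacent_intervals (hii 1 s) (hii s 2)]
      have e1 : ∫ u in (1 : ℝ)..s, (if s ≤ u then 1 / u else 0) = ∫ u in (1 : ℝ)..s, (0 : ℝ) := by
        refine intervalIntegral.integral_congr_ae ?_
        have hne : ∀ᵐ u : ℝ, u ≠ s := by
          rw [ae_iff]
          simp
        filter_upwards [hne] with u hu hmem
        rw [Set.uIoc_of_le h1.le] at hmem
        exact if_neg (not_le.2 (lt_of_le_of_ne hmem.2 hu))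
      have e2 : ∫ u in s..2, (if s ≤ u then 1 / u else 0) = ∫ u in s..2, 1 / u := by
        refine intervalIntegral.integral_congr fun u hu => ?_
        rw [Set.uIcc_of_le h2] at hu
        exact if_pos hu.1
      rw [e1, e2, fb_log s 2 hspos h2, intervalIntegral.integral_zero, zero_add]
      have e3 : Real.logb 2 s = Real.log s / Real.log 2 := rfl
      have e4 : 0 < Real.log s := Real.log_pos h1
      have e5 : Real.log s ≤ Real.log 2 := Real.log_le_log hspos h2
      have e6 : 0 ≤ 1 - Real.logb 2 s := by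
        rw [e3, sub_nonneg, div_le_one hl2]
        exact e5
      have e7 : 1 - Real.logb 2 s ≤ 1 := by
        rw [e3]
        have := div_pos e4 hl2
        linarith
      rw [min_eq_right e7, max_eq_right e6, e3]
      field_simp
    · have e1 : ∫ u in (1 : ℝ)..2, (if s ≤ u then 1 / u else 0) = ∫ u in (1 : ℝ)..2, (0 : ℝ) := by
        refine intervalIntegral.integral_congr fun u hu => ?_
        rw [Set.uIcc_of_le (by norm_num)] at hu
        exact if_neg (not_le.2 (lt_of_le_of_lt hu.2 h2))
      rw [e1, intervalIntegral.integral_zero]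
      have e3 : Real.logb 2 s = Real.log s / Real.log 2 := rfl
      have e5 : Real.log 2 ≤ Real.log s := Real.log_le_log (by norm_num) h2.le
      have e6 : 1 - Real.logb 2 s ≤ 0 := by
        rw [e3, sub_nonpos, le_div_iff₀ hl2]
        linarith
      rw [max_eq_left ((min_le_right _ _).trans e6), mul_zero]

private theorem fb_ind (f : ℝ → ℂ) (s : ℝ) (hs : s ≤ 1 / 2) (hs0 : 0 ≤ s) :
    ∫ x in (-s)..s, f x = ∫ x in Set.Ioc (-(1 / 2) : ℝ) (1 / 2), (if |x| ≤ s then f x else 0) := by
  have e1 : (fun x : ℝ => if |x| ≤ s then f x else 0) =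
      (Set.Icc (-s) s).indicator f := by
    funext x
    rw [Set.indicator_apply]
    simp only [Set.mem_Icc, abs_le]
  rw [e1, setIntegral_indicator measurableSet_Icc, intervalIntegral.integral_of_le (by linarith)]
  refine setIntegral_congr_set ?_
  refine Filter.EventuallyLE.antisymm ?_ ?_
  · refine Filter.Eventually.of_forall fun x hx => ?_
    exact ⟨⟨by linarith [hx.1], by linarith [hx.2]⟩, ⟨hx.1.le, hx.2⟩⟩
  · refine Filter.EventuallyLE.trans (g := Set.Icc (-s) s) ?_
      (Ioc_ae_eq_Icc (μ := volume)).symm.le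
    exact Filter.Eventually.of_forall fun x hx => hx.2

/-- the averaged integral is a weighted integral -/
theorem av_wgt (f : ℝ → ℂ) (hf : Continuous f) (X : ℕ) (T : ℝ) (hT : 0 < T) (h : 4 * T ≤ X) :
    av (fun v => ∫ x in (-(v / X))..(v / X), f x) T =
      ∫ x in (-(1 / 2) : ℝ)..(1 / 2), ((wgt (T / X) x : ℝ) : ℂ) * f x := by
  have hX : (0 : ℝ) < X := by linarith
  set t : ℝ := T / X with ht
  have ht0 : 0 < t := div_pos hT hX
  have ht2 : 2 * t ≤ 1 / 2 := by
    rw [ht, ← mul_div_assoc, div_le_iff₀ hX]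
    linarith
  have hl2 : 0 < Real.log 2 := Real.log_pos (by norm_num)
  set F : ℝ → ℝ → ℂ := fun u x => f x * (((if |x| ≤ t * u then 1 / u else 0 : ℝ)) : ℂ) with hF
  have hA : ∀ u ∈ Set.uIcc (1 : ℝ) 2, (∫ x in (-(T * u / X))..(T * u / X), f x) *
      ((1 / u : ℝ) : ℂ) = ∫ x in Set.Ioc (-(1 / 2) : ℝ) (1 / 2), F u x := by
    intro u hu
    rw [Set.uIcc_of_le (by norm_num)] at hu
    have e0 : T * u / X = t * u := by rw [ht]; ring
    have e1 : t * u ≤ 1 / 2 := by nlinarith [hu.2]
    rw [e0, fb_ind f (t * u) e1 (by nlinarith [hu.1]), ← integral_mul_const]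
    refine integral_congr_ae (Filter.Eventually.of_forall fun x => ?_)
    simp only [hF]
    split_ifs
    · rfl
    · simp
  have hmeas : Measurable (Function.uncurry F) := by
    have h1 : Measurable fun p : ℝ × ℝ => f p.2 := hf.measurable.comp measurable_snd
    have h2 : Measurable fun p : ℝ × ℝ => (if |p.2| ≤ t * p.1 then 1 / p.1 else (0 : ℝ)) := by
      refine Measurable.ite ?_ (measurable_const.div measurable_fst) measurable_const
      exact measurableSet_le (continuous_abs.measurable.comp measurable_snd)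
        (measurable_const.mul measurable_fst)
    exact h1.mul (Complex.measurable_ofReal.comp h2)
  obtain ⟨M, hM⟩ := (isCompact_Icc (a := (-(1 / 2) : ℝ)) (b := 1 / 2)).exists_bound_of_continuousOn
    hf.continuousOn
  have hint : Integrable (Function.uncurry F) ((volume.restrict (Set.Ioc (1 : ℝ) 2)).prod
      (volume.restrict (Set.Ioc (-(1 / 2) : ℝ) (1 / 2)))) := by
    refine Integrable.mono' (g := fun _ => M) (integrable_const M) hmeas.aestronglyMeasurable ?_
    rw [Measure.prod_restrict]
    refine (ae_restrict_iff' (measurableSet_Ioc.prod measurableSet_Ioc)).2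
      (Filter.Eventually.of_forall fun p hp => ?_)
    obtain ⟨hp1, hp2⟩ := hp
    have e1 : ‖f p.2‖ ≤ M := hM p.2 ⟨hp2.1.le, hp2.2⟩
    have hM0 : 0 ≤ M := (norm_nonneg _).trans e1
    have e2 : ‖(((if |p.2| ≤ t * p.1 then 1 / p.1 else 0 : ℝ)) : ℂ)‖ ≤ 1 := by
      rw [Complex.norm_real]
      split_ifs
      · have h0 : 0 < p.1 := by linarith [hp1.1]
        rw [Real.norm_eq_abs, abs_of_pos (by positivity), div_le_one h0]
        exact hp1.1.le
      · rw [norm_zero]
        exact zero_le_one
    show ‖f p.2 * _‖ ≤ M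
    rw [norm_mul]
    calc ‖f p.2‖ * _ ≤ M * 1 := mul_le_mul e1 e2 (norm_nonneg _) hM0
      _ = M := mul_one _
  have hB : ∀ x : ℝ, ∫ u in Set.Ioc (1 : ℝ) 2, F u x =
      f x * ((Real.log 2 * wgt t x : ℝ) : ℂ) := by
    intro x
    simp only [hF]
    rw [integral_const_mul, integral_complex_ofReal, ← fb_ker t ht0 x,
      intervalIntegral.integral_of_le (by norm_num)]
  have hswap := integral_integral_swap hint
  unfold av
  rw [intervalIntegral.integral_congr hA, intervalIntegral.integral_of_le (by norm_num), hswap,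
    intervalIntegral.integral_of_le (by norm_num), ← integral_const_mul]
  refine integral_congr_ae (Filter.Eventually.of_forall fun x => ?_)
  show ((1 / Real.log 2 : ℝ) : ℂ) * (∫ u in Set.Ioc (1 : ℝ) 2, F u x) = _
  rw [hB x]
  have hl2' : ((Real.log 2 : ℝ) : ℂ) ≠ 0 := by exact_mod_cast hl2.ne'
  push_cast
  field_simp

private theorem SA_cont' (X : ℕ) (ψ : PC) : Continuous (SA X ψ) := by
  unfold SA
  exact continuous_finsetSum _ fun n _ =>
    continuous_const.mul (ee_cont.comp (continuous_const.mul continuous_id))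

/-- the integral of the explicit formula as a weighted integral -/
theorem IF_wgt (X n : ℕ) (T : ℝ) (hT : 0 < T) (h : 4 * T ≤ X) (ψ₁ ψ₂ : PC) :
    IF X n T ψ₁ ψ₂ = IE X n (T / X) ψ₁ ψ₂ := by
  have hcA : Continuous fun x : ℝ => SA X ψ₁ x * SA X ψ₂ x * ee (-((n : ℝ) * x)) :=
    ((SA_cont' X ψ₁).mul (SA_cont' X ψ₂)).mul (ee_cont.comp (by fun_prop))
  unfold IE
  rw [← av_wgt _ hcA X T hT h]
  rfl

end Pool.MP_dd84fd_nt.EF
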