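import Pool.Agent.Lib.MP_dd84fd_nt.EF.Fin
import Pool.Agent.Lib.MP_dd84fd_nt.EF.DefsG
import Pool.Agent.Lib.MP_dd84fd_nt.BX.PgFin

/-!
# EF-FinG: the explicit formula in its final form, uniform in the error

From `ScaleG` and `GauBD`: for every `δ ∈ [(log X)^(-A), 1]` at most `C δ^(-18)` characters, error
`δ S(n) J(n)`.
-/

set_option autoImplicit false

namespace Pool.MP_dd84fd_nt.EF

open Finset Pool.MP_67663b_nt.Odd Pool.MP_dd84fd_nt.En Pool.MP_dd84fd_nt.E2 Pool.MP_dd84fd_nt.LS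
open Pool.MP_dd84fd_nt.GX Pool.MP_dd84fd_nt.HX Pool.MP_dd84fd_nt.IX
open Pool.MP_dd84fd_nt.PL (rr)
open Pool.MP_dd84fd_nt.JX (wP gP DecJ Adm AdmP Str)
open Pool.MP_dd84fd_nt.BX (PC IsPC GauBD h0 cP)

/-- the secondary terms with all primes and with the primes `≥ X^(1/10)` -/
theorem sec_sub (hG : GauBD) : ∃ C : ℝ, 0 < C ∧ ∀ X : ℕ, 1 ≤ Real.log X → ∀ n : ℕ, 2 ≤ n →
    n ≤ X → ∀ Y : Finset PC, (∀ ψ ∈ Y, IsPC ψ) → ∀ T : ℝ, 0 ≤ T →
    ‖secF X n T Y - ∑ ψ₁ ∈ Y, ∑ ψ₂ ∈ Y, SP n ψ₁ ψ₂ * II X n T ψ₁ ψ₂‖ ≤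
      C * (Y.card : ℝ) ^ 2 * Real.log X * T * (X : ℝ) ^ (1 / 10 : ℝ) := by
  obtain ⟨C0, hC0, hsf⟩ := sf_bound hG
  refine ⟨48 * C0, by positivity, fun X hL n hn2 hnX' Y hY T hT => ?_⟩
  have x4 : 1 ≤ X := by omega
  have hL0 : 0 < Real.log X := by linarith
  have hnX : (n : ℝ) ≤ X := by exact_mod_cast hnX'
  have hn2R : (2 : ℝ) ≤ n := by exact_mod_cast hn2
  have hlogle : Real.log n ≤ Real.log X := Real.log_le_log (by linarith) hnX
  have hphi : (n : ℝ) / (Nat.totient n : ℝ) ≤ 3 * Real.log X := by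
    have i1 := totient_ge n (by omega)
    have i2 : 0 < (Nat.totient n : ℝ) := by exact_mod_cast Nat.totient_pos.2 (by omega)
    rw [div_le_iff₀ i2]
    have i3 : Real.logb 2 n ≤ 2 * Real.log X := by
      rw [Real.logb, div_le_iff₀ (Real.log_pos (by norm_num))]
      have := Real.log_two_gt_d9
      nlinarith
    have i4 : 1 + Real.logb 2 n ≤ 3 * Real.log X := by linarith
    calc (n : ℝ) ≤ (Nat.totient n : ℝ) * (1 + Real.logb 2 n) := i1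
      _ ≤ (Nat.totient n : ℝ) * (3 * Real.log X) := mul_le_mul_of_nonneg_left i4 i2.le
      _ = _ := by ring
  have hco : ∀ ψ₁ ∈ Y, ∀ ψ₂ ∈ Y, ‖SF n ψ₁ ψ₂‖ ≤ 3 * C0 * Real.log X := by
    intro ψ₁ h₁ ψ₂ h₂
    have p1 := hY ψ₁ h₁
    have p2 := hY ψ₂ h₂
    have j1 := (hsf n (by omega) ψ₁ ψ₂ p1 p2).2.1
    have j2 : (h0 n ψ₁ ψ₂ : ℝ) ^ (-(1 / 4 : ℝ)) ≤ 1 := by
      refine Real.rpow_le_one_of_one_le_of_nonpos ?_ (by norm_num)
      exact_mod_cast BX.h0_pos n ψ₁ ψ₂ p1 p2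
    have j3 : 0 ≤ (n : ℝ) / (Nat.totient n : ℝ) := by positivity
    calc _ ≤ C0 * ((n : ℝ) / (Nat.totient n : ℝ)) * (h0 n ψ₁ ψ₂ : ℝ) ^ (-(1 / 4 : ℝ)) := j1
      _ ≤ C0 * ((n : ℝ) / (Nat.totient n : ℝ)) * 1 :=
          mul_le_mul_of_nonneg_left j2 (by positivity)
      _ ≤ C0 * (3 * Real.log X) := by
          rw [mul_one]
          exact mul_le_mul_of_nonneg_left hphi hC0.le
      _ = _ := by ring
  unfold secF
  have d1 : (∑ ψ₁ ∈ Y, ∑ ψ₂ ∈ Y, SF n ψ₁ ψ₂ * IF X n T ψ₁ ψ₂) -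
      ∑ ψ₁ ∈ Y, ∑ ψ₂ ∈ Y, SP n ψ₁ ψ₂ * II X n T ψ₁ ψ₂ =
      ∑ ψ₁ ∈ Y, ∑ ψ₂ ∈ Y, SF n ψ₁ ψ₂ * (IF X n T ψ₁ ψ₂ - II X n T ψ₁ ψ₂) := by
    rw [← sum_sub_distrib]
    refine sum_congr rfl fun ψ₁ _ => ?_
    rw [← sum_sub_distrib]
    refine sum_congr rfl fun ψ₂ _ => ?_
    rw [SP_SF]
    ring
  rw [d1]
  have d2 : ∀ ψ₁ ∈ Y, ‖∑ ψ₂ ∈ Y, SF n ψ₁ ψ₂ * (IF X n T ψ₁ ψ₂ - II X n T ψ₁ ψ₂)‖ ≤
      Y.card * (48 * C0 * Real.log X * T * (X : ℝ) ^ (1 / 10 : ℝ)) := by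
    intro ψ₁ h₁
    refine (norm_sum_le _ _).trans ?_
    rw [← nsmul_eq_mul]
    refine sum_le_card_nsmul _ _ _ fun ψ₂ h₂ => ?_
    rw [norm_mul]
    have d3 := mul_le_mul (hco ψ₁ h₁ ψ₂ h₂) (IF_sub X n x4 ψ₁ ψ₂ T hT) (norm_nonneg _)
      (by positivity)
    refine d3.trans (le_of_eq ?_)
    ring
  refine (norm_sum_le _ _).trans ?_
  have d4 := sum_le_card_nsmul _ _ _ d2
  rw [nsmul_eq_mul] at d4
  refine d4.trans (le_of_eq ?_)
  ring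

open Classical in
/-- the explicit formula, uniform in `δ` -/
theorem fin_g (hS : ScaleG) (hG : GauBD) : ∀ θ ε : ℝ, 1 / 3 ≤ θ → θ < 1 / 2 → 0 < ε →
    ∃ C : ℕ, ∀ A : ℕ, ∃ B M : ℕ, ∀ K : ℕ, ∃ X0 : ℕ, ∀ X : ℕ, X0 ≤ X → ∀ δ : ℝ,
      1 / Real.log X ^ A ≤ δ → δ ≤ 1 → ∃ Y : Finset PC, (Y.card : ℝ) ≤ C / δ ^ 18 ∧
      (∀ ψ ∈ Y, ψ.2.IsPrimitive ∧ Real.log X ^ K ≤ (ψ.1 : ℝ) ∧
        (ψ.1 : ℝ) ≤ (X : ℝ) ^ (1 - θ) ∧ ∃ y : ℕ, (X : ℝ) ^ (1 / 11 : ℝ) ≤ y ∧ y ≤ X ∧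
        (y : ℝ) / Real.log X ^ M <
          ‖∑ p ∈ (Icc 1 y).filter Nat.Prime, ψ.2 (p : ZMod ψ.1)‖) ∧
      (∀ ψ₁ ∈ Y, ∀ ψ₂ ∈ Y, ∀ n : ℕ, 1 ≤ n → (Summable fun q : ℕ => ‖coF n ψ₁ ψ₂ q‖) ∧
        ‖SF n ψ₁ ψ₂‖ ≤ C * ((n : ℝ) / (Nat.totient n : ℝ)) *
          ((Nat.lcm ψ₁.1 ψ₂.1 / Nat.gcd (Nat.lcm ψ₁.1 ψ₂.1) n : ℕ) : ℝ) ^ (-(1 / 4 : ℝ))) ∧
      (((Icc 1 X).filter (fun n : ℕ => X < 2 * n ∧ Even n ∧ δ * (SS n * JJ n) <
        ‖(((g n : ℝ) - SS n * JJ n : ℝ) : ℂ) - secF X n (Real.log X ^ B) Y‖)).card : ℝ) ≤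
          (X : ℝ) ^ (θ + ε) := by
  intro θ ε h1 h2 hε
  obtain ⟨C0, hC0, hsf⟩ := sf_bound hG
  obtain ⟨Cs, hCs, hsec⟩ := sec_sub hG
  obtain ⟨t, ht⟩ : ∃ t : ℝ, t = min (θ + ε) (1 / 2) := ⟨_, rfl⟩
  have ht1 : t ≤ θ + ε := by rw [ht]; exact min_le_left _ _
  have ht2 : t ≤ 1 / 2 := by rw [ht]; exact min_le_right _ _
  have ht3 : θ < t := by rw [ht]; exact lt_min (by linarith) h2
  obtain ⟨e, he⟩ : ∃ e : ℝ, e = (t - θ) / 10000 := ⟨_, rfl⟩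
  have he0 : 0 < e := by rw [he]; linarith
  obtain ⟨C1, hC1, hS1⟩ := hS t e ⟨by linarith, ht2, he0, by rw [he]; linarith,
    by rw [he]; linarith⟩
  obtain ⟨c, hc⟩ : ∃ c : ℝ, c = min 1 (C2 / 32) := ⟨_, rfl⟩
  have hC2 := C2_pos
  have hc0 : 0 < c := by rw [hc]; exact lt_min one_pos (by positivity)
  have hc1 : c ≤ 1 := by rw [hc]; exact min_le_left _ _
  have hc2 : c ≤ C2 / 32 := by rw [hc]; exact min_le_right _ _
  obtain ⟨C, hC⟩ : ∃ C : ℕ, C0 + C1 / c ^ 18 ≤ C := exists_nat_ge _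
  have hCa : C0 ≤ C := by
    have : 0 ≤ C1 / c ^ 18 := by positivity
    linarith
  have hCb : C1 / c ^ 18 ≤ C := by linarith
  refine ⟨C, fun A => ?_⟩
  obtain ⟨B, M, hS2⟩ := hS1 (A + 1)
  refine ⟨B, M, fun K => ?_⟩
  obtain ⟨X1, hX1⟩ := hS2 (K + 1)
  obtain ⟨X2, hX2⟩ := MP_log_pow (Cs * C ^ 2) (36 * A + 1 + B + (A + 3)) (ε := 9 / 10)
    (by norm_num)
  obtain ⟨X3, hX3⟩ := MP_log_large (1 + 1 / c)
  obtain ⟨X4, hX4⟩ := Pool.MP_dd84fd_nt.IY.JJ_ge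
  refine ⟨max X1 (max X2 (max X3 (max X4 1))), fun X hX δ hδ hδ1 => ?_⟩
  simp only [max_le_iff] at hX
  obtain ⟨x1, x2, x3, x5, x4⟩ := hX
  have hpow := hX2 X x2
  have hLc := hX3 X x3
  have hic : 0 < 1 / c := by positivity
  have hL : 1 ≤ Real.log X := by linarith
  have hcL : 1 ≤ c * Real.log X := by
    have : 1 / c ≤ Real.log X := by linarith
    rw [div_le_iff₀ hc0] at this
    linarith
  have hXR : (1 : ℝ) ≤ X := by exact_mod_cast x4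
  have hXp : (0 : ℝ) < X := by linarith
  have hL0 : 0 < Real.log X := by linarith
  have hLA : 0 < Real.log X ^ A := by positivity
  have hδ0 : 0 < δ := lt_of_lt_of_le (by positivity) hδ
  have hcδ : 1 / Real.log X ^ (A + 1) ≤ c * δ := by
    calc 1 / Real.log X ^ (A + 1) = 1 / Real.log X ^ A * (1 / Real.log X) := by
          rw [pow_succ]
          field_simp
      _ ≤ δ * c := by
          refine mul_le_mul hδ ?_ (by positivity) hδ0.le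
          rw [div_le_iff₀ hL0]
          exact hcL
      _ = c * δ := by ring
  have hcδ1 : c * δ ≤ 1 := by
    calc c * δ ≤ 1 * 1 := mul_le_mul hc1 hδ1 hδ0.le one_pos.le
      _ = 1 := one_mul 1
  obtain ⟨Y, Ex, y1, y2, y3, y4⟩ := hX1 X x1 (c * δ) hcδ hcδ1
  have hYc : (Y.card : ℝ) ≤ C / δ ^ 18 := by
    calc (Y.card : ℝ) ≤ C1 / (c * δ) ^ 18 := y1
      _ = (C1 / c ^ 18) / δ ^ 18 := by
          rw [mul_pow]
          field_simp
      _ ≤ _ := div_le_div_of_nonneg_right hCb (by positivity)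
  have hpc : ∀ ψ ∈ Y, IsPC ψ := fun ψ hψ => (y2 ψ hψ).1
  refine ⟨Y, hYc, fun ψ hψ => ?_, fun ψ₁ h₁ ψ₂ h₂ n hn => ?_, ?_⟩
  · obtain ⟨q1, q2, q3, q4⟩ := y2 ψ hψ
    refine ⟨q1.2, (pow_le_pow_right₀ hL (by omega)).trans q2, q3.trans ?_, q4⟩
    unfold RE
    exact Real.rpow_le_rpow_of_exponent_le hXR (by rw [he]; linarith)
  · obtain ⟨s1, s2, -⟩ := hsf n hn ψ₁ ψ₂ (hpc ψ₁ h₁) (hpc ψ₂ h₂)
    refine ⟨s1, s2.trans ?_⟩
    have e2 : 0 ≤ (n : ℝ) / (Nat.totient n : ℝ) := by positivity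
    have e3 : 0 ≤ (h0 n ψ₁ ψ₂ : ℝ) ^ (-(1 / 4 : ℝ)) := by positivity
    exact mul_le_mul_of_nonneg_right (mul_le_mul_of_nonneg_right hCa e2) e3
  · have hsub : (Icc 1 X).filter (fun n : ℕ => X < 2 * n ∧ Even n ∧ δ * (SS n * JJ n) <
        ‖(((g n : ℝ) - SS n * JJ n : ℝ) : ℂ) - secF X n (Real.log X ^ B) Y‖) ⊆ Ex := by
      intro n hn
      rw [mem_filter, mem_Icc] at hn
      obtain ⟨⟨n1, n2⟩, n4, n5, n6⟩ := hn
      by_contra hEx
      have k1 := y4 n n4 n2 n5 hEx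
      have hn2 : 2 ≤ n := by
        obtain ⟨k, hk⟩ := n5
        omega
      have hnR : (X : ℝ) < 2 * n := by exact_mod_cast n4
      have k2 := hsec X hL n hn2 n2 Y hpc (Real.log X ^ B) (by positivity)
      -- the ratio `n/φ(n) ≥ 1`
      obtain ⟨R, hR⟩ : ∃ R : ℝ, R = (n : ℝ) / (Nat.totient n : ℝ) := ⟨_, rfl⟩
      have hR1 : 1 ≤ R := by
        rw [hR, one_le_div (by exact_mod_cast Nat.totient_pos.2 (by omega))]
        exact_mod_cast Nat.totient_le n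
      rw [← hR] at k1
      have hYL : (Y.card : ℝ) ≤ C * Real.log X ^ (18 * A) := by
        refine hYc.trans ?_
        rw [div_le_iff₀ (by positivity)]
        have i1 : 1 ≤ δ * Real.log X ^ A := by
          rw [div_le_iff₀ hLA] at hδ
          exact hδ
        have i2 : 1 ≤ (δ * Real.log X ^ A) ^ 18 := one_le_pow₀ i1
        have i3 : (δ * Real.log X ^ A) ^ 18 = Real.log X ^ (18 * A) * δ ^ 18 := by
          rw [mul_pow, ← pow_mul, mul_comm A 18]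
          ring
        rw [i3] at i2
        have i4 : (0 : ℝ) ≤ C := Nat.cast_nonneg _
        calc (C : ℝ) = C * 1 := (mul_one _).symm
          _ ≤ C * (Real.log X ^ (18 * A) * δ ^ 18) := mul_le_mul_of_nonneg_left i2 i4
          _ = _ := by ring
      have k3 : Cs * (Y.card : ℝ) ^ 2 * Real.log X * Real.log X ^ B * (X : ℝ) ^ (1 / 10 : ℝ) ≤
          X / Real.log X ^ (A + 3) := by
        have i1 : (Y.card : ℝ) ^ 2 ≤ (C * Real.log X ^ (18 * A)) ^ 2 :=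
          pow_le_pow_left₀ (Nat.cast_nonneg _) hYL 2
        rw [le_div_iff₀ (by positivity)]
        have d6 : (X : ℝ) = (X : ℝ) ^ (9 / 10 : ℝ) * (X : ℝ) ^ (1 / 10 : ℝ) := by
          rw [← Real.rpow_add hXp]
          norm_num
        calc Cs * (Y.card : ℝ) ^ 2 * Real.log X * Real.log X ^ B * (X : ℝ) ^ (1 / 10 : ℝ) *
              Real.log X ^ (A + 3) = (Y.card : ℝ) ^ 2 * (Cs * Real.log X * Real.log X ^ B *
              (X : ℝ) ^ (1 / 10 : ℝ) * Real.log X ^ (A + 3)) := by ring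
          _ ≤ (C * Real.log X ^ (18 * A)) ^ 2 * (Cs * Real.log X * Real.log X ^ B *
              (X : ℝ) ^ (1 / 10 : ℝ) * Real.log X ^ (A + 3)) :=
              mul_le_mul_of_nonneg_right i1 (by positivity)
          _ = Cs * C ^ 2 * Real.log X ^ (36 * A + 1 + B + (A + 3)) *
              (X : ℝ) ^ (1 / 10 : ℝ) := by ring
          _ ≤ (X : ℝ) ^ (9 / 10 : ℝ) * (X : ℝ) ^ (1 / 10 : ℝ) :=
              mul_le_mul_of_nonneg_right hpow (by positivity)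
          _ = X := d6.symm
      have k4 : (X : ℝ) / Real.log X ^ (A + 3) ≤ c * δ * R * (X / Real.log X ^ 2) := by
        have i1 : (X : ℝ) / Real.log X ^ (A + 3) =
            1 / Real.log X ^ (A + 1) * (X / Real.log X ^ 2) := by
          rw [show A + 3 = (A + 1) + 2 by ring, pow_add _ (A + 1) 2]
          field_simp
        rw [i1]
        refine mul_le_mul_of_nonneg_right ?_ (by positivity)
        calc 1 / Real.log X ^ (A + 1) ≤ c * δ := hcδ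
          _ = c * δ * 1 := (mul_one _).symm
          _ ≤ c * δ * R := mul_le_mul_of_nonneg_left hR1 (by positivity)
      have k5 : ‖(((g n : ℝ) - SS n * JJ n : ℝ) : ℂ) - secF X n (Real.log X ^ B) Y‖ ≤
          2 * (c * δ * R * (X / Real.log X ^ 2)) := by
        have e1 : (((g n : ℝ) - SS n * JJ n : ℝ) : ℂ) - secF X n (Real.log X ^ B) Y =
            ((((g n : ℝ) - SS n * JJ n : ℝ) : ℂ) -
              ∑ ψ₁ ∈ Y, ∑ ψ₂ ∈ Y, SP n ψ₁ ψ₂ * II X n ((Real.log X) ^ B) ψ₁ ψ₂) -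
            (secF X n (Real.log X ^ B) Y -
              ∑ ψ₁ ∈ Y, ∑ ψ₂ ∈ Y, SP n ψ₁ ψ₂ * II X n ((Real.log X) ^ B) ψ₁ ψ₂) := by
          ring
        rw [e1]
        refine (norm_sub_le _ _).trans ?_
        linarith
      have k6 : 2 * (c * δ * R * (X / Real.log X ^ 2)) ≤ δ * (SS n * JJ n) := by
        have i1 := BX.ss_phi n n5 (by omega)
        rw [← hR] at i1
        have i2 := hX4 X x5 n n4 n2
        have i3 : (X : ℝ) / (16 * Real.log X ^ 2) ≤ JJ n := by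
          refine le_trans ?_ i2
          rw [div_le_div_iff₀ (by positivity) (by positivity)]
          have : 0 < Real.log X ^ 2 := by positivity
          nlinarith
        have i4 : C2 * R * (X / (16 * Real.log X ^ 2)) ≤ SS n * JJ n :=
          mul_le_mul i1 i3 (by positivity) (le_trans (by positivity) i1)
        have i5 : 2 * (c * δ * R * (X / Real.log X ^ 2)) =
            δ * (32 * c * R * (X / (16 * Real.log X ^ 2))) := by
          field_simp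
          ring
        rw [i5]
        refine mul_le_mul_of_nonneg_left (le_trans ?_ i4) hδ0.le
        refine mul_le_mul_of_nonneg_right ?_ (by positivity)
        refine mul_le_mul_of_nonneg_right ?_ (by positivity)
        linarith
      linarith
    have hcd : (((Icc 1 X).filter (fun n : ℕ => X < 2 * n ∧ Even n ∧ δ * (SS n * JJ n) <
        ‖(((g n : ℝ) - SS n * JJ n : ℝ) : ℂ) - secF X n (Real.log X ^ B) Y‖)).card : ℝ) ≤
        Ex.card := by exact_mod_cast card_le_card hsub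
    exact (hcd.trans y3).trans (Real.rpow_le_rpow_of_exponent_le hXR (by linarith))

end Pool.MP_dd84fd_nt.EF
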