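import Pool.Agent.Lib.MP_dd84fd_nt.EF.FinA
import Pool.Agent.Lib.MP_dd84fd_nt.EF.FinB
import Pool.Agent.Lib.MP_dd84fd_nt.EF.FinG
import Pool.Agent.Lib.MP_dd84fd_nt.EF.Av
import Pool.Agent.Lib.MP_dd84fd_nt.BX.LsH

/-!
# EF-FinH: the explicit formula, elementary coefficients, weighted integrals and their size

From `fin_g`: the coefficients in terms of Ramanujan sums (`ccE`), the integrals with the weight
`wgt (T/X)` over `|x| ≤ 1/2` (`IE`), and the bound `‖IE‖ ≤ C X / (log X)²` for the characters in `Y`.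
-/

set_option autoImplicit false

namespace Pool.MP_dd84fd_nt.EF

open Finset Pool.MP_67663b_nt.Odd Pool.MP_dd84fd_nt.En Pool.MP_dd84fd_nt.E2 Pool.MP_dd84fd_nt.LS
open Pool.MP_dd84fd_nt.GX Pool.MP_dd84fd_nt.HX Pool.MP_dd84fd_nt.IX
open Pool.MP_dd84fd_nt.PL (rr)
open Pool.MP_dd84fd_nt.JX (wP gP DecJ Adm AdmP Str)
open Pool.MP_dd84fd_nt.LXP (tq)
open Pool.MP_dd84fd_nt.BX (PC pv IsPC PR SX sN prc ind Rm cf GauBD h0 cP)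

/-- the coefficient of a pair of characters modulo `q`, elementary form -/
noncomputable def coE (n : ℕ) (ψ₁ ψ₂ : PC) (q : ℕ) : ℂ :=
  if ψ₁.1 ∣ q ∧ ψ₂.1 ∣ q then ccE q n ψ₁ ψ₂ else 0

/-- the secondary terms, elementary form -/
noncomputable def secE (X n : ℕ) (T : ℝ) (Y : Finset PC) : ℂ :=
  ∑ ψ₁ ∈ Y, ∑ ψ₂ ∈ Y, (∑' q : ℕ, coE n ψ₁ ψ₂ q) * IE X n (T / X) ψ₁ ψ₂

theorem coF_coE (n : ℕ) (ψ₁ ψ₂ : PC) : coF n ψ₁ ψ₂ = coE n ψ₁ ψ₂ := by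
  funext q
  exact coF_rama n ψ₁ ψ₂ q

private theorem int_norm_le (X : ℕ) (hX : 1 ≤ X) (ψ : PC) (v V C : ℝ) (hv : 0 ≤ v) (hvV : v ≤ V)
    (hL : 0 < Real.log X) (hs : sN X V ψ ^ 2 ≤ C) :
    ∫ x in (-(v / X))..(v / X), ‖SX X ψ x‖ ^ 2 ≤ C * (X / Real.log X ^ 2) := by
  have hX0 : (0 : ℝ) < X := by exact_mod_cast hX
  have hc : Continuous fun x : ℝ => ‖SX X ψ x‖ ^ 2 := ((SX_cont X ψ).norm).pow 2
  have hV0 : 0 ≤ V := hv.trans hvV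
  have h1 : ∫ x in (-(v / X))..(v / X), ‖SX X ψ x‖ ^ 2 ≤
      ∫ x in (-(V / X))..(V / X), ‖SX X ψ x‖ ^ 2 := by
    have hvx : v / (X : ℝ) ≤ V / X := div_le_div_of_nonneg_right hvV hX0.le
    have hvx0 : 0 ≤ v / (X : ℝ) := by positivity
    refine intervalIntegral.integral_mono_interval (by linarith) (by linarith) hvx ?_
      (hc.intervalIntegrable _ _)
    exact Filter.Eventually.of_forall fun x => by positivity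
  refine h1.trans ?_
  have h2 : 0 ≤ ∫ x in (-(V / X))..(V / X), ‖SX X ψ x‖ ^ 2 := by
    have : 0 ≤ V / (X : ℝ) := by positivity
    exact intervalIntegral.integral_nonneg (by linarith) fun x _ => by positivity
  have h3 : sN X V ψ ^ 2 = Real.log X ^ 2 / X * ∫ x in (-(V / X))..(V / X), ‖SX X ψ x‖ ^ 2 := by
    unfold sN
    rw [mul_pow, _root_.div_pow, Real.sq_sqrt hX0.le, Real.sq_sqrt h2]
  rw [h3] at hs
  have h4 : ∫ x in (-(V / X))..(V / X), ‖SX X ψ x‖ ^ 2 =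
      (Real.log X ^ 2 / X * ∫ x in (-(V / X))..(V / X), ‖SX X ψ x‖ ^ 2) * (X / Real.log X ^ 2) := by
    field_simp
  rw [h4]
  exact mul_le_mul_of_nonneg_right hs (by positivity)

private theorem IS_le_sN (X n : ℕ) (hX : 1 ≤ X) (ψ₁ ψ₂ : PC) (v V C : ℝ) (hv : 0 ≤ v) (hvV : v ≤ V)
    (hL : 0 < Real.log X) (hs1 : sN X V ψ₁ ^ 2 ≤ C) (hs2 : sN X V ψ₂ ^ 2 ≤ C) :
    ‖IS X n ψ₁ ψ₂ v‖ ≤ C * (X / Real.log X ^ 2) := by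
  have hX0 : (0 : ℝ) < X := by exact_mod_cast hX
  have hvx0 : 0 ≤ v / (X : ℝ) := by positivity
  have hc : ∀ ψ : PC, Continuous fun x : ℝ => ‖SX X ψ x‖ ^ 2 := fun ψ => ((SX_cont X ψ).norm).pow 2
  have h1 := int_norm_le X hX ψ₁ v V C hv hvV hL hs1
  have h2 := int_norm_le X hX ψ₂ v V C hv hvV hL hs2
  unfold IS
  have h3 : ‖∫ x in (-(v / X))..(v / X), SX X ψ₁ x * SX X ψ₂ x * ee (-((n : ℝ) * x))‖ ≤
      ∫ x in (-(v / X))..(v / X), (‖SX X ψ₁ x‖ ^ 2 / 2 + ‖SX X ψ₂ x‖ ^ 2 / 2) := by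
    refine intervalIntegral.norm_integral_le_of_norm_le (by linarith) ?_ ?_
    · refine Filter.Eventually.of_forall fun x _ => ?_
      rw [norm_mul, norm_mul, norm_ee, mul_one]
      nlinarith [sq_nonneg (‖SX X ψ₁ x‖ - ‖SX X ψ₂ x‖)]
    · exact ((hc ψ₁).div_const 2 |>.add ((hc ψ₂).div_const 2)).intervalIntegrable _ _
  refine h3.trans ?_
  rw [intervalIntegral.integral_add (((hc ψ₁).div_const 2).intervalIntegrable _ _)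
    (((hc ψ₂).div_const 2).intervalIntegrable _ _), intervalIntegral.integral_div,
    intervalIntegral.integral_div]
  linarith

/-- the integrals are at most `C X/(log X)²` -/
theorem IE_bound (B : ℕ) : ∃ X0 : ℕ, ∀ X : ℕ, X0 ≤ X → 4 * Real.log X ^ B ≤ X ∧
    ∀ ψ₁ ψ₂ : PC, (IsPC ψ₁ ∧ 2 ≤ ψ₁.1 ∧ (ψ₁.1 : ℝ) ≤ (X : ℝ) ^ (2 / 3 : ℝ)) →
    (IsPC ψ₂ ∧ 2 ≤ ψ₂.1 ∧ (ψ₂.1 : ℝ) ≤ (X : ℝ) ^ (2 / 3 : ℝ)) → ∀ n : ℕ,
    IF X n (Real.log X ^ B) ψ₁ ψ₂ = IE X n (Real.log X ^ B / X) ψ₁ ψ₂ ∧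
    ‖IE X n (Real.log X ^ B / X) ψ₁ ψ₂‖ ≤
      (5 * (1000 * BX.CB + 1) ^ 2 + 1) * (X / Real.log X ^ 2) := by
  obtain ⟨X1, hX1⟩ := BX.sum_sN (B + 1)
  obtain ⟨X2, hX2⟩ := MP_log_pow 16 (B + 2) (ε := 9 / 10) (by norm_num)
  obtain ⟨X3, hX3⟩ := MP_log_large 2
  refine ⟨max X1 (max X2 (max X3 1)), fun X hX => ?_⟩
  simp only [max_le_iff] at hX
  obtain ⟨x1, x2, x3, x4⟩ := hX
  have h1 := hX1 X x1
  have h2 := hX2 X x2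
  have hL2 := hX3 X x3
  have hL1 : 1 ≤ Real.log X := by linarith
  have hL0 : 0 < Real.log X := by linarith
  have hXR : (1 : ℝ) ≤ X := by exact_mod_cast x4
  have hXp : (0 : ℝ) < X := by linarith
  have d6 : (X : ℝ) = (X : ℝ) ^ (9 / 10 : ℝ) * (X : ℝ) ^ (1 / 10 : ℝ) := by
    rw [← Real.rpow_add hXp]
    norm_num
  have hX10 : (1 : ℝ) ≤ (X : ℝ) ^ (1 / 10 : ℝ) := Real.one_le_rpow hXR (by norm_num)
  have h4T : 4 * Real.log X ^ B ≤ X := by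
    have i1 : Real.log X ^ B ≤ Real.log X ^ (B + 2) := pow_le_pow_right₀ hL1 (by omega)
    have i2 : (X : ℝ) ^ (9 / 10 : ℝ) ≤ X := by
      nth_rewrite 2 [d6]
      exact le_mul_of_one_le_right (by positivity) hX10
    have i3 : 0 ≤ Real.log X ^ B := by positivity
    linarith
  refine ⟨h4T, fun ψ₁ ψ₂ q1 q2 n => ?_⟩
  have hT1 : 1 ≤ Real.log X ^ B := one_le_pow₀ hL1
  have e1 := IF_wgt X n (Real.log X ^ B) (by linarith) h4T ψ₁ ψ₂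
  refine ⟨e1, ?_⟩
  rw [← e1]
  -- the norms
  have hV1 : 1 ≤ 2 * Real.log X ^ B := by linarith
  have hV2 : 2 * Real.log X ^ B ≤ Real.log X ^ (B + 1) := by
    rw [pow_succ, mul_comm (Real.log X ^ B)]
    exact mul_le_mul_of_nonneg_right hL2 (by positivity)
  have hs : ∀ ψ : PC, (IsPC ψ ∧ 2 ≤ ψ.1 ∧ (ψ.1 : ℝ) ≤ (X : ℝ) ^ (2 / 3 : ℝ)) →
      sN X (2 * Real.log X ^ B) ψ ^ 2 ≤ 5 * (1000 * BX.CB + 1) ^ 2 := by
    intro ψ hψ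
    have k1 := h1 (2 * Real.log X ^ B) hV1 hV2 {ψ} (by
      rw [card_singleton, Nat.cast_one]
      exact Real.one_le_rpow hXR (by norm_num)) (by
      intro ψ' hψ'
      rw [mem_singleton] at hψ'
      rw [hψ']
      exact hψ)
    rwa [sum_singleton] at k1
  have k2 : ‖II X n (Real.log X ^ B) ψ₁ ψ₂‖ ≤
      5 * (1000 * BX.CB + 1) ^ 2 * (X / Real.log X ^ 2) := by
    unfold II
    refine norm_av_le _ _ _ fun u hu1 hu2 => ?_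
    have hu : 0 ≤ Real.log X ^ B * u := by positivity
    exact IS_le_sN X n x4 ψ₁ ψ₂ _ (2 * Real.log X ^ B) _ hu (by
      rw [mul_comm]
      exact mul_le_mul_of_nonneg_right hu2 (by positivity)) hL0 (hs ψ₁ q1) (hs ψ₂ q2)
  have k3 := IF_sub X n x4 ψ₁ ψ₂ (Real.log X ^ B) (by linarith)
  have k4 : 16 * Real.log X ^ B * (X : ℝ) ^ (1 / 10 : ℝ) ≤ X / Real.log X ^ 2 := by
    rw [le_div_iff₀ (by positivity)]
    calc 16 * Real.log X ^ B * (X : ℝ) ^ (1 / 10 : ℝ) * Real.log X ^ 2 =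
          16 * Real.log X ^ (B + 2) * (X : ℝ) ^ (1 / 10 : ℝ) := by ring
      _ ≤ (X : ℝ) ^ (9 / 10 : ℝ) * (X : ℝ) ^ (1 / 10 : ℝ) :=
          mul_le_mul_of_nonneg_right h2 (by positivity)
      _ = X := d6.symm
  calc ‖IF X n (Real.log X ^ B) ψ₁ ψ₂‖ =
        ‖(IF X n (Real.log X ^ B) ψ₁ ψ₂ - II X n (Real.log X ^ B) ψ₁ ψ₂) +
          II X n (Real.log X ^ B) ψ₁ ψ₂‖ := by rw [sub_add_cancel]
    _ ≤ _ := norm_add_le _ _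
    _ ≤ X / Real.log X ^ 2 + 5 * (1000 * BX.CB + 1) ^ 2 * (X / Real.log X ^ 2) :=
        add_le_add (k3.trans k4) k2
    _ = _ := by ring

open Classical in
/-- the explicit formula, uniform in `δ`, elementary form -/
theorem fin_h (hS : ScaleG) (hG : GauBD) : ∀ θ ε : ℝ, 1 / 3 ≤ θ → θ < 1 / 2 → 0 < ε →
    ∃ C : ℕ, ∀ A : ℕ, ∃ B M : ℕ, ∀ K : ℕ, ∃ X0 : ℕ, ∀ X : ℕ, X0 ≤ X → ∀ δ : ℝ,
      1 / Real.log X ^ A ≤ δ → δ ≤ 1 → ∃ Y : Finset PC, (Y.card : ℝ) ≤ C / δ ^ 18 ∧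
      (∀ ψ ∈ Y, ψ.2.IsPrimitive ∧ Real.log X ^ K ≤ (ψ.1 : ℝ) ∧
        (ψ.1 : ℝ) ≤ (X : ℝ) ^ (1 - θ) ∧ ∃ y : ℕ, (X : ℝ) ^ (1 / 11 : ℝ) ≤ y ∧ y ≤ X ∧
        (y : ℝ) / Real.log X ^ M <
          ‖∑ p ∈ (Icc 1 y).filter Nat.Prime, ψ.2 (p : ZMod ψ.1)‖) ∧
      (∀ ψ₁ ∈ Y, ∀ ψ₂ ∈ Y, ∀ n : ℕ, 1 ≤ n → (Summable fun q : ℕ => ‖coE n ψ₁ ψ₂ q‖) ∧
        ‖∑' q : ℕ, coE n ψ₁ ψ₂ q‖ ≤ C * ((n : ℝ) / (Nat.totient n : ℝ)) *
          ((Nat.lcm ψ₁.1 ψ₂.1 / Nat.gcd (Nat.lcm ψ₁.1 ψ₂.1) n : ℕ) : ℝ) ^ (-(1 / 4 : ℝ)) ∧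
        ‖IE X n (Real.log X ^ B / X) ψ₁ ψ₂‖ ≤ C * (X / Real.log X ^ 2)) ∧
      (((Icc 1 X).filter (fun n : ℕ => X < 2 * n ∧ Even n ∧ δ * (SS n * JJ n) <
        ‖(((g n : ℝ) - SS n * JJ n : ℝ) : ℂ) - secE X n (Real.log X ^ B) Y‖)).card : ℝ) ≤
          (X : ℝ) ^ (θ + ε) := by
  intro θ ε h1 h2 hε
  obtain ⟨C1, hC1⟩ := fin_g hS hG θ ε h1 h2 hε
  obtain ⟨C2, hC2⟩ := exists_nat_ge (5 * (1000 * BX.CB + 1) ^ 2 + 1)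
  refine ⟨max C1 C2, fun A => ?_⟩
  have hCa : (C1 : ℝ) ≤ ((max C1 C2 : ℕ) : ℝ) := by exact_mod_cast le_max_left _ _
  have hCb : (C2 : ℝ) ≤ ((max C1 C2 : ℕ) : ℝ) := by exact_mod_cast le_max_right _ _
  obtain ⟨B, M, hB⟩ := hC1 A
  refine ⟨B, M, fun K => ?_⟩
  obtain ⟨X1, hX1⟩ := hB (K + 1)
  obtain ⟨X2, hX2⟩ := IE_bound B
  obtain ⟨X3, hX3⟩ := MP_log_large 2
  refine ⟨max X1 (max X2 (max X3 1)), fun X hX δ hδ hδ1 => ?_⟩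
  simp only [max_le_iff] at hX
  obtain ⟨x1, x2, x3, x4⟩ := hX
  have hL2 := hX3 X x3
  have hL1 : 1 ≤ Real.log X := by linarith
  have hL0 : 0 < Real.log X := by linarith
  have hXR : (1 : ℝ) ≤ X := by exact_mod_cast x4
  have hδ0 : 0 < δ := lt_of_lt_of_le (by positivity) hδ
  obtain ⟨h4T, hI⟩ := hX2 X x2
  obtain ⟨Y, y1, y2, y3, y4⟩ := hX1 X x1 δ hδ hδ1
  have hY2 : ∀ ψ ∈ Y, IsPC ψ ∧ 2 ≤ ψ.1 ∧ (ψ.1 : ℝ) ≤ (X : ℝ) ^ (2 / 3 : ℝ) := by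
    intro ψ hψ
    obtain ⟨q1, q2, q3, -⟩ := y2 ψ hψ
    have i1 : (2 : ℝ) ≤ ψ.1 := by
      refine le_trans ?_ q2
      calc (2 : ℝ) ≤ Real.log X := hL2
        _ = Real.log X ^ 1 := (pow_one _).symm
        _ ≤ Real.log X ^ (K + 1) := pow_le_pow_right₀ hL1 (by omega)
    have i2 : 2 ≤ ψ.1 := by exact_mod_cast i1
    refine ⟨⟨by omega, q1⟩, i2, q3.trans ?_⟩
    exact Real.rpow_le_rpow_of_exponent_le hXR (by linarith)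
  have hsec : ∀ n : ℕ, secF X n (Real.log X ^ B) Y = secE X n (Real.log X ^ B) Y := by
    intro n
    unfold secF secE
    refine sum_congr rfl fun ψ₁ h₁ => sum_congr rfl fun ψ₂ h₂ => ?_
    rw [(hI ψ₁ ψ₂ (hY2 ψ₁ h₁) (hY2 ψ₂ h₂) n).1]
    congr 1
    unfold SF
    rw [coF_coE]
  refine ⟨Y, y1.trans (div_le_div_of_nonneg_right hCa (by positivity)), fun ψ hψ => ?_,
    fun ψ₁ h₁ ψ₂ h₂ n hn => ?_, ?_⟩
  · obtain ⟨q1, q2, q3, q4⟩ := y2 ψ hψ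
    exact ⟨q1, (pow_le_pow_right₀ hL1 (by omega)).trans q2, q3, q4⟩
  · obtain ⟨s1, s2⟩ := y3 ψ₁ h₁ ψ₂ h₂ n hn
    have s3 := (hI ψ₁ ψ₂ (hY2 ψ₁ h₁) (hY2 ψ₂ h₂) n).2
    unfold SF at s2
    rw [coF_coE] at s1 s2
    refine ⟨s1, s2.trans ?_, s3.trans ?_⟩
    · have e2 : 0 ≤ (n : ℝ) / (Nat.totient n : ℝ) := by positivity
      have e3 : 0 ≤ ((Nat.lcm ψ₁.1 ψ₂.1 / Nat.gcd (Nat.lcm ψ₁.1 ψ₂.1) n : ℕ) : ℝ) ^
        (-(1 / 4 : ℝ)) := by positivity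
      exact mul_le_mul_of_nonneg_right (mul_le_mul_of_nonneg_right hCa e2) e3
    · exact mul_le_mul_of_nonneg_right (hC2.trans hCb) (by positivity)
  · simp only [hsec] at y4
    exact y4

end Pool.MP_dd84fd_nt.EF
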