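import Pool.Agent.Lib.MP_dd84fd_nt.EF.DefsH

/-!
# EF-Sm: small conductors and heavy intervals (helper39)

`Hvi`, `HvF`, `SmF`: `Hvy`, `hv_win`, `SmBD` of project QZ.  `ScaleQ`: `ScaleG`, and for `δ ≥ ν` every
character of `Y` has a heavy interval, and at most one has conductor `≤ X^(1/N)`, and it is real.
-/

set_option autoImplicit false

namespace Pool.MP_dd84fd_nt.EF

open Finset Pool.MP_67663b_nt.Odd Pool.MP_dd84fd_nt.En Pool.MP_dd84fd_nt.E2 Pool.MP_dd84fd_nt.LS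
open Pool.MP_dd84fd_nt.GX Pool.MP_dd84fd_nt.HX Pool.MP_dd84fd_nt.IX
open Pool.MP_dd84fd_nt.JX (wP gP DecJ Adm AdmP Str)
open Pool.MP_dd84fd_nt.BX (PC pv IsPC PR SX sN prc ind Rm cf N2d DiscH)

/-- `|Σ_{x < n ≤ x+H} Λ(n) ψ(n)| ≥ lam H`, `X^c ≤ x`, `x + H ≤ X`, `x/(log X)^B ≤ H ≤ x` -/
def Hvi (lam c : ℝ) (B X : ℕ) (ψ : PC) : Prop :=
  ∃ x H : ℝ, 0 < H ∧ (X : ℝ) ^ c ≤ x ∧ x + H ≤ X ∧ H ≤ x ∧ x ≤ H * (Real.log X) ^ B ∧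
    lam * H ≤ ‖∑ n ∈ Ioc ⌊x⌋₊ ⌊x + H⌋₊,
      ((ArithmeticFunction.vonMangoldt n : ℝ) : ℂ) * pv ψ n‖

/-- (HV) a large norm gives a heavy interval -/
def HvF : Prop := ∀ κ : ℝ, 0 < κ → ∃ lam : ℝ, 0 < lam ∧ ∀ B : ℕ, ∃ B' X0 : ℕ, ∀ X : ℕ, X0 ≤ X →
  ∀ T : ℝ, 1 ≤ T → T ≤ (Real.log X) ^ B → ∀ ψ : PC, κ ≤ sN X T ψ → Hvi lam (1 / 2) B' X ψ

/-- (SM) at most one heavy primitive character of small conductor -/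
def SmF : Prop := ∀ κ : ℝ, 0 < κ → ∃ δ : ℝ, 0 < δ ∧ ∀ B : ℕ, ∃ X0 : ℕ, ∀ X : ℕ, X0 ≤ X →
  ∀ T : ℝ, 1 ≤ T → T ≤ (Real.log X) ^ B → ∀ ψ₁ ψ₂ : PC, IsPC ψ₁ → IsPC ψ₂ → 2 ≤ ψ₁.1 → 2 ≤ ψ₂.1 →
  (ψ₁.1 : ℝ) ≤ (X : ℝ) ^ δ → (ψ₂.1 : ℝ) ≤ (X : ℝ) ^ δ →
  κ ≤ sN X T ψ₁ → κ ≤ sN X T ψ₂ → ψ₁ = ψ₂

/-- the explicit formula at one scale, uniform in `δ`; small conductors -/
def ScaleQ : Prop := ∀ th e : ℝ, AdmP th e → ∃ C : ℝ, 0 < C ∧ ∀ ν : ℝ, 0 < ν →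
  ∃ (N : ℕ) (lam : ℝ), 1 ≤ N ∧ 0 < lam ∧ ∀ A : ℕ, ∃ B M : ℕ, ∀ K : ℕ,
  ∃ X0 : ℕ, ∀ X : ℕ, X0 ≤ X → ∀ δ : ℝ, 1 / (Real.log X) ^ A ≤ δ → δ ≤ 1 →
  ∃ (Y : Finset PC) (Ex : Finset ℕ), (Y.card : ℝ) ≤ C / δ ^ 18 ∧
    (∀ ψ ∈ Y, IsPC ψ ∧ (Real.log X) ^ K ≤ (ψ.1 : ℝ) ∧ (ψ.1 : ℝ) ≤ RE th e X ∧ ∃ y : ℕ,
      (X : ℝ) ^ (1 / 11 : ℝ) ≤ y ∧ y ≤ X ∧
      (y : ℝ) / (Real.log X) ^ M < ‖∑ p ∈ (Icc 1 y).filter Nat.Prime, ψ.2 (p : ZMod ψ.1)‖) ∧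
    (ν ≤ δ → (∀ ψ ∈ Y, Hvi lam (1 / 2) M X ψ) ∧
      (∀ ψ ∈ Y, (ψ.1 : ℝ) ≤ (X : ℝ) ^ (1 / (N : ℝ)) → ψ.2 ^ 2 = 1 ∧
        ∀ ψ' ∈ Y, (ψ'.1 : ℝ) ≤ (X : ℝ) ^ (1 / (N : ℝ)) → ψ' = ψ)) ∧
    (Ex.card : ℝ) ≤ (X : ℝ) ^ (th - e / 4) ∧
    ∀ n : ℕ, X < 2 * n → n ≤ X → Even n → n ∉ Ex →
      ‖(((g n : ℝ) - SS n * JJ n : ℝ) : ℂ) -
        ∑ ψ₁ ∈ Y, ∑ ψ₂ ∈ Y, SP n ψ₁ ψ₂ * II X n ((Real.log X) ^ B) ψ₁ ψ₂‖ ≤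
        δ * ((n : ℝ) / (Nat.totient n : ℝ)) * (X / (Real.log X) ^ 2)

/-- the conjugate character -/
noncomputable def cj (ψ : PC) : PC := ⟨ψ.1, ψ.2⁻¹⟩

theorem cj_is {ψ : PC} (h : IsPC ψ) : IsPC (cj ψ) := by
  refine ⟨h.1, ?_⟩
  show (ψ.2⁻¹).IsPrimitive
  rw [DirichletCharacter.isPrimitive_def, DirichletCharacter.conductor_inv]
  exact h.2

theorem pv_cj (ψ : PC) (n : ℕ) : pv (cj ψ) n = (starRingEnd ℂ) (pv ψ n) := by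
  show (ψ.2⁻¹) (n : ZMod ψ.1) = (starRingEnd ℂ) (ψ.2 (n : ZMod ψ.1))
  rw [MulChar.inv_apply_eq_inv']
  by_cases h : IsUnit (n : ZMod ψ.1)
  · obtain ⟨u, hu⟩ := h
    have h1 : ‖ψ.2 (n : ZMod ψ.1)‖ = 1 := by
      rw [← hu]
      exact DirichletCharacter.unit_norm_eq_one ψ.2 u
    rw [Complex.inv_def, Complex.normSq_eq_norm_sq, h1]
    simp
  · rw [MulChar.map_nonunit _ h]
    simp

theorem SX_cj (X : ℕ) (ψ : PC) (x : ℝ) : SX X (cj ψ) x = (starRingEnd ℂ) (SX X ψ (-x)) := by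
  unfold SX
  rw [map_sum]
  refine sum_congr rfl fun n _ => ?_
  rw [map_mul, map_mul, Complex.conj_ofReal, pv_cj]
  congr 1
  unfold ee
  rw [← Complex.exp_conj]
  congr 1
  simp only [map_mul, Complex.conj_ofReal, Complex.conj_I, map_ofNat]
  push_cast
  ring

theorem sN_cj (X : ℕ) (T : ℝ) (ψ : PC) : sN X T (cj ψ) = sN X T ψ := by
  unfold sN
  have h1 : ∫ x in (-(T / X))..(T / X), ‖SX X (cj ψ) x‖ ^ 2 =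
      ∫ x in (-(T / X))..(T / X), ‖SX X ψ x‖ ^ 2 := by
    have h2 : (fun x : ℝ => ‖SX X (cj ψ) x‖ ^ 2) = fun x => (fun y => ‖SX X ψ y‖ ^ 2) (-x) := by
      funext x
      rw [SX_cj, Complex.norm_conj]
    rw [h2, intervalIntegral.integral_comp_neg (fun y => ‖SX X ψ y‖ ^ 2), neg_neg]
  rw [h1]

theorem scaleQ (hH : ScaleH) (hV : HvF) (hS : SmF) : ScaleQ := by
  intro th e hP
  obtain ⟨C, hC, hH⟩ := hH th e hP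
  refine ⟨C, hC, fun ν hν => ?_⟩
  have hκ : 0 < (ν / C) ^ 9 := by positivity
  obtain ⟨lam, hlam, hV⟩ := hV _ hκ
  obtain ⟨d, hd, hS⟩ := hS _ hκ
  refine ⟨⌈1 / d⌉₊ + 1, lam, by omega, hlam, fun A => ?_⟩
  have hN : 1 / ((⌈1 / d⌉₊ + 1 : ℕ) : ℝ) ≤ d := by
    have h1 : 1 / d ≤ (⌈1 / d⌉₊ : ℝ) := Nat.le_ceil _
    rw [div_le_iff₀ (by positivity)]
    have h2 : 1 ≤ d * (⌈1 / d⌉₊ : ℝ) := by
      calc (1 : ℝ) = d * (1 / d) := by field_simp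
        _ ≤ _ := mul_le_mul_of_nonneg_left h1 hd.le
    push_cast
    nlinarith
  obtain ⟨B, M, hH⟩ := hH A
  obtain ⟨B', Xv, hV⟩ := hV (B + 1)
  obtain ⟨Xs, hS⟩ := hS (B + 1)
  refine ⟨B, max M B', fun K => ?_⟩
  obtain ⟨Xh, hH⟩ := hH (K + 1)
  obtain ⟨Xl, hXl⟩ := MP_log_large 8
  refine ⟨max (max Xv Xs) (max Xh (max Xl 1)), fun X hX δ hδ1 hδ2 => ?_⟩
  simp only [max_le_iff] at hX
  obtain ⟨⟨g1, g2⟩, g3, g4, g5⟩ := hX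
  have hV := hV X g1
  have hS := hS X g2
  have hL8 := hXl X g4
  obtain ⟨Y, Ex, a1, a2, a3, a4⟩ := hH X g3 δ hδ1 hδ2
  obtain ⟨L, hLd⟩ : ∃ L : ℝ, L = Real.log X := ⟨_, rfl⟩
  rw [← hLd] at hL8 hV hS a2 hδ1
  have hL1 : 1 ≤ L := by linarith
  have hL0 : 0 < L := by linarith
  have hXR : (1 : ℝ) ≤ X := by exact_mod_cast g5
  have hT1 : 1 ≤ 4 * L ^ B := by
    have : 1 ≤ L ^ B := one_le_pow₀ hL1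
    linarith
  have hT2 : 4 * L ^ B ≤ L ^ (B + 1) := by
    rw [pow_succ, mul_comm (L ^ B) L]
    exact mul_le_mul_of_nonneg_right (by linarith) (by positivity)
  have hXN : (X : ℝ) ^ (1 / ((⌈1 / d⌉₊ + 1 : ℕ) : ℝ)) ≤ (X : ℝ) ^ d :=
    Real.rpow_le_rpow_of_exponent_le hXR hN
  refine ⟨Y, Ex, a1, fun ψ hψ => ?_, fun hνδ => ?_, a3, a4⟩
  · obtain ⟨b1, b2, b3, -, y, b5, b6, b7⟩ := a2 ψ hψ
    refine ⟨b1, ?_, b3, y, b5, b6, lt_of_le_of_lt ?_ b7⟩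
    · rw [← hLd]
      exact (pow_le_pow_right₀ hL1 (Nat.le_succ K)).trans b2
    · rw [← hLd]
      exact div_le_div_of_nonneg_left (Nat.cast_nonneg _) (by positivity)
        (pow_le_pow_right₀ hL1 (le_max_left _ _))
  · have hsn : ∀ ψ ∈ Y, (ν / C) ^ 9 ≤ sN X (4 * L ^ B) ψ := by
      intro ψ hψ
      obtain ⟨-, -, -, b4, -⟩ := a2 ψ hψ
      refine le_trans (pow_le_pow_left₀ (by positivity) ?_ 9) b4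
      exact div_le_div_of_nonneg_right hνδ hC.le
    have h2 : ∀ ψ ∈ Y, 2 ≤ ψ.1 := by
      intro ψ hψ
      obtain ⟨-, b2, -⟩ := a2 ψ hψ
      have h3 : (2 : ℝ) ≤ ψ.1 := by
        refine le_trans ?_ b2
        calc (2 : ℝ) ≤ L := by linarith
          _ = L ^ 1 := (pow_one L).symm
          _ ≤ L ^ (K + 1) := pow_le_pow_right₀ hL1 (by omega)
      exact_mod_cast h3
    refine ⟨fun ψ hψ => ?_, fun ψ hψ hs => ⟨?_, fun ψ' hψ' hs' => ?_⟩⟩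
    · obtain ⟨x, H, c1, c2, c3, c4, c5, c6⟩ := hV (4 * L ^ B) hT1 hT2 ψ (hsn ψ hψ)
      refine ⟨x, H, c1, c2, c3, c4, c5.trans ?_, c6⟩
      rw [← hLd]
      exact mul_le_mul_of_nonneg_left (pow_le_pow_right₀ hL1 (le_max_right _ _)) c1.le
    · have h4 : cj ψ = ψ := by
        refine hS (4 * L ^ B) hT1 hT2 (cj ψ) ψ (cj_is (a2 ψ hψ).1) (a2 ψ hψ).1 (h2 ψ hψ) (h2 ψ hψ)
          (hs.trans hXN) (hs.trans hXN) ?_ (hsn ψ hψ)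
        rw [sN_cj]
        exact hsn ψ hψ
      have h5 : ψ.2⁻¹ = ψ.2 := by
        have h6 := Sigma.ext_iff.1 h4
        exact eq_of_heq h6.2
      rw [pow_two]
      nth_rewrite 1 [← h5]
      exact inv_mul_cancel ψ.2
    · exact hS (4 * L ^ B) hT1 hT2 ψ' ψ (a2 ψ' hψ').1 (a2 ψ hψ).1 (h2 ψ' hψ') (h2 ψ hψ)
        (hs'.trans hXN) (hs.trans hXN) (hsn ψ' hψ') (hsn ψ hψ)

end Pool.MP_dd84fd_nt.EF
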