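import Pool.Agent.Lib.MP_dd84fd_nt.EF.FinH
import Pool.Agent.Lib.MP_dd84fd_nt.EF.Sm

/-!
# EF-FinQ: the explicit formula in its final form, with heavy intervals and small conductors

`ScC`: the conclusions of `ScaleG` for one `X`; `FnC`: the final conclusions for one `X`; `core`: from
`ScC` to `FnC`; `fin_q`: from `ScaleQ` and `GauBD`.
-/

set_option autoImplicit false

namespace Pool.MP_dd84fd_nt.EF

open Finset Pool.MP_67663b_nt.Odd Pool.MP_dd84fd_nt.En Pool.MP_dd84fd_nt.E2 Pool.MP_dd84fd_nt.LS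
open Pool.MP_dd84fd_nt.GX Pool.MP_dd84fd_nt.HX Pool.MP_dd84fd_nt.IX
open Pool.MP_dd84fd_nt.PL (rr)
open Pool.MP_dd84fd_nt.JX (wP gP DecJ Adm AdmP Str)
open Pool.MP_dd84fd_nt.LXP (tq)
open Pool.MP_dd84fd_nt.BX (PC pv IsPC PR SX sN prc ind Rm cf GauBD h0 cP)

/-- the conclusions of `ScaleG` for one `X` -/
def ScC (th e C : ℝ) (B M K X : ℕ) (δ : ℝ) (Y : Finset PC) (Ex : Finset ℕ) : Prop :=
  (Y.card : ℝ) ≤ C / δ ^ 18 ∧
    (∀ ψ ∈ Y, IsPC ψ ∧ (Real.log X) ^ K ≤ (ψ.1 : ℝ) ∧ (ψ.1 : ℝ) ≤ RE th e X ∧ ∃ y : ℕ,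
      (X : ℝ) ^ (1 / 11 : ℝ) ≤ y ∧ y ≤ X ∧
      (y : ℝ) / (Real.log X) ^ M < ‖∑ p ∈ (Icc 1 y).filter Nat.Prime, ψ.2 (p : ZMod ψ.1)‖) ∧
    (Ex.card : ℝ) ≤ (X : ℝ) ^ (th - e / 4) ∧
    ∀ n : ℕ, X < 2 * n → n ≤ X → Even n → n ∉ Ex →
      ‖(((g n : ℝ) - SS n * JJ n : ℝ) : ℂ) -
        ∑ ψ₁ ∈ Y, ∑ ψ₂ ∈ Y, SP n ψ₁ ψ₂ * II X n ((Real.log X) ^ B) ψ₁ ψ₂‖ ≤
        δ * ((n : ℝ) / (Nat.totient n : ℝ)) * (X / (Real.log X) ^ 2)

open Classical in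
/-- the final conclusions for one `X` -/
def FnC (θ ε : ℝ) (C B M K X : ℕ) (δ : ℝ) (Y : Finset PC) : Prop :=
  (Y.card : ℝ) ≤ C / δ ^ 18 ∧
      (∀ ψ ∈ Y, ψ.2.IsPrimitive ∧ Real.log X ^ K ≤ (ψ.1 : ℝ) ∧
        (ψ.1 : ℝ) ≤ (X : ℝ) ^ (1 - θ) ∧ ∃ y : ℕ, (X : ℝ) ^ (1 / 11 : ℝ) ≤ y ∧ y ≤ X ∧
        (y : ℝ) / Real.log X ^ M <
          ‖∑ p ∈ (Icc 1 y).filter Nat.Prime, ψ.2 (p : ZMod ψ.1)‖) ∧
      (∀ ψ₁ ∈ Y, ∀ ψ₂ ∈ Y, ∀ n : ℕ, 1 ≤ n → (Summable fun q : ℕ => ‖coE n ψ₁ ψ₂ q‖) ∧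
        ‖∑' q : ℕ, coE n ψ₁ ψ₂ q‖ ≤ C * ((n : ℝ) / (Nat.totient n : ℝ)) *
          ((Nat.lcm ψ₁.1 ψ₂.1 / Nat.gcd (Nat.lcm ψ₁.1 ψ₂.1) n : ℕ) : ℝ) ^ (-(1 / 4 : ℝ)) ∧
        ‖IE X n (Real.log X ^ B / X) ψ₁ ψ₂‖ ≤ C * (X / Real.log X ^ 2)) ∧
      (((Icc 1 X).filter (fun n : ℕ => X < 2 * n ∧ Even n ∧ δ * (SS n * JJ n) <
        ‖(((g n : ℝ) - SS n * JJ n : ℝ) : ℂ) - secE X n (Real.log X ^ B) Y‖)).card : ℝ) ≤
          (X : ℝ) ^ (θ + ε)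

open Classical in
/-- from one scale to the final form -/
theorem core (hG : GauBD) : ∀ θ ε : ℝ, 1 / 3 ≤ θ → θ < 1 / 2 → 0 < ε →
    ∃ th e c : ℝ, AdmP th e ∧ 0 < c ∧ c ≤ 1 ∧ ∀ C1 : ℝ, 0 < C1 → ∃ C : ℕ, ∀ A B M K : ℕ,
      ∃ X0 : ℕ, ∀ X : ℕ, X0 ≤ X → ∀ δ : ℝ, 1 / Real.log X ^ A ≤ δ → δ ≤ 1 →
      1 / Real.log X ^ (A + 1) ≤ c * δ ∧ c * δ ≤ 1 ∧ ∀ (Y : Finset PC) (Ex : Finset ℕ),
        ScC th e C1 B M (K + 1) X (c * δ) Y Ex → FnC θ ε C B M K X δ Y := by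
  intro θ ε h1 h2 hε
  obtain ⟨C0, hC0, hsf⟩ := sf_bound hG
  obtain ⟨Cs, hCs, hsec⟩ := sec_sub hG
  obtain ⟨t, ht⟩ : ∃ t : ℝ, t = min (θ + ε) (1 / 2) := ⟨_, rfl⟩
  have ht1 : t ≤ θ + ε := by rw [ht]; exact min_le_left _ _
  have ht2 : t ≤ 1 / 2 := by rw [ht]; exact min_le_right _ _
  have ht3 : θ < t := by rw [ht]; exact lt_min (by linarith) h2
  obtain ⟨e, he⟩ : ∃ e : ℝ, e = (t - θ) / 10000 := ⟨_, rfl⟩
  have he0 : 0 < e := by rw [he]; linarith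
  have hadm : AdmP t e := ⟨by linarith, ht2, he0, by rw [he]; linarith, by rw [he]; linarith⟩
  obtain ⟨c, hc⟩ : ∃ c : ℝ, c = min 1 (C2 / 32) := ⟨_, rfl⟩
  have hC2 := C2_pos
  have hc0 : 0 < c := by rw [hc]; exact lt_min one_pos (by positivity)
  have hc1 : c ≤ 1 := by rw [hc]; exact min_le_left _ _
  have hc2 : c ≤ C2 / 32 := by rw [hc]; exact min_le_right _ _
  refine ⟨t, e, c, hadm, hc0, hc1, fun C1 hC1 => ?_⟩
  obtain ⟨C, hC⟩ : ∃ C : ℕ, C0 + C1 / c ^ 18 + (5 * (1000 * BX.CB + 1) ^ 2 + 1) ≤ C :=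
    exists_nat_ge _
  have hC5 : 0 ≤ 5 * (1000 * BX.CB + 1) ^ 2 + 1 := by positivity
  have hCa : C0 ≤ C := by
    have : 0 ≤ C1 / c ^ 18 := by positivity
    linarith
  have hCb : C1 / c ^ 18 ≤ C := by linarith
  have hCc : 5 * (1000 * BX.CB + 1) ^ 2 + 1 ≤ C := by
    have : 0 ≤ C1 / c ^ 18 := by positivity
    linarith
  refine ⟨C, fun A B M K => ?_⟩
  obtain ⟨X1, hX1⟩ := IE_bound B
  obtain ⟨X2, hX2⟩ := MP_log_pow (Cs * C ^ 2) (36 * A + 1 + B + (A + 3)) (ε := 9 / 10)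
    (by norm_num)
  obtain ⟨X3, hX3⟩ := MP_log_large (2 + 1 / c)
  obtain ⟨X4, hX4⟩ := Pool.MP_dd84fd_nt.IY.JJ_ge
  refine ⟨max X1 (max X2 (max X3 (max X4 1))), fun X hX δ hδ hδ1 => ?_⟩
  simp only [max_le_iff] at hX
  obtain ⟨x1, x2, x3, x5, x4⟩ := hX
  have hpow := hX2 X x2
  have hLc := hX3 X x3
  have hic : 0 < 1 / c := by positivity
  have hL : 1 ≤ Real.log X := by linarith
  have hL2 : 2 ≤ Real.log X := by linarith
  have hcL : 1 ≤ c * Real.log X := by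
    have : 1 / c ≤ Real.log X := by linarith
    rw [div_le_iff₀ hc0] at this
    linarith
  have hXR : (1 : ℝ) ≤ X := by exact_mod_cast x4
  have hXp : (0 : ℝ) < X := by linarith
  have hL0 : 0 < Real.log X := by linarith
  have hLA : 0 < Real.log X ^ A := by positivity
  have hδ0 : 0 < δ := lt_of_lt_of_le (by positivity) hδ
  have hcδ : 1 / Real.log X ^ (A + 1) ≤ c * δ := by
    calc 1 / Real.log X ^ (A + 1) = 1 / Real.log X ^ A * (1 / Real.log X) := by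
          rw [pow_succ]
          field_simp
      _ ≤ δ * c := by
          refine mul_le_mul hδ ?_ (by positivity) hδ0.le
          rw [div_le_iff₀ hL0]
          exact hcL
      _ = c * δ := by ring
  have hcδ1 : c * δ ≤ 1 := by
    calc c * δ ≤ 1 * 1 := mul_le_mul hc1 hδ1 hδ0.le one_pos.le
      _ = 1 := one_mul 1
  refine ⟨hcδ, hcδ1, fun Y Ex hY => ?_⟩
  obtain ⟨y1, y2, y3, y4⟩ := hY
  obtain ⟨h4T, hI⟩ := hX1 X x1
  have hYc : (Y.card : ℝ) ≤ C / δ ^ 18 := by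
    calc (Y.card : ℝ) ≤ C1 / (c * δ) ^ 18 := y1
      _ = (C1 / c ^ 18) / δ ^ 18 := by
          rw [mul_pow]
          field_simp
      _ ≤ _ := div_le_div_of_nonneg_right hCb (by positivity)
  have hpc : ∀ ψ ∈ Y, IsPC ψ := fun ψ hψ => (y2 ψ hψ).1
  have hRE : RE t e X ≤ (X : ℝ) ^ (1 - θ) := by
    unfold RE
    exact Real.rpow_le_rpow_of_exponent_le hXR (by rw [he]; linarith)
  have hY2 : ∀ ψ ∈ Y, IsPC ψ ∧ 2 ≤ ψ.1 ∧ (ψ.1 : ℝ) ≤ (X : ℝ) ^ (2 / 3 : ℝ) := by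
    intro ψ hψ
    obtain ⟨q1, q2, q3, -⟩ := y2 ψ hψ
    have i1 : (2 : ℝ) ≤ ψ.1 := by
      refine le_trans ?_ q2
      calc (2 : ℝ) ≤ Real.log X := hL2
        _ = Real.log X ^ 1 := (pow_one _).symm
        _ ≤ Real.log X ^ (K + 1) := pow_le_pow_right₀ hL (by omega)
    have i2 : 2 ≤ ψ.1 := by exact_mod_cast i1
    refine ⟨q1, i2, (q3.trans hRE).trans ?_⟩
    exact Real.rpow_le_rpow_of_exponent_le hXR (by linarith)
  have hsecE : ∀ n : ℕ, secE X n (Real.log X ^ B) Y = secF X n (Real.log X ^ B) Y := by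
    intro n
    unfold secF secE
    refine sum_congr rfl fun ψ₁ h₁ => sum_congr rfl fun ψ₂ h₂ => ?_
    rw [(hI ψ₁ ψ₂ (hY2 ψ₁ h₁) (hY2 ψ₂ h₂) n).1]
    congr 1
    unfold SF
    rw [coF_coE]
  refine ⟨hYc, fun ψ hψ => ?_, fun ψ₁ h₁ ψ₂ h₂ n hn => ?_, ?_⟩
  · obtain ⟨q1, q2, q3, q4⟩ := y2 ψ hψ
    exact ⟨q1.2, (pow_le_pow_right₀ hL (by omega)).trans q2, q3.trans hRE, q4⟩
  · obtain ⟨s1, s2, -⟩ := hsf n hn ψ₁ ψ₂ (hpc ψ₁ h₁) (hpc ψ₂ h₂)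
    have s3 := (hI ψ₁ ψ₂ (hY2 ψ₁ h₁) (hY2 ψ₂ h₂) n).2
    unfold SF at s2
    rw [coF_coE] at s1 s2
    refine ⟨s1, s2.trans ?_, s3.trans (mul_le_mul_of_nonneg_right hCc (by positivity))⟩
    have e2 : 0 ≤ (n : ℝ) / (Nat.totient n : ℝ) := by positivity
    have e3 : 0 ≤ (h0 n ψ₁ ψ₂ : ℝ) ^ (-(1 / 4 : ℝ)) := by positivity
    exact mul_le_mul_of_nonneg_right (mul_le_mul_of_nonneg_right hCa e2) e3
  · simp only [hsecE]
    have hsub : (Icc 1 X).filter (fun n : ℕ => X < 2 * n ∧ Even n ∧ δ * (SS n * JJ n) <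
        ‖(((g n : ℝ) - SS n * JJ n : ℝ) : ℂ) - secF X n (Real.log X ^ B) Y‖) ⊆ Ex := by
      intro n hn
      rw [mem_filter, mem_Icc] at hn
      obtain ⟨⟨n1, n2⟩, n4, n5, n6⟩ := hn
      by_contra hEx
      have k1 := y4 n n4 n2 n5 hEx
      have hn2 : 2 ≤ n := by
        obtain ⟨k, hk⟩ := n5
        omega
      have hnR : (X : ℝ) < 2 * n := by exact_mod_cast n4
      have k2 := hsec X hL n hn2 n2 Y hpc (Real.log X ^ B) (by positivity)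
      -- the ratio `n/φ(n) ≥ 1`
      obtain ⟨R, hR⟩ : ∃ R : ℝ, R = (n : ℝ) / (Nat.totient n : ℝ) := ⟨_, rfl⟩
      have hR1 : 1 ≤ R := by
        rw [hR, one_le_div (by exact_mod_cast Nat.totient_pos.2 (by omega))]
        exact_mod_cast Nat.totient_le n
      rw [← hR] at k1
      have hYL : (Y.card : ℝ) ≤ C * Real.log X ^ (18 * A) := by
        refine hYc.trans ?_
        rw [div_le_iff₀ (by positivity)]
        have i1 : 1 ≤ δ * Real.log X ^ A := by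
          rw [div_le_iff₀ hLA] at hδ
          exact hδ
        have i2 : 1 ≤ (δ * Real.log X ^ A) ^ 18 := one_le_pow₀ i1
        have i3 : (δ * Real.log X ^ A) ^ 18 = Real.log X ^ (18 * A) * δ ^ 18 := by
          rw [mul_pow, ← pow_mul, mul_comm A 18]
          ring
        rw [i3] at i2
        have i4 : (0 : ℝ) ≤ C := Nat.cast_nonneg _
        calc (C : ℝ) = C * 1 := (mul_one _).symm
          _ ≤ C * (Real.log X ^ (18 * A) * δ ^ 18) := mul_le_mul_of_nonneg_left i2 i4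
          _ = _ := by ring
      have k3 : Cs * (Y.card : ℝ) ^ 2 * Real.log X * Real.log X ^ B * (X : ℝ) ^ (1 / 10 : ℝ) ≤
          X / Real.log X ^ (A + 3) := by
        have i1 : (Y.card : ℝ) ^ 2 ≤ (C * Real.log X ^ (18 * A)) ^ 2 :=
          pow_le_pow_left₀ (Nat.cast_nonneg _) hYL 2
        rw [le_div_iff₀ (by positivity)]
        have d6 : (X : ℝ) = (X : ℝ) ^ (9 / 10 : ℝ) * (X : ℝ) ^ (1 / 10 : ℝ) := by
          rw [← Real.rpow_add hXp]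
          norm_num
        calc Cs * (Y.card : ℝ) ^ 2 * Real.log X * Real.log X ^ B * (X : ℝ) ^ (1 / 10 : ℝ) *
              Real.log X ^ (A + 3) = (Y.card : ℝ) ^ 2 * (Cs * Real.log X * Real.log X ^ B *
              (X : ℝ) ^ (1 / 10 : ℝ) * Real.log X ^ (A + 3)) := by ring
          _ ≤ (C * Real.log X ^ (18 * A)) ^ 2 * (Cs * Real.log X * Real.log X ^ B *
              (X : ℝ) ^ (1 / 10 : ℝ) * Real.log X ^ (A + 3)) :=
              mul_le_mul_of_nonneg_right i1 (by positivity)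
          _ = Cs * C ^ 2 * Real.log X ^ (36 * A + 1 + B + (A + 3)) *
              (X : ℝ) ^ (1 / 10 : ℝ) := by ring
          _ ≤ (X : ℝ) ^ (9 / 10 : ℝ) * (X : ℝ) ^ (1 / 10 : ℝ) :=
              mul_le_mul_of_nonneg_right hpow (by positivity)
          _ = X := d6.symm
      have k4 : (X : ℝ) / Real.log X ^ (A + 3) ≤ c * δ * R * (X / Real.log X ^ 2) := by
        have i1 : (X : ℝ) / Real.log X ^ (A + 3) =
            1 / Real.log X ^ (A + 1) * (X / Real.log X ^ 2) := by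
          rw [show A + 3 = (A + 1) + 2 by ring, pow_add _ (A + 1) 2]
          field_simp
        rw [i1]
        refine mul_le_mul_of_nonneg_right ?_ (by positivity)
        calc 1 / Real.log X ^ (A + 1) ≤ c * δ := hcδ
          _ = c * δ * 1 := (mul_one _).symm
          _ ≤ c * δ * R := mul_le_mul_of_nonneg_left hR1 (by positivity)
      have k5 : ‖(((g n : ℝ) - SS n * JJ n : ℝ) : ℂ) - secF X n (Real.log X ^ B) Y‖ ≤
          2 * (c * δ * R * (X / Real.log X ^ 2)) := by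
        have e1 : (((g n : ℝ) - SS n * JJ n : ℝ) : ℂ) - secF X n (Real.log X ^ B) Y =
            ((((g n : ℝ) - SS n * JJ n : ℝ) : ℂ) -
              ∑ ψ₁ ∈ Y, ∑ ψ₂ ∈ Y, SP n ψ₁ ψ₂ * II X n ((Real.log X) ^ B) ψ₁ ψ₂) -
            (secF X n (Real.log X ^ B) Y -
              ∑ ψ₁ ∈ Y, ∑ ψ₂ ∈ Y, SP n ψ₁ ψ₂ * II X n ((Real.log X) ^ B) ψ₁ ψ₂) := by
          ring
        rw [e1]
        refine (norm_sub_le _ _).trans ?_
        linarith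
      have k6 : 2 * (c * δ * R * (X / Real.log X ^ 2)) ≤ δ * (SS n * JJ n) := by
        have i1 := BX.ss_phi n n5 (by omega)
        rw [← hR] at i1
        have i2 := hX4 X x5 n n4 n2
        have i3 : (X : ℝ) / (16 * Real.log X ^ 2) ≤ JJ n := by
          refine le_trans ?_ i2
          rw [div_le_div_iff₀ (by positivity) (by positivity)]
          have : 0 < Real.log X ^ 2 := by positivity
          nlinarith
        have i4 : C2 * R * (X / (16 * Real.log X ^ 2)) ≤ SS n * JJ n :=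
          mul_le_mul i1 i3 (by positivity) (le_trans (by positivity) i1)
        have i5 : 2 * (c * δ * R * (X / Real.log X ^ 2)) =
            δ * (32 * c * R * (X / (16 * Real.log X ^ 2))) := by
          field_simp
          ring
        rw [i5]
        refine mul_le_mul_of_nonneg_left (le_trans ?_ i4) hδ0.le
        refine mul_le_mul_of_nonneg_right ?_ (by positivity)
        refine mul_le_mul_of_nonneg_right ?_ (by positivity)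
        linarith
      linarith
    have hcd : (((Icc 1 X).filter (fun n : ℕ => X < 2 * n ∧ Even n ∧ δ * (SS n * JJ n) <
        ‖(((g n : ℝ) - SS n * JJ n : ℝ) : ℂ) - secF X n (Real.log X ^ B) Y‖)).card : ℝ) ≤
        Ex.card := by exact_mod_cast card_le_card hsub
    exact (hcd.trans y3).trans (Real.rpow_le_rpow_of_exponent_le hXR (by linarith))

/-- the explicit formula, uniform in `δ`; for `δ ≥ ν` every character has a heavy interval, at most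
one has conductor `≤ X^(1/N)`, and this one is real -/
theorem fin_q (hS : ScaleQ) (hG : GauBD) : ∀ θ ε : ℝ, 1 / 3 ≤ θ → θ < 1 / 2 → 0 < ε →
    ∃ C : ℕ, ∀ ν : ℝ, 0 < ν → ∃ N : ℕ, 1 ≤ N ∧ ∀ A : ℕ, ∃ B M : ℕ, ∀ K : ℕ, ∃ X0 : ℕ, ∀ X : ℕ,
      X0 ≤ X → ∀ δ : ℝ, 1 / Real.log X ^ A ≤ δ → δ ≤ 1 → ∃ Y : Finset PC,
        FnC θ ε C B M K X δ Y ∧
        (ν ≤ δ → ∀ ψ ∈ Y, (∃ x H : ℝ, 0 < H ∧ (X : ℝ) ^ (1 / 2 : ℝ) ≤ x ∧ x + H ≤ X ∧ H ≤ x ∧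
            x ≤ H * Real.log X ^ M ∧ H / N ≤ ‖∑ n ∈ Ioc ⌊x⌋₊ ⌊x + H⌋₊,
              ((ArithmeticFunction.vonMangoldt n : ℝ) : ℂ) * ψ.2 (n : ZMod ψ.1)‖) ∧
          ((ψ.1 : ℝ) ≤ (X : ℝ) ^ (1 / (N : ℝ)) → ψ.2 ^ 2 = 1 ∧
            ∀ ψ' ∈ Y, (ψ'.1 : ℝ) ≤ (X : ℝ) ^ (1 / (N : ℝ)) → ψ' = ψ)) := by
  intro θ ε h1 h2 hε
  obtain ⟨th, e, c, hadm, hc0, hc1, hcore⟩ := core hG θ ε h1 h2 hε
  obtain ⟨C1, hC1, hS1⟩ := hS th e hadm
  obtain ⟨C, hC⟩ := hcore C1 hC1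
  refine ⟨C, fun ν hν => ?_⟩
  obtain ⟨N0, lam, hN0, hlam, hS2⟩ := hS1 (c * ν) (by positivity)
  obtain ⟨N1, hN1⟩ := exists_nat_ge (1 / lam)
  refine ⟨max N0 N1, hN0.trans (le_max_left _ _), fun A => ?_⟩
  have hNa : (N0 : ℝ) ≤ ((max N0 N1 : ℕ) : ℝ) := by exact_mod_cast le_max_left _ _
  have hNb : (N1 : ℝ) ≤ ((max N0 N1 : ℕ) : ℝ) := by exact_mod_cast le_max_right _ _
  have hN0R : (1 : ℝ) ≤ N0 := by exact_mod_cast hN0
  have hNpos : (0 : ℝ) < ((max N0 N1 : ℕ) : ℝ) := by linarith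
  obtain ⟨B, M, hS3⟩ := hS2 (A + 1)
  refine ⟨B, M, fun K => ?_⟩
  obtain ⟨X1, hX1⟩ := hS3 (K + 1)
  obtain ⟨X2, hX2⟩ := hC A B M K
  refine ⟨max X1 (max X2 1), fun X hX δ hδ hδ1 => ?_⟩
  simp only [max_le_iff] at hX
  obtain ⟨x1, x2, x3⟩ := hX
  have hXR : (1 : ℝ) ≤ X := by exact_mod_cast x3
  obtain ⟨a1, a2, a3⟩ := hX2 X x2 δ hδ hδ1
  obtain ⟨Y, Ex, y1, y2, y3, y4, y5⟩ := hX1 X x1 (c * δ) a1 a2
  refine ⟨Y, a3 Y Ex ⟨y1, y2, y4, y5⟩, fun hνδ ψ hψ => ?_⟩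
  obtain ⟨z1, z2⟩ := y3 (mul_le_mul_of_nonneg_left hνδ hc0.le)
  have hpow : (X : ℝ) ^ (1 / ((max N0 N1 : ℕ) : ℝ)) ≤ (X : ℝ) ^ (1 / (N0 : ℝ)) :=
    Real.rpow_le_rpow_of_exponent_le hXR
      (one_div_le_one_div_of_le (by linarith) hNa)
  refine ⟨?_, fun hs => ?_⟩
  · obtain ⟨x, H, w1, w2, w3, w4, w5, w6⟩ := z1 ψ hψ
    refine ⟨x, H, w1, w2, w3, w4, w5, le_trans ?_ w6⟩
    rw [div_le_iff₀ hNpos]
    have i1 : 1 ≤ lam * ((max N0 N1 : ℕ) : ℝ) := by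
      have i2 : 1 / lam ≤ ((max N0 N1 : ℕ) : ℝ) := hN1.trans hNb
      rw [div_le_iff₀ hlam] at i2
      linarith
    calc H = H * 1 := (mul_one _).symm
      _ ≤ H * (lam * ((max N0 N1 : ℕ) : ℝ)) := mul_le_mul_of_nonneg_left i1 w1.le
      _ = _ := by ring
  · obtain ⟨w1, w2⟩ := z2 ψ hψ (hs.trans hpow)
    exact ⟨w1, fun ψ' hψ' hs' => w2 ψ' hψ' (hs'.trans hpow)⟩

end Pool.MP_dd84fd_nt.EF
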