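import Pool.Agent.Lib.MP_dd84fd_nt.EF.FinQ

/-!
# EF-FinR: the explicit formula for all `θ ≥ 1/3`

From a statement `FnC` with `θ₀ = min θ (2/5)`: the pairs of characters with `h = [r₁,r₂]/([r₁,r₂],n)` at
least a large power of the logarithm are negligible; so are the pairs with a modulus `> X^(1-θ)` for all
but `X^(θ+ε)` of the `n ≤ X`.
-/

set_option autoImplicit false

namespace Pool.MP_dd84fd_nt.EF

open Finset Pool.MP_67663b_nt.Odd Pool.MP_dd84fd_nt.En Pool.MP_dd84fd_nt.E2 Pool.MP_dd84fd_nt.LS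
open Pool.MP_dd84fd_nt.GX Pool.MP_dd84fd_nt.HX Pool.MP_dd84fd_nt.IX
open Pool.MP_dd84fd_nt.PL (rr)
open Pool.MP_dd84fd_nt.JX (wP gP DecJ Adm AdmP Str)
open Pool.MP_dd84fd_nt.LXP (tq)
open Pool.MP_dd84fd_nt.BX (PC pv IsPC PR SX sN prc ind Rm cf GauBD h0 cP)

/-! ### Counting -/

private theorem card_mul (X m h : ℕ) (hm : 1 ≤ m) (hh : 1 ≤ h) :
    (((Icc 1 X).filter (fun n => m ∣ n * h)).card : ℝ) ≤ (X : ℝ) * h / m := by
  have h1 : ((Icc 1 X).filter (fun n => m ∣ n * h)).card ≤ (Icc 1 (X * h / m)).card := by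
    refine card_le_card_of_injOn (fun n => n * h / m) ?_ ?_
    · intro n hn
      have hn' := mem_filter.1 (mem_coe.1 hn)
      obtain ⟨hn1, hn2⟩ := hn'
      rw [mem_Icc] at hn1
      refine mem_coe.2 (mem_Icc.2 ⟨?_, Nat.div_le_div_right (Nat.mul_le_mul_right h hn1.2)⟩)
      have h2 : 0 < n * h := Nat.mul_pos (by omega) (by omega)
      exact Nat.div_pos (Nat.le_of_dvd h2 hn2) (by omega)
    · intro a ha b hb hab
      obtain ⟨-, ha2⟩ := mem_filter.1 (mem_coe.1 ha)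
      obtain ⟨-, hb2⟩ := mem_filter.1 (mem_coe.1 hb)
      have h3 : a * h = b * h := by
        have e1 := Nat.div_mul_cancel ha2
        have e2 := Nat.div_mul_cancel hb2
        simp only at hab
        rw [← e1, ← e2, hab]
      exact Nat.eq_of_mul_eq_mul_right (by omega) h3
  rw [Nat.card_Icc, Nat.add_sub_cancel] at h1
  calc (((Icc 1 X).filter (fun n => m ∣ n * h)).card : ℝ) ≤ ((X * h / m : ℕ) : ℝ) := by
        exact_mod_cast h1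
    _ ≤ ((X * h : ℕ) : ℝ) / m := Nat.cast_div_le
    _ = (X : ℝ) * h / m := by push_cast; ring

/-- few `n ≤ X` have a small `m / (m, n)` -/
theorem card_h (X m H : ℕ) (hm : 1 ≤ m) :
    (((Icc 1 X).filter (fun n => m / Nat.gcd m n ≤ H)).card : ℝ) ≤ (X : ℝ) * (H : ℝ) ^ 2 / m := by
  have hsub : (Icc 1 X).filter (fun n => m / Nat.gcd m n ≤ H) ⊆
      (Icc 1 H).biUnion (fun h => (Icc 1 X).filter (fun n => m ∣ n * h)) := by
    intro n hn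
    rw [mem_filter] at hn
    obtain ⟨hn1, hn2⟩ := hn
    rw [mem_biUnion]
    have hg : 0 < Nat.gcd m n := Nat.gcd_pos_of_pos_left n (by omega)
    have hgm : Nat.gcd m n ∣ m := Nat.gcd_dvd_left m n
    refine ⟨m / Nat.gcd m n, mem_Icc.2 ⟨Nat.div_pos (Nat.le_of_dvd (by omega) hgm) hg, hn2⟩,
      mem_filter.2 ⟨hn1, ?_⟩⟩
    have e1 : Nat.gcd m n * (m / Nat.gcd m n) = m := Nat.mul_div_cancel' hgm
    calc m = Nat.gcd m n * (m / Nat.gcd m n) := e1.symm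
      _ ∣ n * (m / Nat.gcd m n) := Nat.mul_dvd_mul_right (Nat.gcd_dvd_right m n) _
  have hmR : (0 : ℝ) < m := by exact_mod_cast hm
  calc (((Icc 1 X).filter (fun n => m / Nat.gcd m n ≤ H)).card : ℝ) ≤
        ((((Icc 1 H).biUnion (fun h => (Icc 1 X).filter (fun n => m ∣ n * h))).card : ℕ) : ℝ) := by
        exact_mod_cast card_le_card hsub
    _ ≤ ((∑ h ∈ Icc 1 H, ((Icc 1 X).filter (fun n => m ∣ n * h)).card : ℕ) : ℝ) := by
        exact_mod_cast card_biUnion_le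
    _ = ∑ h ∈ Icc 1 H, (((Icc 1 X).filter (fun n => m ∣ n * h)).card : ℝ) := by push_cast; rfl
    _ ≤ ∑ h ∈ Icc 1 H, (X : ℝ) * H / m := by
        refine sum_le_sum fun h hh => ?_
        rw [mem_Icc] at hh
        refine (card_mul X m h hm hh.1).trans ?_
        refine div_le_div_of_nonneg_right ?_ hmR.le
        exact mul_le_mul_of_nonneg_left (by exact_mod_cast hh.2) (Nat.cast_nonneg _)
    _ = (X : ℝ) * (H : ℝ) ^ 2 / m := by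
        rw [sum_const, Nat.card_Icc, nsmul_eq_mul, Nat.add_sub_cancel]
        ring

/-! ### The pairs with a large `h` -/

/-- the term of a pair -/
noncomputable def pt (X n : ℕ) (T : ℝ) (p : PC × PC) : ℂ :=
  (∑' q : ℕ, coE n p.1 p.2 q) * IE X n (T / X) p.1 p.2

theorem secE_eq (X n : ℕ) (T : ℝ) (Y : Finset PC) : secE X n T Y = ∑ p ∈ Y ×ˢ Y, pt X n T p := by
  unfold secE pt
  rw [sum_product]

theorem pairs_small {C X n B : ℕ} {Y : Finset PC}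
    (h : ∀ ψ₁ ∈ Y, ∀ ψ₂ ∈ Y, ∀ n : ℕ, 1 ≤ n → (Summable fun q : ℕ => ‖coE n ψ₁ ψ₂ q‖) ∧
        ‖∑' q : ℕ, coE n ψ₁ ψ₂ q‖ ≤ C * ((n : ℝ) / (Nat.totient n : ℝ)) *
          ((Nat.lcm ψ₁.1 ψ₂.1 / Nat.gcd (Nat.lcm ψ₁.1 ψ₂.1) n : ℕ) : ℝ) ^ (-(1 / 4 : ℝ)) ∧
        ‖IE X n (Real.log X ^ B / X) ψ₁ ψ₂‖ ≤ C * (X / Real.log X ^ 2))
    (hn : 1 ≤ n) (P : Finset (PC × PC)) (hP : P ⊆ Y ×ˢ Y) (G : ℝ) (hG : 0 < G)
    (hPG : ∀ p ∈ P, G ^ 4 ≤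
      ((Nat.lcm p.1.1 p.2.1 / Nat.gcd (Nat.lcm p.1.1 p.2.1) n : ℕ) : ℝ)) :
    ‖∑ p ∈ P, pt X n (Real.log X ^ B) p‖ ≤
      (Y.card : ℝ) ^ 2 * (C * ((n : ℝ) / (Nat.totient n : ℝ)) / G * (C * (X / Real.log X ^ 2))) := by
  have hR : 0 ≤ (n : ℝ) / (Nat.totient n : ℝ) := by positivity
  have hI : 0 ≤ (X : ℝ) / Real.log X ^ 2 := by positivity
  have h1 : ∀ p ∈ P, ‖pt X n (Real.log X ^ B) p‖ ≤
      C * ((n : ℝ) / (Nat.totient n : ℝ)) / G * (C * (X / Real.log X ^ 2)) := by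
    intro p hp
    obtain ⟨q1, q2⟩ := mem_product.1 (hP hp)
    obtain ⟨-, s2, s3⟩ := h p.1 q1 p.2 q2 n hn
    unfold pt
    rw [norm_mul]
    refine mul_le_mul (s2.trans ?_) s3 (norm_nonneg _) (by positivity)
    rw [div_eq_mul_inv]
    refine mul_le_mul_of_nonneg_left ?_ (by positivity)
    have e1 : (G ^ 4) ^ (-(1 / 4 : ℝ)) = G⁻¹ := by
      rw [← Real.rpow_natCast G 4, ← Real.rpow_mul hG.le]
      norm_num
      exact Real.rpow_neg_one G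
    rw [← e1]
    exact Real.rpow_le_rpow_of_nonpos (by positivity) (hPG p hp) (by norm_num)
  calc ‖∑ p ∈ P, pt X n (Real.log X ^ B) p‖ ≤ ∑ p ∈ P, ‖pt X n (Real.log X ^ B) p‖ :=
        norm_sum_le _ _
    _ ≤ P.card • (C * ((n : ℝ) / (Nat.totient n : ℝ)) / G * (C * (X / Real.log X ^ 2))) :=
        sum_le_card_nsmul _ _ _ h1
    _ ≤ _ := by
        rw [nsmul_eq_mul]
        refine mul_le_mul_of_nonneg_right ?_ (by positivity)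
        have h2 : P.card ≤ (Y ×ˢ Y).card := card_le_card hP
        rw [card_product] at h2
        calc (P.card : ℝ) ≤ ((Y.card * Y.card : ℕ) : ℝ) := by exact_mod_cast h2
          _ = (Y.card : ℝ) ^ 2 := by push_cast; ring

/-! ### The final form -/

open Classical in
/-- all `θ ≥ 1/3` -/
theorem ext (θ ε : ℝ) (hθ : 1 / 3 ≤ θ) (hε : 0 < ε) (C0 : ℕ) :
    ∃ C : ℕ, ∀ A B M K : ℕ, ∃ X0 : ℕ, ∀ X : ℕ, X0 ≤ X → ∀ δ : ℝ, 1 / Real.log X ^ A ≤ δ → δ ≤ 1 →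
      1 / Real.log X ^ (A + 1) ≤ δ / 2 ∧ ∀ Y0 : Finset PC,
      FnC (min θ (2 / 5)) (ε / 2) C0 B M K X (δ / 2) Y0 →
      FnC θ ε C B M K X δ (Y0.filter (fun ψ => (ψ.1 : ℝ) ≤ (X : ℝ) ^ (1 - θ))) := by
  have hC2 := C2_pos
  refine ⟨C0 * 2 ^ 18 + C0, fun A B M K => ?_⟩
  obtain ⟨X1, hX1⟩ := MP_log_large (2 + (C0 : ℝ) ^ 4 * 2 ^ 41 / C2)
  obtain ⟨X2, hX2⟩ := Pool.MP_dd84fd_nt.IY.JJ_ge
  obtain ⟨X3, hX3⟩ := MP_log_pow (4 * (C0 * 2 ^ 18) ^ 2) (332 * A + 8) (ε := ε) hε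
  obtain ⟨X5, hX5⟩ := MP_log_pow 2 0 (ε := ε / 2) (by linarith)
  refine ⟨max (max X1 X2) (max X3 (max X5 1)), fun X hX δ hδ hδ1 => ?_⟩
  simp only [max_le_iff] at hX
  obtain ⟨⟨x1, x2⟩, x3, x5, x6⟩ := hX
  have hL := hX1 X x1
  have hJ := hX2 X x2
  have hp3 := hX3 X x3
  have hp5 := hX5 X x5
  rw [pow_zero, mul_one] at hp5
  obtain ⟨L, hLd⟩ : ∃ L : ℝ, L = Real.log X := ⟨_, rfl⟩
  rw [← hLd] at hL hδ hp3
  have hCC : 0 ≤ (C0 : ℝ) ^ 4 * 2 ^ 41 / C2 := by positivity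
  have hL2 : 2 ≤ L := by linarith
  have hL1 : 1 ≤ L := by linarith
  have hL0 : 0 < L := by linarith
  have hXR : (1 : ℝ) ≤ X := by exact_mod_cast x6
  have hXp : (0 : ℝ) < X := by linarith
  have hδ0 : 0 < δ := lt_of_lt_of_le (by positivity) hδ
  have hδL : 1 / δ ≤ L ^ A := by
    rw [div_le_iff₀ hδ0]
    rw [div_le_iff₀ (by positivity)] at hδ
    linarith
  have hδ2 : 1 / Real.log X ^ (A + 1) ≤ δ / 2 := by
    rw [← hLd, pow_succ]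
    calc 1 / (L ^ A * L) = 1 / L ^ A * (1 / L) := by field_simp
      _ ≤ δ * (1 / 2) := by
          refine mul_le_mul hδ ?_ (by positivity) hδ0.le
          exact one_div_le_one_div_of_le (by norm_num) hL2
      _ = δ / 2 := by ring
  refine ⟨hδ2, fun Y0 hF => ?_⟩
  obtain ⟨y1, y2, y3, y4⟩ := hF
  rw [← hLd] at y4
  have hmin1 : min θ (2 / 5) ≤ θ := min_le_left _ _
  have hmin2 : 1 / 3 ≤ min θ (2 / 5) := le_min hθ (by norm_num)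
  -- the number of characters
  have hYc : (Y0.card : ℝ) ≤ C0 * 2 ^ 18 / δ ^ 18 := by
    refine y1.trans (le_of_eq ?_)
    rw [_root_.div_pow]
    field_simp
  have hYL : (Y0.card : ℝ) ≤ C0 * 2 ^ 18 * L ^ (18 * A) := by
    refine hYc.trans ?_
    rw [div_eq_mul_one_div]
    refine mul_le_mul_of_nonneg_left ?_ (by positivity)
    calc 1 / δ ^ 18 = (1 / δ) ^ 18 := by rw [_root_.div_pow, one_pow]
      _ ≤ (L ^ A) ^ 18 := pow_le_pow_left₀ (by positivity) hδL 18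
      _ = L ^ (18 * A) := by rw [← pow_mul, mul_comm]
  -- the cut
  obtain ⟨G, hG⟩ : ∃ G : ℝ, G = L ^ (37 * A + 1) := ⟨_, rfl⟩
  have hG0 : 0 < G := by rw [hG]; positivity
  have hG4 : G ^ 4 = L ^ (148 * A + 4) := by
    rw [hG, ← pow_mul]
    congr 1
    ring
  -- the terms with a large `h` are small
  have hsmall : ∀ n : ℕ, X < 2 * n → n ≤ X → Even n → ∀ P : Finset (PC × PC), P ⊆ Y0 ×ˢ Y0 →
      (∀ p ∈ P, G ^ 4 ≤ ((Nat.lcm p.1.1 p.2.1 / Nat.gcd (Nat.lcm p.1.1 p.2.1) n : ℕ) : ℝ)) →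
      ‖∑ p ∈ P, pt X n (L ^ B) p‖ ≤ δ / 2 * (SS n * JJ n) := by
    intro n n1 n2 n3 P hP hPG
    have hn1 : 1 ≤ n := by omega
    have e1 := pairs_small y3 hn1 P hP G hG0 hPG
    rw [← hLd] at e1
    refine e1.trans ?_
    obtain ⟨R, hR⟩ : ∃ R : ℝ, R = (n : ℝ) / (Nat.totient n : ℝ) := ⟨_, rfl⟩
    have hR0 : 0 ≤ R := by rw [hR]; positivity
    rw [← hR]
    have i1 := BX.ss_phi n n3 (by omega)
    rw [← hR] at i1
    have i2 := hJ n n1 n2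
    rw [← hLd] at i2
    have hnR : (X : ℝ) < 2 * n := by exact_mod_cast n1
    have i3 : (X : ℝ) / (16 * L ^ 2) ≤ JJ n := by
      refine le_trans ?_ i2
      rw [div_le_div_iff₀ (by positivity) (by positivity)]
      have : 0 < L ^ 2 := by positivity
      nlinarith
    have i4 : C2 * R * (X / (16 * L ^ 2)) ≤ SS n * JJ n :=
      mul_le_mul i1 i3 (by positivity) (le_trans (by positivity) i1)
    refine le_trans ?_ (mul_le_mul_of_nonneg_left i4 (by positivity))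
    have i5 : (Y0.card : ℝ) ^ 2 * (C0 * R / G * (C0 * (X / L ^ 2))) =
        ((Y0.card : ℝ) ^ 2 * C0 ^ 2 / G) * (R * (X / L ^ 2)) := by
      ring
    have i6 : δ / 2 * (C2 * R * (X / (16 * L ^ 2))) = (δ * C2 / 32) * (R * (X / L ^ 2)) := by
      field_simp
      ring
    rw [i5, i6]
    refine mul_le_mul_of_nonneg_right ?_ (by positivity)
    rw [div_le_iff₀ hG0]
    have i7 : (Y0.card : ℝ) ^ 2 ≤ (C0 * 2 ^ 18 / δ ^ 18) ^ 2 :=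
      pow_le_pow_left₀ (Nat.cast_nonneg _) hYc 2
    have i8 : (C0 : ℝ) ^ 4 * 2 ^ 41 / C2 * (1 / δ) ^ 37 ≤ G := by
      rw [hG, pow_succ L (37 * A), mul_comm (L ^ (37 * A)) L]
      refine mul_le_mul (by linarith) ?_ (by positivity) hL0.le
      calc (1 / δ) ^ 37 ≤ (L ^ A) ^ 37 := pow_le_pow_left₀ (by positivity) hδL 37
        _ = L ^ (37 * A) := by rw [← pow_mul, mul_comm]
    calc (Y0.card : ℝ) ^ 2 * C0 ^ 2 ≤ (C0 * 2 ^ 18 / δ ^ 18) ^ 2 * C0 ^ 2 :=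
          mul_le_mul_of_nonneg_right i7 (by positivity)
      _ = δ * C2 / 32 * ((C0 : ℝ) ^ 4 * 2 ^ 41 / C2 * (1 / δ) ^ 37) := by
          field_simp
          ring
      _ ≤ δ * C2 / 32 * G := mul_le_mul_of_nonneg_left i8 (by positivity)
  -- the base exceptional set
  obtain ⟨B0, hB0⟩ : ∃ B0 : Finset ℕ, B0 = (Icc 1 X).filter (fun n : ℕ => X < 2 * n ∧ Even n ∧
      δ / 2 * (SS n * JJ n) <
        ‖(((g n : ℝ) - SS n * JJ n : ℝ) : ℂ) - secE X n (L ^ B) Y0‖) := ⟨_, rfl⟩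
  have hB0c : (B0.card : ℝ) ≤ (X : ℝ) ^ (θ + ε / 2) := by
    rw [hB0]
    exact y4.trans (Real.rpow_le_rpow_of_exponent_le hXR (by linarith))
  have hB0n : ∀ n : ℕ, X < 2 * n → n ≤ X → Even n → n ∉ B0 →
      ‖(((g n : ℝ) - SS n * JJ n : ℝ) : ℂ) - secE X n (L ^ B) Y0‖ ≤ δ / 2 * (SS n * JJ n) := by
    intro n n1 n2 n3 n4
    by_contra hcon
    push Not at hcon
    apply n4
    rw [hB0, mem_filter, mem_Icc]
    exact ⟨⟨by omega, n2⟩, n1, n3, hcon⟩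
  have hXe : (X : ℝ) ^ (θ + ε / 2) ≤ (X : ℝ) ^ (θ + ε) / 2 := by
    have e1 : (X : ℝ) ^ (θ + ε) = (X : ℝ) ^ (θ + ε / 2) * (X : ℝ) ^ (ε / 2) := by
      rw [← Real.rpow_add hXp]
      congr 1
      ring
    rw [e1]
    have e2 : 0 ≤ (X : ℝ) ^ (θ + ε / 2) := by positivity
    nlinarith
  have hXθ : (X : ℝ) ^ (θ + ε) = (X : ℝ) ^ θ * (X : ℝ) ^ ε := Real.rpow_add hXp _ _
  have hXθ0 : 0 ≤ (X : ℝ) ^ θ := by positivity
  have hXθ1 : 1 ≤ (X : ℝ) ^ θ := Real.one_le_rpow hXR (by linarith)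
  have hXε0 : 0 ≤ (X : ℝ) ^ ε := by positivity
  have hKK : ∀ ψ ∈ Y0, L ^ K ≤ (ψ.1 : ℝ) := by
    intro ψ hψ
    rw [hLd]
    exact (y2 ψ hψ).2.1
  have hY1 : ∀ ψ ∈ Y0, 1 ≤ ψ.1 := by
    intro ψ hψ
    have h1 : (1 : ℝ) ≤ ψ.1 := (one_le_pow₀ hL1).trans (hKK ψ hψ)
    exact_mod_cast h1
  refine ⟨?_, ?_, ?_, ?_⟩
  · -- cardinality
    have h1 : ((Y0.filter (fun ψ => (ψ.1 : ℝ) ≤ (X : ℝ) ^ (1 - θ))).card : ℝ) ≤ Y0.card := by
      exact_mod_cast card_le_card (filter_subset _ _)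
    refine (h1.trans hYc).trans ?_
    refine div_le_div_of_nonneg_right ?_ (by positivity)
    push_cast
    have : (0 : ℝ) ≤ C0 := Nat.cast_nonneg _
    linarith
  · intro ψ hψ
    obtain ⟨h1, h2⟩ := mem_filter.1 hψ
    obtain ⟨q1, q2, -, q4⟩ := y2 ψ h1
    exact ⟨q1, q2, h2, q4⟩
  · intro ψ₁ h₁ ψ₂ h₂ n hn
    obtain ⟨s1, s2, s3⟩ := y3 ψ₁ (mem_filter.1 h₁).1 ψ₂ (mem_filter.1 h₂).1 n hn
    have hC : (C0 : ℝ) ≤ ((C0 * 2 ^ 18 + C0 : ℕ) : ℝ) := by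
      push_cast
      have : (0 : ℝ) ≤ C0 := Nat.cast_nonneg _
      linarith
    refine ⟨s1, s2.trans ?_, s3.trans (mul_le_mul_of_nonneg_right hC (by positivity))⟩
    have e2 : 0 ≤ (n : ℝ) / (Nat.totient n : ℝ) := by positivity
    have e3 : 0 ≤ ((Nat.lcm ψ₁.1 ψ₂.1 / Nat.gcd (Nat.lcm ψ₁.1 ψ₂.1) n : ℕ) : ℝ) ^
      (-(1 / 4 : ℝ)) := by positivity
    exact mul_le_mul_of_nonneg_right (mul_le_mul_of_nonneg_right hC e2) e3
  · -- the exceptional set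
    rw [← hLd]
    obtain ⟨Y, hY⟩ : ∃ Y : Finset PC, Y = Y0.filter (fun ψ => (ψ.1 : ℝ) ≤ (X : ℝ) ^ (1 - θ)) :=
      ⟨_, rfl⟩
    rw [← hY]
    have hYs : Y ⊆ Y0 := by rw [hY]; exact filter_subset _ _
    obtain ⟨P, hP⟩ : ∃ P : Finset (PC × PC), P = (Y0 ×ˢ Y0) \ (Y ×ˢ Y) := ⟨_, rfl⟩
    have hPs : P ⊆ Y0 ×ˢ Y0 := by rw [hP]; exact sdiff_subset
    have hPm : ∀ p ∈ P, (X : ℝ) ^ (1 - θ) ≤ ((Nat.lcm p.1.1 p.2.1 : ℕ) : ℝ) := by
      intro p hp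
      have hp0 := hPs hp
      obtain ⟨u1, u2⟩ := mem_product.1 hp0
      have hl1 : p.1.1 ≤ Nat.lcm p.1.1 p.2.1 :=
        Nat.le_of_dvd (Nat.lcm_pos (hY1 _ u1) (hY1 _ u2)) (Nat.dvd_lcm_left _ _)
      have hl2 : p.2.1 ≤ Nat.lcm p.1.1 p.2.1 :=
        Nat.le_of_dvd (Nat.lcm_pos (hY1 _ u1) (hY1 _ u2)) (Nat.dvd_lcm_right _ _)
      rw [hP, mem_sdiff, mem_product, mem_product, hY, mem_filter, mem_filter] at hp
      by_contra hcon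
      push Not at hcon
      have c1 : ((p.1.1 : ℕ) : ℝ) ≤ (X : ℝ) ^ (1 - θ) :=
        le_trans (by exact_mod_cast hl1) hcon.le
      have c2 : ((p.2.1 : ℕ) : ℝ) ≤ (X : ℝ) ^ (1 - θ) :=
        le_trans (by exact_mod_cast hl2) hcon.le
      exact hp.2 ⟨⟨u1, c1⟩, u2, c2⟩
    obtain ⟨H, hH⟩ : ∃ H : ℕ, H = ⌊G ^ 4⌋₊ := ⟨_, rfl⟩
    have hHG : (H : ℝ) ≤ G ^ 4 := by rw [hH]; exact Nat.floor_le (by positivity)
    obtain ⟨E1, hE1⟩ : ∃ E1 : Finset ℕ, E1 = P.biUnion (fun p => (Icc 1 X).filter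
      (fun n => Nat.lcm p.1.1 p.2.1 / Nat.gcd (Nat.lcm p.1.1 p.2.1) n ≤ H)) := ⟨_, rfl⟩
    have hPc : (P.card : ℝ) ≤ (Y0.card : ℝ) ^ 2 := by
      have h2 : P.card ≤ (Y0 ×ˢ Y0).card := card_le_card hPs
      rw [card_product] at h2
      calc (P.card : ℝ) ≤ ((Y0.card * Y0.card : ℕ) : ℝ) := by exact_mod_cast h2
        _ = (Y0.card : ℝ) ^ 2 := by push_cast; ring
    have hE1c : (E1.card : ℝ) ≤ (X : ℝ) ^ (θ + ε) / 2 := by
      have h3 : (E1.card : ℝ) ≤ ∑ p ∈ P, (X : ℝ) ^ θ * (G ^ 4) ^ 2 := by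
        calc (E1.card : ℝ) ≤ ((∑ p ∈ P, ((Icc 1 X).filter (fun n =>
              Nat.lcm p.1.1 p.2.1 / Nat.gcd (Nat.lcm p.1.1 p.2.1) n ≤ H)).card : ℕ) : ℝ) := by
              rw [hE1]
              exact_mod_cast card_biUnion_le
          _ = ∑ p ∈ P, (((Icc 1 X).filter (fun n =>
              Nat.lcm p.1.1 p.2.1 / Nat.gcd (Nat.lcm p.1.1 p.2.1) n ≤ H)).card : ℝ) := by
              push_cast
              rfl
          _ ≤ _ := by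
              refine sum_le_sum fun p hp => ?_
              obtain ⟨u1, u2⟩ := mem_product.1 (hPs hp)
              have hm1 : 1 ≤ Nat.lcm p.1.1 p.2.1 := Nat.lcm_pos (hY1 _ u1) (hY1 _ u2)
              have hmR : (0 : ℝ) < ((Nat.lcm p.1.1 p.2.1 : ℕ) : ℝ) := by exact_mod_cast hm1
              refine (card_h X _ H hm1).trans ?_
              rw [div_le_iff₀ hmR]
              have e1 : (X : ℝ) = (X : ℝ) ^ θ * (X : ℝ) ^ (1 - θ) := by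
                rw [← Real.rpow_add hXp]
                norm_num
              have e2 : (H : ℝ) ^ 2 ≤ (G ^ 4) ^ 2 := pow_le_pow_left₀ (Nat.cast_nonneg _) hHG 2
              calc (X : ℝ) * (H : ℝ) ^ 2 ≤ X * (G ^ 4) ^ 2 :=
                    mul_le_mul_of_nonneg_left e2 hXp.le
                _ = (X : ℝ) ^ θ * (G ^ 4) ^ 2 * (X : ℝ) ^ (1 - θ) := by
                    nth_rewrite 1 [e1]
                    ring
                _ ≤ (X : ℝ) ^ θ * (G ^ 4) ^ 2 * ((Nat.lcm p.1.1 p.2.1 : ℕ) : ℝ) :=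
                    mul_le_mul_of_nonneg_left (hPm p hp) (by positivity)
      rw [sum_const, nsmul_eq_mul] at h3
      refine h3.trans ?_
      have e3 : (P.card : ℝ) ≤ (C0 * 2 ^ 18 * L ^ (18 * A)) ^ 2 :=
        hPc.trans (pow_le_pow_left₀ (Nat.cast_nonneg _) hYL 2)
      calc (P.card : ℝ) * ((X : ℝ) ^ θ * (G ^ 4) ^ 2) ≤
            (C0 * 2 ^ 18 * L ^ (18 * A)) ^ 2 * ((X : ℝ) ^ θ * (G ^ 4) ^ 2) :=
            mul_le_mul_of_nonneg_right e3 (by positivity)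
        _ = (X : ℝ) ^ θ * ((C0 * 2 ^ 18) ^ 2 * L ^ (332 * A + 8)) := by
            rw [hG4]
            ring
        _ ≤ (X : ℝ) ^ θ * ((X : ℝ) ^ ε / 2) := by
            refine mul_le_mul_of_nonneg_left ?_ hXθ0
            have : 0 ≤ ((C0 : ℝ) * 2 ^ 18) ^ 2 * L ^ (332 * A + 8) := by positivity
            linarith
        _ = _ := by rw [hXθ]; ring
    have hsub : (Icc 1 X).filter (fun n : ℕ => X < 2 * n ∧ Even n ∧ δ * (SS n * JJ n) <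
        ‖(((g n : ℝ) - SS n * JJ n : ℝ) : ℂ) - secE X n (L ^ B) Y‖) ⊆ B0 ∪ E1 := by
      intro n hn
      rw [mem_filter, mem_Icc] at hn
      obtain ⟨⟨n1, n2⟩, n4, n5, n6⟩ := hn
      by_contra hcon
      rw [mem_union, not_or] at hcon
      obtain ⟨k1, k2⟩ := hcon
      have k3 := hB0n n n4 n2 n5 k1
      have k4 := hsmall n n4 n2 n5 P hPs (fun p hp => by
        by_contra hlt
        push Not at hlt
        apply k2
        rw [hE1, mem_biUnion]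
        refine ⟨p, hp, mem_filter.2 ⟨mem_Icc.2 ⟨n1, n2⟩, ?_⟩⟩
        rw [hH]
        exact Nat.le_floor hlt.le)
      have k5 : secE X n (L ^ B) Y0 - secE X n (L ^ B) Y = ∑ p ∈ P, pt X n (L ^ B) p := by
        rw [secE_eq, secE_eq, hP, sub_eq_iff_eq_add]
        exact (sum_sdiff (product_subset_product hYs hYs)).symm
      have k6 : ‖(((g n : ℝ) - SS n * JJ n : ℝ) : ℂ) - secE X n (L ^ B) Y‖ ≤
          δ * (SS n * JJ n) := by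
        have e1 : (((g n : ℝ) - SS n * JJ n : ℝ) : ℂ) - secE X n (L ^ B) Y =
            ((((g n : ℝ) - SS n * JJ n : ℝ) : ℂ) - secE X n (L ^ B) Y0) +
              (secE X n (L ^ B) Y0 - secE X n (L ^ B) Y) := by ring
        rw [e1, k5]
        refine (norm_add_le _ _).trans ?_
        linarith
      linarith
    calc (((Icc 1 X).filter (fun n : ℕ => X < 2 * n ∧ Even n ∧ δ * (SS n * JJ n) <
        ‖(((g n : ℝ) - SS n * JJ n : ℝ) : ℂ) - secE X n (L ^ B) Y‖)).card : ℝ) ≤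
          ((B0 ∪ E1).card : ℝ) := by exact_mod_cast card_le_card hsub
      _ ≤ (B0.card : ℝ) + E1.card := by exact_mod_cast card_union_le _ _
      _ ≤ (X : ℝ) ^ (θ + ε) / 2 + (X : ℝ) ^ (θ + ε) / 2 := add_le_add (hB0c.trans hXe) hE1c
      _ = _ := by ring

/-- the explicit formula for all `θ ≥ 1/3`, uniform in `δ` -/
theorem fin_rg (hS : ScaleG) (hG : GauBD) : ∀ θ ε : ℝ, 1 / 3 ≤ θ → 0 < ε →
    ∃ C : ℕ, ∀ A : ℕ, ∃ B M : ℕ, ∀ K : ℕ, ∃ X0 : ℕ, ∀ X : ℕ,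
      X0 ≤ X → ∀ δ : ℝ, 1 / Real.log X ^ A ≤ δ → δ ≤ 1 → ∃ Y : Finset PC,
        FnC θ ε C B M K X δ Y := by
  classical
  intro θ ε h1 hε
  obtain ⟨C0, hC0⟩ := fin_h hS hG (min θ (2 / 5)) (ε / 2) (le_min h1 (by norm_num))
    (lt_of_le_of_lt (min_le_right _ _) (by norm_num)) (by linarith)
  obtain ⟨C, hC⟩ := ext θ ε h1 hε C0
  refine ⟨C, fun A => ?_⟩
  obtain ⟨B, M, hB⟩ := hC0 (A + 1)
  refine ⟨B, M, fun K => ?_⟩
  obtain ⟨X1, hX1⟩ := hB K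
  obtain ⟨X2, hX2⟩ := hC A B M K
  refine ⟨max X1 X2, fun X hX δ hδ hδ1 => ?_⟩
  simp only [max_le_iff] at hX
  obtain ⟨x1, x2⟩ := hX
  obtain ⟨a1, a2⟩ := hX2 X x2 δ hδ hδ1
  obtain ⟨Y0, y⟩ := hX1 X x1 (δ / 2) a1 (by linarith)
  exact ⟨_, a2 Y0 y⟩

/-- the explicit formula for all `θ ≥ 1/3`, uniform in `δ`; for `δ ≥ ν` every character has a heavy
interval, at most one has conductor `≤ X^(1/N)`, and this one is real -/
theorem fin_r (hS : ScaleQ) (hG : GauBD) : ∀ θ ε : ℝ, 1 / 3 ≤ θ → 0 < ε →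
    ∃ C : ℕ, ∀ ν : ℝ, 0 < ν → ∃ N : ℕ, 1 ≤ N ∧ ∀ A : ℕ, ∃ B M : ℕ, ∀ K : ℕ, ∃ X0 : ℕ, ∀ X : ℕ,
      X0 ≤ X → ∀ δ : ℝ, 1 / Real.log X ^ A ≤ δ → δ ≤ 1 → ∃ Y : Finset PC,
        FnC θ ε C B M K X δ Y ∧
        (ν ≤ δ → ∀ ψ ∈ Y, (∃ x H : ℝ, 0 < H ∧ (X : ℝ) ^ (1 / 2 : ℝ) ≤ x ∧ x + H ≤ X ∧ H ≤ x ∧
            x ≤ H * Real.log X ^ M ∧ H / N ≤ ‖∑ n ∈ Ioc ⌊x⌋₊ ⌊x + H⌋₊,
              ((ArithmeticFunction.vonMangoldt n : ℝ) : ℂ) * ψ.2 (n : ZMod ψ.1)‖) ∧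
          ((ψ.1 : ℝ) ≤ (X : ℝ) ^ (1 / (N : ℝ)) → ψ.2 ^ 2 = 1 ∧
            ∀ ψ' ∈ Y, (ψ'.1 : ℝ) ≤ (X : ℝ) ^ (1 / (N : ℝ)) → ψ' = ψ)) := by
  classical
  intro θ ε h1 hε
  obtain ⟨C0, hC0⟩ := fin_q hS hG (min θ (2 / 5)) (ε / 2) (le_min h1 (by norm_num))
    (lt_of_le_of_lt (min_le_right _ _) (by norm_num)) (by linarith)
  obtain ⟨C, hC⟩ := ext θ ε h1 hε C0
  refine ⟨C, fun ν hν => ?_⟩
  obtain ⟨N, hN, hB⟩ := hC0 (ν / 2) (by linarith)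
  refine ⟨N, hN, fun A => ?_⟩
  obtain ⟨B, M, hB⟩ := hB (A + 1)
  refine ⟨B, M, fun K => ?_⟩
  obtain ⟨X1, hX1⟩ := hB K
  obtain ⟨X2, hX2⟩ := hC A B M K
  refine ⟨max X1 X2, fun X hX δ hδ hδ1 => ?_⟩
  simp only [max_le_iff] at hX
  obtain ⟨x1, x2⟩ := hX
  obtain ⟨a1, a2⟩ := hX2 X x2 δ hδ hδ1
  obtain ⟨Y0, y, z⟩ := hX1 X x1 (δ / 2) a1 (by linarith)
  refine ⟨_, a2 Y0 y, fun hνδ ψ hψ => ?_⟩
  obtain ⟨w1, w2⟩ := z (by linarith) ψ (mem_filter.1 hψ).1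
  refine ⟨w1, fun hs => ?_⟩
  obtain ⟨v1, v2⟩ := w2 hs
  exact ⟨v1, fun ψ' hψ' hs' => v2 ψ' (mem_filter.1 hψ').1 hs'⟩

end Pool.MP_dd84fd_nt.EF
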