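import Pool.Agent.Lib.MP_dd84fd_nt.EF.Av
import Pool.Agent.Lib.MP_dd84fd_nt.BX.Gau
import Pool.Agent.Lib.MP_dd84fd_nt.BG.Van
import Pool.Agent.Lib.MP_dd84fd_nt.JX.PlLam
import Pool.Agent.Lib.MP_dd84fd_nt.En.Tot
import Pool.Agent.Lib.MP_dd84fd_nt.PL.QKer
import Pool.Agent.Lib.MP_dd84fd_nt.JX.JF1

/-!
# EF-Spread: the secondary terms outside the structured set

Write `av (dV q) T - [q ∈ QQi] av (dV q) (min r T)` as `(1/log 2) ∫_1^2 (du/u) ∑_a ∫_{x} VP² e(-nα)` over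
`|x| ≤ Tu/X` (`q ∉ QQi`) or `ru < X|x| ≤ Tu` (`q ∈ QQi`, `r < T`, `r = rdi q = X^(e/10) Λ bb / lcm(Λ,q)`: the
other term in the `min` is larger).  Sum over `n ∈ E`: `∑_n ph n e(-nα) = K(α)`.
(1) `∑_{a ∈ rr q} |K(a/q+x)| ≤ (q ∑_{a<q} |K(a/q+x)|²)^(1/2) = q (∑_c N_c²)^(1/2) ≤ q (#E max_c N_c)^(1/2)`,
`N_c = #{n ∈ E : n ≡ c mod q}`.
(2) `NoQ`: if `lcm(Λ,q) > X^(e/10) Λ` (i.e. `q ∉ QQi`; for `q > y3` because `lcm ≥ q > X^(1-th+3e)`): take `y = 1`:
`N_c ≤ ρ #E` (the class is `Thin X q 1`).  If `q ∈ QQi` and `X|x| > r`: take `y = X|x|` `≤ 2T`: the class splits in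
`≤ y + 1` intervals of length `X/y`: `N_c ≤ (2T+1) ρ #E`.
(3) `|VP|² ≤ #Y ∑_{ψ ∈ Y, ψ.1 ∣ q} (r_ψ/φ(q)²) |SX ψ x|²` (`|tq|² ≤ conductor`: BG.tqq_cond, BX.ind_cond), `|SX| ≤ X`,
`∑_{q ≤ X^16, r | q} q r/φ(q)² ≤ C L³` (`q/φ(q) ≤ C L`, `∑_k 1/k`).  Total `≤ #Y² X · 4T · C L³ ((2T+1) X^(-η))^(1/2) #E`.
-/

set_option autoImplicit false

namespace Pool.MP_dd84fd_nt.EF

open Finset Pool.MP_67663b_nt.Odd Pool.MP_dd84fd_nt.En Pool.MP_dd84fd_nt.E2 Pool.MP_dd84fd_nt.LS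
open Pool.MP_dd84fd_nt.GX Pool.MP_dd84fd_nt.HX Pool.MP_dd84fd_nt.IX
open Pool.MP_dd84fd_nt.PL (rr)
open Pool.MP_dd84fd_nt.JX (wP gP DecJ Adm AdmP Str)
open Pool.MP_dd84fd_nt.LX (FFL DecW PhU)
open Pool.MP_dd84fd_nt.LXP (tq)
open Pool.MP_dd84fd_nt.BX (PC pv IsPC PR SX sN prc ind Rm cf N2d DiscH)

/-! ### Classes -/

private theorem sp_class (X q : ℕ) (y ρ : ℝ) (E : Finset ℕ) (hE : E ⊆ Icc 1 X) (hX : 1 ≤ X)
    (hy : 1 ≤ y) (h : ∀ E' ⊆ E, Thin X q y E' → (E'.card : ℝ) ≤ ρ * E.card) (c : ZMod q) :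
    ((E.filter (fun n : ℕ => (n : ZMod q) = c)).card : ℝ) ≤ (y + 1) * (ρ * E.card) := by
  have hX0 : (0 : ℝ) < X := by exact_mod_cast hX
  have hy0 : 0 < y := by linarith
  set F := E.filter (fun n : ℕ => (n : ZMod q) = c) with hF
  have h1 : F.card = ∑ i ∈ range (⌊y⌋₊ + 1),
      (F.filter (fun n : ℕ => ⌊(n : ℝ) * y / X⌋₊ = i)).card := by
    refine Finset.card_eq_sum_card_fiberwise fun n hn => ?_
    rw [mem_coe] at hn
    rw [mem_coe, mem_range]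
    have h2 : n ≤ X := (mem_Icc.1 (hE (mem_filter.1 hn).1)).2
    have h3 : (n : ℝ) * y / X ≤ y := by
      rw [div_le_iff₀ hX0]
      have : (n : ℝ) ≤ X := by exact_mod_cast h2
      nlinarith
    exact Nat.lt_succ_of_le (Nat.floor_le_floor h3)
  have h2 : ∀ i ∈ range (⌊y⌋₊ + 1),
      ((F.filter (fun n : ℕ => ⌊(n : ℝ) * y / X⌋₊ = i)).card : ℝ) ≤ ρ * E.card := by
    intro i _
    refine h _ ((filter_subset _ _).trans (filter_subset _ _)) ?_
    intro n hn n' hn' hle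
    obtain ⟨a1, a2⟩ := mem_filter.1 hn
    obtain ⟨b1, b2⟩ := mem_filter.1 hn'
    have a3 := (mem_filter.1 a1).2
    have b3 := (mem_filter.1 b1).2
    refine ⟨?_, ?_⟩
    · have e1 : (n : ZMod q) = (n' : ZMod q) := a3.trans b3.symm
      rw [ZMod.natCast_eq_natCast_iff] at e1
      exact (Nat.modEq_iff_dvd' hle).1 e1
    · have e1 : (i : ℝ) ≤ (n : ℝ) * y / X := by
        rw [← a2]
        exact Nat.floor_le (by positivity)
      have e2 : (n' : ℝ) * y / X < (i : ℝ) + 1 := by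
        rw [← b2]
        exact Nat.lt_floor_add_one _
      have e3 : ((n' : ℝ) - n) * y / X < 1 := by
        have : ((n' : ℝ) - n) * y / X = (n' : ℝ) * y / X - (n : ℝ) * y / X := by ring
        linarith
      rw [div_lt_iff₀ hX0] at e3
      linarith
  have h3 : (F.card : ℝ) ≤ ((⌊y⌋₊ : ℝ) + 1) * (ρ * E.card) := by
    rw [h1]
    push_cast
    refine (Finset.sum_le_sum h2).trans ?_
    rw [Finset.sum_const, card_range, nsmul_eq_mul]
    push_cast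
    exact le_refl _
  have h4 : 0 ≤ ρ * (E.card : ℝ) := by
    have := h ∅ (empty_subset _) (fun n hn => absurd hn (notMem_empty n))
    simpa using this
  refine h3.trans (mul_le_mul_of_nonneg_right ?_ h4)
  have := Nat.floor_le hy0.le
  linarith

private theorem sp_val (q : ℕ) [NeZero q] (F : ℕ → ℝ) :
    ∑ a ∈ range q, F a = ∑ h : ZMod q, F h.val := by
  symm
  refine Finset.sum_nbij (fun h : ZMod q => h.val) ?_ ?_ ?_ ?_
  · intro h _
    exact mem_range.2 (ZMod.val_lt h)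
  · intro h _ h' _ e
    exact ZMod.val_injective q e
  · intro a ha
    rw [mem_coe, mem_range] at ha
    exact ⟨(a : ZMod q), by simp, ZMod.val_cast_of_lt ha⟩
  · intro h _
    rfl

private theorem sp_K (q : ℕ) [NeZero q] (E : Finset ℕ) (ph : ℕ → ℂ) (hph : ∀ n, ‖ph n‖ ≤ 1)
    (x M : ℝ) (hM : ∀ c : ZMod q, ((E.filter (fun n : ℕ => (n : ZMod q) = c)).card : ℝ) ≤ M) :
    ∑ a ∈ rr q, ‖∑ n ∈ E, ph n * ee (-((n : ℝ) * ((a : ℝ) / q + x)))‖ ≤
      q * Real.sqrt (M * E.card) := by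
  classical
  have hM0 : 0 ≤ M := (Nat.cast_nonneg _).trans (hM 0)
  set g : ℕ → ℂ := fun a => ∑ n ∈ E, ph n * ee (-((n : ℝ) * ((a : ℝ) / q + x))) with hgdef
  set f : ZMod q → ℂ := fun b =>
    ∑ n ∈ E.filter (fun n : ℕ => -(n : ZMod q) = b), ph n * ee (-((n : ℝ) * x)) with hfdef
  have hg : ∀ h : ZMod q, g h.val = ∑ b : ZMod q, f b * ZMod.stdAddChar (h * b) := by
    intro h
    have e1 : ∀ b ∈ (univ : Finset (ZMod q)), f b * ZMod.stdAddChar (h * b) =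
        ∑ n ∈ E.filter (fun n : ℕ => -(n : ZMod q) = b),
          ph n * ee (-((n : ℝ) * x)) * ZMod.stdAddChar (h * (-(n : ZMod q))) := by
      intro b _
      rw [hfdef]
      simp only
      rw [Finset.sum_mul]
      refine Finset.sum_congr rfl fun n hn => ?_
      rw [(mem_filter.1 hn).2]
    rw [Finset.sum_congr rfl e1, Finset.sum_fiberwise]
    refine Finset.sum_congr rfl fun n _ => ?_
    have e2 := PL.qker_std q (-(n : ℤ)) h
    have e3 : ZMod.stdAddChar (h * (-(n : ZMod q))) =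
        ee ((((-(n : ℤ) : ℤ)) : ℝ) * ((h.val : ℝ) / q)) := by
      rw [e2]
      congr 1
      push_cast
      ring
    rw [e3, mul_assoc, ← ee_add]
    congr 2
    push_cast
    ring
  have h1 : (∑ a ∈ rr q, ‖g a‖) ^ 2 ≤ (q : ℝ) * ∑ a ∈ range q, ‖g a‖ ^ 2 := by
    have e1 := sq_sum_le_card_mul_sum_sq (s := rr q) (f := fun a => ‖g a‖)
    have e2 : ((rr q).card : ℝ) ≤ q := by
      have : (rr q).card ≤ (range q).card := card_le_card (filter_subset _ _)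
      rw [card_range] at this
      exact_mod_cast this
    have e3 : ∑ a ∈ rr q, ‖g a‖ ^ 2 ≤ ∑ a ∈ range q, ‖g a‖ ^ 2 :=
      Finset.sum_le_sum_of_subset_of_nonneg (filter_subset _ _) fun a _ _ => by positivity
    have e4 : 0 ≤ ∑ a ∈ rr q, ‖g a‖ ^ 2 := Finset.sum_nonneg fun a _ => by positivity
    calc (∑ a ∈ rr q, ‖g a‖) ^ 2 ≤ ((rr q).card : ℝ) * ∑ a ∈ rr q, ‖g a‖ ^ 2 := e1
      _ ≤ (q : ℝ) * ∑ a ∈ rr q, ‖g a‖ ^ 2 := mul_le_mul_of_nonneg_right e2 e4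
      _ ≤ _ := mul_le_mul_of_nonneg_left e3 (Nat.cast_nonneg q)
  have h2 : ∑ a ∈ range q, ‖g a‖ ^ 2 ≤ (q : ℝ) * (M * E.card) := by
    rw [sp_val q (fun a => ‖g a‖ ^ 2)]
    have e1 : ∑ h : ZMod q, ‖g h.val‖ ^ 2 = (q : ℝ) * ∑ b : ZMod q, ‖f b‖ ^ 2 := by
      rw [← PL.qker_parseval q f]
      refine Finset.sum_congr rfl fun h _ => ?_
      rw [hg h]
    rw [e1]
    refine mul_le_mul_of_nonneg_left ?_ (Nat.cast_nonneg q)
    have e2 : ∀ b ∈ (univ : Finset (ZMod q)), ‖f b‖ ^ 2 ≤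
        M * ((E.filter (fun n : ℕ => -(n : ZMod q) = b)).card : ℝ) := by
      intro b _
      have e3 : ‖f b‖ ≤ ((E.filter (fun n : ℕ => -(n : ZMod q) = b)).card : ℝ) := by
        rw [hfdef]
        simp only
        refine (norm_sum_le _ _).trans ?_
        have e4 : ∀ n ∈ E.filter (fun n : ℕ => -(n : ZMod q) = b),
            ‖ph n * ee (-((n : ℝ) * x))‖ ≤ 1 := by
          intro n _
          rw [norm_mul, norm_ee, mul_one]
          exact hph n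
        refine (Finset.sum_le_sum e4).trans ?_
        rw [Finset.sum_const, nsmul_eq_mul, mul_one]
      have e5 : ((E.filter (fun n : ℕ => -(n : ZMod q) = b)).card : ℝ) ≤ M := by
        have := hM (-b)
        refine le_trans (le_of_eq ?_) this
        congr 2
        refine Finset.filter_congr fun n _ => ?_
        constructor
        · intro h; rw [← h, neg_neg]
        · intro h; rw [h, neg_neg]
      have e6 : (0 : ℝ) ≤ ((E.filter (fun n : ℕ => -(n : ZMod q) = b)).card : ℝ) :=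
        Nat.cast_nonneg _
      calc ‖f b‖ ^ 2 = ‖f b‖ * ‖f b‖ := by ring
        _ ≤ M * ((E.filter (fun n : ℕ => -(n : ZMod q) = b)).card : ℝ) :=
          mul_le_mul (e3.trans e5) e3 (norm_nonneg _) hM0
    refine (Finset.sum_le_sum e2).trans ?_
    rw [← Finset.mul_sum]
    refine mul_le_mul_of_nonneg_left ?_ hM0
    have e7 : E.card = ∑ b : ZMod q, (E.filter (fun n : ℕ => -(n : ZMod q) = b)).card :=
      Finset.card_eq_sum_card_fiberwise fun n _ => by simp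
    rw [e7]
    push_cast
    exact le_refl _
  have h3 : (∑ a ∈ rr q, ‖g a‖) ^ 2 ≤ ((q : ℝ) * Real.sqrt (M * E.card)) ^ 2 := by
    rw [mul_pow, Real.sq_sqrt (by positivity)]
    calc (∑ a ∈ rr q, ‖g a‖) ^ 2 ≤ (q : ℝ) * ((q : ℝ) * (M * E.card)) :=
          h1.trans (mul_le_mul_of_nonneg_left h2 (Nat.cast_nonneg q))
      _ = (q : ℝ) ^ 2 * (M * E.card) := by ring
  exact (abs_le_of_sq_le_sq' h3 (by positivity)).2


/-! ### The part of the characters -/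

private theorem sp_SX (X : ℕ) (ψ : PC) (x : ℝ) : ‖SX X ψ x‖ ≤ X := by
  unfold SX
  calc ‖∑ m ∈ Icc 1 X, ((wP X m : ℝ) : ℂ) * pv ψ m * ee ((m : ℝ) * x)‖
      ≤ ∑ m ∈ Icc 1 X, (1 : ℝ) := by
        refine norm_sum_le_of_le _ fun m _ => ?_
        rw [norm_mul, norm_mul, norm_ee, mul_one, Complex.norm_real, Real.norm_eq_abs,
          abs_of_nonneg (Pool.MP_dd84fd_nt.JX.wP_nonneg X m)]
        exact mul_le_one₀ (Pool.MP_dd84fd_nt.JX.wP_le_one X m) (norm_nonneg _)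
          (Pool.MP_dd84fd_nt.BX.pv_norm_le ψ m)
    _ = X := by simp

open Classical in
private theorem sp_VP (X : ℕ) (Y : Finset PC) (hY : ∀ ψ ∈ Y, IsPC ψ) (q a : ℕ) (hq : 1 ≤ q)
    (x : ℝ) : ‖VP X Y q a x‖ ^ 2 ≤ (X : ℝ) ^ 2 *
      ((Y.card : ℝ) * ∑ ψ ∈ Y.filter (fun ψ => ψ.1 ∣ q), (ψ.1 : ℝ)) / (Nat.totient q : ℝ) ^ 2 := by
  have hq0 : q ≠ 0 := by omega
  haveI : NeZero q := ⟨hq0⟩
  obtain ⟨F, hF⟩ : ∃ F : Finset PC, F = Y.filter (fun ψ => ψ.1 ∣ q) := ⟨_, rfl⟩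
  have hφ : (0 : ℝ) < (Nat.totient q : ℝ) := by exact_mod_cast Nat.totient_pos.2 hq
  have hX0 : (0 : ℝ) ≤ X := Nat.cast_nonneg X
  have h1 : ‖VP X Y q a x‖ ≤ (1 / (Nat.totient q : ℝ)) * ∑ ψ ∈ F, ‖tq q (ind q ψ)⁻¹‖ * X := by
    unfold VP
    rw [dif_neg hq0, norm_mul, norm_div, norm_one, Complex.norm_natCast, ← hF]
    refine mul_le_mul_of_nonneg_left ?_ (by positivity)
    refine norm_sum_le_of_le _ fun ψ _ => ?_
    rw [norm_mul, norm_mul]
    have e1 := DirichletCharacter.norm_le_one (ind q ψ) (a : ZMod q)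
    have e2 := sp_SX X ψ x
    calc ‖tq q (ind q ψ)⁻¹‖ * ‖(ind q ψ) (a : ZMod q)‖ * ‖SX X ψ x‖
        ≤ ‖tq q (ind q ψ)⁻¹‖ * 1 * X := by
          refine mul_le_mul (mul_le_mul_of_nonneg_left e1 (norm_nonneg _)) e2 (norm_nonneg _) ?_
          positivity
      _ = _ := by ring
  have h2 : (∑ ψ ∈ F, ‖tq q (ind q ψ)⁻¹‖ * (X : ℝ)) ^ 2 ≤
      (X : ℝ) ^ 2 * ((Y.card : ℝ) * ∑ ψ ∈ F, (ψ.1 : ℝ)) := by
    rw [← Finset.sum_mul, mul_pow, mul_comm]
    refine mul_le_mul_of_nonneg_left ?_ (by positivity)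
    have e1 := sq_sum_le_card_mul_sum_sq (s := F) (f := fun ψ => ‖tq q (ind q ψ)⁻¹‖)
    have e2 : ∑ ψ ∈ F, ‖tq q (ind q ψ)⁻¹‖ ^ 2 ≤ ∑ ψ ∈ F, (ψ.1 : ℝ) := by
      refine Finset.sum_le_sum fun ψ hψ => ?_
      rw [hF, mem_filter] at hψ
      have e3 := BG.tqq_cond q (ind q ψ)⁻¹
      rw [BG.tqq_eq, DirichletCharacter.conductor_inv,
        BX.ind_cond q hq ψ (hY ψ hψ.1) hψ.2] at e3
      exact e3
    have e4 : (F.card : ℝ) ≤ Y.card := by
      have : F.card ≤ Y.card := by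
        rw [hF]
        exact card_le_card (filter_subset _ _)
      exact_mod_cast this
    have e5 : 0 ≤ ∑ ψ ∈ F, ‖tq q (ind q ψ)⁻¹‖ ^ 2 := Finset.sum_nonneg fun ψ _ => by positivity
    calc (∑ ψ ∈ F, ‖tq q (ind q ψ)⁻¹‖) ^ 2
        ≤ (F.card : ℝ) * ∑ ψ ∈ F, ‖tq q (ind q ψ)⁻¹‖ ^ 2 := e1
      _ ≤ (Y.card : ℝ) * ∑ ψ ∈ F, (ψ.1 : ℝ) :=
        mul_le_mul e4 e2 e5 (Nat.cast_nonneg _)
  rw [← hF]
  calc ‖VP X Y q a x‖ ^ 2 ≤ ((1 / (Nat.totient q : ℝ)) * ∑ ψ ∈ F, ‖tq q (ind q ψ)⁻¹‖ * X) ^ 2 :=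
        pow_le_pow_left₀ (norm_nonneg _) h1 2
    _ = (∑ ψ ∈ F, ‖tq q (ind q ψ)⁻¹‖ * (X : ℝ)) ^ 2 / (Nat.totient q : ℝ) ^ 2 := by
        rw [mul_pow, one_div, inv_pow]
        ring
    _ ≤ _ := div_le_div_of_nonneg_right h2 (by positivity)

/-! ### Differences of discs -/

private theorem sp_diff (G : ℝ → ℂ) (hG : Continuous G) (v0 v1 : ℝ) :
    (∫ x in (-v1)..v1, G x) - (∫ x in (-v0)..v0, G x) =
      ∫ x in v0..v1, (G x + G (-x)) := by
  have h0 : ∀ a b : ℝ, IntervalIntegrable G MeasureTheory.volume a b :=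
    fun a b => hG.intervalIntegrable a b
  have hG' : Continuous fun x : ℝ => G (-x) := hG.comp continuous_neg
  rw [intervalIntegral.integral_add (h0 _ _) (hG'.intervalIntegrable _ _)]
  have h1 : ∫ x in v0..v1, G (-x) = ∫ x in (-v1)..(-v0), G x :=
    intervalIntegral.integral_comp_neg (fun x => G x)
  rw [h1]
  have h2 := intervalIntegral.integral_add_adjacent_intervals (h0 (-v1) (-v0)) (h0 (-v0) v0)
  have h3 := intervalIntegral.integral_add_adjacent_intervals (h0 (-v1) v0) (h0 v0 v1)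
  rw [← h3, ← h2]
  ring

private theorem sp_dV (X : ℕ) (hX : 1 ≤ X) (Y : Finset PC) (q : ℕ) [NeZero q] (E : Finset ℕ)
    (ph : ℕ → ℂ) (hph : ∀ n, ‖ph n‖ ≤ 1) (W M : ℝ)
    (hW : ∀ (a : ℕ) (x : ℝ), ‖VP X Y q a x‖ ^ 2 ≤ W)
    (hM : ∀ c : ZMod q, ((E.filter (fun n : ℕ => (n : ZMod q) = c)).card : ℝ) ≤ M) (v0 v1 : ℝ)
    (hv : v0 ≤ v1) :
    ‖∑ n ∈ E, ph n * dV X Y n q v1 - ∑ n ∈ E, ph n * dV X Y n q v0‖ ≤
      (v1 - v0) / X * (2 * (W * (q * Real.sqrt (M * E.card)))) := by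
  have hX0 : (0 : ℝ) < X := by exact_mod_cast hX
  have hW0 : 0 ≤ W := (by positivity : (0 : ℝ) ≤ ‖VP X Y q 0 0‖ ^ 2).trans (hW 0 0)
  set K : ℕ → ℝ → ℂ := fun a x => ∑ n ∈ E, ph n * ee (-((n : ℝ) * ((a : ℝ) / q + x))) with hK
  set G : ℕ → ℝ → ℂ := fun a x => VP X Y q a x ^ 2 * K a x with hGd
  have hKc : ∀ a, Continuous (K a) := fun a =>
    continuous_finsetSum _ fun n _ => continuous_const.mul (ee_cont.comp (by fun_prop))
  have hGc : ∀ a, Continuous (G a) := fun a => ((VP_cont X Y q a).pow 2).mul (hKc a)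
  have h1 : ∀ v : ℝ, ∑ n ∈ E, ph n * dV X Y n q v =
      ∑ a ∈ rr q, ∫ x in (-(v / X))..(v / X), G a x := by
    intro v
    unfold dV
    have e1 : ∀ a ∈ rr q, ∫ x in (-(v / X))..(v / X), G a x = ∑ n ∈ E, ph n *
        ∫ x in (-(v / X))..(v / X), VP X Y q a x ^ 2 * ee (-((n : ℝ) * ((a : ℝ) / q + x))) := by
      intro a _
      have e2 : ∀ x : ℝ, G a x = ∑ n ∈ E,
          ph n * (VP X Y q a x ^ 2 * ee (-((n : ℝ) * ((a : ℝ) / q + x)))) := by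
        intro x
        rw [hGd, hK]
        simp only
        rw [Finset.mul_sum]
        refine Finset.sum_congr rfl fun n _ => ?_
        ring
      simp only [e2]
      rw [intervalIntegral.integral_finsetSum]
      · refine Finset.sum_congr rfl fun n _ => ?_
        rw [intervalIntegral.integral_const_mul]
      · intro n _
        exact (continuous_const.mul (((VP_cont X Y q a).pow 2).mul
          (ee_cont.comp (by fun_prop)))).intervalIntegrable _ _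
    rw [Finset.sum_congr rfl e1, Finset.sum_comm]
    refine Finset.sum_congr rfl fun n _ => ?_
    rw [Finset.mul_sum]
  rw [h1, h1, ← Finset.sum_sub_distrib]
  have h2 : ∑ a ∈ rr q, ((∫ x in (-(v1 / X))..(v1 / X), G a x) -
      ∫ x in (-(v0 / X))..(v0 / X), G a x) =
      ∫ x in (v0 / X)..(v1 / X), ∑ a ∈ rr q, (G a x + G a (-x)) := by
    rw [intervalIntegral.integral_finsetSum]
    · refine Finset.sum_congr rfl fun a _ => ?_
      exact sp_diff (G a) (hGc a) _ _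
    · intro a _
      exact ((hGc a).add ((hGc a).comp continuous_neg)).intervalIntegrable _ _
  rw [h2]
  have h3 : ∀ x : ℝ, ∑ a ∈ rr q, ‖G a x‖ ≤ W * (q * Real.sqrt (M * E.card)) := by
    intro x
    have e1 : ∀ a ∈ rr q, ‖G a x‖ ≤ W * ‖K a x‖ := by
      intro a _
      rw [hGd]
      simp only
      rw [norm_mul, norm_pow]
      exact mul_le_mul_of_nonneg_right (hW a x) (norm_nonneg _)
    refine (Finset.sum_le_sum e1).trans ?_
    rw [← Finset.mul_sum]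
    exact mul_le_mul_of_nonneg_left (sp_K q E ph hph x M hM) hW0
  have h4 := intervalIntegral.norm_integral_le_of_norm_le_const
    (a := v0 / (X : ℝ)) (b := v1 / X) (C := 2 * (W * (q * Real.sqrt (M * E.card))))
    (f := fun x : ℝ => ∑ a ∈ rr q, (G a x + G a (-x))) (by
      intro x _
      refine (norm_sum_le _ _).trans ?_
      have e1 : ∀ a ∈ rr q, ‖G a x + G a (-x)‖ ≤ ‖G a x‖ + ‖G a (-x)‖ :=
        fun a _ => norm_add_le _ _
      refine (Finset.sum_le_sum e1).trans ?_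
      rw [Finset.sum_add_distrib]
      have := h3 x
      have := h3 (-x)
      linarith)
  refine h4.trans (le_of_eq ?_)
  have h5 : v1 / (X : ℝ) - v0 / X = (v1 - v0) / X := by ring
  have h6 : 0 ≤ (v1 - v0) / (X : ℝ) := div_nonneg (by linarith) hX0.le
  rw [h5, abs_of_nonneg h6]
  ring

/-! ### Sums over the denominators -/

private theorem sp_tot (Z q : ℕ) (hq : 1 ≤ q) (hqX : q ≤ Z) (hX : 1 ≤ Real.log Z) :
    1 / (Nat.totient q : ℝ) ≤ 4 * Real.log Z * (1 / q) := by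
  have h1 := totient_ge q hq
  have h2 : 1 + Real.logb 2 q ≤ 4 * Real.log Z := by
    have h1 : Real.logb 2 q = Real.log q / Real.log 2 := rfl
    have h2 : Real.log q ≤ Real.log Z :=
      Real.log_le_log (by exact_mod_cast hq) (by exact_mod_cast hqX)
    have h3 : (0.5 : ℝ) < Real.log 2 := by have := Real.log_two_gt_d9; linarith
    have h4 : 0 ≤ Real.log q := Real.log_natCast_nonneg q
    have h5 : Real.log q / Real.log 2 ≤ 2 * Real.log q := by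
      rw [div_le_iff₀ (by linarith)]
      nlinarith
    rw [h1]
    linarith
  have h3 : (0 : ℝ) < Nat.totient q := by exact_mod_cast Nat.totient_pos.2 hq
  have h4 : (0 : ℝ) < q := by exact_mod_cast hq
  rw [mul_one_div, div_le_div_iff₀ h3 h4]
  nlinarith

private theorem sp_sum (Z r : ℕ) (hr : 1 ≤ r) (hZ : 1 ≤ Real.log Z) (QQ : Finset ℕ)
    (hQ : ∀ q ∈ QQ, 1 ≤ q ∧ q ≤ Z ∧ r ∣ q) :
    ∑ q ∈ QQ, (r : ℝ) * q / (Nat.totient q : ℝ) ^ 2 ≤ 32 * (Real.log Z) ^ 3 := by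
  have hr0 : (0 : ℝ) < r := by exact_mod_cast hr
  have h1 : ∀ q ∈ QQ, (r : ℝ) * q / (Nat.totient q : ℝ) ^ 2 ≤
      16 * Real.log Z ^ 2 * (1 / ((q / r : ℕ) : ℝ)) := by
    intro q hq
    obtain ⟨a1, a2, a3⟩ := hQ q hq
    have b1 := sp_tot Z q a1 a2 hZ
    have hq0 : (0 : ℝ) < q := by exact_mod_cast a1
    have b2 : ((q / r : ℕ) : ℝ) = (q : ℝ) / r := Nat.cast_div a3 hr0.ne'
    have b3 : 0 ≤ 1 / (Nat.totient q : ℝ) := by positivity
    rw [b2]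
    calc (r : ℝ) * q / (Nat.totient q : ℝ) ^ 2 = r * q * (1 / (Nat.totient q : ℝ)) ^ 2 := by
          rw [one_div, inv_pow]
          ring
      _ ≤ r * q * (4 * Real.log Z * (1 / q)) ^ 2 :=
        mul_le_mul_of_nonneg_left (pow_le_pow_left₀ b3 b1 2) (by positivity)
      _ = _ := by field_simp; ring
  refine (Finset.sum_le_sum h1).trans ?_
  rw [← Finset.mul_sum]
  have hinj : Set.InjOn (fun q => q / r) (QQ : Set ℕ) := by
    intro q hq q' hq' h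
    have c1 := (hQ q hq).2.2
    have c2 := (hQ q' hq').2.2
    simp only at h
    rw [← Nat.mul_div_cancel' c1, ← Nat.mul_div_cancel' c2, h]
  have h2 : ∑ q ∈ QQ, 1 / ((q / r : ℕ) : ℝ) = ∑ m ∈ QQ.image (fun q => q / r), 1 / (m : ℝ) := by
    rw [Finset.sum_image hinj]
  rw [h2]
  have h3 := JXP.lamj_harm Z (QQ.image (fun q => q / r)) (by
    intro m hm
    obtain ⟨q, hq, rfl⟩ := Finset.mem_image.1 hm
    obtain ⟨a1, a2, a3⟩ := hQ q hq
    exact ⟨Nat.div_pos (Nat.le_of_dvd (by omega) a3) hr, (Nat.div_le_self _ _).trans a2⟩)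
  have h4 : 0 ≤ 16 * Real.log Z ^ 2 := by positivity
  calc 16 * Real.log Z ^ 2 * ∑ m ∈ QQ.image (fun q => q / r), 1 / (m : ℝ)
      ≤ 16 * Real.log Z ^ 2 * (1 + Real.log Z) := mul_le_mul_of_nonneg_left h3 h4
    _ ≤ 16 * Real.log Z ^ 2 * (2 * Real.log Z) :=
        mul_le_mul_of_nonneg_left (by linarith) h4
    _ = _ := by ring

open Classical in
private theorem sp_sumY (Z : ℕ) (hZ : 1 ≤ Real.log Z) (Y : Finset PC) (hY : ∀ ψ ∈ Y, IsPC ψ) :
    ∑ q ∈ Icc 1 Z, (q : ℝ) * (∑ ψ ∈ Y.filter (fun ψ => ψ.1 ∣ q), (ψ.1 : ℝ)) /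
      (Nat.totient q : ℝ) ^ 2 ≤ (Y.card : ℝ) * (32 * (Real.log Z) ^ 3) := by
  have h1 : ∀ q ∈ Icc 1 Z, (q : ℝ) * (∑ ψ ∈ Y.filter (fun ψ => ψ.1 ∣ q), (ψ.1 : ℝ)) /
      (Nat.totient q : ℝ) ^ 2 = ∑ ψ ∈ Y, if ψ.1 ∣ q then
        (ψ.1 : ℝ) * q / (Nat.totient q : ℝ) ^ 2 else 0 := by
    intro q _
    rw [Finset.sum_filter, Finset.mul_sum, Finset.sum_div]
    refine Finset.sum_congr rfl fun ψ _ => ?_
    split_ifs
    · ring
    · simp
  rw [Finset.sum_congr rfl h1, Finset.sum_comm]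
  have h2 : ∀ ψ ∈ Y, ∑ q ∈ Icc 1 Z, (if ψ.1 ∣ q then
      (ψ.1 : ℝ) * q / (Nat.totient q : ℝ) ^ 2 else 0) ≤ 32 * (Real.log Z) ^ 3 := by
    intro ψ hψ
    rw [← Finset.sum_filter]
    refine sp_sum Z ψ.1 (hY ψ hψ).1 hZ _ fun q hq => ?_
    rw [mem_filter, mem_Icc] at hq
    exact ⟨hq.1.1, hq.1.2, hq.2⟩
  refine (Finset.sum_le_sum h2).trans ?_
  rw [Finset.sum_const, nsmul_eq_mul]

/-! ### `NoQ` -/

open Classical in
private theorem sp_M (th e : ℝ) (he : 0 < e) (X : ℕ) (hX : 1 ≤ X) (Λ : ℕ) (bb T ρ : ℝ)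
    (hΛ : 1 ≤ Λ) (hb : 1 ≤ bb) (hT : 1 ≤ T) (hΛb : (Λ : ℝ) * bb ≤ (X : ℝ) ^ (1 - th + e))
    (E : Finset ℕ) (hE : E ⊆ Icc 1 X) (hN : NoQ e X Λ bb E ρ) (q : ℕ) (hq : 1 ≤ q) :
    (if q ∈ QQi th e X Λ then min (rdi th e X Λ bb q) T else 0) = T ∨
      ∀ c : ZMod q, ((E.filter (fun n : ℕ => (n : ZMod q) = c)).card : ℝ) ≤
        (T + 1) * (ρ * E.card) := by
  have hX1 : (1 : ℝ) ≤ X := by exact_mod_cast hX
  have hX0 : (0 : ℝ) < X := by linarith
  have hΛ0 : (1 : ℝ) ≤ Λ := by exact_mod_cast hΛ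
  have hq0 : (1 : ℝ) ≤ q := by exact_mod_cast hq
  have hl : q ≤ Nat.lcm Λ q := Nat.le_of_dvd (Nat.lcm_pos (by omega) (by omega))
    (Nat.dvd_lcm_right _ _)
  have hl' : (q : ℝ) ≤ (Nat.lcm Λ q : ℝ) := by exact_mod_cast hl
  have hl0 : (0 : ℝ) < (Nat.lcm Λ q : ℝ) := by linarith
  have hρ : 0 ≤ ρ * (E.card : ℝ) := by
    have h1 : (X : ℝ) ^ (e / 10) * Λ * bb < (Nat.lcm Λ q : ℝ) *
        max bb ((X : ℝ) ^ (e / 10) * Λ * bb + 1) := by
      have e1 : 0 ≤ (X : ℝ) ^ (e / 10) * Λ * bb := by positivity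
      have e2 : (X : ℝ) ^ (e / 10) * Λ * bb + 1 ≤ max bb ((X : ℝ) ^ (e / 10) * Λ * bb + 1) :=
        le_max_right _ _
      nlinarith
    have h2 := hN q _ hq (by
      have e1 : 0 ≤ (X : ℝ) ^ (e / 10) * Λ * bb := by positivity
      linarith) h1 ∅ (empty_subset _) (fun n hn => absurd hn (notMem_empty n))
    simpa using h2
  have hp : (X : ℝ) ^ (e / 10) * (Λ * bb) ≤ (X : ℝ) ^ (1 - th + 3 * e) := by
    calc (X : ℝ) ^ (e / 10) * (Λ * bb) ≤ (X : ℝ) ^ (e / 10) * (X : ℝ) ^ (1 - th + e) :=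
          mul_le_mul_of_nonneg_left hΛb (by positivity)
      _ = (X : ℝ) ^ (e / 10 + (1 - th + e)) := (Real.rpow_add hX0 _ _).symm
      _ ≤ _ := Real.rpow_le_rpow_of_exponent_le hX1 (by linarith)
  -- the two applications of `NoQ`
  have hA : ∀ y : ℝ, 1 ≤ y → y ≤ T →
      (X : ℝ) ^ (e / 10) * Λ * bb < (Nat.lcm Λ q : ℝ) * max bb y →
      ∀ c : ZMod q, ((E.filter (fun n : ℕ => (n : ZMod q) = c)).card : ℝ) ≤
        (T + 1) * (ρ * E.card) := by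
    intro y hy hyT hlt c
    refine (sp_class X q y ρ E hE hX hy (hN q y hq hy hlt) c).trans ?_
    exact mul_le_mul_of_nonneg_right (by linarith) hρ
  by_cases hQ : q ∈ QQi th e X Λ
  · rw [if_pos hQ]
    by_cases hr : T ≤ rdi th e X Λ bb q
    · left
      exact min_eq_right hr
    · right
      have hr' : rdi th e X Λ bb q < T := not_le.1 hr
      have h1 : rdi th e X Λ bb q = (X : ℝ) ^ (e / 10) * Λ * bb / (Nat.lcm Λ q : ℝ) := by
        unfold rdi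
        refine min_eq_left ?_
        rw [y3_dl, div_le_div_iff₀ hl0 (by linarith)]
        have e1 : (X : ℝ) ^ (e / 10) * Λ * bb = (X : ℝ) ^ (e / 10) * (Λ * bb) := by ring
        rw [e1]
        have e2 : 0 ≤ (X : ℝ) ^ (e / 10) * (Λ * bb) := by positivity
        exact mul_le_mul hp hl' (by linarith) (by positivity)
      rw [h1, div_lt_iff₀ hl0] at hr'
      refine hA T hT le_rfl (hr'.trans_le ?_)
      rw [mul_comm]
      exact mul_le_mul_of_nonneg_left (le_max_right _ _) hl0.le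
  · right
    refine hA 1 le_rfl hT ?_
    rw [max_eq_left hb]
    by_cases hq3 : q ≤ ⌊y3 (dl th e) X⌋₊
    · have h1 : ¬ (Nat.lcm Λ q : ℝ) ≤ (X : ℝ) ^ (e / 10) * Λ := by
        intro h
        apply hQ
        unfold QQi
        rw [mem_filter, mem_Icc]
        exact ⟨⟨hq, hq3⟩, h⟩
      have h2 := not_le.1 h1
      exact mul_lt_mul_of_pos_right h2 (by linarith)
    · have h1 : y3 (dl th e) X < q := Nat.lt_of_floor_lt (not_le.1 hq3)
      rw [y3_dl] at h1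
      calc (X : ℝ) ^ (e / 10) * Λ * bb = (X : ℝ) ^ (e / 10) * (Λ * bb) := by ring
        _ ≤ (X : ℝ) ^ (1 - th + 3 * e) := hp
        _ < q := h1
        _ ≤ (Nat.lcm Λ q : ℝ) := hl'
        _ ≤ (Nat.lcm Λ q : ℝ) * bb := by nlinarith

private theorem sp_av0 (X : ℕ) (Y : Finset PC) (n q : ℕ) : av (dV X Y n q) 0 = 0 := by
  unfold av dV
  simp

private theorem sp_log_pow_le (δ : ℝ) (hδ : 0 < δ) (C : ℝ) (k : ℕ) :
    ∀ᶠ X : ℕ in Filter.atTop, C * Real.log X ^ k ≤ (X : ℝ) ^ δ := by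
  have h := isLittleO_log_rpow_rpow_atTop (k : ℝ) hδ
  have h2 : (fun x : ℝ => C * Real.log x ^ (k : ℝ)) =o[Filter.atTop] (fun x : ℝ => x ^ δ) :=
    h.const_mul_left C
  have h3 := (h2.bound (one_pos)).and (Filter.eventually_ge_atTop (1 : ℝ))
  have h4 := (tendsto_natCast_atTop_atTop (R := ℝ)).eventually h3
  filter_upwards [h4] with X hX
  obtain ⟨hX1, hX2⟩ := hX
  rw [Real.norm_eq_abs, Real.norm_eq_abs, one_mul, abs_of_nonneg (a := (X : ℝ) ^ δ) (by positivity),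
    Real.rpow_natCast] at hX1
  exact le_trans (le_abs_self _) hX1

theorem spreadF : SpreadF := by
  classical
  intro C B A th e τ η hA hη
  have he : 0 < e := hA.2.2.1
  obtain ⟨X1, hX1⟩ := Filter.eventually_atTop.1
    (sp_log_pow_le (η / 2) (by linarith) 1048576 (2 * B + 2 * C + 3 + A))
  obtain ⟨X2, hX2⟩ := E2.MP_log_large 1
  refine ⟨max (max X1 X2) 1, fun X hX Y hY hYc T hT hTB Λ bb hΛ hb hΛb E hE hN ph hph => ?_⟩
  have hXn : 1 ≤ X := (le_max_right _ _).trans hX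
  have hbig := hX1 X ((le_max_left _ _).trans ((le_max_left _ _).trans hX))
  have hL1 := hX2 X ((le_max_right _ _).trans ((le_max_left _ _).trans hX))
  have hX0 : (0 : ℝ) < X := by exact_mod_cast hXn
  obtain ⟨L, hL⟩ : ∃ L, L = Real.log X := ⟨_, rfl⟩
  rw [← hL] at hbig hL1 hYc hTB ⊢
  have hL0 : 0 < L := by linarith
  have hlogZ : Real.log ((ZE X : ℕ) : ℝ) = 16 * L := by
    unfold ZE
    rw [Nat.cast_pow, Real.log_pow, hL]
    norm_num
  have hZ1 : 1 ≤ Real.log ((ZE X : ℕ) : ℝ) := by rw [hlogZ]; linarith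
  obtain ⟨ρ, hρ⟩ : ∃ ρ : ℝ, ρ = (X : ℝ) ^ (-η) := ⟨_, rfl⟩
  rw [← hρ] at hN
  have hρ0 : 0 < ρ := by rw [hρ]; positivity
  obtain ⟨r, hr⟩ : ∃ r : ℕ → ℝ, r = fun q =>
    (if q ∈ QQi th e X Λ then min (rdi th e X Λ bb q) T else 0) := ⟨_, rfl⟩
  have hr0 : ∀ q, 0 ≤ r q ∧ r q ≤ T := by
    intro q
    rw [hr]
    simp only
    split_ifs
    · refine ⟨le_min ?_ (by linarith), min_le_right _ _⟩
      unfold rdi
      refine le_min (by positivity) ?_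
      rw [y3_dl]
      positivity
    · exact ⟨le_rfl, by linarith⟩
  obtain ⟨M, hM⟩ : ∃ M : ℝ, M = (T + 1) * (ρ * E.card) := ⟨_, rfl⟩
  obtain ⟨S, hS⟩ : ∃ S : ℕ → ℝ, S = fun q =>
    ∑ ψ ∈ Y.filter (fun ψ => ψ.1 ∣ q), (ψ.1 : ℝ) := ⟨_, rfl⟩
  -- the two sums
  have e1 : ∑ n ∈ E, ph n * PsiF X Y T th e Λ bb n =
      ∑ i ∈ E ×ˢ Icc 1 (ZE X), av (fun s => ph i.1 * dV X Y i.1 i.2 s) T -
      ∑ i ∈ E ×ˢ Icc 1 (ZE X), av (fun s => ph i.1 * dV X Y i.1 i.2 s) (r i.2) := by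
    rw [← Finset.sum_sub_distrib, Finset.sum_product]
    refine Finset.sum_congr rfl fun n _ => ?_
    unfold PsiF
    rw [Finset.mul_sum]
    refine Finset.sum_congr rfl fun q _ => ?_
    rw [av_const_mul, av_const_mul, ← mul_sub]
    congr 2
    rw [hr]
    simp only
    split_ifs
    · rfl
    · exact (sp_av0 X Y n q).symm
  rw [e1]
  refine sum_av_sub_le (E ×ˢ Icc 1 (ZE X)) (E ×ˢ Icc 1 (ZE X))
    (fun i s => ph i.1 * dV X Y i.1 i.2 s) (fun i s => ph i.1 * dV X Y i.1 i.2 s) (fun _ => T)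
    (fun i => r i.2) (fun i _ => continuous_const.mul (dV_cont X Y i.1 i.2))
    (fun i _ => continuous_const.mul (dV_cont X Y i.1 i.2)) _ (fun u hu1 hu2 => ?_)
  show ‖∑ i ∈ E ×ˢ Icc 1 (ZE X), ph i.1 * dV X Y i.1 i.2 (T * u) -
      ∑ i ∈ E ×ˢ Icc 1 (ZE X), ph i.1 * dV X Y i.1 i.2 (r i.2 * u)‖ ≤ X / L ^ A * E.card
  -- one denominator
  have h1 : ∀ q ∈ Icc 1 (ZE X),
      ‖∑ n ∈ E, ph n * dV X Y n q (T * u) - ∑ n ∈ E, ph n * dV X Y n q (r q * u)‖ ≤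
      4 * T * X * Y.card * Real.sqrt (M * E.card) *
        ((q : ℝ) * S q / (Nat.totient q : ℝ) ^ 2) := by
    intro q hq
    have hq1 : 1 ≤ q := (mem_Icc.1 hq).1
    have : NeZero q := ⟨by omega⟩
    have hφ : (0 : ℝ) < (Nat.totient q : ℝ) := by exact_mod_cast Nat.totient_pos.2 hq1
    have hS0 : 0 ≤ S q := by
      rw [hS]
      exact Finset.sum_nonneg fun ψ _ => Nat.cast_nonneg _
    rcases sp_M th e he X hXn Λ bb T ρ hΛ hb hT hΛb E hE hN q hq1 with h | h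
    · have h' : r q = T := by
        rw [hr]
        exact h
      rw [h', sub_self, norm_zero]
      positivity
    · rw [← hM] at h
      have h2 := sp_dV X hXn Y q E ph hph _ M
        (fun a x => sp_VP X Y hY q a hq1 x) h (r q * u) (T * u)
        (mul_le_mul_of_nonneg_right (hr0 q).2 (by linarith))
      refine h2.trans ?_
      have h3 : (T * u - r q * u) / (X : ℝ) ≤ 2 * T / X := by
        refine div_le_div_of_nonneg_right ?_ hX0.le
        have := mul_nonneg (hr0 q).1 (by linarith : 0 ≤ u)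
        nlinarith
      have h4 : S q = ∑ ψ ∈ Y.filter (fun ψ => ψ.1 ∣ q), (ψ.1 : ℝ) := by rw [hS]
      rw [← h4]
      refine (mul_le_mul_of_nonneg_right h3 (by positivity)).trans (le_of_eq ?_)
      field_simp
      ring
  have h2 : ∑ i ∈ E ×ˢ Icc 1 (ZE X), ph i.1 * dV X Y i.1 i.2 (T * u) -
      ∑ i ∈ E ×ˢ Icc 1 (ZE X), ph i.1 * dV X Y i.1 i.2 (r i.2 * u) =
      ∑ q ∈ Icc 1 (ZE X), (∑ n ∈ E, ph n * dV X Y n q (T * u) -
        ∑ n ∈ E, ph n * dV X Y n q (r q * u)) := by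
    rw [Finset.sum_product_right, Finset.sum_product_right, ← Finset.sum_sub_distrib]
  rw [h2]
  refine (norm_sum_le _ _).trans ((Finset.sum_le_sum h1).trans ?_)
  rw [← Finset.mul_sum]
  have h3 : ∑ q ∈ Icc 1 (ZE X), (q : ℝ) * S q / (Nat.totient q : ℝ) ^ 2 ≤
      (Y.card : ℝ) * (32 * (16 * L) ^ 3) := by
    rw [← hlogZ, hS]
    exact sp_sumY (ZE X) hZ1 Y hY
  have hE0 : (0 : ℝ) ≤ E.card := Nat.cast_nonneg _
  have hY0 : (0 : ℝ) ≤ Y.card := Nat.cast_nonneg _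
  have h4 : Real.sqrt (M * E.card) ≤ 2 * T * (X : ℝ) ^ (-(η / 2)) * E.card := by
    rw [hM]
    refine Real.sqrt_le_iff.2 ⟨by positivity, ?_⟩
    have e2 : ((X : ℝ) ^ (-(η / 2))) ^ 2 = ρ := by
      rw [hρ, ← Real.rpow_natCast, ← Real.rpow_mul hX0.le]
      congr 1
      push_cast
      ring
    rw [mul_pow, mul_pow, e2]
    have e3 : T + 1 ≤ (2 * T) ^ 2 := by nlinarith
    calc (T + 1) * (ρ * E.card) * E.card = (T + 1) * (ρ * E.card ^ 2) := by ring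
      _ ≤ (2 * T) ^ 2 * (ρ * E.card ^ 2) := mul_le_mul_of_nonneg_right e3 (by positivity)
      _ = _ := by ring
  have hT0 : 0 < T := by linarith
  have hP0 : 0 < (X : ℝ) ^ (-(η / 2)) := by positivity
  calc 4 * T * X * Y.card * Real.sqrt (M * E.card) *
        ∑ q ∈ Icc 1 (ZE X), (q : ℝ) * S q / (Nat.totient q : ℝ) ^ 2
      ≤ 4 * T * X * Y.card * (2 * T * (X : ℝ) ^ (-(η / 2)) * E.card) *
        ((Y.card : ℝ) * (32 * (16 * L) ^ 3)) := by
        refine mul_le_mul ?_ h3 ?_ (by positivity)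
        · exact mul_le_mul_of_nonneg_left h4 (by positivity)
        · refine Finset.sum_nonneg fun q _ => ?_
          have : 0 ≤ S q := by
            rw [hS]
            exact Finset.sum_nonneg fun ψ _ => Nat.cast_nonneg _
          positivity
    _ = 1048576 * (T ^ 2 * (Y.card : ℝ) ^ 2 * L ^ 3) * (X : ℝ) ^ (-(η / 2)) * (X * E.card) := by
        ring
    _ ≤ 1048576 * ((L ^ B) ^ 2 * (L ^ C) ^ 2 * L ^ 3) * (X : ℝ) ^ (-(η / 2)) * (X * E.card) := by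
        gcongr
    _ ≤ 1 / L ^ A * (X * E.card) := by
        refine mul_le_mul_of_nonneg_right ?_ (by positivity)
        rw [Real.rpow_neg hX0.le, ← div_eq_mul_inv, div_le_div_iff₀ (by positivity) (by positivity)]
        calc 1048576 * ((L ^ B) ^ 2 * (L ^ C) ^ 2 * L ^ 3) * L ^ A =
            1048576 * L ^ (2 * B + 2 * C + 3 + A) := by ring
          _ ≤ (X : ℝ) ^ (η / 2) := hbig
          _ = 1 * (X : ℝ) ^ (η / 2) := (one_mul _).symm
    _ = X / L ^ A * E.card := by ring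

end Pool.MP_dd84fd_nt.EF
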