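import Pool.Agent.Lib.MP_dd84fd_nt.EF.Tree
import Pool.Agent.Lib.MP_dd84fd_nt.EF.Spread
import Pool.Agent.Lib.MP_dd84fd_nt.LX.FaFin
import Pool.Agent.Lib.MP_dd84fd_nt.JX.GStrW

/-!
# EF-Gen: the exceptional set

As `DX.plug_e` (DX/PgGen.lean), `StrWJ` = `JX.strWJ_all` (or its name), `G = X^10`, `U = tr c1`, `ww2 + s2 gg2 f = v + err`.
Weights: `Ω Λ bb j = (1/log 2) ∫_1^2 wSI G th e X Λ (bb u) j du/u`: norm `≤ 1`; if `Ω Λ bb j ≠ 0` then
`wSI Λ bb j ≠ 0` (`SSI Λ bb ⇒ SSI Λ (bb u)` for `u ≥ 1`; the set of `u` is measurable: finite union over `d ∈ Apd`).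
`PhU` is linear in the weights: `PhU (Ω) n = (1/log 2) ∫_1^2 PhU (wSI (bb u)) n du/u`, and
`PhU (1 - wSI (bb u)) n = ∑_q dsc (rdi (bb u)) + O(1)` (`LX.phU_discs`), `rdi (bb u) q = rdi bb q * u`.
`Ex` = the `n ∈ Icc 1 X` with `∀ Λ bb (admissible), X/L^A1 < ‖PhU (Ω) n‖ + ‖PsiF n‖`: `treeF` with `spreadF` (`η = etaF e`).
Outside `Ex` there are `Λ, bb` with both `≤ X/L^A1`.
-/

set_option autoImplicit false

namespace Pool.MP_dd84fd_nt.EF

open Finset Pool.MP_67663b_nt.Odd Pool.MP_dd84fd_nt.En Pool.MP_dd84fd_nt.E2 Pool.MP_dd84fd_nt.LS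
open Pool.MP_dd84fd_nt.GX Pool.MP_dd84fd_nt.HX Pool.MP_dd84fd_nt.IX
open Pool.MP_dd84fd_nt.PL (rr)
open Pool.MP_dd84fd_nt.JX (wP gP DecJ Adm AdmP Str)
open Pool.MP_dd84fd_nt.LX (FFL DecW PhU)
open Pool.MP_dd84fd_nt.LXP (tq)
open Pool.MP_dd84fd_nt.BX (PC pv IsPC PR SX sN prc ind Rm cf N2d DiscH)

/-! ### The averaged weights -/

/-- the averaged weights -/
private noncomputable def Om (G : ℕ) (th e : ℝ) (X Λ : ℕ) (bb : ℝ) (j : ZMod G) : ℂ :=
  av (fun s => wSI G th e X Λ s j) bb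

private theorem gen_wSI_le (G : ℕ) (th e : ℝ) (X Λ : ℕ) (bb : ℝ) (j : ZMod G) :
    ‖wSI G th e X Λ bb j‖ ≤ 1 := by
  unfold wSI
  split_ifs <;> simp

private theorem gen_mono (th e : ℝ) (X Λ : ℕ) (bb u α : ℝ) (hb : 0 ≤ bb) (hu : 1 ≤ u)
    (h : SSI th e X Λ bb α) : SSI th e X Λ (bb * u) α := by
  obtain ⟨d, hd, h1⟩ := h
  refine ⟨d, hd, ?_⟩
  have hu0 : 0 ≤ u := by linarith
  have hh : 0 ≤ HX.hd X α d / d := by
    have : 0 ≤ HX.hd X α d := le_max_of_le_left (Nat.cast_nonneg _)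
    positivity
  have h2 : max (bb * u) (HX.hd X α d / d) ≤ max bb (HX.hd X α d / d) * u := by
    refine max_le ?_ ?_
    · exact mul_le_mul_of_nonneg_right (le_max_left _ _) hu0
    · calc HX.hd X α d / d ≤ max bb (HX.hd X α d / d) := le_max_right _ _
        _ ≤ max bb (HX.hd X α d / d) * u :=
          le_mul_of_one_le_right (le_max_of_le_left hb) hu
  calc (Nat.lcm Λ d : ℝ) * max (bb * u) (HX.hd X α d / d)
      ≤ (Nat.lcm Λ d : ℝ) * (max bb (HX.hd X α d / d) * u) :=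
        mul_le_mul_of_nonneg_left h2 (Nat.cast_nonneg _)
    _ = ((Nat.lcm Λ d : ℝ) * max bb (HX.hd X α d / d)) * u := by ring
    _ ≤ ((X : ℝ) ^ (e / 10) * Λ * bb) * u := mul_le_mul_of_nonneg_right h1 hu0
    _ = (X : ℝ) ^ (e / 10) * Λ * (bb * u) := by ring

private theorem om_norm (G : ℕ) (th e : ℝ) (X Λ : ℕ) (bb : ℝ) (j : ZMod G) :
    ‖Om G th e X Λ bb j‖ ≤ 1 :=
  norm_av_le _ _ 1 fun _ _ _ => gen_wSI_le G th e X Λ _ j

private theorem om_supp (G : ℕ) (th e : ℝ) (X Λ : ℕ) (bb : ℝ) (hb : 0 ≤ bb) (j : ZMod G)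
    (h : Om G th e X Λ bb j ≠ 0) : wSI G th e X Λ bb j ≠ 0 := by
  intro h0
  apply h
  have hS : SSI th e X Λ bb (al G j) := by
    by_contra hc
    unfold wSI at h0
    rw [if_neg hc] at h0
    exact one_ne_zero h0
  have h1 : ‖Om G th e X Λ bb j‖ ≤ 0 := by
    refine norm_av_le _ _ 0 fun u hu _ => ?_
    have h2 := gen_mono th e X Λ bb u (al G j) hb hu hS
    unfold wSI
    rw [if_pos h2, norm_zero]
  exact norm_eq_zero.1 (le_antisymm h1 (norm_nonneg _))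

private theorem gen_meas (th e : ℝ) (X Λ : ℕ) (bb α : ℝ) :
    MeasurableSet {u : ℝ | SSI th e X Λ (bb * u) α} := by
  have h1 : {u : ℝ | SSI th e X Λ (bb * u) α} = ⋃ d ∈ Apd (dl th e) X α,
      {u : ℝ | (Nat.lcm Λ d : ℝ) * max (bb * u) (HX.hd X α d / d) ≤
        (X : ℝ) ^ (e / 10) * Λ * (bb * u)} := by
    ext u
    simp only [Set.mem_iUnion, SSI]
    constructor
    · rintro ⟨d, h2, h3⟩
      exact ⟨d, h2, h3⟩
    · rintro ⟨d, h2, h3⟩
      exact ⟨d, h2, h3⟩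
  rw [h1]
  refine Finset.measurableSet_biUnion _ fun d _ => ?_
  refine (isClosed_le ?_ ?_).measurableSet
  · exact continuous_const.mul ((continuous_const.mul continuous_id).max continuous_const)
  · exact continuous_const.mul (continuous_const.mul continuous_id)

private theorem one_div_int : IntervalIntegrable (fun u : ℝ => 1 / u) MeasureTheory.volume 1 2 := by
  apply ContinuousOn.intervalIntegrable
  refine ContinuousOn.div continuousOn_const continuousOn_id ?_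
  intro u hu
  rw [Set.uIcc_of_le (by norm_num : (1 : ℝ) ≤ 2)] at hu
  have := hu.1
  intro h
  have h' : u = 0 := h
  linarith

private theorem one_div_intC :
    IntervalIntegrable (fun u : ℝ => ((1 / u : ℝ) : ℂ)) MeasureTheory.volume 1 2 := by
  apply ContinuousOn.intervalIntegrable
  refine Complex.continuous_ofReal.comp_continuousOn ?_
  refine ContinuousOn.div continuousOn_const continuousOn_id ?_
  intro u hu
  rw [Set.uIcc_of_le (by norm_num : (1 : ℝ) ≤ 2)] at hu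
  have := hu.1
  intro h
  have h' : u = 0 := h
  linarith

private theorem gen_int (G : ℕ) (th e : ℝ) (X Λ : ℕ) (bb : ℝ) (j : ZMod G) :
    IntervalIntegrable (fun u : ℝ => wSI G th e X Λ (bb * u) j * ((1 / u : ℝ) : ℂ))
      MeasureTheory.volume 1 2 := by
  refine one_div_int.mono_fun' ?_ ?_
  · refine (Measurable.mul ?_ ?_).aestronglyMeasurable
    · unfold wSI
      exact Measurable.ite (gen_meas th e X Λ bb (al G j)) measurable_const measurable_const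
    · exact Complex.measurable_ofReal.comp (measurable_const.div measurable_id)
  · rw [Filter.EventuallyLE, MeasureTheory.ae_restrict_iff' measurableSet_uIoc]
    refine Filter.Eventually.of_forall fun u hu => ?_
    rw [Set.uIoc_of_le (by norm_num : (1 : ℝ) ≤ 2)] at hu
    have hu0 : 0 < u := lt_trans (by norm_num) hu.1
    show ‖wSI G th e X Λ (bb * u) j * ((1 / u : ℝ) : ℂ)‖ ≤ 1 / u
    rw [norm_mul, Complex.norm_real, Real.norm_eq_abs, abs_of_pos (by positivity)]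
    calc ‖wSI G th e X Λ (bb * u) j‖ * (1 / u) ≤ 1 * (1 / u) :=
          mul_le_mul_of_nonneg_right (gen_wSI_le G th e X Λ _ j) (by positivity)
      _ = 1 / u := one_mul _

private theorem log2_int : ((1 / Real.log 2 : ℝ) : ℂ) * ∫ u in (1 : ℝ)..2, ((1 / u : ℝ) : ℂ) = 1 := by
  rw [intervalIntegral.integral_ofReal, integral_one_div_of_pos (by norm_num) (by norm_num),
    ← Complex.ofReal_mul]
  have hl : 0 < Real.log 2 := Real.log_pos (by norm_num)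
  have h1 : 1 / Real.log 2 * Real.log (2 / 1) = 1 := by
    rw [div_one]
    field_simp
  rw [h1, Complex.ofReal_one]

/-- the complementary part is an average -/
private theorem phU_av (G : ℕ) [NeZero G] (th e : ℝ) (X Λ n : ℕ) (bb : ℝ) (U : ZMod G → ℂ)
    (v : ℕ → ℝ) :
    IntervalIntegrable (fun u : ℝ => PhU G X U v (fun j => 1 - wSI G th e X Λ (bb * u) j) n *
      ((1 / u : ℝ) : ℂ)) MeasureTheory.volume 1 2 ∧
    PhU G X U v (fun _ => 1) n = PhU G X U v (Om G th e X Λ bb) n +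
      ((1 / Real.log 2 : ℝ) : ℂ) * ∫ u in (1 : ℝ)..2,
        PhU G X U v (fun j => 1 - wSI G th e X Λ (bb * u) j) n * ((1 / u : ℝ) : ℂ) := by
  obtain ⟨c, hc⟩ : ∃ c : ZMod G → ℂ, c = fun j => (1 / (G : ℂ)) *
    (U j * tr G X v j * ZMod.stdAddChar (-((n : ZMod G) * j))) := ⟨_, rfl⟩
  have hP : ∀ ω : ZMod G → ℂ, PhU G X U v ω n = ∑ j : ZMod G, c j * ω j := by
    intro ω
    unfold PhU
    rw [mul_sum]
    refine sum_congr rfl fun j _ => ?_
    rw [hc]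
    ring
  have h1i : IntervalIntegrable (fun u : ℝ => ((1 / u : ℝ) : ℂ)) MeasureTheory.volume 1 2 :=
    one_div_intC
  have hj : ∀ j : ZMod G, IntervalIntegrable (fun u : ℝ => c j *
      ((1 - wSI G th e X Λ (bb * u) j) * ((1 / u : ℝ) : ℂ))) MeasureTheory.volume 1 2 := by
    intro j
    have h2 := (h1i.sub (gen_int G th e X Λ bb j)).const_mul (c j)
    refine h2.congr ?_
    intro u _
    show c j * (((1 / u : ℝ) : ℂ) - wSI G th e X Λ (bb * u) j * ((1 / u : ℝ) : ℂ)) = _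
    ring
  have hf : ∀ u : ℝ, PhU G X U v (fun j => 1 - wSI G th e X Λ (bb * u) j) n * ((1 / u : ℝ) : ℂ) =
      ∑ j : ZMod G, c j * ((1 - wSI G th e X Λ (bb * u) j) * ((1 / u : ℝ) : ℂ)) := by
    intro u
    rw [hP, sum_mul]
    exact sum_congr rfl fun j _ => by ring
  refine ⟨?_, ?_⟩
  · simp only [hf]
    have h5 := IntervalIntegrable.sum Finset.univ fun j (_ : j ∈ Finset.univ) => hj j
    refine h5.congr ?_
    intro u _
    exact Finset.sum_apply _ _ _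
  · simp only [hf]
    rw [intervalIntegral.integral_finsetSum fun j _ => hj j, mul_sum, hP, hP, ← sum_add_distrib]
    refine sum_congr rfl fun j _ => ?_
    rw [intervalIntegral.integral_const_mul]
    have h3 : ∫ u in (1 : ℝ)..2, (1 - wSI G th e X Λ (bb * u) j) * ((1 / u : ℝ) : ℂ) =
        (∫ u in (1 : ℝ)..2, ((1 / u : ℝ) : ℂ)) -
          ∫ u in (1 : ℝ)..2, wSI G th e X Λ (bb * u) j * ((1 / u : ℝ) : ℂ) := by
      rw [← intervalIntegral.integral_sub h1i (gen_int G th e X Λ bb j)]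
      refine intervalIntegral.integral_congr fun u _ => ?_
      show (1 - wSI G th e X Λ (bb * u) j) * ((1 / u : ℝ) : ℂ) =
        ((1 / u : ℝ) : ℂ) - wSI G th e X Λ (bb * u) j * ((1 / u : ℝ) : ℂ)
      ring
    rw [h3]
    have h4 := log2_int
    unfold Om av
    calc c j * 1 = c j * (((1 / Real.log 2 : ℝ) : ℂ) * ∫ u in (1 : ℝ)..2, ((1 / u : ℝ) : ℂ)) := by
          rw [h4]
      _ = _ := by ring

private theorem gen_log (A : ℕ) : ∃ X0 : ℕ, ∀ X : ℕ, X0 ≤ X → (Real.log (X : ℝ)) ^ A ≤ X := by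
  have h3 : ∀ᶠ x : ℝ in Filter.atTop, (Real.log x) ^ A ≤ x := by
    have h4 := (Real.isLittleO_pow_log_id_atTop (n := A)).bound one_pos
    filter_upwards [h4, Filter.eventually_ge_atTop 1] with x hx hx1
    rw [one_mul, Real.norm_eq_abs, Real.norm_eq_abs, id, abs_of_pos (by linarith : 0 < x)] at hx
    exact (le_abs_self _).trans hx
  exact Filter.eventually_atTop.1 ((tendsto_natCast_atTop_atTop (R := ℝ)).eventually h3)

/-- the radius is linear in `bb` -/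
private theorem gen_rdi (th e τ : ℝ) (hA : Adm th e τ) : ∃ X0 : ℕ, ∀ X : ℕ, X0 ≤ X →
    ∀ (Λ : ℕ) (bb : ℝ), 1 ≤ Λ → 1 ≤ bb → (Λ : ℝ) * bb ≤ (X : ℝ) ^ (1 - th + e) →
    ∀ q : ℕ, 1 ≤ q → ∀ u : ℝ, 1 ≤ u → u ≤ 2 →
      rdi th e X Λ (bb * u) q = rdi th e X Λ bb q * u := by
  obtain ⟨he, _⟩ : 0 < e ∧ True := ⟨hA.2.2.1, trivial⟩
  have hev : ∀ᶠ x : ℕ in Filter.atTop, (2 : ℝ) ≤ (x : ℝ) ^ e :=
    ((tendsto_rpow_atTop he).comp tendsto_natCast_atTop_atTop).eventually_ge_atTop 2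
  obtain ⟨X1, hX1⟩ := Filter.eventually_atTop.1 hev
  refine ⟨max X1 1, fun X hX Λ bb hΛ hb hlb q hq u hu1 hu2 => ?_⟩
  have hXe : (2 : ℝ) ≤ (X : ℝ) ^ e := hX1 X (by omega)
  have hX0 : (0 : ℝ) < X := by exact_mod_cast (by omega : 0 < X)
  have hX11 : (1 : ℝ) ≤ X := by exact_mod_cast (by omega : 1 ≤ X)
  have hq0 : (0 : ℝ) < q := by exact_mod_cast hq
  have hlcm : (q : ℝ) ≤ (Nat.lcm Λ q : ℝ) := by
    exact_mod_cast Nat.le_of_dvd (Nat.lcm_pos (by omega) (by omega)) (Nat.dvd_lcm_right Λ q)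
  have hl0 : (0 : ℝ) < (Nat.lcm Λ q : ℝ) := lt_of_lt_of_le hq0 hlcm
  have key : ∀ t : ℝ, 0 ≤ t → t ≤ 2 → (X : ℝ) ^ (e / 10) * Λ * (bb * t) / (Nat.lcm Λ q : ℝ) ≤
      y3 (dl th e) X / q := by
    intro t ht0 ht2
    have h1 : (X : ℝ) ^ (e / 10) * Λ * (bb * t) ≤ y3 (dl th e) X := by
      rw [y3_dl]
      have h2 : (X : ℝ) ^ (e / 10) ≤ (X : ℝ) ^ e :=
        Real.rpow_le_rpow_of_exponent_le hX11 (by linarith)
      have h3 : 0 ≤ (Λ : ℝ) * bb := by positivity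
      calc (X : ℝ) ^ (e / 10) * Λ * (bb * t) = (X : ℝ) ^ (e / 10) * (Λ * bb) * t := by ring
        _ ≤ (X : ℝ) ^ e * (X : ℝ) ^ (1 - th + e) * 2 := by
            refine mul_le_mul ?_ ht2 ht0 (by positivity)
            exact mul_le_mul h2 hlb h3 (by positivity)
        _ ≤ (X : ℝ) ^ e * (X : ℝ) ^ (1 - th + e) * (X : ℝ) ^ e :=
            mul_le_mul_of_nonneg_left hXe (by positivity)
        _ = (X : ℝ) ^ (1 - th + 3 * e) := by
            rw [← Real.rpow_add hX0, ← Real.rpow_add hX0]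
            congr 1
            ring
    have hy : 0 ≤ y3 (dl th e) X := by
      rw [y3_dl]
      positivity
    calc (X : ℝ) ^ (e / 10) * Λ * (bb * t) / (Nat.lcm Λ q : ℝ) ≤ y3 (dl th e) X / (Nat.lcm Λ q : ℝ) :=
          div_le_div_of_nonneg_right h1 hl0.le
      _ ≤ y3 (dl th e) X / q := div_le_div_of_nonneg_left hy hq0 hlcm
  have k1 := key u (by linarith) hu2
  have k2 := key 1 (by norm_num) (by norm_num)
  rw [mul_one] at k2
  unfold rdi
  rw [min_eq_left k1, min_eq_left k2]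
  ring

/-- the average of the discs -/
private theorem gen_avdisc (F : ℝ → ℂ) (hF : Continuous F) (X : ℕ) (S : Finset ℕ) (r : ℕ → ℝ) :
    IntervalIntegrable (fun u : ℝ => (∑ q ∈ S, dsc F X q (r q * u)) * ((1 / u : ℝ) : ℂ))
      MeasureTheory.volume 1 2 ∧
    ∑ q ∈ S, av (dsc F X q) (r q) = ((1 / Real.log 2 : ℝ) : ℂ) *
      ∫ u in (1 : ℝ)..2, (∑ q ∈ S, dsc F X q (r q * u)) * ((1 / u : ℝ) : ℂ) := by
  have hq : ∀ q ∈ S, IntervalIntegrable (fun u : ℝ => dsc F X q (r q * u) * ((1 / u : ℝ) : ℂ))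
      MeasureTheory.volume 1 2 := by
    intro q _
    have h1 : Continuous fun u : ℝ => dsc F X q (r q * u) :=
      (dsc_cont F hF X q).comp (continuous_const.mul continuous_id)
    exact one_div_intC.continuousOn_mul h1.continuousOn
  have hs : ∀ u : ℝ, (∑ q ∈ S, dsc F X q (r q * u)) * ((1 / u : ℝ) : ℂ) =
      ∑ q ∈ S, dsc F X q (r q * u) * ((1 / u : ℝ) : ℂ) := fun u => sum_mul _ _ _
  refine ⟨?_, ?_⟩
  · simp only [hs]
    have h5 := IntervalIntegrable.sum S hq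
    refine h5.congr ?_
    intro u _
    exact Finset.sum_apply _ _ _
  · simp only [hs]
    rw [intervalIntegral.integral_finsetSum hq, mul_sum]
    rfl

theorem genF (hT : TreeF) (hS : SpreadF) : GenF := by
  classical
  intro A
  obtain ⟨A1, hA1⟩ : ∃ A1 : ℕ, A1 = A + 2 := ⟨_, rfl⟩
  obtain ⟨Bs, hs⟩ := Pool.MP_dd84fd_nt.JX.strWJ (2 * A1 + 6)
  refine ⟨Bs, fun K0 C1 C2 th e τ hA ww1 gg1 ww2 gg2 hW1 hW2 hDec D' hD' C Bt => ?_⟩
  obtain ⟨Cs, hs⟩ := hs K0 C1 C2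
  have he : 0 < e := hA.2.2.1
  have hη : 0 < etaF e := by
    unfold etaF
    positivity
  obtain ⟨Xt, hXt⟩ := hT A1 Cs 4 th e τ hA
  obtain ⟨Xp, hXp⟩ := hS C Bt (A1 + 1) th e τ (etaF e) hA hη
  obtain ⟨Xs, hXs⟩ := hs th e τ hA ww2 gg2 hW2 hDec D' hD'
  obtain ⟨Xa, hXa⟩ := Pool.MP_dd84fd_nt.LX.phU_discs K0 C1 ww1 gg1 ww2 gg2 hW1 hW2 th e τ hA D'
  obtain ⟨Xv, hXv⟩ := Pool.MP_dd84fd_nt.LX.vbh_cf K0 C1 ww1 gg1 hW1 D'
  obtain ⟨Xr, hXr⟩ := gen_rdi th e τ hA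
  obtain ⟨Xl, hXl⟩ := MP_log_large 4
  obtain ⟨Xm, hXm⟩ := gen_log A1
  refine ⟨max (max (max Xt Xs) (max Xp Xa)) (max (max Xv Xr) (max Xl (max Xm 2))),
    fun X hX s1 s2 hs1 hs2 Y hYp hYc T hT1 hT2 => ?_⟩
  simp only [max_le_iff] at hX
  obtain ⟨⟨⟨g3, g4⟩, g5, g8⟩, ⟨g12, g9⟩, g16, g17, g18⟩ := hX
  have hXt := hXt X g3
  have hXs := hXs X g4
  have hXp := hXp X g5
  have hXa := hXa X g8
  have hXv := hXv X g12
  have hXr := hXr X g9
  have hL := hXl X g16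
  have hLm := hXm X g17
  obtain ⟨w, hw⟩ : ∃ w : ℕ, w = wX D' X := ⟨_, rfl⟩
  rw [← hw] at hXs hXa hXv ⊢
  set L : ℝ := Real.log (X : ℝ) with hLd
  have hX11 : (1 : ℝ) ≤ X := by exact_mod_cast (by omega : 1 ≤ X)
  have hX0 : (0 : ℝ) < X := by linarith
  have hL0 : 0 < L := by linarith
  -- the modulus
  obtain ⟨G, hGe⟩ : ∃ G : ℕ, G = X ^ 10 := ⟨_, rfl⟩
  have hGz : NeZero G := ⟨by rw [hGe]; positivity⟩
  have hG3 : 3 * X ≤ G := by
    rw [hGe]
    have h1 : 2 ^ 9 ≤ X ^ 9 := Nat.pow_le_pow_left g18 9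
    calc 3 * X ≤ X ^ 9 * X := Nat.mul_le_mul_right X (by omega)
      _ = X ^ 10 := by ring
  have hG5 : X ^ 5 ≤ G := by
    rw [hGe]
    exact Nat.pow_le_pow_right (by omega) (by norm_num)
  have hXG : X < G := by omega
  obtain ⟨v, err, hv, hve, herr⟩ := hXs s2 hs2
  have hvb := hXv s1 hs1 G hG3
  obtain ⟨c1, hc1⟩ : ∃ c1 : ℕ → ℝ, c1 = cfI ww1 gg1 s1 w X := ⟨_, rfl⟩
  obtain ⟨c2, hc2⟩ : ∃ c2 : ℕ → ℝ, c2 = cfI ww2 gg2 s2 w X := ⟨_, rfl⟩
  rw [← hc1] at hvb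
  obtain ⟨U, hU⟩ : ∃ U : ZMod G → ℂ, U = tr G X c1 := ⟨_, rfl⟩
  rw [← hU] at hvb
  -- the averaged weights, cut off for `bb < 0`
  obtain ⟨Ω, hΩ⟩ : ∃ Ω : ℕ → ℝ → ZMod G → ℂ, Ω = fun Λ bb j =>
    if 0 ≤ bb then Om G th e X Λ bb j else 0 := ⟨_, rfl⟩
  have hΩn : ∀ Λ bb j, ‖Ω Λ bb j‖ ≤ 1 := by
    intro Λ bb j
    rw [hΩ]
    dsimp only
    split_ifs
    · exact om_norm G th e X Λ bb j
    · simp
  have hΩs : ∀ Λ bb j, Ω Λ bb j ≠ 0 → wSI G th e X Λ bb j ≠ 0 := by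
    intro Λ bb j h
    rw [hΩ] at h
    dsimp only at h
    split_ifs at h with hb
    · exact om_supp G th e X Λ bb hb j h
    · exact absurd rfl h
  have hΩe : ∀ Λ bb, 1 ≤ bb → Ω Λ bb = Om G th e X Λ bb := by
    intro Λ bb hb
    funext j
    rw [hΩ]
    dsimp only
    rw [if_pos (by linarith)]
  obtain ⟨Ex, hEx⟩ : ∃ Ex : Finset ℕ, Ex = (Icc 1 X).filter (fun n => ∀ (Λ : ℕ) (bb : ℝ),
      1 ≤ Λ → 1 ≤ bb → (Λ : ℝ) * bb ≤ (X : ℝ) ^ (1 - th + e) →
      (X : ℝ) / L ^ A1 < ‖PhU G X U v (Ω Λ bb) n‖ + ‖PsiF X Y T th e Λ bb n‖) := ⟨_, rfl⟩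
  refine ⟨Ex, ?_, ?_⟩
  · refine hXt G hG5 U hvb v hv Ω hΩn hΩs (fun Λ bb n => PsiF X Y T th e Λ bb n) ?_ Ex ?_ ?_
    · intro Λ bb hΛ hbb hΛb E hE hNoQ ph hph
      exact hXp Y hYp hYc T hT1 hT2 Λ bb hΛ hbb hΛb E hE hNoQ ph hph
    · rw [hEx]
      exact Finset.filter_subset _ _
    · intro n hn Λ bb h1 h2 h3
      rw [hEx, Finset.mem_filter] at hn
      exact hn.2 Λ bb h1 h2 h3
  · intro n hn1 hn2 hnEx
    have hn0 : 1 ≤ n := by omega
    have hex : ∃ (Λ : ℕ) (bb : ℝ), 1 ≤ Λ ∧ 1 ≤ bb ∧ (Λ : ℝ) * bb ≤ (X : ℝ) ^ (1 - th + e) ∧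
        ‖PhU G X U v (Ω Λ bb) n‖ + ‖PsiF X Y T th e Λ bb n‖ ≤ (X : ℝ) / L ^ A1 := by
      by_contra hcc
      apply hnEx
      rw [hEx, Finset.mem_filter]
      refine ⟨Finset.mem_Icc.2 ⟨hn0, hn2⟩, fun Λ bb h1 h2 h3 => ?_⟩
      by_contra h4
      exact hcc ⟨Λ, bb, h1, h2, h3, not_lt.1 h4⟩
    obtain ⟨Λ, bb, hΛ, hbb, hΛb, hsmall⟩ := hex
    rw [hΩe Λ bb hbb] at hsmall
    have hAA : (X : ℝ) / L ^ A1 * 4 ≤ X / L ^ A := by
      have h8 : L ^ A1 = L ^ 2 * L ^ A := by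
        rw [hA1]
        ring
      rw [h8, div_mul_eq_mul_div, div_le_div_iff₀ (by positivity) (by positivity)]
      have h9 : 4 ≤ L ^ 2 := by nlinarith
      have h10 : 0 ≤ X * L ^ A := by positivity
      calc (X : ℝ) * 4 * L ^ A = 4 * (X * L ^ A) := by ring
        _ ≤ L ^ 2 * (X * L ^ A) := mul_le_mul_of_nonneg_right h9 h10
        _ = X * (L ^ 2 * L ^ A) := by ring
    have hXA0 : 0 ≤ (X : ℝ) / L ^ A1 := by positivity
    refine ⟨Λ, bb, hΛ, hbb, hΛb, ?_, ?_⟩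
    swap
    · have := norm_nonneg (PhU G X U v (Om G th e X Λ bb) n)
      linarith
    obtain ⟨F, hF⟩ : ∃ F : ℝ → ℂ, F = FFL ww1 gg1 s1 ww2 gg2 s2 w X n := ⟨_, rfl⟩
    have hFc : Continuous F := by
      rw [hF]
      exact Pool.MP_dd84fd_nt.LX.ffl_cont ww1 gg1 ww2 gg2 s1 s2 w X n
    rw [← hF]
    obtain ⟨i1, hone⟩ := phU_av G th e X Λ n bb U c2
    obtain ⟨i2, hdsc⟩ := gen_avdisc F hFc X (QQi th e X Λ) (rdi th e X Λ bb)
    have hadd := Pool.MP_dd84fd_nt.LX.phU_add G X n U c2 v err (Om G th e X Λ bb) (fun m hm => by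
      rw [← hve m hm, hc2]
      rfl)
    have hco := Pool.MP_dd84fd_nt.LX.phU_co G X (by omega) c1 c2 n hn2
    rw [← hU] at hco
    -- the error part
    have hcau := Pool.MP_dd84fd_nt.LX.phU_cauchy G X U err (Om G th e X Λ bb)
      (fun j => om_norm G th e X Λ bb j) n
    have hE : nm2 G (tr G X err) ≤ X / L ^ (2 * A1 + 6) := by
      unfold nm2
      rw [parseval G X hXG]
      exact herr
    have hE0 : 0 ≤ nm2 G (tr G X err) := by
      unfold nm2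
      positivity
    have hVe : ‖PhU G X U err (Om G th e X Λ bb) n‖ ≤ X / L ^ A1 := by
      have h1 : ‖PhU G X U err (Om G th e X Λ bb) n‖ ^ 2 ≤ (X / L ^ (A1 + 1)) ^ 2 := by
        calc ‖PhU G X U err (Om G th e X Λ bb) n‖ ^ 2 ≤ nm2 G U * nm2 G (tr G X err) := hcau
          _ ≤ (X * L ^ 4) * (X / L ^ (2 * A1 + 6)) := mul_le_mul hvb.1 hE hE0 (by positivity)
          _ = (X / L ^ (A1 + 1)) ^ 2 := by
              have h2 : L ^ (2 * A1 + 6) = L ^ 4 * (L ^ (A1 + 1)) ^ 2 := by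
                rw [← pow_mul, ← pow_add]
                congr 1
                ring
              rw [h2]
              field_simp
      have h3 : ‖PhU G X U err (Om G th e X Λ bb) n‖ ≤ X / L ^ (A1 + 1) :=
        (sq_le_sq₀ (norm_nonneg _) (by positivity)).1 h1
      refine h3.trans ?_
      exact div_le_div_of_nonneg_left hX0.le (by positivity)
        (pow_le_pow_right₀ (by linarith) (by omega))
    have hE1 : 1 ≤ X / L ^ A1 := by
      rw [le_div_iff₀ (by positivity), one_mul]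
      exact hLm
    -- the discs
    have hdiff : ‖((1 / Real.log 2 : ℝ) : ℂ) * (∫ u in (1 : ℝ)..2,
          PhU G X U c2 (fun j => 1 - wSI G th e X Λ (bb * u) j) n * ((1 / u : ℝ) : ℂ)) -
        ∑ q ∈ QQi th e X Λ, av (dsc F X q) (rdi th e X Λ bb q)‖ ≤ 1 := by
      rw [hdsc, ← mul_sub, ← intervalIntegral.integral_sub i1 i2]
      have h1 := norm_av_le (fun u => PhU G X U c2 (fun j => 1 - wSI G th e X Λ (bb * u) j) n -
        ∑ q ∈ QQi th e X Λ, dsc F X q (rdi th e X Λ bb q * u)) 1 1 (by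
          intro u hu1 hu2
          rw [one_mul]
          have hlb : (Λ : ℝ) * (bb * u) ≤ 2 * (X : ℝ) ^ (1 - th + e) := by
            have h3 : 0 ≤ (Λ : ℝ) * bb := by positivity
            calc (Λ : ℝ) * (bb * u) = (Λ * bb) * u := by ring
              _ ≤ (X : ℝ) ^ (1 - th + e) * 2 := mul_le_mul hΛb hu2 (by linarith) (by positivity)
              _ = _ := by ring
          have hph := hXa s1 s2 hs1 hs2 Λ (bb * u) hΛ (by nlinarith) hlb G (by rw [hGe]) n hn2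
          rw [← hF, ← hc1, ← hc2, ← hU] at hph
          have h4 : ∑ q ∈ QQi th e X Λ, dsc F X q (rdi th e X Λ (bb * u) q) =
              ∑ q ∈ QQi th e X Λ, dsc F X q (rdi th e X Λ bb q * u) := by
            refine sum_congr rfl fun q hq => ?_
            have hq1 : 1 ≤ q := by
              unfold QQi at hq
              rw [Finset.mem_filter, Finset.mem_Icc] at hq
              exact hq.1.1
            rw [hXr Λ bb hΛ hbb hΛb q hq1 u hu1 hu2]
          rw [← h4]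
          exact hph)
      unfold av at h1
      refine le_trans (le_of_eq ?_) h1
      congr 2
      refine intervalIntegral.integral_congr fun u _ => ?_
      simp only [one_mul]
      ring
    have hcv : cvv (fun m => ww1 X m + s1 * fI gg1 X w m) (fun m => ww2 X m + s2 * fI gg2 X w m) n =
        cvv c1 c2 n := by rw [hc1, hc2]; rfl
    rw [hcv, ← hco, hone, hadd]
    have e1 : PhU G X U v (Om G th e X Λ bb) n + PhU G X U err (Om G th e X Λ bb) n +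
        ((1 / Real.log 2 : ℝ) : ℂ) * (∫ u in (1 : ℝ)..2,
          PhU G X U c2 (fun j => 1 - wSI G th e X Λ (bb * u) j) n * ((1 / u : ℝ) : ℂ)) -
        ∑ q ∈ QQi th e X Λ, av (dsc F X q) (rdi th e X Λ bb q) =
        PhU G X U v (Om G th e X Λ bb) n + PhU G X U err (Om G th e X Λ bb) n +
        (((1 / Real.log 2 : ℝ) : ℂ) * (∫ u in (1 : ℝ)..2,
          PhU G X U c2 (fun j => 1 - wSI G th e X Λ (bb * u) j) n * ((1 / u : ℝ) : ℂ)) -
        ∑ q ∈ QQi th e X Λ, av (dsc F X q) (rdi th e X Λ bb q)) := by ring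
    rw [e1]
    refine (norm_add_le _ _).trans ?_
    have h7 := norm_add_le (PhU G X U v (Om G th e X Λ bb) n) (PhU G X U err (Om G th e X Λ bb) n)
    have h8 := norm_nonneg (PsiF X Y T th e Λ bb n)
    linarith

end Pool.MP_dd84fd_nt.EF
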