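import Pool.Agent.Lib.MP_dd84fd_nt.EF.MainR

/-!
# EF-Last: one constant for all clauses
-/

set_option autoImplicit false

namespace Pool.MP_dd84fd_nt.EF

open Finset Pool.MP_67663b_nt.Odd Pool.MP_dd84fd_nt.En Pool.MP_dd84fd_nt.E2 Pool.MP_dd84fd_nt.LS
open Pool.MP_dd84fd_nt.GX Pool.MP_dd84fd_nt.HX Pool.MP_dd84fd_nt.IX
open Pool.MP_dd84fd_nt.BX (PC pv IsPC PR SX sN prc ind Rm cf GauBD h0 cP)

private theorem div_mono (C C' : ℕ) (h : C ≤ C') (δ : ℝ) (hδ : 0 < δ) (hδ1 : δ ≤ 1) :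
    (C : ℝ) / δ ^ C ≤ C' / δ ^ C' := by
  have h1 : (C : ℝ) ≤ C' := by exact_mod_cast h
  exact div_le_div₀ (Nat.cast_nonneg _) h1 (by positivity)
    (pow_le_pow_of_le_one hδ.le hδ1 h)

private theorem fnC_mono {θ ε : ℝ} {C C' B M K X : ℕ} (h : C ≤ C') {δ : ℝ} (hδ : 0 < δ)
    {Y : Finset PC} (hF : FnC θ ε C B M K X δ Y) : FnC θ ε C' B M K X δ Y := by
  have h1 : (C : ℝ) ≤ C' := by exact_mod_cast h
  obtain ⟨f1, f2, f3, f4⟩ := hF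
  refine ⟨f1.trans (div_le_div_of_nonneg_right h1 (by positivity)), f2, fun ψ₁ h₁ ψ₂ h₂ n hn => ?_,
    f4⟩
  obtain ⟨s1, s2, s3⟩ := f3 ψ₁ h₁ ψ₂ h₂ n hn
  refine ⟨s1, s2.trans ?_, s3.trans (mul_le_mul_of_nonneg_right h1 (by positivity))⟩
  have e2 : 0 ≤ (n : ℝ) / (Nat.totient n : ℝ) := by positivity
  have e3 : 0 ≤ ((Nat.lcm ψ₁.1 ψ₂.1 / Nat.gcd (Nat.lcm ψ₁.1 ψ₂.1) n : ℕ) : ℝ) ^
    (-(1 / 4 : ℝ)) := by positivity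
  exact mul_le_mul_of_nonneg_right (mul_le_mul_of_nonneg_right h1 e2) e3

private theorem coD_mono {θ ε : ℝ} {C C' N K X : ℕ} (h : C ≤ C') {δ : ℝ} (hδ : 0 < δ)
    (hδ1 : δ ≤ 1) {Y : Finset PC} {D : Finset ℕ} (hF : CoD θ ε C N K X δ Y D) :
    CoD θ ε C' N K X δ Y D := by
  obtain ⟨f1, f2, f3⟩ := hF
  refine ⟨f1.trans (div_mono C C' h δ hδ hδ1), fun d hd => ?_, f3⟩
  obtain ⟨a, b, ψ, hψ, k, c1, c2⟩ := f2 d hd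
  exact ⟨a, b, ψ, hψ, k, c1, c2.trans (div_le_div_of_nonneg_left (Nat.cast_nonneg _)
    (by positivity) (pow_le_pow_of_le_one hδ.le hδ1 h))⟩

open Classical in
/-- all clauses with one constant `C` -/
theorem last (θ ε : ℝ) (h1 : 1 / 3 ≤ θ) (h2 : θ ≤ 1) (hε : 0 < ε) : ∃ C : ℕ,
    (∀ A K : ℕ, ∃ X0 : ℕ, ∀ X : ℕ, X0 ≤ X → ∀ δ : ℝ, 1 / Real.log X ^ A ≤ δ → δ ≤ 1 →
      (((Icc 1 X).filter (fun n => ∃ W : ℕ, n + W ≤ X ∧ C / δ ^ C + W / Real.log X ^ K <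
        (((Icc n (n + W)).filter (fun m : ℕ => Even m ∧
          δ * (SS m * JJ m) < |(g m : ℝ) - SS m * JJ m|)).card : ℝ))).card : ℝ) ≤
            (X : ℝ) ^ (θ + ε) ∧
      ∀ n W : ℕ, 1 ≤ n → n + W ≤ X → (X : ℝ) ^ (θ + ε) ≤ W →
        (((Icc n (n + W)).filter (fun m : ℕ => Even m ∧
          δ * (SS m * JJ m) < |(g m : ℝ) - SS m * JJ m|)).card : ℝ) ≤ W / Real.log X ^ K) ∧
    (∀ A K : ℕ, ∃ X0 : ℕ, ∀ X : ℕ, X0 ≤ X → ∀ N : Finset ℕ, (∀ n ∈ N, 1 ≤ n ∧ n ≤ X ∧ Even n) →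
      (∀ n ∈ N, ∀ m ∈ N, n ≠ m → (Nat.gcd n m : ℝ) < Real.log X ^ K) →
      ((N.filter (fun n : ℕ => (n : ℝ) / Real.log (n : ℝ) ^ A <
        |(g n : ℝ) - SS n * JJ n|)).card : ℝ) ≤ (X : ℝ) ^ (θ + ε)) ∧
    ∀ ν : ℝ, 0 < ν → ∃ N : ℕ, 1 ≤ N ∧ ∀ A : ℕ, ∃ B M : ℕ, ∀ K : ℕ, ∃ X0 : ℕ, ∀ X : ℕ,
      X0 ≤ X → ∀ δ : ℝ, 1 / Real.log X ^ A ≤ δ → δ ≤ 1 → ∃ Y : Finset PC, ∃ D : Finset ℕ,
        FnC θ ε C B M K X δ Y ∧ CoD θ ε C N K X δ Y D ∧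
        (ν ≤ δ → (D.filter (fun d : ℕ => (d : ℝ) < (X : ℝ) ^ (1 / (N : ℝ)))).card ≤ 1 ∧
          NuC N M X Y) := by
  obtain ⟨Cw, hw⟩ := cor_w scaleG_all BX.gauBD θ ε h1 hε
  have he := cor_e scaleG_all BX.gauBD θ ε h1 hε
  obtain ⟨Cs, hs⟩ := cor_s scale_q BX.gauBD rzF θ ε h1 hε
  obtain ⟨C, hC1, hC2⟩ : ∃ C, Cw ≤ C ∧ Cs ≤ C := ⟨max Cw Cs, le_max_left _ _, le_max_right _ _⟩
  refine ⟨C, fun A K => ?_, fun A => fam_j A θ ε h1 h2 hε, fun ν hν => ?_⟩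
  · obtain ⟨X1, hw⟩ := hw A K
    obtain ⟨X2, he⟩ := he A K
    obtain ⟨X3, hX3⟩ := MP_log_large 1
    refine ⟨max X1 (max X2 X3), fun X hX δ hδ hδ1 => ?_⟩
    simp only [max_le_iff] at hX
    obtain ⟨x1, x2, x3⟩ := hX
    have hL1 := hX3 X x3
    have hδ0 : 0 < δ := lt_of_lt_of_le (by positivity) hδ
    refine ⟨le_trans ?_ (hw X x1 δ hδ hδ1), he X x2 δ hδ hδ1⟩
    have hsub : (Icc 1 X).filter (fun n => ∃ W : ℕ, n + W ≤ X ∧ C / δ ^ C + W / Real.log X ^ K <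
        (((Icc n (n + W)).filter (fun m : ℕ => Even m ∧
          δ * (SS m * JJ m) < |(g m : ℝ) - SS m * JJ m|)).card : ℝ)) ⊆
        (Icc 1 X).filter (fun n => ∃ W : ℕ, n + W ≤ X ∧ Cw / δ ^ Cw + W / Real.log X ^ K <
        (((Icc n (n + W)).filter (fun m : ℕ => Even m ∧
          δ * (SS m * JJ m) < |(g m : ℝ) - SS m * JJ m|)).card : ℝ)) := by
      intro n hn
      rw [mem_filter] at hn ⊢
      obtain ⟨a, W, b, c⟩ := hn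
      have := div_mono Cw C hC1 δ hδ0 hδ1
      exact ⟨a, W, b, by linarith⟩
    exact_mod_cast card_le_card hsub
  · obtain ⟨N, hN, hs⟩ := hs ν hν
    refine ⟨N, hN, fun A => ?_⟩
    obtain ⟨B, M, hs⟩ := hs A
    refine ⟨B, M, fun K => ?_⟩
    obtain ⟨X1, hs⟩ := hs K
    obtain ⟨X3, hX3⟩ := MP_log_large 1
    refine ⟨max X1 X3, fun X hX δ hδ hδ1 => ?_⟩
    simp only [max_le_iff] at hX
    obtain ⟨x1, x3⟩ := hX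
    have hL1 := hX3 X x3
    have hδ0 : 0 < δ := lt_of_lt_of_le (by positivity) hδ
    obtain ⟨Y, D, a, b, c⟩ := hs X x1 δ hδ hδ1
    exact ⟨Y, D, fnC_mono hC2 hδ0 b, coD_mono hC2 hδ0 hδ1 a, c⟩

end Pool.MP_dd84fd_nt.EF
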