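import Pool.Agent.Lib.MP_dd84fd_nt.EF.Av
import Pool.Agent.Lib.MP_dd84fd_nt.BY.ArD
import Pool.Agent.Lib.MP_dd84fd_nt.BY.ArS
import Pool.Agent.Lib.MP_dd84fd_nt.BY.ArMM
import Pool.Agent.Lib.MP_dd84fd_nt.BX.As2
import Pool.Agent.Lib.MP_dd84fd_nt.BX.As3
import Pool.Agent.Lib.MP_dd84fd_nt.BX.Gau
import Pool.Agent.Lib.MP_dd84fd_nt.DX.LtMain
import Pool.Agent.Lib.MP_dd84fd_nt.JX.Main

/-!
# EF-Nar: `W_-` on the discs is the part of the characters of `YE` (helper6)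

As `BY.arcNar` / `BX.ArcBD` for the primes: the light part by `DX.lt_core`, the characters of small conductor by
`BY.smlY`, the mean and the model by `BY.meanY`, `BY.modY`.  A character `χ` modulo `q` is heavy iff `prc χ ∈ YE`;
`SX ⟨q, χ⟩` and `SX (prc χ)` differ by at most `10`, and the difference is estimated trivially.
-/

set_option autoImplicit false

namespace Pool.MP_dd84fd_nt.EF

open Finset Pool.MP_67663b_nt.Odd Pool.MP_dd84fd_nt.En Pool.MP_dd84fd_nt.E2 Pool.MP_dd84fd_nt.LS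
open Pool.MP_dd84fd_nt.GX Pool.MP_dd84fd_nt.HX Pool.MP_dd84fd_nt.IX
open Pool.MP_dd84fd_nt.PL (rr Fam)
open Pool.MP_dd84fd_nt.JX (wP gP DecJ Adm AdmP Str)
open Pool.MP_dd84fd_nt.LX (FFL DecW PhU)
open Pool.MP_dd84fd_nt.LXP (tq gs_cond)
open Pool.MP_dd84fd_nt.BX (PC pv IsPC PR SX sN prc ind Rm cf N2d DiscH Mn ar_ee_cont ar_le N2d_add
  N2d_sub N2d_congr N2d_rad N2d_nonneg rr_card Mn_cont N2d_sup)
open Pool.MP_dd84fd_nt.BY (EXf VQf SXf sNf allC YS YC EXf_cont VQf_cont SXf_cont WI_EXf VQf_split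
  mean_vqf ay_mean ay_sizes N2d_vqf tq_inv_norm ncY meanY modY smlY)

/-! ### A character and the primitive character which induces it -/

private theorem nar_pv_eq (q : ℕ) (χ : DirichletCharacter ℂ q) (n : ℕ) (h : Nat.Coprime n q) :
    pv ⟨q, χ⟩ n = pv (prc χ) n := by
  have hc : IsCoprime (n : ℤ) (q : ℤ) := Nat.isCoprime_iff_coprime.mpr h
  have e1 := DirichletCharacter.changeLevel_eq_cast_of_dvd' χ.primitiveCharacter
    χ.conductor_dvd_level hc
  rw [DirichletCharacter.changeLevel_primitiveCharacter, Int.cast_natCast, Int.cast_natCast] at e1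
  exact e1

private theorem nar_pv_zero (q : ℕ) (χ : DirichletCharacter ℂ q) (n : ℕ) (h : ¬ Nat.Coprime n q) :
    pv ⟨q, χ⟩ n = 0 := by
  have hu : ¬ IsUnit ((n : ℕ) : ZMod q) := fun hh => h ((ZMod.isUnit_iff_coprime n q).1 hh)
  exact MulChar.map_nonunit _ hu

private theorem nar_norm_ee (x : ℝ) : ‖ee x‖ = 1 := by
  unfold ee
  rw [Complex.norm_exp]
  simp

/-- at most ten large prime factors -/
private theorem nar_card (X q : ℕ) (hX : 2 ≤ X) (hq1 : 1 ≤ q) (hq : q ≤ X) :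
    (((q.primeFactors).filter (fun p => zI X ≤ p)).card : ℝ) ≤ 10 := by
  exact_mod_cast BY.nc_pf X q (zI X) hX hq1 hq (Nat.le_ceil _)

private theorem nar_diff (X q : ℕ) (hX : 2 ≤ X) (hq1 : 1 ≤ q) (hq : q ≤ X)
    (χ : DirichletCharacter ℂ q) (x : ℝ) :
    ‖SX X ⟨q, χ⟩ x - SX X (prc χ) x‖ ≤ 10 := by
  unfold SX
  rw [← sum_sub_distrib]
  refine (norm_sum_le _ _).trans ?_
  have h2 : ∀ n ∈ Icc 1 X, ‖((wP X n : ℝ) : ℂ) * pv ⟨q, χ⟩ n * ee ((n : ℝ) * x) -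
      ((wP X n : ℝ) : ℂ) * pv (prc χ) n * ee ((n : ℝ) * x)‖ ≤
      if n ∈ (q.primeFactors).filter (fun p => zI X ≤ p) then 1 else 0 := by
    intro n _
    have e0 : ((wP X n : ℝ) : ℂ) * pv ⟨q, χ⟩ n * ee ((n : ℝ) * x) -
        ((wP X n : ℝ) : ℂ) * pv (prc χ) n * ee ((n : ℝ) * x) =
        ((wP X n : ℝ) : ℂ) * (pv ⟨q, χ⟩ n - pv (prc χ) n) * ee ((n : ℝ) * x) := by ring
    rw [e0, norm_mul, norm_mul, nar_norm_ee, mul_one]
    by_cases hc : Nat.Coprime n q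
    · rw [nar_pv_eq q χ n hc, sub_self, norm_zero, mul_zero]
      split_ifs <;> norm_num
    · rw [nar_pv_zero q χ n hc, zero_sub, norm_neg]
      by_cases hw : n.Prime ∧ zI X ≤ n
      · have hm : n ∈ (q.primeFactors).filter (fun p => zI X ≤ p) := by
          rw [mem_filter, Nat.mem_primeFactors]
          refine ⟨⟨hw.1, ?_, by omega⟩, hw.2⟩
          by_contra hd
          exact hc ((Nat.Prime.coprime_iff_not_dvd hw.1).2 hd)
        rw [if_pos hm]
        unfold wP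
        rw [if_pos hw]
        simpa using BX.pv_norm_le (prc χ) n
      · unfold wP
        rw [if_neg hw, Complex.ofReal_zero, norm_zero, zero_mul]
        split_ifs <;> norm_num
  refine (sum_le_sum h2).trans ?_
  rw [← sum_filter, sum_const, nsmul_eq_mul, mul_one]
  refine le_trans ?_ (nar_card X q hX hq1 hq)
  have : (Icc 1 X).filter (fun n => n ∈ (q.primeFactors).filter (fun p => zI X ≤ p)) ⊆
      (q.primeFactors).filter (fun p => zI X ≤ p) := fun n hn => (mem_filter.1 hn).2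
  exact_mod_cast card_le_card this

private theorem nar_SX_cont (X : ℕ) (ψ : PC) : Continuous (SX X ψ) := SXf_cont X (wP X) ψ

private theorem nar_VP_cont (X : ℕ) (Y : Finset PC) (q a : ℕ) : Continuous (VP X Y q a) := by
  unfold VP
  have h := nar_SX_cont X
  split_ifs
  · exact continuous_const
  · fun_prop

/-! ### The heavy and the light characters -/

open Classical in
/-- the heavy characters modulo `q` -/
noncomputable def nYH (Y : Finset PC) (Z : ℝ) (q : ℕ) : Finset (DirichletCharacter ℂ q) :=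
  (YC Z q).filter (fun χ => prc χ ∈ Y)

open Classical in
/-- the light characters modulo `q` -/
noncomputable def nYL (Y : Finset PC) (Z : ℝ) (q : ℕ) : Finset (DirichletCharacter ℂ q) :=
  (YC Z q).filter (fun χ => ¬ prc χ ∈ Y)

/-- the identity -/
private theorem nar_id (X : ℕ) (w fi : ℕ → ℝ) (Z : ℝ) (hZ1 : 1 ≤ Z) (Y : Finset PC) (W : ℝ → ℂ)
    (hWe : ∀ θ, W θ = EXf X w θ - EXf X fi θ) (q : ℕ) (hq : 1 ≤ q) (a : ℕ) (ha : a ∈ rr q) (x : ℝ)
    (V : ℂ) :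
    W ((a : ℝ) / q + x) - V =
      Mn W q x + (((EXf X w ((a : ℝ) / q + x) - VQf X w q (allC q) a x) -
        (1 / (Nat.totient q : ℂ)) * ∑ b ∈ rr q, (EXf X w ((b : ℝ) / q + x) -
          VQf X w q (allC q) b x)) + (VQf X w q (YS Z q) a x +
        ((VQf X w q (nYH Y Z q) a x - V) + (VQf X w q (nYL Y Z q) a x -
          (EXf X fi ((a : ℝ) / q + x) - Mn (EXf X fi) q x))))) := by
  classical
  have hqz : NeZero q := ⟨by omega⟩
  obtain ⟨P, hP⟩ : ∃ P : ℂ, P = (1 / (Nat.totient q : ℂ)) * ∑ b ∈ rr q, VQf X w q (allC q) b x :=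
    ⟨_, rfl⟩
  have hm1 := mean_vqf X w q hq a ha x
  rw [← hP] at hm1
  have i2 : Mn W q x = (1 / (Nat.totient q : ℂ)) * ∑ b ∈ rr q, (EXf X w ((b : ℝ) / q + x) -
      VQf X w q (allC q) b x) + P - Mn (EXf X fi) q x := by
    rw [hP]
    unfold Mn
    rw [← mul_add, ← sum_add_distrib, ← mul_sub, ← sum_sub_distrib]
    congr 1
    refine sum_congr rfl fun b _ => ?_
    rw [hWe]
    ring
  have i3 : VQf X w q (allC q) a x = P +
      VQf X w q ((allC q).filter (fun χ => ¬ χ = 1)) a x := by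
    have h1 := VQf_split X w q (allC q) (fun χ => χ = 1) a x
    rw [h1, hm1]
    congr!
  have i4 : VQf X w q ((allC q).filter (fun χ => ¬ χ = 1)) a x =
      VQf X w q (YS Z q) a x + VQf X w q (YC Z q) a x := by
    have h1 := VQf_split X w q ((allC q).filter (fun χ => ¬ χ = 1))
      (fun χ => (χ.conductor : ℝ) ≤ Z) a x
    rw [h1]
    congr 2
    · unfold YS
      rw [filter_filter]
      ext χ
      simp only [mem_filter, ne_eq]
    · unfold YC
      ext χ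
      simp only [mem_filter]
      constructor
      · rintro ⟨⟨h1, h2⟩, h3⟩
        exact ⟨h1, not_le.1 h3⟩
      · rintro ⟨h1, h2⟩
        refine ⟨⟨h1, ?_⟩, not_le.2 h2⟩
        rintro rfl
        rw [DirichletCharacter.conductor_one, Nat.cast_one] at h2
        linarith
  have i6 : VQf X w q (YC Z q) a x =
      VQf X w q (nYH Y Z q) a x + VQf X w q (nYL Y Z q) a x := by
    have h1 := VQf_split X w q (YC Z q) (fun χ => prc χ ∈ Y) a x
    rw [h1]
    congr 2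
    · unfold nYH
      ext χ
      simp only [mem_filter]
    · unfold nYL
      ext χ
      simp only [mem_filter]
  rw [hWe, i2, i3, i4, i6]
  ring

/-- the light part -/
private theorem nar_light (A K2 : ℕ) (hd : JX.DecP) : ∃ A1 : ℕ, ∀ th e : ℝ, AdmP th e →
    ∀ K1 K' : ℕ, ∃ X0 : ℕ, ∀ X : ℕ, X0 ≤ X → ∀ (n : ℕ) (QQ : Finset ℕ) (N : ℝ) (ρ : ℕ → ℝ),
      DiscH e th K1 K2 X n QQ N ρ →
      N2d X ρ QQ (fun q a x => VQf X (wP X) q
        (nYL (YE X (4 * (Real.log X) ^ K2) ((Real.log X) ^ K') (RE th e X) (A1 + 1))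
          ((Real.log X) ^ K') q) a x) ≤ X / (Real.log X) ^ A := by
  classical
  obtain ⟨C2, hC2⟩ := hd (A + 8)
  obtain ⟨A1, hA1⟩ := DX.lt_core A 1 C2 K2 (1 / 10) (by norm_num)
  refine ⟨A1, fun th e hp K1 K' => ?_⟩
  obtain ⟨p1, p2, p3, p4, p5⟩ := hp
  have hadm : Adm th e (1 / 10) := ⟨by linarith, p2, p3, le_rfl, by linarith⟩
  obtain ⟨X1, hX1⟩ := hA1 th e hadm wP ⟨0, fun X _ n => by
    unfold wP
    split_ifs <;> simp⟩ (hC2 th e (1 / 10) hadm p4)
  obtain ⟨X2, hX2⟩ := ay_sizes th e (1 / 10) hadm K1 K2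
  obtain ⟨X3, hX3⟩ := MP_log_large 2
  obtain ⟨X4, hX4⟩ := BX.sN_prc (A1 + 1) (K2 + 2)
  refine ⟨max X1 (max X2 (max X3 (max X4 2))), fun X hX n QQ N ρ hD => ?_⟩
  have hL2 := hX3 X (by omega)
  have hL1 : 1 ≤ Real.log X := by linarith
  have hL0 : 0 < Real.log X := by linarith
  have hXp : (0 : ℝ) < X := by exact_mod_cast (by omega : 0 < X)
  rcases QQ.eq_empty_or_nonempty with h0 | hne
  · rw [h0]
    unfold N2d
    rw [sum_empty]
    positivity
  obtain ⟨f1, -, -, f4, f5, f6⟩ := hX2 X (by omega) n QQ N ρ hD hne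
  obtain ⟨d1, d2, d3, d4, d5, d6, d7⟩ := hD
  set T : ℝ := 4 * (Real.log X) ^ K2 with hT
  have hLK : 1 ≤ (Real.log X) ^ K2 := one_le_pow₀ hL1
  have hT0 : 0 ≤ T := by positivity
  have hT1 : 1 ≤ T := by linarith
  have hTB : T ≤ (Real.log X) ^ (K2 + 2) := by
    rw [pow_add, hT, mul_comm]
    apply mul_le_mul_of_nonneg_left _ (by positivity)
    nlinarith
  set YY : Finset PC := YE X T ((Real.log X) ^ K') (RE th e X) (A1 + 1) with hYY
  have g1 := hX1 X (by omega) QQ N f4 f1 d7 d6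
    (fun q => nYL YY ((Real.log X) ^ K') q) (fun q hq χ hχ => by
    unfold nYL YC at hχ
    rw [mem_filter, mem_filter] at hχ
    obtain ⟨⟨-, h1⟩, h2⟩ := hχ
    have hq1 := (f6 q hq).1
    have hqz : NeZero q := ⟨by omega⟩
    refine ⟨?_, ?_⟩
    · rintro rfl
      rw [DirichletCharacter.conductor_one] at h1
      have h2 : (1 : ℝ) ≤ (Real.log X) ^ K' := one_le_pow₀ hL1
      rw [Nat.cast_one] at h1
      linarith
    · have h3 : sN X T (prc χ) ≤ 1 / (Real.log X) ^ (A1 + 1) := by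
        by_contra hcon
        rw [not_le] at hcon
        apply h2
        rw [hYY]
        unfold YE
        rw [mem_filter, BX.mem_PR]
        refine ⟨⟨?_, BX.isPC_prc hq1 χ⟩, h1, hcon⟩
        apply Nat.le_floor
        have h4 : (χ.conductor : ℝ) ≤ q := by
          exact_mod_cast Nat.le_of_dvd (by omega) χ.conductor_dvd_level
        exact h4.trans ((f6 q hq).2.1.trans d7)
      have h4 := hX4 X (by omega) T hT1 hTB q hq1 (f6 q hq).2.2 χ
      have h5 : DX.vN wP X T χ = sN X T ⟨q, χ⟩ := rfl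
      rw [h5]
      have h6 : 1 / (Real.log X) ^ (A1 + 1) + 1 / (Real.log X) ^ (A1 + 1) ≤
          1 / (Real.log X) ^ A1 := by
        rw [← add_div, div_le_div_iff₀ (by positivity) (by positivity), pow_succ]
        have : 0 < (Real.log X) ^ A1 := by positivity
        nlinarith
      linarith)
  refine (N2d_rad X ρ (fun _ => T) QQ (fun q hq => (f5 q hq).1) (fun q hq => (f5 q hq).2) _
    (fun q a => VQf_cont X _ q _ a)).trans ?_
  rw [N2d_vqf X _ QQ (fun q hq => (f6 q hq).1)]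
  refine le_trans (le_of_eq ?_) g1
  refine sum_congr rfl fun q hq => sum_congr rfl fun χ _ => ?_
  have hq1 : NeZero q := ⟨by have := (f6 q hq).1; omega⟩
  rw [dif_neg (NeZero.ne q), tq_inv_norm]
  rfl

private theorem nar_cardχ (q : ℕ) [NeZero q] :
    Fintype.card (DirichletCharacter ℂ q) = q.totient := by
  rw [← Nat.card_eq_fintype_card]
  exact DirichletCharacter.card_eq_totient_of_hasEnoughRootsOfUnity ℂ q

/-- `VP` as a sum over the characters modulo `q` -/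
private theorem nar_VP (X : ℕ) (Y : Finset PC) (Z : ℝ) (hY : ∀ ψ ∈ Y, IsPC ψ ∧ Z < (ψ.1 : ℝ))
    (q : ℕ) [NeZero q] (a : ℕ) (x : ℝ) :
    VP X Y q a x = (1 / (Nat.totient q : ℂ)) * ∑ χ ∈ nYH Y Z q,
      tq q χ⁻¹ * χ (a : ZMod q) * SX X (prc χ) x := by
  classical
  have hq1 : 1 ≤ q := Nat.one_le_iff_ne_zero.2 (NeZero.ne q)
  unfold VP
  rw [dif_neg (NeZero.ne q)]
  congr 1
  symm
  refine sum_bij (fun χ _ => prc χ) ?_ ?_ ?_ ?_
  · intro χ hχ
    unfold nYH at hχ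
    rw [mem_filter] at hχ
    rw [mem_filter]
    exact ⟨hχ.2, χ.conductor_dvd_level⟩
  · intro χ _ χ' _ h
    exact BX.prc_inj h
  · intro ψ hψ
    rw [mem_filter] at hψ
    obtain ⟨h1, h2⟩ := hψ
    have h3 := hY ψ h1
    have h4 : prc (ind q ψ) = ψ := by
      refine BX.ind_inj q hq1 _ _ (BX.isPC_prc hq1 _) h3.1 ?_ h2 (BX.ind_prc _)
      exact DirichletCharacter.conductor_dvd_level _
    refine ⟨ind q ψ, ?_, h4⟩
    unfold nYH YC allC
    rw [mem_filter, mem_filter, dif_neg (NeZero.ne q)]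
    refine ⟨⟨mem_univ _, ?_⟩, ?_⟩
    · rw [BX.ind_cond q hq1 ψ h3.1 h2]
      exact h3.2
    · rw [h4]
      exact h1
  · intro χ _
    rw [BX.ind_prc]

/-- the pointwise difference -/
private theorem nar_pt (X : ℕ) (hX : 2 ≤ X) (Y : Finset PC) (Z : ℝ)
    (hY : ∀ ψ ∈ Y, IsPC ψ ∧ Z < (ψ.1 : ℝ)) (q : ℕ) (hq1 : 1 ≤ q) (hqX : q ≤ X) (a : ℕ) (x : ℝ) :
    ‖VQf X (wP X) q (nYH Y Z q) a x - VP X Y q a x‖ ≤ 10 * Real.sqrt q := by
  classical
  have hqz : NeZero q := ⟨by omega⟩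
  have hφ : (0 : ℝ) < Nat.totient q := by exact_mod_cast Nat.totient_pos.2 hq1
  rw [nar_VP X Y Z hY q a x]
  unfold VQf
  rw [dif_neg (NeZero.ne q), ← mul_sub, ← sum_sub_distrib, norm_mul]
  have h1 : ∀ χ ∈ nYH Y Z q, ‖tq q χ⁻¹ * χ (a : ZMod q) * SXf X (wP X) ⟨q, χ⟩ x -
      tq q χ⁻¹ * χ (a : ZMod q) * SX X (prc χ) x‖ ≤ 10 * Real.sqrt q := by
    intro χ _
    have e1 : tq q χ⁻¹ * χ (a : ZMod q) * SXf X (wP X) ⟨q, χ⟩ x -
      tq q χ⁻¹ * χ (a : ZMod q) * SX X (prc χ) x =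
      tq q χ⁻¹ * χ (a : ZMod q) * (SX X ⟨q, χ⟩ x - SX X (prc χ) x) := by
      have : SXf X (wP X) ⟨q, χ⟩ x = SX X ⟨q, χ⟩ x := rfl
      rw [this]
      ring
    rw [e1, norm_mul, norm_mul]
    have h2 : ‖tq q χ⁻¹‖ ≤ Real.sqrt q := by
      apply Real.le_sqrt_of_sq_le
      refine (gs_cond q χ⁻¹).trans ?_
      exact_mod_cast Nat.le_of_dvd (by omega) (DirichletCharacter.conductor_dvd_level χ⁻¹)
    have h3 : ‖χ (a : ZMod q)‖ ≤ 1 := DirichletCharacter.norm_le_one χ _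
    have h4 := nar_diff X q hX hq1 hqX χ x
    calc ‖tq q χ⁻¹‖ * ‖χ (a : ZMod q)‖ * ‖SX X ⟨q, χ⟩ x - SX X (prc χ) x‖ ≤
          Real.sqrt q * 1 * 10 := by
          refine mul_le_mul (mul_le_mul h2 h3 (norm_nonneg _) (Real.sqrt_nonneg _)) h4
            (norm_nonneg _) (by positivity)
      _ = _ := by ring
  have h2 := (norm_sum_le (nYH Y Z q) _).trans (sum_le_card_nsmul _ _ _ h1)
  rw [nsmul_eq_mul] at h2
  have h3 : ((nYH Y Z q).card : ℝ) ≤ Nat.totient q := by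
    rw [← nar_cardχ q]
    exact_mod_cast card_le_univ _
  rw [norm_div, norm_one, Complex.norm_natCast]
  calc 1 / (Nat.totient q : ℝ) * ‖∑ χ ∈ nYH Y Z q, (tq q χ⁻¹ * χ (a : ZMod q) *
          SXf X (wP X) ⟨q, χ⟩ x - tq q χ⁻¹ * χ (a : ZMod q) * SX X (prc χ) x)‖ ≤
        1 / (Nat.totient q : ℝ) * (Nat.totient q * (10 * Real.sqrt q)) := by
        apply mul_le_mul_of_nonneg_left _ (by positivity)
        refine h2.trans ?_
        apply mul_le_mul_of_nonneg_right h3 (by positivity)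
    _ = _ := by
        field_simp

/-- the difference in mean square -/
private theorem nar_dif (B K1 K2 : ℕ) (th e : ℝ) (hp : AdmP th e) : ∃ X0 : ℕ, ∀ X : ℕ, X0 ≤ X →
    ∀ (n : ℕ) (QQ : Finset ℕ) (N : ℝ) (ρ : ℕ → ℝ), DiscH e th K1 K2 X n QQ N ρ →
    ∀ (Y : Finset PC) (Z : ℝ), (∀ ψ ∈ Y, IsPC ψ ∧ Z < (ψ.1 : ℝ)) →
      N2d X ρ QQ (fun q a x => VQf X (wP X) q (nYH Y Z q) a x - VP X Y q a x) ≤
        X / (Real.log X) ^ B := by
  obtain ⟨p1, p2, p3, p4, p5⟩ := hp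
  have hadm : Adm th e (1 / 10) := ⟨by linarith, p2, p3, le_rfl, by linarith⟩
  obtain ⟨X1, hX1⟩ := ay_sizes th e (1 / 10) hadm K1 K2
  obtain ⟨X2, hX2⟩ := MP_log_pow 800 (B + K2) (ε := 1 / 10) (by norm_num)
  obtain ⟨X3, hX3⟩ := MP_log_large 1
  refine ⟨max X1 (max X2 (max X3 2)), fun X hX n QQ N ρ hD Y Z hY => ?_⟩
  have hL1 := hX3 X (by omega)
  have hL0 : 0 < Real.log X := by linarith
  have hXR : (1 : ℝ) ≤ X := by exact_mod_cast (by omega : 1 ≤ X)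
  have hXp : (0 : ℝ) < X := by linarith
  have hX2' : 2 ≤ X := by omega
  have g2 := hX2 X (by omega)
  rcases QQ.eq_empty_or_nonempty with h0 | hne
  · rw [h0]
    unfold N2d
    rw [sum_empty]
    positivity
  obtain ⟨f1, f2, -, -, f5, f6⟩ := hX1 X (by omega) n QQ N ρ hD hne
  obtain ⟨-, -, -, -, -, d6, -⟩ := hD
  set T : ℝ := 4 * (Real.log X) ^ K2 with hT
  have hT0 : 0 ≤ T := by positivity
  refine (N2d_sup X ρ QQ (fun q hq => (f5 q hq).1) _
    (fun q a => (VQf_cont X _ q _ a).sub (nar_VP_cont X Y q a)) (fun q => 10 * Real.sqrt q)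
    (fun q hq a _ x _ => nar_pt X hX2' Y Z hY q (f6 q hq).1 (f6 q hq).2.2 a x)).trans ?_
  have h1 : ∀ q ∈ QQ, (Nat.totient q : ℝ) * (2 * (ρ q / X) * (10 * Real.sqrt q) ^ 2) ≤
      200 * T * N ^ 2 / X := by
    intro q hq
    have e1 : (10 * Real.sqrt q) ^ 2 = 100 * (q : ℝ) := by
      rw [mul_pow, Real.sq_sqrt (Nat.cast_nonneg _)]
      norm_num
    rw [e1]
    have e2 : (Nat.totient q : ℝ) ≤ N :=
      le_trans (by exact_mod_cast Nat.totient_le q) (f6 q hq).2.1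
    have e3 : ρ q / X ≤ T / X := div_le_div_of_nonneg_right (f5 q hq).2 hXp.le
    have e4 : 0 ≤ ρ q / (X : ℝ) := div_nonneg (f5 q hq).1 hXp.le
    calc (Nat.totient q : ℝ) * (2 * (ρ q / X) * (100 * (q : ℝ))) ≤
          N * (2 * (T / X) * (100 * N)) := by
          refine mul_le_mul e2 ?_ (by positivity) (by linarith)
          refine mul_le_mul (by linarith) (by linarith [(f6 q hq).2.1]) (by positivity)
            (by positivity)
      _ = _ := by ring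
  have h2 := sum_le_card_nsmul _ _ _ h1
  rw [nsmul_eq_mul] at h2
  refine h2.trans ?_
  have hN0 : 0 ≤ N := by linarith
  have e1 : N ^ 2 ≤ (X : ℝ) ^ (44 / 25 : ℝ) := by
    have := pow_le_pow_left₀ hN0 f2 2
    rwa [← Real.rpow_natCast ((X : ℝ) ^ (22 / 25 : ℝ)) 2, ← Real.rpow_mul hXp.le,
      show (22 / 25 : ℝ) * ((2 : ℕ) : ℝ) = 44 / 25 by norm_num] at this
  have e2 : (QQ.card : ℝ) ≤ (X : ℝ) ^ (1 / 25 : ℝ) :=
    d6.trans (Real.rpow_le_rpow_of_exponent_le hXR (by linarith))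
  have e3 : (X : ℝ) ^ (1 / 25 : ℝ) * (X : ℝ) ^ (44 / 25 : ℝ) * (X : ℝ) ^ (1 / 10 : ℝ) ≤ X ^ 2 := by
    rw [← Real.rpow_add hXp, ← Real.rpow_add hXp, ← Real.rpow_natCast (X : ℝ) 2]
    exact Real.rpow_le_rpow_of_exponent_le hXR (by norm_num)
  rw [le_div_iff₀ (by positivity)]
  have e4 : (QQ.card : ℝ) * (200 * T * N ^ 2 / X) * (Real.log X) ^ B =
      (QQ.card : ℝ) * N ^ 2 * (800 * (Real.log X) ^ (B + K2)) / X := by
    rw [hT, pow_add]
    ring
  rw [e4, div_le_iff₀ hXp]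
  calc (QQ.card : ℝ) * N ^ 2 * (800 * (Real.log X) ^ (B + K2)) ≤
        (X : ℝ) ^ (1 / 25 : ℝ) * (X : ℝ) ^ (44 / 25 : ℝ) * (X : ℝ) ^ (1 / 10 : ℝ) := by
        refine mul_le_mul (mul_le_mul e2 e1 (by positivity) (by positivity)) g2 (by positivity)
          (by positivity)
    _ ≤ X ^ 2 := e3
    _ = X * X := by ring

theorem narF : NarF := by
  classical
  intro A K2
  obtain ⟨A1, hA1⟩ := nar_light (A + 8) K2 JX.decP
  refine ⟨A1 + 1, fun th e hp K1 K' => ?_⟩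
  have hp' := hp
  obtain ⟨p1, p2, p3, p4, p5⟩ := hp
  have hadm : Adm th e (1 / 10) := ⟨by linarith, p2, p3, le_rfl, by linarith⟩
  obtain ⟨X1, hX1⟩ := hA1 th e hp' K1 K'
  obtain ⟨D1, hD1⟩ := meanY 2 1 th e (1 / 10) hadm wP gP JX.w1P JX.majP (A + 8) K1 K2
  obtain ⟨D2, hD2⟩ := modY 2 1 th e (1 / 10) hadm wP gP JX.w1P (A + 8) K1 K2
  obtain ⟨X4, hX4⟩ := smlY modY 2 1 th e (1 / 10) hadm wP gP JX.w1P JX.majP (A + 8) K1 K2 K'
  obtain ⟨X5, hX5⟩ := ncY 2 th e (1 / 10) hadm (A + 8) K1 K2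
  obtain ⟨X6, hX6⟩ := nar_dif (A + 8) K1 K2 th e hp'
  obtain ⟨Xw, hXw⟩ := JX.w1P
  obtain ⟨X7, hX7⟩ := MP_log_large 2
  refine ⟨max D1 D2, fun D' hD' => ?_⟩
  obtain ⟨X2, hX2⟩ := hD1 D' (by omega)
  obtain ⟨X3, hX3⟩ := hD2 D' (by omega)
  refine ⟨max X1 (max X2 (max X3 (max X4 (max X5 (max X6 (max Xw (max X7 2))))))),
    fun X hX n QQ N ρ hD => ?_⟩
  have hL := hX7 X (by omega)
  have hL0 : 0 < Real.log (X : ℝ) := by linarith
  have hXp : (0 : ℝ) < X := by exact_mod_cast (by omega : 0 < X)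
  have hρ : ∀ q ∈ QQ, 0 ≤ ρ q := fun q hq => (hD.2.2.2.1 q hq).1
  have hq1 : ∀ q ∈ QQ, 1 ≤ q := fun q hq => (hD.2.2.1 q hq).1
  have w1 := (hXw X (by omega)).1
  have k1 := hX1 X (by omega) n QQ N ρ hD
  have k2 := hX2 X (by omega) n QQ N ρ hD
  have k3 := hX3 X (by omega) n QQ N ρ hD
  have k4 := hX4 X (by omega) n QQ N ρ hD
  have k5 := hX5 X (by omega) (wP X) (fun k => by exact_mod_cast (w1 k).1) n QQ N ρ hD
  set L := Real.log (X : ℝ) with hLd
  set T : ℝ := 4 * L ^ K2 with hT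
  set Z : ℝ := L ^ K' with hZ
  have hZ1 : 1 ≤ Z := one_le_pow₀ (by linarith)
  set YY : Finset PC := YE X T Z (RE th e X) (A1 + 1) with hYY
  have k6 := hX6 X (by omega) n QQ N ρ hD YY Z (fun ψ hψ => by
    rw [hYY] at hψ
    unfold YE at hψ
    rw [mem_filter, BX.mem_PR] at hψ
    exact ⟨hψ.1.2, hψ.2.1⟩)
  -- the model
  set Fm : ℝ → ℂ := EXf X (fI gP X (wX D' X)) with hFm
  set W : ℝ → ℂ := fun θ => WI wP gP (-1) (wX D' X) X θ with hW
  have hWe : ∀ θ, W θ = EXf X (wP X) θ - Fm θ := by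
    intro θ
    rw [hW]
    simp only
    rw [WI_EXf]
    push_cast
    ring
  have hEc := EXf_cont X (wP X)
  have hFc : Continuous Fm := EXf_cont X _
  have hWc : Continuous W := by
    have : W = fun θ => EXf X (wP X) θ - Fm θ := funext hWe
    rw [this]
    exact hEc.sub hFc
  -- the six parts
  set f1 : ℕ → ℕ → ℝ → ℂ := fun q _ x => Mn W q x with hf1
  set nc : ℕ → ℕ → ℝ → ℂ := fun q a x => EXf X (wP X) ((a : ℝ) / q + x) -
    VQf X (wP X) q (allC q) a x with hnc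
  set f2 : ℕ → ℕ → ℝ → ℂ := fun q a x => nc q a x -
    (1 / (Nat.totient q : ℂ)) * ∑ b ∈ rr q, nc q b x with hf2
  set f3 : ℕ → ℕ → ℝ → ℂ := fun q a x => Fm ((a : ℝ) / q + x) - Mn Fm q x with hf3
  set f4 : ℕ → ℕ → ℝ → ℂ := fun q a x => VQf X (wP X) q (YS Z q) a x with hf4
  set f5 : ℕ → ℕ → ℝ → ℂ := fun q a x => VQf X (wP X) q (nYH YY Z q) a x - VP X YY q a x with hf5
  set f6 : ℕ → ℕ → ℝ → ℂ := fun q a x => VQf X (wP X) q (nYL YY Z q) a x with hf6
  have c_nc : ∀ q a, Continuous (nc q a) := by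
    intro q a
    have h1 := VQf_cont X (wP X) q (allC q) a
    rw [hnc]
    fun_prop
  have c1' : ∀ q a, Continuous (f1 q a) := fun q a => Mn_cont W hWc q
  have c2' : ∀ q a, Continuous (f2 q a) := by
    intro q a
    have h1 := c_nc q
    rw [hf2]
    fun_prop
  have c3' : ∀ q a, Continuous (f3 q a) := by
    intro q a
    have h1 := Mn_cont Fm hFc q
    rw [hf3]
    fun_prop
  have c4' : ∀ q a, Continuous (f4 q a) := fun q a => VQf_cont X _ q _ a
  have c5' : ∀ q a, Continuous (f5 q a) := fun q a =>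
    (VQf_cont X _ q _ a).sub (nar_VP_cont X YY q a)
  have c6' : ∀ q a, Continuous (f6 q a) := fun q a => VQf_cont X _ q _ a
  have hid : ∀ q ∈ QQ, ∀ a ∈ rr q, ∀ x : ℝ, WI wP gP (-1) (wX D' X) X ((a : ℝ) / q + x) -
      VP X YY q a x =
      f1 q a x + (f2 q a x + (f4 q a x + (f5 q a x + (f6 q a x - f3 q a x)))) :=
    fun q hq a ha x => nar_id X (wP X) (fi := fI gP X (wX D' X)) Z hZ1 YY W hWe q
      (hq1 q hq) a ha x (VP X YY q a x)
  rw [N2d_congr X ρ QQ _ _ hid]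
  have n2 : N2d X ρ QQ f2 ≤ 4 * (X / L ^ (A + 8)) := by
    have h1 := N2d_sub X ρ QQ hρ nc (fun q _ x => (1 / (Nat.totient q : ℂ)) * ∑ b ∈ rr q, nc q b x)
      c_nc (by
        intro q a
        have h1 := c_nc q
        fun_prop)
    have h2 := ay_mean X ρ QQ hρ nc c_nc
    have h3 : N2d X ρ QQ nc ≤ X / L ^ (A + 8) := k5
    have h4 : N2d X ρ QQ f2 ≤ 2 * N2d X ρ QQ nc + 2 * N2d X ρ QQ
      (fun q _ x => (1 / (Nat.totient q : ℂ)) * ∑ b ∈ rr q, nc q b x) := h1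
    linarith
  have s6 := N2d_sub X ρ QQ hρ f6 f3 c6' c3'
  have s5 := N2d_add X ρ QQ hρ f5 (fun q a x => f6 q a x - f3 q a x) c5'
    (fun q a => (c6' q a).sub (c3' q a))
  have s4 := N2d_add X ρ QQ hρ f4 (fun q a x => f5 q a x + (f6 q a x - f3 q a x)) c4'
    (fun q a => (c5' q a).add ((c6' q a).sub (c3' q a)))
  have s2 := N2d_add X ρ QQ hρ f2 (fun q a x => f4 q a x + (f5 q a x + (f6 q a x - f3 q a x))) c2'
    (fun q a => (c4' q a).add ((c5' q a).add ((c6' q a).sub (c3' q a))))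
  have s1 := N2d_add X ρ QQ hρ f1
    (fun q a x => f2 q a x + (f4 q a x + (f5 q a x + (f6 q a x - f3 q a x)))) c1'
    (fun q a => (c2' q a).add ((c4' q a).add ((c5' q a).add ((c6' q a).sub (c3' q a)))))
  have n1 : N2d X ρ QQ f1 ≤ X / L ^ (A + 8) := k2
  have n3 : N2d X ρ QQ f3 ≤ X / L ^ (A + 8) := k3
  have n4 : N2d X ρ QQ f4 ≤ X / L ^ (A + 8) := k4
  have n5 : N2d X ρ QQ f5 ≤ X / L ^ (A + 8) := k6
  have n6 : N2d X ρ QQ f6 ≤ X / L ^ (A + 8) := k1
  have hfin : 256 * (X / L ^ (A + 8)) ≤ X / L ^ A := by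
    rw [← mul_div_assoc, div_le_div_iff₀ (by positivity) (by positivity)]
    have e3 : (256 : ℝ) ≤ L ^ 8 := by
      calc (256 : ℝ) = 2 ^ 8 := by norm_num
        _ ≤ L ^ 8 := pow_le_pow_left₀ (by norm_num) hL 8
    have e4 : L ^ (A + 8) = L ^ A * L ^ 8 := by rw [← pow_add]
    rw [e4]
    have e5 : 0 ≤ (X : ℝ) * L ^ A := by positivity
    nlinarith
  have hpos : 0 ≤ (X : ℝ) / L ^ (A + 8) := by positivity
  linarith

end Pool.MP_dd84fd_nt.EF
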