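import Pool.Agent.Lib.MP_dd84fd_nt.EF.Exp
import Pool.Agent.Lib.MP_dd84fd_nt.BX.Gau
import Pool.Agent.Lib.MP_dd84fd_nt.En.Tot

/-!
# EF-Ser: the singular series of a pair converges absolutely; tail

`‖cc q‖ ≤ (r₁r₂)^(1/2)/φ(q) · C h_q^(-1/4)`, `h_q ≥ q/n`, `r_i ≤ X`, `n ≤ X`: `≤ C X · X^(1/4) q^(-1/4) / φ(q)`; with
`φ(q) ≥ c q^(23/24)` the tail over `q > X^16` is `≤ C X^(5/4) (X^16)^(-1/4 + 1/24) ≤ X^(-1/8)`.
-/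

set_option autoImplicit false

namespace Pool.MP_dd84fd_nt.EF

open Finset Pool.MP_67663b_nt.Odd Pool.MP_dd84fd_nt.En Pool.MP_dd84fd_nt.E2 Pool.MP_dd84fd_nt.LS
open Pool.MP_dd84fd_nt.GX Pool.MP_dd84fd_nt.HX Pool.MP_dd84fd_nt.IX
open Pool.MP_dd84fd_nt.PL (rr)
open Pool.MP_dd84fd_nt.JX (wP gP DecJ Adm AdmP Str)
open Pool.MP_dd84fd_nt.LX (FFL DecW PhU)
open Pool.MP_dd84fd_nt.LXP (tq)
open Pool.MP_dd84fd_nt.BX (PC pv IsPC PR SX sN prc ind Rm cf N2d DiscH)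

private theorem ser_ram (q n : ℕ) (hq : 1 ≤ q) (χ : DirichletCharacter ℂ q) :
    BG.Ram q n χ⁻¹ = Rm q n χ := by
  have : NeZero q := ⟨by omega⟩
  unfold BG.Ram Rm rr
  rw [Finset.sum_filter]
  refine Finset.sum_congr rfl fun y _ => ?_
  by_cases hy : Nat.Coprime y q
  · rw [if_pos hy]
    have hu : IsUnit ((y : ℕ) : ZMod q) := (ZMod.isUnit_iff_coprime y q).2 hy
    have e1 := L2G.co_char_conj q (χ⁻¹) (y : ZMod q) hu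
    have e2 := L2G.co_inv_apply q (χ⁻¹) (y : ZMod q) hu
    rw [inv_inv] at e2
    rw [e1, ← e2]
  · rw [if_neg hy]
    have hu : ¬ IsUnit ((y : ℕ) : ZMod q) := fun h => hy ((ZMod.isUnit_iff_coprime y q).1 h)
    rw [MulChar.map_nonunit _ hu, map_zero, zero_mul]

/-- `kap h ≤ C h^(-1/4)` -/
private theorem ser_kap : ∃ C : ℝ, 1 ≤ C ∧ ∀ h : ℕ, 1 ≤ h →
    BG.kap h ≤ C * (h : ℝ) ^ (-(1 / 4) : ℝ) := by
  obtain ⟨C, hC, hk⟩ := BG.kap_le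
  refine ⟨C, hC, fun h hh => le_trans ?_ (hk h hh)⟩
  have hφ : (0 : ℝ) < (Nat.totient h : ℝ) := by exact_mod_cast Nat.totient_pos.2 hh
  have h1 : (1 : ℝ) ≤ (h : ℝ) / Nat.totient h := by
    rw [one_le_div hφ]
    exact_mod_cast Nat.totient_le h
  calc BG.kap h = 1 * BG.kap h := (one_mul _).symm
    _ ≤ (h : ℝ) / Nat.totient h * BG.kap h := mul_le_mul_of_nonneg_right h1 (BG.kap_nonneg h)

/-- the pointwise bound -/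
private theorem ser_cf : ∃ K : ℝ, 0 < K ∧ ∀ (X n q : ℕ), 1 ≤ n → n ≤ X → 1 ≤ q → ∀ ψ₁ ψ₂ : PC,
    IsPC ψ₁ → IsPC ψ₂ → ψ₁.1 ≤ X → ψ₂.1 ≤ X → ψ₁.1 ∣ q → ψ₂.1 ∣ q →
    cf q n (ind q ψ₁) (ind q ψ₂) ≤
      K * (X : ℝ) ^ (5 / 4 : ℝ) * (q : ℝ) ^ (-(29 / 24) : ℝ) := by
  obtain ⟨C, hC, hk⟩ := ser_kap
  obtain ⟨c, hc, hφ⟩ := totient_rpow (ε := 1 / 24) (by norm_num)
  refine ⟨C / c, by positivity, fun X n q hn hnX hq ψ₁ ψ₂ h1 h2 hX1 hX2 hd1 hd2 => ?_⟩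
  have hq0 : q ≠ 0 := by omega
  have hNZ : NeZero q := ⟨hq0⟩
  have hqr : (0 : ℝ) < (q : ℝ) := by exact_mod_cast hq
  have hXr : (0 : ℝ) < (X : ℝ) := by exact_mod_cast (lt_of_lt_of_le hn hnX)
  have hφq : (0 : ℝ) < (Nat.totient q : ℝ) := by exact_mod_cast Nat.totient_pos.2 hq
  have hlow : c * (q : ℝ) ^ (23 / 24 : ℝ) ≤ (Nat.totient q : ℝ) := by
    have := hφ q hq
    norm_num at this
    exact this
  -- Gauss sums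
  have t1 : ‖tq q (ind q ψ₁)⁻¹‖ ^ 2 ≤ (X : ℝ) := by
    refine (LXP.gs_cond q _).trans ?_
    rw [DirichletCharacter.conductor_inv, BX.ind_cond q hq ψ₁ h1 hd1]
    exact_mod_cast hX1
  have t2 : ‖tq q (ind q ψ₂)⁻¹‖ ^ 2 ≤ (X : ℝ) := by
    refine (LXP.gs_cond q _).trans ?_
    rw [DirichletCharacter.conductor_inv, BX.ind_cond q hq ψ₂ h2 hd2]
    exact_mod_cast hX2
  have t3 : ‖tq q (ind q ψ₁)⁻¹‖ * ‖tq q (ind q ψ₂)⁻¹‖ ≤ (X : ℝ) := by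
    nlinarith [sq_nonneg (‖tq q (ind q ψ₁)⁻¹‖ - ‖tq q (ind q ψ₂)⁻¹‖)]
  -- the Ramanujan sum
  have hh1 : 1 ≤ PL.hq q n := BG.hq_pos q n hq
  have t4 : ‖Rm q n (ind q ψ₁ * ind q ψ₂)‖ ≤ (Nat.totient q : ℝ) * BG.kap (PL.hq q n) := by
    rw [← ser_ram q n hq]
    exact BG.ram_le q n hq _
  have hh : (q : ℝ) / X ≤ (PL.hq q n : ℝ) := by
    have e1 : q = Nat.gcd q n * PL.hq q n := (Nat.mul_div_cancel' (Nat.gcd_dvd_left q n)).symm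
    have e2 : Nat.gcd q n ≤ X := (Nat.le_of_dvd hn (Nat.gcd_dvd_right q n)).trans hnX
    rw [div_le_iff₀ hXr]
    have e3 : q ≤ X * PL.hq q n := by
      calc q = Nat.gcd q n * PL.hq q n := e1
        _ ≤ X * PL.hq q n := Nat.mul_le_mul_right _ e2
    calc (q : ℝ) ≤ ((X * PL.hq q n : ℕ) : ℝ) := by exact_mod_cast e3
      _ = (PL.hq q n : ℝ) * X := by push_cast; ring
  have t5 : BG.kap (PL.hq q n) ≤ C * ((X : ℝ) ^ (1 / 4 : ℝ) * (q : ℝ) ^ (-(1 / 4) : ℝ)) := by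
    refine (hk _ hh1).trans (mul_le_mul_of_nonneg_left ?_ (by linarith))
    have e4 : (PL.hq q n : ℝ) ^ (-(1 / 4) : ℝ) ≤ ((q : ℝ) / X) ^ (-(1 / 4) : ℝ) :=
      Real.rpow_le_rpow_of_nonpos (by positivity) hh (by norm_num)
    refine e4.trans (le_of_eq ?_)
    rw [Real.div_rpow hqr.le hXr.le, Real.rpow_neg hXr.le, div_inv_eq_mul, mul_comm]
  -- together
  unfold cf
  rw [dif_neg hq0, div_le_iff₀ (by positivity)]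
  have hk0 := BG.kap_nonneg (PL.hq q n)
  calc ‖tq q (ind q ψ₁)⁻¹‖ * ‖tq q (ind q ψ₂)⁻¹‖ * ‖Rm q n (ind q ψ₁ * ind q ψ₂)‖
      ≤ (X : ℝ) * ((Nat.totient q : ℝ) * BG.kap (PL.hq q n)) :=
        mul_le_mul t3 t4 (norm_nonneg _) hXr.le
    _ ≤ (X : ℝ) * ((Nat.totient q : ℝ) *
          (C * ((X : ℝ) ^ (1 / 4 : ℝ) * (q : ℝ) ^ (-(1 / 4) : ℝ)))) := by
        gcongr
    _ = C * (X : ℝ) ^ (5 / 4 : ℝ) * (q : ℝ) ^ (-(1 / 4) : ℝ) * (Nat.totient q : ℝ) := by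
        rw [show (5 / 4 : ℝ) = 1 + 1 / 4 by norm_num, Real.rpow_add hXr, Real.rpow_one]
        ring
    _ ≤ C * (X : ℝ) ^ (5 / 4 : ℝ) * (q : ℝ) ^ (-(1 / 4) : ℝ) *
          ((Nat.totient q : ℝ) * ((Nat.totient q : ℝ) * (c⁻¹ * (q : ℝ) ^ (-(23 / 24) : ℝ)))) := by
        refine mul_le_mul_of_nonneg_left ?_ (by positivity)
        have e5 : 1 ≤ (Nat.totient q : ℝ) * (c⁻¹ * (q : ℝ) ^ (-(23 / 24) : ℝ)) := by
          have e6 : c * (q : ℝ) ^ (23 / 24 : ℝ) * (c⁻¹ * (q : ℝ) ^ (-(23 / 24) : ℝ)) = 1 := by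
            rw [Real.rpow_neg hqr.le]
            have : (q : ℝ) ^ (23 / 24 : ℝ) ≠ 0 := (Real.rpow_pos_of_pos hqr _).ne'
            field_simp
          rw [← e6]
          exact mul_le_mul_of_nonneg_right hlow (by positivity)
        exact le_mul_of_one_le_right hφq.le e5
    _ = C / c * (X : ℝ) ^ (5 / 4 : ℝ) * (q : ℝ) ^ (-(29 / 24) : ℝ) *
          (Nat.totient q : ℝ) ^ 2 := by
        rw [show (-(29 / 24) : ℝ) = -(1 / 4) + -(23 / 24) by norm_num, Real.rpow_add hqr]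
        ring

open Classical in
private theorem ser_term {K : ℝ} (hK : 0 < K) (X n : ℕ) (ψ₁ ψ₂ : PC)
    (h : ∀ q : ℕ, 1 ≤ q → ψ₁.1 ∣ q → ψ₂.1 ∣ q → cf q n (ind q ψ₁) (ind q ψ₂) ≤
      K * (X : ℝ) ^ (5 / 4 : ℝ) * (q : ℝ) ^ (-(29 / 24) : ℝ)) (q : ℕ) :
    ‖if ψ₁.1 ∣ q ∧ ψ₂.1 ∣ q then cc q n ψ₁ ψ₂ else 0‖ ≤
      K * (X : ℝ) ^ (5 / 4 : ℝ) * (q : ℝ) ^ (-(29 / 24) : ℝ) := by
  split_ifs with hd
  · rcases Nat.eq_zero_or_pos q with rfl | hq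
    · unfold cc
      rw [dif_pos rfl, norm_zero]
      positivity
    · rw [cc_norm]
      exact h q hq hd.1 hd.2
  · rw [norm_zero]
    positivity

theorem serF : SerF := by
  classical
  obtain ⟨K, hK, hcf⟩ := ser_cf
  have hs1 : Summable fun q : ℕ => (q : ℝ) ^ (-(29 / 24) : ℝ) :=
    Real.summable_nat_rpow.2 (by norm_num)
  have hs2 : Summable fun q : ℕ => (q : ℝ) ^ (-(25 / 24) : ℝ) :=
    Real.summable_nat_rpow.2 (by norm_num)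
  obtain ⟨S, hS⟩ : ∃ S : ℝ, S = ∑' q : ℕ, (q : ℝ) ^ (-(25 / 24) : ℝ) := ⟨_, rfl⟩
  have hS0 : 0 ≤ S := by rw [hS]; exact tsum_nonneg fun q => by positivity
  obtain ⟨X0, hX0⟩ := exists_nat_ge (K * S)
  refine ⟨X0, fun X hX n hn hnX ψ₁ ψ₂ h1 h2 hX1 hX2 => ?_⟩
  have hX1' : 1 ≤ X := hn.trans hnX
  have hXr : (0 : ℝ) < (X : ℝ) := by exact_mod_cast hX1'
  have hXr1 : (1 : ℝ) ≤ (X : ℝ) := by exact_mod_cast hX1'
  have hb := ser_term hK X n ψ₁ ψ₂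
    (fun q hq hd1 hd2 => hcf X n q hn hnX hq ψ₁ ψ₂ h1 h2 hX1 hX2 hd1 hd2)
  have hsum : Summable fun q : ℕ => ‖if ψ₁.1 ∣ q ∧ ψ₂.1 ∣ q then cc q n ψ₁ ψ₂ else 0‖ := by
    refine Summable.of_nonneg_of_le (fun q => norm_nonneg _) hb ?_
    exact hs1.mul_left _
  refine ⟨hsum, ?_⟩
  obtain ⟨f, hf⟩ : ∃ f : ℕ → ℂ, f = fun q : ℕ =>
    if ψ₁.1 ∣ q ∧ ψ₂.1 ∣ q then cc q n ψ₁ ψ₂ else 0 := ⟨_, rfl⟩
  have hfb : ∀ q : ℕ, ‖f q‖ ≤ K * (X : ℝ) ^ (5 / 4 : ℝ) * (q : ℝ) ^ (-(29 / 24) : ℝ) := by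
    intro q
    rw [hf]
    exact hb q
  have hfs : Summable f := by
    rw [hf]
    exact Summable.of_norm hsum
  have e1 : ∑ q ∈ (Icc 1 (ZE X)).filter (fun q => ψ₁.1 ∣ q ∧ ψ₂.1 ∣ q), cc q n ψ₁ ψ₂ =
      ∑ q ∈ range (ZE X + 1), f q := by
    rw [Finset.sum_filter, hf]
    refine Finset.sum_subset ?_ ?_
    · intro q hq
      rw [Finset.mem_Icc] at hq
      exact Finset.mem_range.2 (by omega)
    · intro q hq hq'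
      have hq0 : q = 0 := by
        rw [Finset.mem_range] at hq
        rw [Finset.mem_Icc] at hq'
        omega
      subst hq0
      unfold cc
      simp
  have e2 : SP n ψ₁ ψ₂ = ∑' q : ℕ, f q := by
    rw [hf]
    unfold SP
    rfl
  rw [e1, e2, ← hfs.sum_add_tsum_nat_add (ZE X + 1), add_sub_cancel_left]
  have hZ : (0 : ℝ) < ((ZE X + 1 : ℕ) : ℝ) := by positivity
  have hZ' : (X : ℝ) ^ (16 : ℕ) ≤ ((ZE X + 1 : ℕ) : ℝ) := by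
    unfold ZE
    push_cast
    linarith
  have hshift : Summable fun q : ℕ => ((q + (ZE X + 1) : ℕ) : ℝ) ^ (-(25 / 24) : ℝ) :=
    (summable_nat_add_iff (ZE X + 1)).2 hs2
  have hle : ∀ q : ℕ, ‖f (q + (ZE X + 1))‖ ≤ K * (X : ℝ) ^ (5 / 4 : ℝ) *
      (X : ℝ) ^ (-(8 / 3) : ℝ) * ((q + (ZE X + 1) : ℕ) : ℝ) ^ (-(25 / 24) : ℝ) := by
    intro q
    refine (hfb _).trans ?_
    have hm : (0 : ℝ) < ((q + (ZE X + 1) : ℕ) : ℝ) := by positivity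
    have hm2 : (X : ℝ) ^ (16 : ℕ) ≤ ((q + (ZE X + 1) : ℕ) : ℝ) := by
      refine hZ'.trans ?_
      push_cast
      linarith [Nat.cast_nonneg (α := ℝ) q]
    have e3 : ((q + (ZE X + 1) : ℕ) : ℝ) ^ (-(29 / 24) : ℝ) =
        ((q + (ZE X + 1) : ℕ) : ℝ) ^ (-(1 / 6) : ℝ) *
          ((q + (ZE X + 1) : ℕ) : ℝ) ^ (-(25 / 24) : ℝ) := by
      rw [← Real.rpow_add hm]
      norm_num
    have e4 : ((q + (ZE X + 1) : ℕ) : ℝ) ^ (-(1 / 6) : ℝ) ≤ (X : ℝ) ^ (-(8 / 3) : ℝ) := by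
      calc ((q + (ZE X + 1) : ℕ) : ℝ) ^ (-(1 / 6) : ℝ)
          ≤ ((X : ℝ) ^ (16 : ℕ)) ^ (-(1 / 6) : ℝ) :=
            Real.rpow_le_rpow_of_nonpos (by positivity) hm2 (by norm_num)
        _ = (X : ℝ) ^ (-(8 / 3) : ℝ) := by
            rw [← Real.rpow_natCast, ← Real.rpow_mul hXr.le]
            norm_num
    rw [e3, ← mul_assoc]
    gcongr
  have hsum2 : Summable fun q : ℕ => K * (X : ℝ) ^ (5 / 4 : ℝ) *
      (X : ℝ) ^ (-(8 / 3) : ℝ) * ((q + (ZE X + 1) : ℕ) : ℝ) ^ (-(25 / 24) : ℝ) :=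
    hshift.mul_left _
  have h3 : ‖∑' q : ℕ, f (q + (ZE X + 1))‖ ≤ ∑' q : ℕ, K * (X : ℝ) ^ (5 / 4 : ℝ) *
      (X : ℝ) ^ (-(8 / 3) : ℝ) * ((q + (ZE X + 1) : ℕ) : ℝ) ^ (-(25 / 24) : ℝ) :=
    tsum_of_norm_bounded hsum2.hasSum hle
  refine h3.trans ?_
  rw [tsum_mul_left]
  have h4 : ∑' q : ℕ, ((q + (ZE X + 1) : ℕ) : ℝ) ^ (-(25 / 24) : ℝ) ≤ S := by
    rw [hS, ← hs2.sum_add_tsum_nat_add (ZE X + 1)]
    have : 0 ≤ ∑ q ∈ range (ZE X + 1), ((q : ℕ) : ℝ) ^ (-(25 / 24) : ℝ) :=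
      Finset.sum_nonneg fun q _ => by positivity
    linarith
  have h5 : K * S ≤ (X : ℝ) := hX0.trans (by exact_mod_cast hX)
  calc K * (X : ℝ) ^ (5 / 4 : ℝ) * (X : ℝ) ^ (-(8 / 3) : ℝ) *
        ∑' q : ℕ, ((q + (ZE X + 1) : ℕ) : ℝ) ^ (-(25 / 24) : ℝ)
      ≤ K * (X : ℝ) ^ (5 / 4 : ℝ) * (X : ℝ) ^ (-(8 / 3) : ℝ) * S :=
        mul_le_mul_of_nonneg_left h4 (by positivity)
    _ = K * S * ((X : ℝ) ^ (5 / 4 : ℝ) * (X : ℝ) ^ (-(8 / 3) : ℝ)) := by ring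
    _ ≤ (X : ℝ) * ((X : ℝ) ^ (5 / 4 : ℝ) * (X : ℝ) ^ (-(8 / 3) : ℝ)) :=
        mul_le_mul_of_nonneg_right h5 (by positivity)
    _ = (X : ℝ) ^ (-(5 / 12) : ℝ) := by
        rw [← Real.rpow_add hXr]
        nth_rewrite 1 [← Real.rpow_one (X : ℝ)]
        rw [← Real.rpow_add hXr]
        norm_num
    _ ≤ (X : ℝ) ^ (-(1 / 8) : ℝ) := Real.rpow_le_rpow_of_exponent_le hXr1 (by norm_num)

end Pool.MP_dd84fd_nt.EF
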