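import Pool.Agent.Lib.MP_dd84fd_nt.EF.Exp
import Pool.Agent.Lib.MP_dd84fd_nt.BX.Gau
import Pool.Agent.Lib.MP_dd84fd_nt.JX.PlLam
import Pool.Agent.Lib.MP_dd84fd_nt.En.Tot

/-!
# EF-Tail: large `q/(q,n)`

`dV_expand`, `IS_le`: `≤ #Y² · 2 L^B X · max_ψ₁ψ₂ ∑_q ‖cc q‖` over `q ≤ X^16`, `h_q = q/(q,n) > L^K1`, `[r₁,r₂] ∣ q`.
`‖cc‖ = cf` `≤ (r₁r₂)^(1/2)/φ(q) · kap(h_q)` (`BG.tqq_cond`, `BG.ram_le`), `kap h ≤ C h^(-1/4)` (`BG.kap_le`);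
`(r₁r₂)^(1/2) ≤ r = [r₁,r₂]`, `∑_{q ≤ X^16, r ∣ q} r/φ(q) ≤ C L²` (`q/φ(q) ≤ C L`).  So the tail is
`≤ C L^(2 + B + 2C') X L^(-K1/4)`.
-/

set_option autoImplicit false

namespace Pool.MP_dd84fd_nt.EF

open Finset Pool.MP_67663b_nt.Odd Pool.MP_dd84fd_nt.En Pool.MP_dd84fd_nt.E2 Pool.MP_dd84fd_nt.LS
open Pool.MP_dd84fd_nt.GX Pool.MP_dd84fd_nt.HX Pool.MP_dd84fd_nt.IX
open Pool.MP_dd84fd_nt.PL (rr)
open Pool.MP_dd84fd_nt.JX (wP gP DecJ Adm AdmP Str)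
open Pool.MP_dd84fd_nt.LX (FFL DecW PhU)
open Pool.MP_dd84fd_nt.LXP (tq)
open Pool.MP_dd84fd_nt.BX (PC pv IsPC PR SX sN prc ind Rm cf N2d DiscH)

/-! ### The coefficient of a pair -/

/-- the inverse character -/
private noncomputable def tl_iv (ψ : PC) : PC := ⟨ψ.1, ψ.2⁻¹⟩

private theorem tl_iv_pc (ψ : PC) (h : IsPC ψ) : BG.Pri (tl_iv ψ) := by
  refine ⟨h.1, ?_⟩
  show (ψ.2⁻¹).IsPrimitive
  rw [DirichletCharacter.isPrimitive_def, DirichletCharacter.conductor_inv]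
  exact h.2

private theorem tl_ind_up (q : ℕ) (ψ : PC) : ind q ψ = BG.up ψ q := by
  unfold BX.ind BG.up
  by_cases h : ψ.1 ∣ q
  · simp only [dif_pos h]
  · simp only [dif_neg h]

private theorem tl_up_iv (q : ℕ) (ψ : PC) : BG.up (tl_iv ψ) q = (BG.up ψ q)⁻¹ := by
  unfold BG.up
  by_cases h : ψ.1 ∣ q
  · have h' : (tl_iv ψ).1 ∣ q := h
    rw [dif_pos h, dif_pos h']
    exact map_inv (DirichletCharacter.changeLevel h) ψ.2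
  · have h' : ¬ (tl_iv ψ).1 ∣ q := h
    rw [dif_neg h, dif_neg h', inv_one]

private theorem tl_ram_rm (q n : ℕ) (hq : 1 ≤ q) (χ : DirichletCharacter ℂ q) :
    BG.Ram q n χ⁻¹ = Rm q n χ := by
  have : NeZero q := ⟨by omega⟩
  unfold BG.Ram Rm rr
  rw [Finset.sum_filter]
  refine Finset.sum_congr rfl fun y _ => ?_
  by_cases hy : Nat.Coprime y q
  · rw [if_pos hy]
    have hu : IsUnit ((y : ℕ) : ZMod q) := (ZMod.isUnit_iff_coprime y q).2 hy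
    have e1 := L2G.co_char_conj q (χ⁻¹) (y : ZMod q) hu
    have e2 := L2G.co_inv_apply q (χ⁻¹) (y : ZMod q) hu
    rw [inv_inv] at e2
    rw [e1, ← e2]
  · rw [if_neg hy]
    have hu : ¬ IsUnit ((y : ℕ) : ZMod q) := fun h => hy ((ZMod.isUnit_iff_coprime y q).1 h)
    rw [MulChar.map_nonunit _ hu, map_zero, zero_mul]

private theorem tl_cf_co (q n : ℕ) (hq : 1 ≤ q) (ψ₁ ψ₂ : PC) :
    cf q n (ind q ψ₁) (ind q ψ₂) = BG.co q n (BG.up (tl_iv ψ₁) q) (BG.up (tl_iv ψ₂) q) := by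
  have hq0 : q ≠ 0 := by omega
  have hne : NeZero q := ⟨hq0⟩
  unfold cf BG.co
  rw [dif_neg hq0, tl_ind_up, tl_ind_up, tl_up_iv, tl_up_iv, BG.tqq_eq, BG.tqq_eq, ← mul_inv,
    tl_ram_rm q n hq]

private theorem tl_co_le (n q : ℕ) (hq1 : 1 ≤ q) (P₁ P₂ : BG.Ch) (h1 : BG.Pri P₁)
    (h2 : BG.Pri P₂) (hd : Nat.lcm P₁.1 P₂.1 ∣ q) :
    BG.co q n (BG.up P₁ q) (BG.up P₂ q) ≤
      (Nat.lcm P₁.1 P₂.1 : ℝ) / Nat.totient q * BG.kap (PL.hq q n) := by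
  have : NeZero q := ⟨by omega⟩
  have a1 : P₁.1 ∣ q := (Nat.dvd_lcm_left _ _).trans hd
  have a2 : P₂.1 ∣ q := (Nat.dvd_lcm_right _ _).trans hd
  have hl0 : 0 < Nat.lcm P₁.1 P₂.1 := Nat.pos_of_ne_zero fun h => by
    rw [h] at hd
    have := Nat.eq_zero_of_zero_dvd hd
    omega
  have hφ : (0 : ℝ) < (Nat.totient q : ℝ) := by exact_mod_cast Nat.totient_pos.2 hq1
  have t1 : ‖BG.tqq q (BG.up P₁ q)‖ ^ 2 ≤ (Nat.lcm P₁.1 P₂.1 : ℝ) := by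
    refine (BG.tqq_cond q _).trans ?_
    rw [BG.up_cond P₁ h1 q hq1 a1]
    exact_mod_cast Nat.le_of_dvd hl0 (Nat.dvd_lcm_left _ _)
  have t2 : ‖BG.tqq q (BG.up P₂ q)‖ ^ 2 ≤ (Nat.lcm P₁.1 P₂.1 : ℝ) := by
    refine (BG.tqq_cond q _).trans ?_
    rw [BG.up_cond P₂ h2 q hq1 a2]
    exact_mod_cast Nat.le_of_dvd hl0 (Nat.dvd_lcm_right _ _)
  have t3 : ‖BG.tqq q (BG.up P₁ q)‖ * ‖BG.tqq q (BG.up P₂ q)‖ ≤ (Nat.lcm P₁.1 P₂.1 : ℝ) := by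
    nlinarith [sq_nonneg (‖BG.tqq q (BG.up P₁ q)‖ - ‖BG.tqq q (BG.up P₂ q)‖)]
  have t4 : ‖BG.Ram q n (BG.up P₁ q * BG.up P₂ q)‖ ≤ (Nat.totient q : ℝ) * BG.kap (PL.hq q n) :=
    BG.ram_le q n hq1 _
  unfold BG.co
  rw [div_le_iff₀ (by positivity)]
  calc ‖BG.tqq q (BG.up P₁ q)‖ * ‖BG.tqq q (BG.up P₂ q)‖ * ‖BG.Ram q n (BG.up P₁ q * BG.up P₂ q)‖
      ≤ (Nat.lcm P₁.1 P₂.1 : ℝ) * ((Nat.totient q : ℝ) * BG.kap (PL.hq q n)) :=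
        mul_le_mul t3 t4 (norm_nonneg _) (by positivity)
    _ = (Nat.lcm P₁.1 P₂.1 : ℝ) / Nat.totient q * BG.kap (PL.hq q n) * (Nat.totient q : ℝ) ^ 2 := by
        field_simp

private theorem tl_cf_le (n q : ℕ) (hq1 : 1 ≤ q) (ψ₁ ψ₂ : PC) (h1 : IsPC ψ₁) (h2 : IsPC ψ₂)
    (hd : Nat.lcm ψ₁.1 ψ₂.1 ∣ q) :
    cf q n (ind q ψ₁) (ind q ψ₂) ≤
      (Nat.lcm ψ₁.1 ψ₂.1 : ℝ) / Nat.totient q * BG.kap (PL.hq q n) := by
  rw [tl_cf_co q n hq1]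
  exact tl_co_le n q hq1 (tl_iv ψ₁) (tl_iv ψ₂) (tl_iv_pc ψ₁ h1) (tl_iv_pc ψ₂ h2) hd

private theorem tl_cf_nonneg (n q : ℕ) (ψ₁ ψ₂ : PC) : 0 ≤ cf q n (ind q ψ₁) (ind q ψ₂) := by
  rw [← cc_norm]
  exact norm_nonneg _

/-! ### Sums -/

private theorem tl_tot (Z q : ℕ) (hq : 1 ≤ q) (hqX : q ≤ Z) (hX : 1 ≤ Real.log Z) :
    1 / (Nat.totient q : ℝ) ≤ 4 * Real.log Z * (1 / q) := by
  have h1 := totient_ge q hq
  have h2 : 1 + Real.logb 2 q ≤ 4 * Real.log Z := by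
    have h1 : Real.logb 2 q = Real.log q / Real.log 2 := rfl
    have h2 : Real.log q ≤ Real.log Z :=
      Real.log_le_log (by exact_mod_cast hq) (by exact_mod_cast hqX)
    have h3 : (0.5 : ℝ) < Real.log 2 := by have := Real.log_two_gt_d9; linarith
    have h4 : 0 ≤ Real.log q := Real.log_natCast_nonneg q
    have h5 : Real.log q / Real.log 2 ≤ 2 * Real.log q := by
      rw [div_le_iff₀ (by linarith)]
      nlinarith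
    rw [h1]
    linarith
  have h3 : (0 : ℝ) < Nat.totient q := by exact_mod_cast Nat.totient_pos.2 hq
  have h4 : (0 : ℝ) < q := by exact_mod_cast hq
  rw [mul_one_div, div_le_div_iff₀ h3 h4]
  nlinarith

private theorem tl_sum (Z r : ℕ) (hr : 1 ≤ r) (hZ : 1 ≤ Real.log Z) (QQ : Finset ℕ)
    (hQ : ∀ q ∈ QQ, 1 ≤ q ∧ q ≤ Z ∧ r ∣ q) :
    ∑ q ∈ QQ, (r : ℝ) / (Nat.totient q : ℝ) ≤ 8 * (Real.log Z) ^ 2 := by
  have hr0 : (0 : ℝ) < r := by exact_mod_cast hr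
  have h1 : ∀ q ∈ QQ, (r : ℝ) / (Nat.totient q : ℝ) ≤
      4 * Real.log Z * (1 / ((q / r : ℕ) : ℝ)) := by
    intro q hq
    obtain ⟨a1, a2, a3⟩ := hQ q hq
    have b1 := tl_tot Z q a1 a2 hZ
    have hq0 : (0 : ℝ) < q := by exact_mod_cast a1
    have b2 : ((q / r : ℕ) : ℝ) = (q : ℝ) / r := Nat.cast_div a3 hr0.ne'
    rw [b2]
    calc (r : ℝ) / (Nat.totient q : ℝ) = r * (1 / (Nat.totient q : ℝ)) := by ring
      _ ≤ r * (4 * Real.log Z * (1 / q)) := mul_le_mul_of_nonneg_left b1 hr0.le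
      _ = _ := by field_simp
  refine (Finset.sum_le_sum h1).trans ?_
  rw [← Finset.mul_sum]
  have hinj : Set.InjOn (fun q => q / r) (QQ : Set ℕ) := by
    intro q hq q' hq' h
    have c1 := (hQ q hq).2.2
    have c2 := (hQ q' hq').2.2
    simp only at h
    rw [← Nat.mul_div_cancel' c1, ← Nat.mul_div_cancel' c2, h]
  have h2 : ∑ q ∈ QQ, 1 / ((q / r : ℕ) : ℝ) = ∑ m ∈ QQ.image (fun q => q / r), 1 / (m : ℝ) := by
    rw [Finset.sum_image hinj]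
  rw [h2]
  have h3 := JXP.lamj_harm Z (QQ.image (fun q => q / r)) (by
    intro m hm
    obtain ⟨q, hq, rfl⟩ := Finset.mem_image.1 hm
    obtain ⟨a1, a2, a3⟩ := hQ q hq
    exact ⟨Nat.div_pos (Nat.le_of_dvd (by omega) a3) hr, (Nat.div_le_self _ _).trans a2⟩)
  nlinarith

/-- one pair -/
private theorem tl_pair (Z n : ℕ) (hZ : 1 ≤ Real.log Z) (ψ₁ ψ₂ : PC) (h1 : IsPC ψ₁)
    (h2 : IsPC ψ₂) (κ : ℝ) (hκ : 0 ≤ κ) (QQ : Finset ℕ)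
    (hQ : ∀ q ∈ QQ, 1 ≤ q ∧ q ≤ Z ∧ BG.kap (PL.hq q n) ≤ κ) :
    ∑ q ∈ QQ, (if ψ₁.1 ∣ q then (if ψ₂.1 ∣ q then cf q n (ind q ψ₁) (ind q ψ₂) else 0) else 0) ≤
      8 * (Real.log Z) ^ 2 * κ := by
  classical
  obtain ⟨r, hr⟩ : ∃ r, r = Nat.lcm ψ₁.1 ψ₂.1 := ⟨_, rfl⟩
  have hr1 : 1 ≤ r := by
    rw [hr]
    exact Nat.lcm_pos h1.1 h2.1
  have e1 : ∑ q ∈ QQ, (if ψ₁.1 ∣ q then
      (if ψ₂.1 ∣ q then cf q n (ind q ψ₁) (ind q ψ₂) else 0) else 0) ≤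
      ∑ q ∈ QQ.filter (fun q => r ∣ q), (r : ℝ) / (Nat.totient q : ℝ) * κ := by
    rw [Finset.sum_filter]
    refine Finset.sum_le_sum fun q hq => ?_
    obtain ⟨a1, a2, a3⟩ := hQ q hq
    by_cases b1 : ψ₁.1 ∣ q
    · by_cases b2 : ψ₂.1 ∣ q
      · have b3 : Nat.lcm ψ₁.1 ψ₂.1 ∣ q := Nat.lcm_dvd b1 b2
        have b4 : r ∣ q := by rw [hr]; exact b3
        rw [if_pos b1, if_pos b2, if_pos b4]
        have b5 := tl_cf_le n q a1 ψ₁ ψ₂ h1 h2 b3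
        rw [← hr] at b5
        exact b5.trans (mul_le_mul_of_nonneg_left a3 (by positivity))
      · rw [if_pos b1, if_neg b2]
        split_ifs <;> positivity
    · rw [if_neg b1]
      split_ifs <;> positivity
  refine e1.trans ?_
  rw [← Finset.sum_mul]
  refine mul_le_mul_of_nonneg_right ?_ hκ
  refine tl_sum Z r hr1 hZ _ fun q hq => ?_
  rw [Finset.mem_filter] at hq
  exact ⟨(hQ q hq.1).1, (hQ q hq.1).2.1, hq.2⟩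

/-- one denominator -/
private theorem tl_dV (X : ℕ) (hX : 1 ≤ X) (Y : Finset PC) (n q : ℕ) (hq : 1 ≤ q) (v V : ℝ)
    (hv : 0 ≤ v) (hV : v ≤ V) :
    ‖dV X Y n q v‖ ≤ 2 * V * X * ∑ ψ₁ ∈ Y, ∑ ψ₂ ∈ Y,
      (if ψ₁.1 ∣ q then (if ψ₂.1 ∣ q then cf q n (ind q ψ₁) (ind q ψ₂) else 0) else 0) := by
  classical
  rw [dV_expand X Y n q hq v]
  refine (norm_sum_le _ _).trans ?_
  rw [Finset.sum_filter, Finset.mul_sum]
  refine Finset.sum_le_sum fun ψ₁ h1 => ?_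
  by_cases b1 : ψ₁.1 ∣ q
  · rw [if_pos b1]
    refine (norm_sum_le _ _).trans ?_
    rw [Finset.sum_filter, Finset.mul_sum]
    refine Finset.sum_le_sum fun ψ₂ h2 => ?_
    rw [if_pos b1]
    by_cases b2 : ψ₂.1 ∣ q
    · rw [if_pos b2, if_pos b2, norm_mul, cc_norm]
      have h3 := IS_le X n hX ψ₁ ψ₂ v hv
      have h4 : ‖IS X n ψ₁ ψ₂ v‖ ≤ 2 * V * X := by
        refine h3.trans ?_
        have : (0 : ℝ) ≤ X := Nat.cast_nonneg X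
        nlinarith
      rw [mul_comm]
      exact mul_le_mul_of_nonneg_right h4 (tl_cf_nonneg n q ψ₁ ψ₂)
    · rw [if_neg b2, if_neg b2, mul_zero]
  · rw [if_neg b1]
    refine mul_nonneg (by have := hv.trans hV; positivity) (Finset.sum_nonneg fun ψ₂ _ => ?_)
    rw [if_neg b1]

theorem tailF : TailF := by
  classical
  intro C B A
  obtain ⟨C0, hC0, hkap⟩ := BG.kap_le
  obtain ⟨M, hM⟩ : ∃ M : ℕ, M = B + 2 + 2 * C + A + 1 := ⟨_, rfl⟩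
  refine ⟨4 * M, ⌈Real.exp (4096 * C0)⌉₊, fun X hX Y hY hYc ρ hρ n hn hnX => ?_⟩
  -- the size of `X`
  have hX1 : Real.exp (4096 * C0) ≤ (X : ℝ) := Nat.ceil_le.1 hX
  have hX0 : (0 : ℝ) < X := (Real.exp_pos _).trans_le hX1
  have hXn : 1 ≤ X := by exact_mod_cast hX0
  obtain ⟨L, hL⟩ : ∃ L, L = Real.log X := ⟨_, rfl⟩
  have hL1 : 4096 * C0 ≤ L := by
    rw [hL]
    exact (Real.le_log_iff_exp_le hX0).2 hX1
  have hLone : 1 ≤ L := by linarith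
  have hL0 : 0 < L := by linarith
  have hlogZ : Real.log ((ZE X : ℕ) : ℝ) = 16 * L := by
    unfold ZE
    rw [Nat.cast_pow, Real.log_pow, hL]
    norm_num
  rw [← hL] at hYc ⊢
  have hρ' : ∀ q, 0 ≤ ρ q ∧ ρ q ≤ L ^ B := by
    intro q
    rw [hL]
    exact hρ q
  obtain ⟨F, hF⟩ : ∃ F : Finset ℕ, F = (Icc 1 (ZE X)).filter
    (fun q : ℕ => ¬ (q : ℝ) ≤ L ^ (4 * M) * (Nat.gcd q n : ℝ)) := ⟨_, rfl⟩
  rw [← hF]
  have hFm : ∀ q ∈ F, 1 ≤ q ∧ q ≤ ZE X ∧ BG.kap (PL.hq q n) ≤ C0 / L ^ M := by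
    intro q hq
    rw [hF, Finset.mem_filter, Finset.mem_Icc] at hq
    obtain ⟨⟨a1, a2⟩, a3⟩ := hq
    refine ⟨a1, a2, ?_⟩
    have a4 := not_le.1 a3
    have hh : 1 ≤ PL.hq q n := BG.hq_pos q n a1
    have hh0 : (0 : ℝ) < (PL.hq q n : ℝ) := by exact_mod_cast hh
    have hg : 0 < Nat.gcd q n := Nat.gcd_pos_of_pos_left n a1
    have hg0 : (0 : ℝ) < (Nat.gcd q n : ℝ) := by exact_mod_cast hg
    have e1 : ((PL.hq q n : ℕ) : ℝ) * (Nat.gcd q n : ℝ) = q := by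
      have : PL.hq q n * Nat.gcd q n = q := by
        unfold PL.hq
        exact Nat.div_mul_cancel (Nat.gcd_dvd_left q n)
      exact_mod_cast this
    have e2 : L ^ (4 * M) < (PL.hq q n : ℝ) := by
      rw [← e1] at a4
      exact lt_of_mul_lt_mul_right a4 hg0.le
    have e3 : L ^ M ≤ (PL.hq q n : ℝ) ^ (1 / 4 : ℝ) := by
      have e4 : (L ^ (4 * M)) ^ (1 / 4 : ℝ) = L ^ M := by
        rw [mul_comm, pow_mul, ← Real.rpow_natCast (L ^ M) 4, ← Real.rpow_mul (by positivity)]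
        norm_num
      rw [← e4]
      exact Real.rpow_le_rpow (by positivity) e2.le (by norm_num)
    have e5 := hkap (PL.hq q n) hh
    have hφ : (0 : ℝ) < (Nat.totient (PL.hq q n) : ℝ) := by
      exact_mod_cast Nat.totient_pos.2 hh
    have e6 : (1 : ℝ) ≤ (PL.hq q n : ℝ) / Nat.totient (PL.hq q n) := by
      rw [one_le_div hφ]
      exact_mod_cast Nat.totient_le _
    have e7 := BG.kap_nonneg (PL.hq q n)
    calc BG.kap (PL.hq q n) ≤ (PL.hq q n : ℝ) / Nat.totient (PL.hq q n) * BG.kap (PL.hq q n) := by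
          nlinarith
      _ ≤ C0 * (PL.hq q n : ℝ) ^ (-(1 / 4) : ℝ) := e5
      _ = C0 / (PL.hq q n : ℝ) ^ (1 / 4 : ℝ) := by
          rw [Real.rpow_neg hh0.le]
          exact (div_eq_mul_inv _ _).symm
      _ ≤ C0 / L ^ M := div_le_div_of_nonneg_left (by linarith) (by positivity) e3
  have hκ : 0 ≤ C0 / L ^ M := by
    have : 0 < C0 := by linarith
    positivity
  have hZ1 : 1 ≤ Real.log ((ZE X : ℕ) : ℝ) := by rw [hlogZ]; linarith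
  have h1 : ∑ q ∈ F, ‖dV X Y n q (ρ q)‖ ≤ ∑ q ∈ F, 2 * L ^ B * X * ∑ ψ₁ ∈ Y, ∑ ψ₂ ∈ Y,
      (if ψ₁.1 ∣ q then (if ψ₂.1 ∣ q then cf q n (ind q ψ₁) (ind q ψ₂) else 0) else 0) :=
    Finset.sum_le_sum fun q hq =>
      tl_dV X hXn Y n q (hFm q hq).1 (ρ q) (L ^ B) (hρ' q).1 (hρ' q).2
  have h2 : ∑ q ∈ F, ∑ ψ₁ ∈ Y, ∑ ψ₂ ∈ Y,
      (if ψ₁.1 ∣ q then (if ψ₂.1 ∣ q then cf q n (ind q ψ₁) (ind q ψ₂) else 0) else 0) ≤
      (Y.card : ℝ) * ((Y.card : ℝ) * (8 * (16 * L) ^ 2 * (C0 / L ^ M))) := by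
    rw [Finset.sum_comm]
    have h3 : ∀ ψ₁ ∈ Y, ∑ q ∈ F, ∑ ψ₂ ∈ Y,
        (if ψ₁.1 ∣ q then (if ψ₂.1 ∣ q then cf q n (ind q ψ₁) (ind q ψ₂) else 0) else 0) ≤
        (Y.card : ℝ) * (8 * (16 * L) ^ 2 * (C0 / L ^ M)) := by
      intro ψ₁ hψ₁
      rw [Finset.sum_comm]
      have h4 : ∀ ψ₂ ∈ Y, ∑ q ∈ F,
          (if ψ₁.1 ∣ q then (if ψ₂.1 ∣ q then cf q n (ind q ψ₁) (ind q ψ₂) else 0) else 0) ≤
          8 * (16 * L) ^ 2 * (C0 / L ^ M) := by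
        intro ψ₂ hψ₂
        rw [← hlogZ]
        exact tl_pair (ZE X) n hZ1 ψ₁ ψ₂ (hY ψ₁ hψ₁).1 (hY ψ₂ hψ₂).1 _ hκ F hFm
      refine (Finset.sum_le_sum h4).trans ?_
      rw [Finset.sum_const, nsmul_eq_mul]
    refine (Finset.sum_le_sum h3).trans ?_
    rw [Finset.sum_const, nsmul_eq_mul]
  rw [← Finset.mul_sum] at h1
  have hY0 : (0 : ℝ) ≤ (Y.card : ℝ) := Nat.cast_nonneg _
  have hC00 : 0 < C0 := by linarith
  have h5 : (Y.card : ℝ) * ((Y.card : ℝ) * (8 * (16 * L) ^ 2 * (C0 / L ^ M))) ≤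
      L ^ C * (L ^ C * (8 * (16 * L) ^ 2 * (C0 / L ^ M))) := by
    gcongr
  have h6 : 0 ≤ 2 * L ^ B * (X : ℝ) := by positivity
  refine h1.trans ((mul_le_mul_of_nonneg_left (h2.trans h5) h6).trans ?_)
  have hM' : L ^ M = L ^ B * L ^ 2 * (L ^ C * L ^ C) * L ^ A * L := by
    rw [hM]
    ring
  have e8 : 2 * L ^ B * (X : ℝ) * (L ^ C * (L ^ C * (8 * (16 * L) ^ 2 * (C0 / L ^ M)))) =
      4096 * C0 / L * (X / L ^ A) := by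
    rw [hM']
    field_simp
    ring
  rw [e8]
  have h9 : 4096 * C0 / L ≤ 1 := by
    rw [div_le_one hL0]
    exact hL1
  have h10 : 0 ≤ (X : ℝ) / L ^ A := by positivity
  nlinarith

end Pool.MP_dd84fd_nt.EF
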