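import Pool.Agent.Lib.MP_dd84fd_nt.EF.Defs
import Pool.Agent.Lib.MP_dd84fd_nt.LX.STr

/-!
# EF-Tree: the tree theorem for two functionals

Copy of `LX.tree_l` (LX/STr.lean) with one more alternative in the step.
-/

set_option autoImplicit false

namespace Pool.MP_dd84fd_nt.EF

open Finset Pool.MP_67663b_nt.Odd Pool.MP_dd84fd_nt.En Pool.MP_dd84fd_nt.E2 Pool.MP_dd84fd_nt.LS
open Pool.MP_dd84fd_nt.GX Pool.MP_dd84fd_nt.HX Pool.MP_dd84fd_nt.IX
open Pool.MP_dd84fd_nt.PL (rr)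
open Pool.MP_dd84fd_nt.JX (wP gP DecJ Adm AdmP Str)
open Pool.MP_dd84fd_nt.LX (FFL DecW PhU)
open Pool.MP_dd84fd_nt.LXP (tq)
open Pool.MP_dd84fd_nt.BX (PC pv IsPC PR SX sN prc ind Rm cf N2d DiscH)

private theorem tf_phase (z : ℕ → ℂ) (E : Finset ℕ) (c : ℝ)
    (h : ∀ ph : ℕ → ℂ, (∀ n, ‖ph n‖ ≤ 1) → ‖∑ n ∈ E, ph n * z n‖ ≤ c) :
    ∑ n ∈ E, ‖z n‖ ≤ c := by
  classical
  set ph : ℕ → ℂ := fun n => if z n = 0 then 0 else (starRingEnd ℂ) (z n) / (‖z n‖ : ℂ) with hph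
  have hez : ∀ n, ph n * z n = (‖z n‖ : ℂ) := by
    intro n
    by_cases h0 : z n = 0
    · simp only [hph, h0, if_true, norm_zero, zero_mul, Complex.ofReal_zero]
    · have h1 : (‖z n‖ : ℂ) ≠ 0 := by
        rw [Ne, Complex.ofReal_eq_zero, norm_eq_zero]
        exact h0
      have h2 : (starRingEnd ℂ) (z n) * z n = (‖z n‖ : ℂ) * ‖z n‖ := by
        rw [mul_comm, Complex.mul_conj, Complex.normSq_eq_norm_sq]
        push_cast
        ring
      simp only [hph, h0, if_false]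
      rw [div_mul_eq_mul_div, h2, mul_div_assoc, div_self h1, mul_one]
  have hen : ∀ n, ‖ph n‖ ≤ 1 := by
    intro n
    by_cases h0 : z n = 0
    · simp only [hph, h0, if_true, norm_zero]
      exact zero_le_one
    · simp only [hph, h0, if_false]
      rw [norm_div, RCLike.norm_conj, Complex.norm_real, norm_norm]
      exact div_self_le_one _
  have h1 := h ph hen
  have h2 : ∑ n ∈ E, ph n * z n = ((∑ n ∈ E, ‖z n‖ : ℝ) : ℂ) := by
    rw [Complex.ofReal_sum]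
    exact Finset.sum_congr rfl fun n _ => hez n
  rw [h2, Complex.norm_real, Real.norm_eq_abs,
    abs_of_nonneg (Finset.sum_nonneg fun n _ => norm_nonneg _)] at h1
  exact h1

private theorem step_f (G : ℕ) [NeZero G] (th e : ℝ) (X : ℕ) (hX : 1 ≤ X) (Ph Ps : ℕ → ℂ)
    (E : Finset ℕ) (Λ : ℕ) (bb : ℝ) (hΛ : 1 ≤ Λ) (hb : 1 ≤ bb) (hT : Thin X Λ bb E) (ρ Q Q1 : ℝ)
    (hE : E.Nonempty) (hQ : ∀ n ∈ E, Q < ‖Ph n‖ + ‖Ps n‖) (hQ1 : 2 * Q1 ≤ Q)
    (hst1 : NoAPH G (dl th e) X (wSI G th e X Λ bb) E ρ → ∀ ph : ℕ → ℂ, (∀ n, ‖ph n‖ ≤ 1) →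
      ‖∑ n ∈ E, ph n * Ph n‖ ≤ Q1 * E.card)
    (hst2 : NoQ e X Λ bb E ρ → ∀ ph : ℕ → ℂ, (∀ n, ‖ph n‖ ≤ 1) →
      ‖∑ n ∈ E, ph n * Ps n‖ ≤ Q1 * E.card) :
    ∃ (E' : Finset ℕ) (Λ' : ℕ) (bb' : ℝ), E' ⊆ E ∧ ρ * E.card < E'.card ∧ 1 ≤ Λ' ∧ 1 ≤ bb' ∧
      Thin X Λ' bb' E' ∧ (X : ℝ) ^ (e / 10) * (Λ * bb) < Λ' * bb' := by
  classical
  by_cases hN : NoAPH G (dl th e) X (wSI G th e X Λ bb) E ρ
  · by_cases hM : NoQ e X Λ bb E ρ
    · exfalso
      have h1 := tf_phase Ph E _ (hst1 hN)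
      have h2 := tf_phase Ps E _ (hst2 hM)
      have h3 : ∑ _n ∈ E, Q < ∑ n ∈ E, (‖Ph n‖ + ‖Ps n‖) := Finset.sum_lt_sum_of_nonempty hE hQ
      rw [Finset.sum_const, nsmul_eq_mul, sum_add_distrib] at h3
      have h4 : (0 : ℝ) ≤ E.card := Nat.cast_nonneg _
      nlinarith
    · unfold NoQ at hM
      push Not at hM
      obtain ⟨q, y, hq, hy, hlt, E', hE', hT', hc⟩ := hM
      refine ⟨E', Nat.lcm Λ q, max bb y, hE', hc, Nat.lcm_pos hΛ hq, le_max_of_le_left hb, ?_, ?_⟩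
      · intro n hn n' hn' hnn
        obtain ⟨h1, h2⟩ := hT n (hE' hn) n' (hE' hn') hnn
        obtain ⟨h3, h4⟩ := hT' n hn n' hn' hnn
        refine ⟨Nat.lcm_dvd h1 h3, ?_⟩
        have hnn0 : (0 : ℝ) ≤ (n' : ℝ) - n := by
          have : (n : ℝ) ≤ n' := by exact_mod_cast hnn
          linarith
        rw [mul_max_of_nonneg _ _ hnn0]
        exact max_le h2 h4
      · rw [← mul_assoc]
        exact hlt
  · refine JX.tr_step_g G th e X hX (fun _ => (((|Q| + 1 : ℝ)) : ℂ)) E Λ bb hΛ hb hT ρ Q hE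
      (fun n _ => ?_) (fun h => absurd h hN)
    rw [Complex.norm_real, Real.norm_eq_abs, abs_of_nonneg (by positivity)]
    have := le_abs_self Q
    linarith

/-- the bound for `Λ bb` -/
private theorem tf_bd (t : ℝ) (X : ℕ) (hX : 1 ≤ X) (hX2 : 2 ≤ (X : ℝ) ^ t)
    (E : Finset ℕ) (Λ : ℕ) (bb : ℝ) (hΛ : 1 ≤ Λ) (hb : 1 ≤ bb) (hT : Thin X Λ bb E)
    (hE : (X : ℝ) ^ t ≤ E.card) :
    (Λ : ℝ) * bb ≤ 2 * (X : ℝ) ^ (1 - t) := by
  have hX0 : (0 : ℝ) < X := by exact_mod_cast hX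
  have h1 := tr_card X Λ bb hΛ hb E hT
  have hΛR : (1 : ℝ) ≤ Λ := by exact_mod_cast hΛ
  have hm0 : 0 < (Λ : ℝ) * bb := by positivity
  have h2 : (X : ℝ) ^ t / 2 ≤ (E.card : ℝ) - 1 := by linarith
  have h3 : (X : ℝ) ^ t / 2 * ((Λ : ℝ) * bb) ≤ X :=
    (mul_le_mul_of_nonneg_right h2 hm0.le).trans h1
  have h4 : (X : ℝ) = (X : ℝ) ^ t * (X : ℝ) ^ (1 - t) := by
    rw [← Real.rpow_add hX0]
    have : t + (1 - t) = 1 := by ring
    rw [this, Real.rpow_one]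
  have h5 : 0 < (X : ℝ) ^ t := Real.rpow_pos_of_pos hX0 _
  have h6 : (X : ℝ) ^ t * ((Λ : ℝ) * bb) ≤ (X : ℝ) ^ t * (2 * (X : ℝ) ^ (1 - t)) := by
    have h7 : (X : ℝ) ^ t * (2 * (X : ℝ) ^ (1 - t)) = 2 * X := by
      nth_rewrite 3 [h4]
      ring
    rw [h7]
    linarith
  exact le_of_mul_le_mul_left h6 h5

theorem treeF : TreeF := by
  intro A C CV th e τ hAdm
  have hAdm0 := hAdm
  obtain ⟨ht1, ht2, he0, he1, he3⟩ := hAdm0
  have he2 : e ≤ 1 / 1000 := by linarith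
  obtain ⟨k0, hk0⟩ : ∃ k0 : ℕ, k0 = ⌈10 / e⌉₊ + 1 := ⟨_, rfl⟩
  have hk0n : 1 ≤ k0 := by omega
  have hk0R : (1 : ℝ) ≤ k0 := by exact_mod_cast hk0n
  have hk0p : (0 : ℝ) < k0 := by linarith
  have hk0c : 10 / e ≤ k0 := by
    rw [hk0]
    push_cast
    have := Nat.le_ceil (10 / e)
    linarith
  obtain ⟨η, hη'⟩ : ∃ η : ℝ, η = etaF e := ⟨_, rfl⟩
  have hη : η = e / (2 * k0) := by
    rw [hη', hk0]
    rfl
  have hη0 : 0 < η := by rw [hη]; positivity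
  have hkη : (k0 : ℝ) * η = e / 2 := by
    rw [hη]
    field_simp
  have hηe : η ≤ e := by
    have h1 : 1 * η ≤ k0 * η := mul_le_mul_of_nonneg_right hk0R hη0.le
    rw [hkη] at h1
    linarith
  obtain ⟨X1, hX1⟩ := LX.st_l C CV th e τ η hAdm hη0 hηe
  obtain ⟨X2, hX2⟩ := MP_log_pow 1 (A + 1) (ε := η / 100) (by positivity)
  obtain ⟨X3, hX3⟩ := MP_log_pow 2 0 (ε := e / 4) (by positivity)
  obtain ⟨X4, hX4'⟩ := MP_log_large 2
  refine ⟨X1 + X2 + X3 + X4 + 10000000000, ?_⟩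
  intro X hX G _ hG U hU v hv Ω hΩ1 hΩ2 Ψ hΨ B hB hbad
  by_contra hlt
  push Not at hlt
  have hX4 : (10000000000 : ℝ) ≤ X := by
    have : 10000000000 ≤ X := by omega
    exact_mod_cast this
  have hXn : 1 ≤ X := by omega
  have hX0 : (0 : ℝ) < X := by linarith
  have hX1r : (1 : ℝ) ≤ X := by linarith
  have hpow : (10 : ℝ) ≤ (X : ℝ) ^ (th - 3 * e / 4) := by
    have e1 : (10 : ℝ) = (10000000000 : ℝ) ^ (1 / 10 : ℝ) := by
      rw [show (10000000000 : ℝ) = 10 ^ (10 : ℝ) by norm_num, ← Real.rpow_mul (by norm_num)]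
      norm_num
    calc (10 : ℝ) = (10000000000 : ℝ) ^ (1 / 10 : ℝ) := e1
      _ ≤ (X : ℝ) ^ (1 / 10 : ℝ) := Real.rpow_le_rpow (by norm_num) hX4 (by norm_num)
      _ ≤ (X : ℝ) ^ (th - 3 * e / 4) := Real.rpow_le_rpow_of_exponent_le hX1r (by linarith)
  have hl : 0 < Real.log X := Real.log_pos (by linarith)
  have hl2 : 2 ≤ Real.log X := hX4' X (by omega)
  have hXA : (X : ℝ) ^ (1 - η / 100) ≤ (X : ℝ) / (Real.log X) ^ (A + 1) := by
    have h1 := hX2 X (by omega)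
    rw [one_mul] at h1
    rw [le_div_iff₀ (pow_pos hl (A + 1))]
    calc (X : ℝ) ^ (1 - η / 100) * (Real.log X) ^ (A + 1)
        ≤ (X : ℝ) ^ (1 - η / 100) * (X : ℝ) ^ (η / 100) :=
          mul_le_mul_of_nonneg_left h1 (Real.rpow_nonneg hX0.le _)
      _ = X := by
        rw [← Real.rpow_add hX0, sub_add_cancel, Real.rpow_one]
  have hQQ : 2 * ((X : ℝ) / (Real.log X) ^ (A + 1)) ≤ (X : ℝ) / (Real.log X) ^ A := by
    rw [pow_succ, ← mul_div_assoc, div_le_div_iff₀ (by positivity) (by positivity)]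
    have h1 : 0 < (Real.log X) ^ A := by positivity
    calc 2 * (X : ℝ) * (Real.log X) ^ A ≤ Real.log X * X * (Real.log X) ^ A := by gcongr
      _ = X * ((Real.log X) ^ A * Real.log X) := by ring
  have h2e : (2 : ℝ) ≤ (X : ℝ) ^ (e / 4) := by
    have h1 := hX3 X (by omega)
    rwa [pow_zero, mul_one] at h1
  have key : ∀ k : ℕ, k ≤ k0 → ∃ (E : Finset ℕ) (Λ : ℕ) (bb : ℝ), E ⊆ B ∧ 1 ≤ Λ ∧ 1 ≤ bb ∧
      Thin X Λ bb E ∧ (X : ℝ) ^ (th - e / 4 - k * η) ≤ E.card ∧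
      (X : ℝ) ^ (k * (e / 10)) ≤ (Λ : ℝ) * bb := by
    intro k
    induction k with
    | zero =>
      intro _
      refine ⟨B, 1, 1, subset_rfl, le_rfl, le_rfl, ?_, ?_, ?_⟩
      · intro n hn n' hn' _
        have h1 := Finset.mem_Icc.1 (hB hn)
        have h2 := Finset.mem_Icc.1 (hB hn')
        refine ⟨one_dvd _, ?_⟩
        have h3 : (n' : ℝ) ≤ X := by exact_mod_cast h2.2
        have h4 : (0 : ℝ) ≤ n := Nat.cast_nonneg n
        linarith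
      · rw [Nat.cast_zero, zero_mul, sub_zero]
        exact hlt.le
      · rw [Nat.cast_zero, zero_mul, Real.rpow_zero]
        norm_num
    | succ k ih =>
      intro hk
      obtain ⟨E, Λ, bb, hEB, hΛ, hb, hT, hcard, hm⟩ := ih (by omega)
      have hkR : (k : ℝ) * η ≤ e / 2 := by
        have : (k : ℝ) ≤ k0 := by
          have : k ≤ k0 := by omega
          exact_mod_cast this
        calc (k : ℝ) * η ≤ k0 * η := mul_le_mul_of_nonneg_right this hη0.le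
          _ = e / 2 := hkη
      have hE2 : (X : ℝ) ^ (th - 3 * e / 4) ≤ E.card :=
        (Real.rpow_le_rpow_of_exponent_le hX1r (by linarith)).trans hcard
      have hE3 : (X : ℝ) ^ (th - e) ≤ E.card :=
        (Real.rpow_le_rpow_of_exponent_le hX1r (by linarith)).trans hE2
      have hne : E.Nonempty := by
        rw [← Finset.card_pos]
        have : (0 : ℝ) < E.card := by linarith
        exact_mod_cast this
      have hbd0 := tf_bd (th - 3 * e / 4) X hXn (by linarith) E Λ bb hΛ hb hT hE2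
      have hbd : (Λ : ℝ) * bb ≤ (X : ℝ) ^ (1 - th + e) := by
        refine hbd0.trans ?_
        calc 2 * (X : ℝ) ^ (1 - (th - 3 * e / 4))
            ≤ (X : ℝ) ^ (e / 4) * (X : ℝ) ^ (1 - (th - 3 * e / 4)) :=
              mul_le_mul_of_nonneg_right h2e (Real.rpow_nonneg hX0.le _)
          _ = (X : ℝ) ^ (1 - th + e) := by
              rw [← Real.rpow_add hX0]
              congr 1
              ring
      have hQ : ∀ n ∈ E, (X : ℝ) / (Real.log X) ^ A <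
          ‖PhU G X U v (Ω Λ bb) n‖ + ‖Ψ Λ bb n‖ := fun n hn =>
        hbad n (hEB hn) Λ bb hΛ hb hbd
      have hst : NoAPH G (dl th e) X (wSI G th e X Λ bb) E ((X : ℝ) ^ (-η)) → ∀ ph : ℕ → ℂ,
          (∀ n, ‖ph n‖ ≤ 1) →
          ‖∑ n ∈ E, ph n * PhU G X U v (Ω Λ bb) n‖ ≤
            (X : ℝ) / (Real.log X) ^ (A + 1) * E.card := by
        intro hno ph hph
        have hno' : NoAPH G (dl th e) X (Ω Λ bb) E ((X : ℝ) ^ (-η)) := fun j hj =>
          hno j (hΩ2 Λ bb j hj)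
        have h1 := hX1 X (by omega) G hG U hU v hv (Ω Λ bb) (hΩ1 Λ bb) E
          (hEB.trans hB) hE3 ph hph hno'
        refine h1.trans (mul_le_mul_of_nonneg_right hXA (Nat.cast_nonneg _))
      have hst2 : NoQ e X Λ bb E ((X : ℝ) ^ (-η)) → ∀ ph : ℕ → ℂ, (∀ n, ‖ph n‖ ≤ 1) →
          ‖∑ n ∈ E, ph n * Ψ Λ bb n‖ ≤ (X : ℝ) / (Real.log X) ^ (A + 1) * E.card := by
        intro hno ph hph
        rw [hη'] at hno
        exact hΨ Λ bb hΛ hb hbd E (hEB.trans hB) hno ph hph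
      obtain ⟨E', Λ', bb', hE', hc', hΛ', hb', hT', hm'⟩ := step_f G th e X hXn
        (PhU G X U v (Ω Λ bb)) (Ψ Λ bb) E Λ bb hΛ hb hT ((X : ℝ) ^ (-η))
        ((X : ℝ) / (Real.log X) ^ A) ((X : ℝ) / (Real.log X) ^ (A + 1)) hne hQ hQQ hst hst2
      refine ⟨E', Λ', bb', hE'.trans hEB, hΛ', hb', hT', ?_, ?_⟩
      · refine le_trans ?_ hc'.le
        have e1 : (X : ℝ) ^ (th - e / 4 - ((k + 1 : ℕ) : ℝ) * η) =
            (X : ℝ) ^ (-η) * (X : ℝ) ^ (th - e / 4 - k * η) := by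
          rw [← Real.rpow_add hX0]
          congr 1
          push_cast
          ring
        rw [e1]
        exact mul_le_mul_of_nonneg_left hcard (Real.rpow_nonneg hX0.le _)
      · refine le_trans ?_ hm'.le
        have e1 : (X : ℝ) ^ (((k + 1 : ℕ) : ℝ) * (e / 10)) =
            (X : ℝ) ^ (e / 10) * (X : ℝ) ^ (k * (e / 10)) := by
          rw [← Real.rpow_add hX0]
          congr 1
          push_cast
          ring
        rw [e1]
        exact mul_le_mul_of_nonneg_left hm (Real.rpow_nonneg hX0.le _)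
  obtain ⟨E, Λ, bb, hEB, hΛ, hb, hT, hcard, hm⟩ := key k0 le_rfl
  have hE2 : (X : ℝ) ^ (th - 3 * e / 4) ≤ E.card :=
    (Real.rpow_le_rpow_of_exponent_le hX1r (by rw [hkη]; linarith)).trans hcard
  have hbd := tf_bd (th - 3 * e / 4) X hXn (by linarith) E Λ bb hΛ hb hT hE2
  have h1 : (X : ℝ) ≤ (X : ℝ) ^ ((k0 : ℝ) * (e / 10)) := by
    have h2 : (1 : ℝ) ≤ (k0 : ℝ) * (e / 10) := by
      have h3 := mul_le_mul_of_nonneg_right hk0c (by positivity : (0 : ℝ) ≤ e / 10)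
      have h4 : 10 / e * (e / 10) = 1 := by field_simp
      linarith
    calc (X : ℝ) = (X : ℝ) ^ (1 : ℝ) := (Real.rpow_one _).symm
      _ ≤ _ := Real.rpow_le_rpow_of_exponent_le hX1r h2
  have h2 : (X : ℝ) ≤ 2 * (X : ℝ) ^ (1 - (th - 3 * e / 4)) := h1.trans (hm.trans hbd)
  have h4 : (X : ℝ) = (X : ℝ) ^ (th - 3 * e / 4) * (X : ℝ) ^ (1 - (th - 3 * e / 4)) := by
    rw [← Real.rpow_add hX0]
    have : (th - 3 * e / 4) + (1 - (th - 3 * e / 4)) = 1 := by ring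
    rw [this, Real.rpow_one]
  have h5 : 0 < (X : ℝ) ^ (1 - (th - 3 * e / 4)) := Real.rpow_pos_of_pos hX0 _
  have h6 := mul_le_mul_of_nonneg_right hpow h5.le
  rw [← h4] at h6
  linarith

end Pool.MP_dd84fd_nt.EF
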