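import Pool.Agent.Lib.MP_dd84fd_nt.EF.ScaleG
import Pool.Agent.Lib.MP_dd84fd_nt.EF.CntG
import Pool.Agent.Lib.MP_dd84fd_nt.EF.Ser
import Pool.Agent.Lib.MP_dd84fd_nt.EF.Tail
import Pool.Agent.Lib.MP_dd84fd_nt.EF.Gen
import Pool.Agent.Lib.MP_dd84fd_nt.EF.Tree
import Pool.Agent.Lib.MP_dd84fd_nt.EF.Spread
import Pool.Agent.Lib.MP_dd84fd_nt.EF.Disc
import Pool.Agent.Lib.MP_dd84fd_nt.EF.Nar
import Pool.Agent.Lib.MP_dd84fd_nt.EF.Arc
import Pool.Agent.Lib.MP_dd84fd_nt.EF.Prune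

/-!
# EF-Main: the explicit formula at one scale, unconditional (helper39)
-/

set_option autoImplicit false

namespace Pool.MP_dd84fd_nt.EF

theorem scaleH_all : ScaleH :=
  scaleH (genF treeF spreadF) discF (arcF narF) cntG tailF serF pruneF

theorem scaleG_all : ScaleG := scaleG_of_H scaleH_all

end Pool.MP_dd84fd_nt.EF
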