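import Pool.Agent.Lib.MP_dd84fd_nt.EF.Main
import Pool.Agent.Lib.MP_dd84fd_nt.EF.FinR
import Pool.Agent.Lib.MP_dd84fd_nt.QZ.Hv

/-!
# EF-MainQ: assembly with small conductors
-/

set_option autoImplicit false

namespace Pool.MP_dd84fd_nt.EF

theorem hvF : HvF := QZ.hv_win

theorem smF : SmF := QZ.smBD

theorem scale_q : ScaleQ := scaleQ scaleH_all hvF smF

end Pool.MP_dd84fd_nt.EF
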