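import Pool.Agent.Lib.MP_dd84fd_nt.EF.MainQ
import Pool.Agent.Lib.MP_dd84fd_nt.EF.CorS
import Pool.Agent.Lib.MP_dd84fd_nt.EF.CorW
import Pool.Agent.Lib.MP_dd84fd_nt.EF.Fam
import Pool.Agent.Lib.MP_dd84fd_nt.RZ.Rzz

/-!
# EF-MainR: assembly with the real zero
-/

set_option autoImplicit false

namespace Pool.MP_dd84fd_nt.EF

theorem rzF : RzF := fun lam c hlam hc => RZ.real_zero lam c hlam hc

end Pool.MP_dd84fd_nt.EF
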