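import Pool.Agent.Lib.MP_dd84fd_nt.EF.Exp
import Pool.Agent.Lib.MP_dd84fd_nt.EF.DefsG
import Pool.Agent.Lib.MP_dd84fd_nt.BX.As5
import Pool.Agent.Lib.MP_dd84fd_nt.BX.Gau
import Pool.Agent.Lib.MP_dd84fd_nt.BX.CSl
import Pool.Agent.Lib.MP_dd84fd_nt.BY.PairsLev

/-!
# EF-Prune: the characters of norm `< δ^9` may be dropped (helper3)

Pairs with `h₀ > H = ⌈δ^(-4)⌉`: weight `≤ C₄ (n/φ) H^(-1/4)`; pairs with `h₀ ≤ H` and one light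
character: at most `H²` partners of each character, each `< δ^9`.
-/

set_option autoImplicit false

namespace Pool.MP_dd84fd_nt.EF

open Finset Pool.MP_67663b_nt.Odd Pool.MP_dd84fd_nt.En Pool.MP_dd84fd_nt.E2 Pool.MP_dd84fd_nt.LS
open Pool.MP_dd84fd_nt.GX Pool.MP_dd84fd_nt.HX Pool.MP_dd84fd_nt.IX
open Pool.MP_dd84fd_nt.PL (rr)
open Pool.MP_dd84fd_nt.JX (wP gP)
open Pool.MP_dd84fd_nt.LXP (tq)
open Pool.MP_dd84fd_nt.BX (PC pv IsPC PFam PR SX sN prc ind Rm cf h0 cP Wt Wt_nonneg cf_nonneg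
  ParBD GauBD gauBD parBD slBD_all as_h0_pos h0_comm cP_comm as_int sN_nonneg fam_small)
open Pool.MP_dd84fd_nt.BY (ii ii_pos ii_neg ii_nonneg l1_pairs)

open Classical in
/-- pairs with one light character -/
theorem prune_pairs (hP : ParBD) (C4 : ℝ) (hC4 : 0 < C4)
    (hG : ∀ n : ℕ, 1 ≤ n → ∀ ψ₁ ψ₂ : PC, IsPC ψ₁ → IsPC ψ₂ →
      ∀ QQ : Finset ℕ, (∀ q ∈ QQ, 1 ≤ q ∧ ψ₁.1 ∣ q ∧ ψ₂.1 ∣ q) →
      ∑ q ∈ QQ, cf q n (ind q ψ₁) (ind q ψ₂) ≤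
        C4 * ((n : ℝ) / (Nat.totient n : ℝ)) * (h0 n ψ₁ ψ₂ : ℝ) ^ (-(1 / 4 : ℝ)) ∧
      (¬ cP ψ₁ ψ₂ ∣ h0 n ψ₁ ψ₂ → ∀ q ∈ QQ, cf q n (ind q ψ₁) (ind q ψ₂) = 0))
    (n H : ℕ) (hn : 1 ≤ n) (hH : 1 ≤ H) (QQ : Finset ℕ) (hQ : ∀ q ∈ QQ, 1 ≤ q) (Y : Finset PC)
    (hY : ∀ ψ ∈ Y, IsPC ψ) (s : PC → ℝ) (hs : ∀ ψ, 0 ≤ s ψ) (C1 κ : ℝ) (hκ : 0 ≤ κ)
    (hC1 : ∑ ψ ∈ Y, s ψ ≤ C1) :
    ∑ ψ₁ ∈ Y, ∑ ψ₂ ∈ Y, (if κ ≤ s ψ₁ ∧ κ ≤ s ψ₂ then 0 else Wt QQ n ψ₁ ψ₂ * (s ψ₁ * s ψ₂)) ≤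
      C4 * ((n : ℝ) / (Nat.totient n : ℝ)) *
        ((H : ℝ) ^ (-(1 / 4 : ℝ)) * (C1 * C1) + 2 * ((H : ℝ) ^ 2 * κ * C1)) := by
  have hS0 : 0 ≤ ∑ ψ ∈ Y, s ψ := sum_nonneg fun ψ _ => hs ψ
  have hC10 : 0 ≤ C1 := hS0.trans hC1
  have hfil : ∀ ψ₁ ψ₂ : PC, ∀ q ∈ QQ.filter (fun q => ψ₁.1 ∣ q ∧ ψ₂.1 ∣ q),
      1 ≤ q ∧ ψ₁.1 ∣ q ∧ ψ₂.1 ∣ q := by
    intro ψ₁ ψ₂ q hq
    rw [mem_filter] at hq
    exact ⟨hQ q hq.1, hq.2.1, hq.2.2⟩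
  have hdvd : ∀ ψ₁ ∈ Y, ∀ ψ₂ ∈ Y, Wt QQ n ψ₁ ψ₂ ≠ 0 → cP ψ₁ ψ₂ ∣ h0 n ψ₁ ψ₂ := by
    intro ψ₁ h1 ψ₂ h2 hne
    by_contra hcon
    apply hne
    unfold BX.Wt
    exact sum_eq_zero ((hG n hn ψ₁ ψ₂ (hY _ h1) (hY _ h2) _ (hfil ψ₁ ψ₂)).2 hcon)
  obtain ⟨A, hA⟩ : ∃ A : ℝ, A = C4 * ((n : ℝ) / (Nat.totient n : ℝ)) := ⟨_, rfl⟩
  have hA0 : 0 ≤ A := by rw [hA]; positivity
  have hHr : (1 : ℝ) ≤ H := by exact_mod_cast hH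
  obtain ⟨hh, hhd⟩ : ∃ hh : ℝ, hh = (H : ℝ) ^ (-(1 / 4 : ℝ)) := ⟨_, rfl⟩
  have hh0 : 0 ≤ hh := by rw [hhd]; positivity
  rw [← hA, ← hhd]
  obtain ⟨R1, hR1⟩ : ∃ R1 : PC → PC → Prop, ∀ ψ₁ ψ₂, R1 ψ₁ ψ₂ ↔
      (Wt QQ n ψ₁ ψ₂ ≠ 0 ∧ h0 n ψ₁ ψ₂ ≤ H ∧ s ψ₁ < κ) := ⟨_, fun _ _ => Iff.rfl⟩
  obtain ⟨R2, hR2⟩ : ∃ R2 : PC → PC → Prop, ∀ ψ₂ ψ₁, R2 ψ₂ ψ₁ ↔
      (Wt QQ n ψ₁ ψ₂ ≠ 0 ∧ h0 n ψ₁ ψ₂ ≤ H ∧ s ψ₂ < κ) := ⟨_, fun _ _ => Iff.rfl⟩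
  -- pointwise
  have key : ∀ ψ₁ ∈ Y, ∀ ψ₂ ∈ Y,
      (if κ ≤ s ψ₁ ∧ κ ≤ s ψ₂ then 0 else Wt QQ n ψ₁ ψ₂ * (s ψ₁ * s ψ₂)) ≤
      A * (hh * (s ψ₁ * s ψ₂) + ii (R1 ψ₁ ψ₂) * (s ψ₁ * s ψ₂) +
        ii (R2 ψ₂ ψ₁) * (s ψ₂ * s ψ₁)) := by
    intro ψ₁ h1 ψ₂ h2
    have hss : 0 ≤ s ψ₁ * s ψ₂ := mul_nonneg (hs _) (hs _)
    have hss' : s ψ₂ * s ψ₁ = s ψ₁ * s ψ₂ := mul_comm _ _
    have hi1 := ii_nonneg (R1 ψ₁ ψ₂)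
    have hi2 := ii_nonneg (R2 ψ₂ ψ₁)
    have hr0 : 0 ≤ A * (hh * (s ψ₁ * s ψ₂) + ii (R1 ψ₁ ψ₂) * (s ψ₁ * s ψ₂) +
        ii (R2 ψ₂ ψ₁) * (s ψ₂ * s ψ₁)) := by
      rw [hss']
      positivity
    by_cases hl : κ ≤ s ψ₁ ∧ κ ≤ s ψ₂
    · rw [if_pos hl]
      exact hr0
    · rw [if_neg hl]
      by_cases hW : Wt QQ n ψ₁ ψ₂ = 0
      · rw [hW, zero_mul]
        exact hr0
      · have hw := (hG n hn ψ₁ ψ₂ (hY _ h1) (hY _ h2) _ (hfil ψ₁ ψ₂)).1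
        have hw' : Wt QQ n ψ₁ ψ₂ ≤ A * (h0 n ψ₁ ψ₂ : ℝ) ^ (-(1 / 4 : ℝ)) := by
          rw [hA]
          exact hw
        have hh1 : (1 : ℝ) ≤ (h0 n ψ₁ ψ₂ : ℝ) := by
          exact_mod_cast as_h0_pos n ψ₁ ψ₂ (hY _ h1).1 (hY _ h2).1
        by_cases hle : h0 n ψ₁ ψ₂ ≤ H
        · have hp : (h0 n ψ₁ ψ₂ : ℝ) ^ (-(1 / 4 : ℝ)) ≤ 1 :=
            Real.rpow_le_one_of_one_le_of_nonpos hh1 (by norm_num)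
          have hw2 : Wt QQ n ψ₁ ψ₂ ≤ A := hw'.trans (mul_le_of_le_one_right hA0 hp)
          have hor : s ψ₁ < κ ∨ s ψ₂ < κ := by
            by_contra hc
            push Not at hc
            exact hl hc
          rcases hor with hlt | hlt
          · have : ii (R1 ψ₁ ψ₂) = 1 := ii_pos ((hR1 _ _).2 ⟨hW, hle, hlt⟩)
            rw [this, one_mul]
            have h3 : Wt QQ n ψ₁ ψ₂ * (s ψ₁ * s ψ₂) ≤ A * (s ψ₁ * s ψ₂) :=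
              mul_le_mul_of_nonneg_right hw2 hss
            have h4 : 0 ≤ A * (hh * (s ψ₁ * s ψ₂)) := by positivity
            have h5 : 0 ≤ A * (ii (R2 ψ₂ ψ₁) * (s ψ₂ * s ψ₁)) := by
              rw [hss']
              positivity
            linarith
          · have : ii (R2 ψ₂ ψ₁) = 1 := ii_pos ((hR2 _ _).2 ⟨hW, hle, hlt⟩)
            rw [this, one_mul, hss']
            have h3 : Wt QQ n ψ₁ ψ₂ * (s ψ₁ * s ψ₂) ≤ A * (s ψ₁ * s ψ₂) :=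
              mul_le_mul_of_nonneg_right hw2 hss
            have h4 : 0 ≤ A * (hh * (s ψ₁ * s ψ₂)) := by positivity
            have h5 : 0 ≤ A * (ii (R1 ψ₁ ψ₂) * (s ψ₁ * s ψ₂)) := by positivity
            linarith
        · push Not at hle
          have hle' : (H : ℝ) ≤ (h0 n ψ₁ ψ₂ : ℝ) := by exact_mod_cast hle.le
          have hp : (h0 n ψ₁ ψ₂ : ℝ) ^ (-(1 / 4 : ℝ)) ≤ hh := by
            rw [hhd]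
            exact Real.rpow_le_rpow_of_nonpos (by linarith) hle' (by norm_num)
          have hw2 : Wt QQ n ψ₁ ψ₂ ≤ A * hh := hw'.trans (mul_le_mul_of_nonneg_left hp hA0)
          have h3 : Wt QQ n ψ₁ ψ₂ * (s ψ₁ * s ψ₂) ≤ A * hh * (s ψ₁ * s ψ₂) :=
            mul_le_mul_of_nonneg_right hw2 hss
          have h4 : 0 ≤ A * (ii (R1 ψ₁ ψ₂) * (s ψ₁ * s ψ₂)) := by positivity
          have h5 : 0 ≤ A * (ii (R2 ψ₂ ψ₁) * (s ψ₂ * s ψ₁)) := by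
            rw [hss']
            positivity
          linarith
  refine (sum_le_sum fun ψ₁ h1 => sum_le_sum fun ψ₂ h2 => key ψ₁ h1 ψ₂ h2).trans ?_
  have e1 : ∑ ψ₁ ∈ Y, ∑ ψ₂ ∈ Y, A * (hh * (s ψ₁ * s ψ₂) + ii (R1 ψ₁ ψ₂) * (s ψ₁ * s ψ₂) +
        ii (R2 ψ₂ ψ₁) * (s ψ₂ * s ψ₁)) =
      A * (hh * ((∑ ψ ∈ Y, s ψ) * ∑ ψ ∈ Y, s ψ) +
        ∑ ψ₁ ∈ Y, ∑ ψ₂ ∈ Y, ii (R1 ψ₁ ψ₂) * (s ψ₁ * s ψ₂) +
        ∑ ψ₂ ∈ Y, ∑ ψ₁ ∈ Y, ii (R2 ψ₂ ψ₁) * (s ψ₂ * s ψ₁)) := by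
    rw [sum_comm (s := Y) (t := Y) (f := fun ψ₂ ψ₁ => ii (R2 ψ₂ ψ₁) * (s ψ₂ * s ψ₁)), sum_mul_sum,
      mul_sum, ← sum_add_distrib, ← sum_add_distrib, mul_sum]
    refine sum_congr rfl fun ψ₁ _ => ?_
    rw [mul_sum, ← sum_add_distrib, ← sum_add_distrib, mul_sum]
  rw [e1]
  refine mul_le_mul_of_nonneg_left ?_ hA0
  have b1 : (∑ ψ ∈ Y, s ψ) * ∑ ψ ∈ Y, s ψ ≤ C1 * C1 := mul_le_mul hC1 hC1 hS0 hC10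
  have hcard : ∀ ψ₂ ∈ Y, ∀ p : PC → Prop, (∀ ψ ∈ Y, p ψ → Wt QQ n ψ ψ₂ ≠ 0 ∧
      h0 n ψ ψ₂ ≤ H) → (Y.filter p).card ≤ H ^ 2 := by
    intro ψ₂ h2 p hp
    refine hP n H ψ₂ (hY _ h2) _ fun ψ₁ h1 => ?_
    rw [mem_filter] at h1
    obtain ⟨g1, g2⟩ := hp ψ₁ h1.1 h1.2
    exact ⟨hY _ h1.1, as_h0_pos n _ _ (hY _ h1.1).1 (hY _ h2).1, hdvd _ h1.1 _ h2 g1, g2⟩
  have hcard' : ∀ ψ₁ ∈ Y, ∀ p : PC → Prop, (∀ ψ ∈ Y, p ψ → Wt QQ n ψ₁ ψ ≠ 0 ∧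
      h0 n ψ₁ ψ ≤ H) → (Y.filter p).card ≤ H ^ 2 := by
    intro ψ₁ h1 p hp
    refine hP n H ψ₁ (hY _ h1) _ fun ψ₂ h2 => ?_
    rw [mem_filter] at h2
    obtain ⟨g1, g2⟩ := hp ψ₂ h2.1 h2.2
    rw [h0_comm n ψ₂ ψ₁, cP_comm ψ₂ ψ₁]
    exact ⟨hY _ h2.1, as_h0_pos n _ _ (hY _ h1).1 (hY _ h2.1).1, hdvd _ h1 _ h2.1 g1, g2⟩
  have hsm : ∀ F : Finset PC, F.card ≤ H ^ 2 → (∀ ψ ∈ F, s ψ ≤ κ) →
      ∑ ψ ∈ F, s ψ ≤ (H : ℝ) ^ 2 * κ := by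
    intro F hF hk
    have h1 := sum_le_card_nsmul F s κ hk
    rw [nsmul_eq_mul] at h1
    have h2 : (F.card : ℝ) ≤ (H : ℝ) ^ 2 := by exact_mod_cast hF
    exact h1.trans (mul_le_mul_of_nonneg_right h2 hκ)
  have b2 : ∑ ψ₁ ∈ Y, ∑ ψ₂ ∈ Y, ii (R1 ψ₁ ψ₂) * (s ψ₁ * s ψ₂) ≤ (H : ℝ) ^ 2 * κ * C1 :=
    l1_pairs Y Y R1 s s _ C1 (by positivity) (fun ψ _ => hs ψ)
      (fun ψ₂ h2 => hsm _ (by
        have := hcard ψ₂ h2 (fun ψ₁ => R1 ψ₁ ψ₂)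
          (fun ψ _ hp => ⟨((hR1 _ _).1 hp).1, ((hR1 _ _).1 hp).2.1⟩)
        convert this) (fun ψ hψ => by
        rw [mem_filter] at hψ
        exact ((hR1 _ _).1 hψ.2).2.2.le)) hC1
  have b3 : ∑ ψ₂ ∈ Y, ∑ ψ₁ ∈ Y, ii (R2 ψ₂ ψ₁) * (s ψ₂ * s ψ₁) ≤ (H : ℝ) ^ 2 * κ * C1 :=
    l1_pairs Y Y R2 s s _ C1 (by positivity) (fun ψ _ => hs ψ)
      (fun ψ₁ h1 => hsm _ (by
        have := hcard' ψ₁ h1 (fun ψ₂ => R2 ψ₂ ψ₁)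
          (fun ψ _ hp => ⟨((hR2 _ _).1 hp).1, ((hR2 _ _).1 hp).2.1⟩)
        convert this) (fun ψ hψ => by
        rw [mem_filter] at hψ
        exact ((hR2 _ _).1 hψ.2).2.2.le)) hC1
  have b4 := mul_le_mul_of_nonneg_left b1 hh0
  linarith

/-- the characters of norm `< δ^9` may be dropped -/
theorem pruneF : PruneF := by
  classical
  intro ν hν0 hν1
  obtain ⟨C4, hC4, hG⟩ := gauBD
  obtain ⟨C1, c, hC1, hc, hS⟩ := slBD_all ν hν0 hν1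
  refine ⟨C4 * (C1 * C1 + 8 * C1), by positivity, fun A' B => ?_⟩
  obtain ⟨X1, hS⟩ := hS B
  obtain ⟨X2, hX2⟩ : ∃ X2 : ℕ, ∀ X : ℕ, X2 ≤ X → 1 < Real.log (X : ℝ) := by
    have h : Filter.Tendsto (fun n : ℕ => Real.log (n : ℝ)) Filter.atTop Filter.atTop :=
      Real.tendsto_log_atTop.comp tendsto_natCast_atTop_atTop
    exact Filter.eventually_atTop.1 (h.eventually_gt_atTop 1)
  obtain ⟨X3, hX3⟩ : ∃ X3 : ℕ, ∀ X : ℕ, X3 ≤ X →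
      C1 * (Real.log X) ^ A' + 1 < (X : ℝ) ^ c := by
    have h1 : (fun x : ℝ => Real.log x ^ A') =o[Filter.atTop] fun x : ℝ => x ^ c := by
      have := isLittleO_log_rpow_rpow_atTop (A' : ℝ) hc
      refine this.congr' ?_ Filter.EventuallyEq.rfl
      exact Filter.Eventually.of_forall fun x => Real.rpow_natCast _ _
    have h2 : ∀ᶠ x : ℝ in Filter.atTop, ‖Real.log x ^ A'‖ ≤ 1 / (2 * (C1 + 1)) * ‖x ^ c‖ :=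
      h1.def (by positivity)
    have h3 : ∀ᶠ x : ℝ in Filter.atTop, 4 ≤ x ^ c :=
      (tendsto_rpow_atTop hc).eventually_ge_atTop 4
    have h4 := (h2.and (h3.and (Filter.eventually_ge_atTop (1 : ℝ))))
    obtain ⟨X0, hX0⟩ := Filter.eventually_atTop.1 (tendsto_natCast_atTop_atTop.eventually h4)
    refine ⟨X0, fun X hX => ?_⟩
    obtain ⟨h5, h6, h7⟩ := hX0 X hX
    have hl : 0 ≤ Real.log (X : ℝ) := Real.log_nonneg h7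
    have hp : 0 ≤ (X : ℝ) ^ c := by positivity
    rw [Real.norm_of_nonneg (by positivity), Real.norm_of_nonneg hp] at h5
    have h8 : C1 * Real.log (X : ℝ) ^ A' ≤ C1 * (1 / (2 * (C1 + 1)) * (X : ℝ) ^ c) :=
      mul_le_mul_of_nonneg_left h5 hC1.le
    have h9 : C1 * (1 / (2 * (C1 + 1)) * (X : ℝ) ^ c) ≤ 1 / 2 * (X : ℝ) ^ c := by
      have h10 : C1 * (1 / (2 * (C1 + 1))) ≤ 1 / 2 := by
        rw [mul_one_div, div_le_div_iff₀ (by positivity) (by norm_num)]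
        linarith
      calc C1 * (1 / (2 * (C1 + 1)) * (X : ℝ) ^ c) = C1 * (1 / (2 * (C1 + 1))) * (X : ℝ) ^ c := by
            ring
        _ ≤ 1 / 2 * (X : ℝ) ^ c := by gcongr
    linarith
  refine ⟨max X1 (max X2 (max X3 2)), fun X hX T hT1 hT2 Y hY δ hδ0 hδ1 n hn QQ N ρ hQ hN hNX hρ =>
    ?_⟩
  simp only [max_le_iff] at hX
  obtain ⟨x1, x2, x3, x4⟩ := hX
  have hL1 := hX2 X x2
  have hL0 : 0 < Real.log (X : ℝ) := by linarith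
  obtain ⟨κ, hκ⟩ : ∃ κ : ℝ, κ = δ ^ 9 := ⟨_, rfl⟩
  have hκ0 : 0 ≤ κ := by rw [hκ]; positivity
  -- the characters whose modulus divides a `q ∈ QQ`
  obtain ⟨Y', hY'⟩ : ∃ Y' : Finset PC, Y' = Y.filter (fun ψ => ∃ q ∈ QQ, ψ.1 ∣ q) := ⟨_, rfl⟩
  have hmem : ∀ ψ ∈ Y', (IsPC ψ ∧ 2 ≤ ψ.1 ∧ 1 / (Real.log X) ^ A' < sN X T ψ) ∧
      ∃ q ∈ QQ, ψ.1 ∣ q := by
    intro ψ hψ
    rw [hY', mem_filter] at hψ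
    exact ⟨hY ψ hψ.1, hψ.2⟩
  have hfam : PFam Y' ((X : ℝ) ^ (2 / 3 - ν)) := by
    refine ⟨fun ψ hψ => (hmem ψ hψ).1.1, fun ψ hψ ψ' hψ' => ?_⟩
    obtain ⟨q, hq, h1⟩ := (hmem ψ hψ).2
    obtain ⟨q', hq', h1'⟩ := (hmem ψ' hψ').2
    have h2 : Nat.lcm ψ.1 ψ'.1 ∣ Nat.lcm q q' :=
      Nat.lcm_dvd (h1.trans (Nat.dvd_lcm_left _ _)) (h1'.trans (Nat.dvd_lcm_right _ _))
    have h3 : 0 < Nat.lcm q q' := Nat.lcm_pos (hQ q hq) (hQ q' hq')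
    have h4 : Nat.lcm ψ.1 ψ'.1 ≤ Nat.lcm q q' := Nat.le_of_dvd h3 h2
    have h5 : (Nat.lcm ψ.1 ψ'.1 : ℝ) ≤ (Nat.lcm q q' : ℝ) := by exact_mod_cast h4
    exact h5.trans ((hN q hq q' hq').trans hNX)
  have hsum : ∑ ψ ∈ Y', sN X T ψ ≤ C1 := by
    refine fam_small ν C1 c hC1 X (by omega) T (1 / (Real.log X) ^ A') (by positivity)
      (hS X x1 T hT1 hT2) ?_ Y' hfam (fun ψ hψ => (hmem ψ hψ).1.2.1)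
      (fun ψ hψ => (hmem ψ hψ).1.2.2.le)
    have e1 : C1 / (1 / Real.log (X : ℝ) ^ A') = C1 * Real.log (X : ℝ) ^ A' := by field_simp
    rw [e1]
    exact hX3 X x3
  have hs0 : ∀ ψ : PC, 0 ≤ sN X T ψ := fun ψ => sN_nonneg X T ψ
  -- one `q`
  have hone : ∀ q ∈ QQ, ‖dV X Y n q (ρ q) - dV X (YH X T (δ ^ 9) Y) n q (ρ q)‖ ≤
      (X : ℝ) / (Real.log X) ^ 2 * ∑ ψ₁ ∈ Y', ∑ ψ₂ ∈ Y', (if ψ₁.1 ∣ q ∧ ψ₂.1 ∣ q then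
        (if κ ≤ sN X T ψ₁ ∧ κ ≤ sN X T ψ₂ then 0 else
          cf q n (ind q ψ₁) (ind q ψ₂) * (sN X T ψ₁ * sN X T ψ₂)) else 0) := by
    intro q hq
    have hq1 := hQ q hq
    obtain ⟨F, hF⟩ : ∃ F : Finset PC, F = Y.filter (fun ψ => ψ.1 ∣ q) := ⟨_, rfl⟩
    have hF' : (YH X T (δ ^ 9) Y).filter (fun ψ => ψ.1 ∣ q) =
        F.filter (fun ψ => κ ≤ sN X T ψ) := by
      rw [hF, hκ]
      unfold YH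
      rw [filter_filter, filter_filter]
      refine filter_congr fun ψ _ => ?_
      rw [and_comm]
    have hFY : F = Y'.filter (fun ψ => ψ.1 ∣ q) := by
      rw [hF, hY', filter_filter]
      refine filter_congr fun ψ _ => ?_
      constructor
      · intro h
        exact ⟨⟨q, hq, h⟩, h⟩
      · intro h
        exact h.2
    have e2 : dV X Y n q (ρ q) - dV X (YH X T (δ ^ 9) Y) n q (ρ q) =
        ∑ ψ₁ ∈ F, ∑ ψ₂ ∈ F, (if κ ≤ sN X T ψ₁ ∧ κ ≤ sN X T ψ₂ then 0 else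
          cc q n ψ₁ ψ₂ * IS X n ψ₁ ψ₂ (ρ q)) := by
      rw [dV_expand X Y n q hq1, dV_expand X (YH X T (δ ^ 9) Y) n q hq1, hF', ← hF, sum_filter,
        ← sum_sub_distrib]
      refine sum_congr rfl fun ψ₁ _ => ?_
      by_cases h1 : κ ≤ sN X T ψ₁
      · rw [if_pos h1, sum_filter, ← sum_sub_distrib]
        refine sum_congr rfl fun ψ₂ _ => ?_
        by_cases h2 : κ ≤ sN X T ψ₂
        · rw [if_pos h2, if_pos ⟨h1, h2⟩, sub_self]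
        · rw [if_neg h2, if_neg (fun h => h2 h.2), sub_zero]
      · rw [if_neg h1, sub_zero]
        refine sum_congr rfl fun ψ₂ _ => ?_
        rw [if_neg (fun h => h1 h.1)]
    rw [e2]
    have e3 : ∑ ψ₁ ∈ Y', ∑ ψ₂ ∈ Y', (if ψ₁.1 ∣ q ∧ ψ₂.1 ∣ q then
        (if κ ≤ sN X T ψ₁ ∧ κ ≤ sN X T ψ₂ then 0 else
          cf q n (ind q ψ₁) (ind q ψ₂) * (sN X T ψ₁ * sN X T ψ₂)) else 0) =
        ∑ ψ₁ ∈ F, ∑ ψ₂ ∈ F, (if κ ≤ sN X T ψ₁ ∧ κ ≤ sN X T ψ₂ then 0 else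
          cf q n (ind q ψ₁) (ind q ψ₂) * (sN X T ψ₁ * sN X T ψ₂)) := by
      rw [hFY, sum_filter]
      refine sum_congr rfl fun ψ₁ _ => ?_
      by_cases h1 : ψ₁.1 ∣ q
      · rw [if_pos h1, sum_filter]
        refine sum_congr rfl fun ψ₂ _ => ?_
        by_cases h2 : ψ₂.1 ∣ q
        · rw [if_pos ⟨h1, h2⟩, if_pos h2]
        · rw [if_neg (fun h => h2 h.2), if_neg h2]
      · rw [if_neg h1]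
        refine sum_eq_zero fun ψ₂ _ => ?_
        rw [if_neg (fun h => h1 h.1)]
    rw [e3, mul_sum]
    refine (norm_sum_le _ _).trans (sum_le_sum fun ψ₁ _ => ?_)
    rw [mul_sum]
    refine (norm_sum_le _ _).trans (sum_le_sum fun ψ₂ _ => ?_)
    split_ifs with hc'
    · rw [norm_zero, mul_zero]
    · rw [norm_mul, cc_norm]
      have h1 := as_int X n T (ρ q) x4 (hρ q hq).1 (hρ q hq).2 ψ₁ ψ₂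
      calc cf q n (ind q ψ₁) (ind q ψ₂) * ‖IS X n ψ₁ ψ₂ (ρ q)‖
          ≤ cf q n (ind q ψ₁) (ind q ψ₂) *
            ((X : ℝ) / (Real.log X) ^ 2 * (sN X T ψ₁ * sN X T ψ₂)) :=
            mul_le_mul_of_nonneg_left h1 (cf_nonneg _ _ _ _)
        _ = (X : ℝ) / (Real.log X) ^ 2 *
            (cf q n (ind q ψ₁) (ind q ψ₂) * (sN X T ψ₁ * sN X T ψ₂)) := by ring
  -- all `q`
  have hall : ∑ q ∈ QQ, ∑ ψ₁ ∈ Y', ∑ ψ₂ ∈ Y', (if ψ₁.1 ∣ q ∧ ψ₂.1 ∣ q then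
        (if κ ≤ sN X T ψ₁ ∧ κ ≤ sN X T ψ₂ then 0 else
          cf q n (ind q ψ₁) (ind q ψ₂) * (sN X T ψ₁ * sN X T ψ₂)) else 0) =
      ∑ ψ₁ ∈ Y', ∑ ψ₂ ∈ Y', (if κ ≤ sN X T ψ₁ ∧ κ ≤ sN X T ψ₂ then 0 else
        Wt QQ n ψ₁ ψ₂ * (sN X T ψ₁ * sN X T ψ₂)) := by
    rw [sum_comm]
    refine sum_congr rfl fun ψ₁ _ => ?_
    rw [sum_comm]
    refine sum_congr rfl fun ψ₂ _ => ?_
    by_cases hc' : κ ≤ sN X T ψ₁ ∧ κ ≤ sN X T ψ₂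
    · simp only [if_pos hc', ite_self, sum_const_zero]
    · simp only [if_neg hc']
      unfold BX.Wt
      rw [sum_mul, sum_filter]
  obtain ⟨H, hHd⟩ : ∃ H : ℕ, H = ⌈(1 / δ) ^ 4⌉₊ := ⟨_, rfl⟩
  have hδi : 1 ≤ 1 / δ := by
    rw [le_div_iff₀ hδ0]
    linarith
  have hδ4 : 1 ≤ (1 / δ) ^ 4 := one_le_pow₀ hδi
  have hH1 : 1 ≤ H := by
    rw [hHd]
    exact Nat.one_le_iff_ne_zero.2 (by
      have : 0 < ⌈(1 / δ) ^ 4⌉₊ := Nat.ceil_pos.2 (by positivity)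
      omega)
  have hHlo : (1 / δ) ^ 4 ≤ H := by
    rw [hHd]
    exact Nat.le_ceil _
  have hHhi : (H : ℝ) ≤ 2 * (1 / δ) ^ 4 := by
    have := (Nat.ceil_lt_add_one (show 0 ≤ (1 / δ) ^ 4 by positivity)).le
    rw [hHd]
    linarith
  have hp1 : (H : ℝ) ^ (-(1 / 4 : ℝ)) ≤ δ := by
    have h1 : (H : ℝ) ^ (-(1 / 4 : ℝ)) ≤ ((1 / δ) ^ 4) ^ (-(1 / 4 : ℝ)) :=
      Real.rpow_le_rpow_of_nonpos (by positivity) hHlo (by norm_num)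
    have h2 : (((1 / δ) ^ 4 : ℝ)) ^ (-(1 / 4 : ℝ)) = δ := by
      rw [← Real.rpow_natCast, ← Real.rpow_mul (by positivity)]
      norm_num
      rw [Real.rpow_neg_one, inv_inv]
    rw [h2] at h1
    exact h1
  have hp2 : (H : ℝ) ^ 2 * κ ≤ 4 * δ := by
    have h1 : (H : ℝ) ^ 2 ≤ (2 * (1 / δ) ^ 4) ^ 2 := by gcongr
    calc (H : ℝ) ^ 2 * κ ≤ (2 * (1 / δ) ^ 4) ^ 2 * κ := mul_le_mul_of_nonneg_right h1 hκ0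
      _ = 4 * δ := by
        rw [hκ]
        field_simp
        norm_num
  have hpr := prune_pairs parBD C4 hC4 hG n H hn hH1 QQ hQ Y' (fun ψ hψ => (hmem ψ hψ).1.1)
    (sN X T) hs0 C1 κ hκ0 hsum
  obtain ⟨Φ, hΦ⟩ : ∃ Φ : ℝ, Φ = (n : ℝ) / (Nat.totient n : ℝ) := ⟨_, rfl⟩
  have hΦ0 : 0 ≤ Φ := by rw [hΦ]; positivity
  rw [← hΦ] at hpr ⊢
  refine (sum_le_sum hone).trans ?_
  rw [← mul_sum, hall]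
  have hXL : 0 ≤ (X : ℝ) / (Real.log X) ^ 2 := by positivity
  have hfin : C4 * Φ * ((H : ℝ) ^ (-(1 / 4 : ℝ)) * (C1 * C1) + 2 * ((H : ℝ) ^ 2 * κ * C1)) ≤
      C4 * (C1 * C1 + 8 * C1) * δ * Φ := by
    have h1 : (H : ℝ) ^ (-(1 / 4 : ℝ)) * (C1 * C1) ≤ δ * (C1 * C1) :=
      mul_le_mul_of_nonneg_right hp1 (by positivity)
    have h2 : (H : ℝ) ^ 2 * κ * C1 ≤ 4 * δ * C1 := mul_le_mul_of_nonneg_right hp2 hC1.le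
    calc C4 * Φ * ((H : ℝ) ^ (-(1 / 4 : ℝ)) * (C1 * C1) + 2 * ((H : ℝ) ^ 2 * κ * C1))
        ≤ C4 * Φ * (δ * (C1 * C1) + 2 * (4 * δ * C1)) := by
          refine mul_le_mul_of_nonneg_left ?_ (by positivity)
          linarith
      _ = C4 * (C1 * C1 + 8 * C1) * δ * Φ := by ring
  calc (X : ℝ) / (Real.log X) ^ 2 * _ ≤ (X : ℝ) / (Real.log X) ^ 2 *
        (C4 * (C1 * C1 + 8 * C1) * δ * Φ) := mul_le_mul_of_nonneg_left (hpr.trans hfin) hXL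
    _ = C4 * (C1 * C1 + 8 * C1) * δ * Φ * (X / (Real.log X) ^ 2) := by ring

end Pool.MP_dd84fd_nt.EF
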