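import Pool.Agent.Lib.MP_dd84fd_nt.EF.Scale
import Pool.Agent.Lib.MP_dd84fd_nt.EF.DefsH

/-!
# EF-ScaleG: the explicit formula at one scale, uniform in the error (helper39)
-/

set_option autoImplicit false

namespace Pool.MP_dd84fd_nt.EF

open Finset Pool.MP_67663b_nt.Odd Pool.MP_dd84fd_nt.En Pool.MP_dd84fd_nt.E2 Pool.MP_dd84fd_nt.LS
open Pool.MP_dd84fd_nt.GX Pool.MP_dd84fd_nt.HX Pool.MP_dd84fd_nt.IX
open Pool.MP_dd84fd_nt.PL (rr)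
open Pool.MP_dd84fd_nt.JX (wP gP DecJ Adm AdmP Str)
open Pool.MP_dd84fd_nt.LX (FFL DecW PhU)
open Pool.MP_dd84fd_nt.LXP (tq)
open Pool.MP_dd84fd_nt.BX (PC pv IsPC PR SX sN prc ind Rm cf N2d DiscH)

theorem YH_sub (X : ℕ) (T κ : ℝ) (Y : Finset PC) : YH X T κ Y ⊆ Y := by
  unfold YH
  exact filter_subset _ _

theorem scaleH (hG : GenF) (hD : DiscF) (hA : ArcF) (hC : CntG) (hT : TailF) (hS : SerF)
    (hR : PruneF) : ScaleH := by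
  classical
  obtain ⟨Cq, hCq, hC⟩ := hC
  intro th e hP
  have hP' := hP
  obtain ⟨p1, p2, p3, p4, p5⟩ := hP'
  have hAdm : Adm th e (1 / 10) := ⟨by linarith, p2, p3, le_rfl, by linarith⟩
  obtain ⟨ν0, hν0, hν1, hν2⟩ : ∃ ν : ℝ, 0 < ν ∧ ν ≤ 1 / 20 ∧ ν ≤ th - 1 / 3 - 3 / 2 * e :=
    ⟨min (1 / 20) (th - 1 / 3 - 3 / 2 * e), lt_min (by norm_num) (by linarith),
      min_le_left _ _, min_le_right _ _⟩
  obtain ⟨Cr, hCr, hR⟩ := hR ν0 hν0 hν1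
  obtain ⟨Cs, hCs1, hCs2⟩ : ∃ Cs : ℝ, 1 ≤ Cs ∧ 2 * Cr ≤ Cs :=
    ⟨max 1 (2 * Cr), le_max_left _ _, le_max_right _ _⟩
  have hCs00 : 0 < Cs := by linarith
  obtain ⟨Ct, hCt1, hCt2⟩ : ∃ Ct : ℝ, Cq * Cs ^ 18 ≤ Ct ∧ Cs ≤ Ct :=
    ⟨max (Cq * Cs ^ 18) Cs, le_max_left _ _, le_max_right _ _⟩
  have hCt0 : 0 < Ct := by linarith
  refine ⟨Ct, hCt0, fun A => ?_⟩
  obtain ⟨A1, hA1⟩ : ∃ A1, A1 = A + 4 := ⟨_, rfl⟩
  obtain ⟨B1, hG⟩ := hG A1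
  obtain ⟨B2, hD⟩ := hD A1
  obtain ⟨Cw, hW⟩ := LX.decPW (max B1 B2)
  obtain ⟨Cj, hJ⟩ := JX.decP (max B1 B2)
  obtain ⟨C2, hC2a, hC2b⟩ : ∃ C2, Cw ≤ C2 ∧ Cj ≤ C2 := ⟨max Cw Cj, le_max_left _ _, le_max_right _ _⟩
  obtain ⟨K1, K2, hD⟩ := hD 2 1 C2
  obtain ⟨A', hA⟩ := hA A1 (K2 + 1)
  obtain ⟨C, hC⟩ := hC A' (K2 + 1)
  obtain ⟨K1t, Xt, hXt⟩ := hT C (K2 + 2) A1
  obtain ⟨K1', hK1a, hK1b⟩ : ∃ K1', K1 ≤ K1' ∧ K1t ≤ K1' :=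
    ⟨max K1 K1t, le_max_left _ _, le_max_right _ _⟩
  refine ⟨K2 + 1, C, fun K => ?_⟩
  obtain ⟨K'', hKa, hKb⟩ : ∃ K'', K ≤ K'' ∧ K1' < K'' :=
    ⟨max K (K1' + 1), le_max_left _ _, lt_of_lt_of_le (Nat.lt_succ_self _) (le_max_right _ _)⟩
  obtain ⟨D0, hA⟩ := hA th e hP K1' K'' hKb
  obtain ⟨D', hD'a, hD'b, hD'c⟩ : ∃ D', D0 ≤ D' ∧ 1 ≤ D' ∧ A1 + 5 ≤ D' :=
    ⟨max D0 (A1 + 5), le_max_left _ _, by omega, le_max_right _ _⟩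
  have hdW : DecW (max B1 B2) C2 th e (1 / 10) wP := LX.decW_monoC hC2a (hW th e (1 / 10) hAdm)
  have hdJ : DecJ (max B1 B2) C2 th e (1 / 10) wP :=
    LX.decJ_monoC hC2b (hJ th e (1 / 10) hAdm p4)
  obtain ⟨X1, hX1⟩ := hG 2 1 C2 th e (1 / 10) hAdm wP gP wP gP JX.w1P JX.w1P
    (DX.decJ_monoB (le_max_left _ _) hdJ) D' hD'b C (K2 + 1)
  obtain ⟨X2, hX2⟩ := hD th e (1 / 10) hAdm wP gP wP gP JX.w1P
    (DX.decW_monoB (le_max_right _ _) hdW) JX.w1P (DX.decJ_monoB (le_max_right _ _) hdJ) D' hD'b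
    K1' hK1a
  obtain ⟨X3, hX3⟩ := hA D' hD'a
  obtain ⟨X4, hX4⟩ := hC th e hP
  obtain ⟨X5, hX5⟩ := hS
  obtain ⟨X6, hX6⟩ := JX.qq_factsJ th e (1 / 10) hAdm
  obtain ⟨X7, hX7⟩ := sc_main A1 D' hD'c
  obtain ⟨X8, hX8⟩ := MP_log_large 8
  obtain ⟨X9, hX9⟩ := MP_log_pow 4 (2 * C + (K2 + 1) + A1) (ε := 1 / 8) (by norm_num)
  obtain ⟨Xr, hXr⟩ := hR A' (K2 + 2)
  refine ⟨max (max (max X1 X2) (max X3 X4)) (max (max X5 X6) (max (max X7 X8) (max X9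
    (max (max Xt Xr) 2)))), fun X hX δ hδ1 hδ2 => ?_⟩
  simp only [max_le_iff] at hX
  obtain ⟨⟨⟨g1, g2⟩, g3, g4⟩, ⟨g5, g6⟩, ⟨g7, g8⟩, g9, ⟨g10, g12⟩, g11⟩ := hX
  have hX1 := hX1 X g1
  have hX2 := hX2 X g2
  have hX3 := hX3 X g3
  have hX4 := hX4 X g4
  have hX5 := hX5 X g5
  have hX6 := hX6 X g6
  have hX7 := hX7 X g7
  have hL8 := hX8 X g8
  have hX9 := hX9 X g9
  have hXt := hXt X g10
  have hXr := hXr X g12
  have hX0 : (0 : ℝ) < X := by exact_mod_cast (by omega : 0 < X)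
  have hX1r : (1 : ℝ) ≤ X := by exact_mod_cast (by omega : 1 ≤ X)
  obtain ⟨L, hLd⟩ : ∃ L : ℝ, L = Real.log X := ⟨_, rfl⟩
  rw [← hLd] at hL8 hX9 hδ1
  have hL0 : 0 < L := by linarith
  have hL1 : 1 ≤ L := by linarith
  have hδ0 : 0 < δ := lt_of_lt_of_le (by positivity) hδ1
  obtain ⟨d, hd⟩ : ∃ d : ℝ, d = δ / Cs := ⟨_, rfl⟩
  have hCs0 : 0 < Cs := by linarith
  have hd0 : 0 < d := by rw [hd]; positivity
  have hd1 : d ≤ 1 := by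
    rw [hd, div_le_one hCs0]
    linarith
  obtain ⟨T, hTd⟩ : ∃ T : ℝ, T = L ^ (K2 + 1) := ⟨_, rfl⟩
  have hT1 : 1 ≤ T := by rw [hTd]; exact one_le_pow₀ hL1
  have hT2 : 2 * L ^ K2 ≤ T := by
    rw [hTd, pow_succ, mul_comm (L ^ K2)]
    exact mul_le_mul_of_nonneg_right (by linarith) (by positivity)
  have hT3 : 2 * T ≤ L ^ (K2 + 2) := by
    rw [hTd, pow_succ L (K2 + 1), mul_comm (L ^ (K2 + 1)) L]
    exact mul_le_mul_of_nonneg_right (by linarith) (by positivity)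
  have hT4 : 2 * T ≤ 4 * L ^ (K2 + 1) := by
    rw [hTd]
    have : 0 < L ^ (K2 + 1) := by positivity
    linarith
  have hZ1 : 1 ≤ L ^ K'' := one_le_pow₀ hL1
  have hT5 : 4 * L ^ (K2 + 1) ≤ L ^ (K2 + 2) := by
    rw [pow_succ L (K2 + 1), mul_comm (L ^ (K2 + 1)) L]
    exact mul_le_mul_of_nonneg_right (by linarith) (by positivity)
  have hT6 : 1 ≤ 4 * L ^ (K2 + 1) := by
    have : 1 ≤ L ^ (K2 + 1) := one_le_pow₀ hL1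
    linarith
  obtain ⟨Yb, hYB⟩ : ∃ Y : Finset PC,
    Y = YE X (4 * L ^ (K2 + 1)) (L ^ K'') (RE th e X) A' := ⟨_, rfl⟩
  obtain ⟨Y, hY⟩ : ∃ Y : Finset PC, Y = YH X (4 * L ^ (K2 + 1)) (d ^ 9) Yb := ⟨_, rfl⟩
  have hYY : Y ⊆ Yb := by
    rw [hY]
    exact YH_sub _ _ _ _
  have hR0 : 0 ≤ RE th e X := by unfold RE; positivity
  have hRX : RE th e X ≤ X := by
    unfold RE
    calc (X : ℝ) ^ (1 - th + 3 / 2 * e) ≤ (X : ℝ) ^ (1 : ℝ) :=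
          Real.rpow_le_rpow_of_exponent_le hX1r (by linarith)
      _ = X := Real.rpow_one _
  have hYn : ∀ ψ ∈ Yb, IsPC ψ ∧ 2 ≤ ψ.1 ∧ 1 / L ^ A' < sN X (4 * L ^ (K2 + 1)) ψ := by
    intro ψ hψ
    rw [hYB, mem_YE hR0, ← hLd] at hψ
    refine ⟨hψ.1, ?_, hψ.2.2.2⟩
    have h1 : (1 : ℝ) < ψ.1 := lt_of_le_of_lt hZ1 hψ.2.1
    have h2 : 1 < ψ.1 := by exact_mod_cast h1
    omega
  have hYm : ∀ ψ ∈ Y, IsPC ψ ∧ L ^ K'' < (ψ.1 : ℝ) ∧ (ψ.1 : ℝ) ≤ RE th e X := by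
    intro ψ hψ
    have hψ := hYY hψ
    rw [hYB, mem_YE hR0] at hψ
    exact ⟨hψ.1, hψ.2.1, hψ.2.2.1⟩
  have hYX : ∀ ψ ∈ Y, IsPC ψ ∧ ψ.1 ≤ X := by
    intro ψ hψ
    obtain ⟨h1, -, h3⟩ := hYm ψ hψ
    refine ⟨h1, ?_⟩
    have : (ψ.1 : ℝ) ≤ X := h3.trans hRX
    exact_mod_cast this
  obtain ⟨hYk, hYc', hYb⟩ := hX4 (L ^ K'') hZ1
  rw [← hLd, ← hYB] at hYc' hYb hYk
  have hYc : (Y.card : ℝ) ≤ L ^ C := le_trans (by exact_mod_cast card_le_card hYY) hYc'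
  have hYk := hYk (d ^ 9) (by positivity)
  rw [← hY] at hYk
  obtain ⟨Ex, hEx, hGn⟩ := hX1 1 (-1) (by norm_num) (by norm_num) Y (fun ψ hψ => (hYm ψ hψ).1)
    (by rw [← hLd]; exact hYc) T hT1 (by rw [← hLd, hTd])
  refine ⟨Y, Ex, ?_, ?_, hEx, fun n hn1 hn2 hev hnE => ?_⟩
  · have h0 : Cq / (d ^ 9) ^ 2 = Cq * Cs ^ 18 / δ ^ 18 := by
      rw [hd, _root_.div_pow, _root_.div_pow, ← pow_mul, ← pow_mul]
      have h1 : δ ^ 18 ≠ 0 := by positivity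
      have h2 : Cs ^ 18 ≠ 0 := by positivity
      norm_num
      field_simp
    rw [h0] at hYk
    exact hYk.trans (div_le_div_of_nonneg_right hCt1 (by positivity))
  · intro ψ hψ
    obtain ⟨h1, h2, h3⟩ := hYm ψ hψ
    refine ⟨h1, ?_, h3, ?_, ?_⟩
    · rw [← hLd]
      exact (pow_le_pow_right₀ hL1 hKa).trans h2.le
    · rw [← hLd]
      have h4 : d ^ 9 ≤ sN X (4 * L ^ (K2 + 1)) ψ := by
        rw [hY] at hψ
        unfold YH at hψ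
        exact (mem_filter.1 hψ).2
      refine le_trans (pow_le_pow_left₀ (by positivity) ?_ 9) h4
      rw [hd]
      exact div_le_div_of_nonneg_left hδ0.le hCs0 hCt2
    · rw [← hLd]
      exact hYb ψ (hYY hψ)
  -- one `n`
  have hn0 : 1 ≤ n := by omega
  obtain ⟨Λ, bb, hΛ, hbb, hΛb, e1, e2⟩ := hGn n hn1 hn2 hnE
  obtain ⟨F, hF⟩ : ∃ F : ℝ → ℂ, F = FFL wP gP 1 wP gP (-1) (wX D' X) X n := ⟨_, rfl⟩
  have hFc : Continuous F := by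
    rw [hF]
    exact LX.ffl_cont wP gP wP gP 1 (-1) (wX D' X) X n
  have e3 := hX2 1 (-1) (by norm_num) (by norm_num) n hn1 hn2 Λ bb hΛ hbb hΛb T
    (by rw [← hLd]; exact hT2)
  rw [← hF, ← hLd] at e1 e3
  rw [← hLd] at e2
  have hΛb2 : (Λ : ℝ) * bb ≤ 2 * (X : ℝ) ^ (1 - th + e) := by
    have : 0 ≤ (X : ℝ) ^ (1 - th + e) := by positivity
    linarith
  obtain ⟨q1, q2, q3, q4⟩ := hX6 Λ bb hΛ hbb hΛb2
  obtain ⟨E0, hE0⟩ : ∃ E0 : ℝ, E0 = X / L ^ A1 := ⟨_, rfl⟩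
  rw [← hE0] at e1 e2 e3
  obtain ⟨r, hr⟩ : ∃ r : ℕ → ℝ, r = fun q => min (rdi th e X Λ bb q) T := ⟨_, rfl⟩
  have hr0 : ∀ q, 0 ≤ r q := by
    intro q
    rw [hr]
    refine le_min ?_ (by linarith)
    unfold rdi
    refine le_min (by positivity) (div_nonneg ?_ (Nat.cast_nonneg _))
    unfold y3
    positivity
  have hrT : ∀ q, r q ≤ T := by
    intro q
    rw [hr]
    exact min_le_right _ _
  have hru : ∀ q (u : ℝ), 1 ≤ u → u ≤ 2 → 0 ≤ r q * u ∧ r q * u ≤ 2 * T := by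
    intro q u hu1 hu2
    have h1 := hr0 q
    have h2 := hrT q
    refine ⟨by positivity, ?_⟩
    nlinarith
  have hQs : ∀ q ∈ Qs th e X Λ n K1', q ∈ QQi th e X Λ ∧
      (q : ℝ) ≤ L ^ K1' * (Nat.gcd q n : ℝ) := by
    intro q hq
    unfold Qs at hq
    rw [mem_filter, ← hLd] at hq
    exact hq
  have hQsub : Qs th e X Λ n K1' ⊆ QQi th e X Λ := fun q hq => (hQs q hq).1
  -- the arcs
  have hNN : (X : ℝ) ^ (e / 5) * Λ ≤ (X : ℝ) ^ (2 / 3 - ν0) :=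
    q4.trans (Real.rpow_le_rpow_of_exponent_le hX1r (by linarith))
  obtain ⟨E2, hE2⟩ : ∃ E2 : ℝ, E2 = δ / 2 * ((n : ℝ) / (Nat.totient n : ℝ)) * (X / L ^ 2) :=
    ⟨_, rfl⟩
  have hnp : (1 : ℝ) ≤ (n : ℝ) / (Nat.totient n : ℝ) := by
    have h1 : 0 < Nat.totient n := Nat.totient_pos.2 (by omega)
    have h2 : (0 : ℝ) < Nat.totient n := by exact_mod_cast h1
    rw [le_div_iff₀ h2, one_mul]
    exact_mod_cast Nat.totient_le n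
  have e4 : ‖∑ q ∈ Qs th e X Λ n K1', av (dsc F X q) (r q) -
      ∑ q ∈ Qs th e X Λ n K1', av (dV X Y n q) (r q)‖ ≤ E0 + E2 := by
    refine sum_av_sub_le _ _ _ _ _ _ (fun q _ => dsc_cont F hFc X q)
      (fun q _ => dV_cont X Y n q) _ fun u hu1 hu2 => ?_
    rw [← sum_sub_distrib]
    refine (norm_sum_le _ _).trans ?_
    have h1 := hX3 n (Qs th e X Λ n K1') ((X : ℝ) ^ (e / 5) * Λ) (fun q => r q * u) (by
      refine ⟨hn1, hn2, fun q hq => ⟨(q1 q (hQsub hq)).1, ?_⟩, fun q hq => ⟨(hru q u hu1 hu2).1, ?_⟩,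
        fun q hq q' hq' => q2 q (hQsub hq) q' (hQsub hq'), ?_, q4⟩
      · rw [← hLd]
        exact (hQs q hq).2
      · rw [← hLd]
        exact (hru q u hu1 hu2).2.trans hT4
      · exact le_trans (by exact_mod_cast card_le_card hQsub) q3)
    rw [← hLd, ← hF, ← hYB, ← hE0] at h1
    have h2 := hXr (4 * L ^ (K2 + 1)) hT6 (by rw [← hLd]; exact hT5) Yb
      (fun ψ hψ => by rw [← hLd]; exact hYn ψ hψ) d hd0 hd1 n hn0 (Qs th e X Λ n K1')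
      ((X : ℝ) ^ (e / 5) * Λ) (fun q => r q * u) (fun q hq => (q1 q (hQsub hq)).1)
      (fun q hq q' hq' => q2 q (hQsub hq) q' (hQsub hq')) hNN
      (fun q hq => ⟨(hru q u hu1 hu2).1, (hru q u hu1 hu2).2.trans hT4⟩)
    rw [← hLd, ← hY] at h2
    have h3 : Cr * d * ((n : ℝ) / (Nat.totient n : ℝ)) * (X / L ^ 2) ≤ E2 := by
      rw [hE2]
      have h4 : Cr * d ≤ δ / 2 := by
        rw [hd, mul_div_assoc', div_le_div_iff₀ hCs0 (by norm_num)]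
        nlinarith
      have h5 : 0 ≤ (n : ℝ) / (Nat.totient n : ℝ) := by linarith
      exact mul_le_mul_of_nonneg_right (mul_le_mul_of_nonneg_right h4 h5) (by positivity)
    have h6 : ∀ q ∈ Qs th e X Λ n K1', ‖dsc F X q (r q * u) - dV X Y n q (r q * u)‖ ≤
        ‖dsc F X q (r q * u) - dV X Yb n q (r q * u)‖ +
          ‖dV X Yb n q (r q * u) - dV X Y n q (r q * u)‖ := fun q _ => by
      have h7 : dsc F X q (r q * u) - dV X Y n q (r q * u) =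
          (dsc F X q (r q * u) - dV X Yb n q (r q * u)) +
            (dV X Yb n q (r q * u) - dV X Y n q (r q * u)) := by ring
      rw [h7]
      exact norm_add_le _ _
    refine (sum_le_sum h6).trans ?_
    rw [sum_add_distrib]
    exact add_le_add h1 (h2.trans h3)
  -- the denominators
  have hQZ : QQi th e X Λ ⊆ Icc 1 (ZE X) := by
    intro q hq
    obtain ⟨a1, a2, a3, -⟩ := q1 q hq
    rw [mem_Icc]
    refine ⟨a1, ?_⟩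
    have h1 : (q : ℝ) ≤ (X : ℝ) ^ 16 := by
      have h2 : (q : ℝ) ≤ y3 (dl th e) X := by
        have h3 : (1 : ℝ) ≤ q := by exact_mod_cast a1
        nlinarith
      refine h2.trans ?_
      rw [y3_dl]
      calc (X : ℝ) ^ (1 - th + 3 * e) ≤ (X : ℝ) ^ ((16 : ℕ) : ℝ) :=
            Real.rpow_le_rpow_of_exponent_le hX1r (by push_cast; linarith)
        _ = (X : ℝ) ^ 16 := Real.rpow_natCast _ _
    unfold ZE
    exact_mod_cast h1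
  -- the tail
  have e5 : ‖∑ q ∈ QQi th e X Λ \ Qs th e X Λ n K1', av (dV X Y n q) (r q)‖ ≤ E0 := by
    refine sum_av_le _ _ _ (fun q _ => dV_cont X Y n q) _ fun u hu1 hu2 => ?_
    refine (norm_sum_le _ _).trans ?_
    have h1 := hXt Y hYX (by rw [← hLd]; exact hYc) (fun q => r q * u)
      (fun q => ⟨(hru q u hu1 hu2).1, by rw [← hLd]; exact (hru q u hu1 hu2).2.trans hT3⟩) n hn0 hn2
    rw [← hLd, ← hE0] at h1
    refine le_trans (sum_le_sum_of_subset_of_nonneg ?_ fun _ _ _ => norm_nonneg _) h1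
    intro q hq
    rw [mem_sdiff] at hq
    rw [mem_filter]
    refine ⟨hQZ hq.1, fun h => hq.2 ?_⟩
    unfold Qs
    rw [mem_filter, ← hLd]
    refine ⟨hq.1, h.trans ?_⟩
    exact mul_le_mul_of_nonneg_right (pow_le_pow_right₀ hL1 hK1b) (Nat.cast_nonneg _)
  -- the secondary terms
  have e6 : ∑ q ∈ Icc 1 (ZE X), av (dV X Y n q) T =
      PsiF X Y T th e Λ bb n + ∑ q ∈ QQi th e X Λ, av (dV X Y n q) (r q) := by
    unfold PsiF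
    rw [sum_sub_distrib, ← sum_filter]
    have h1 : (Icc 1 (ZE X)).filter (fun q => q ∈ QQi th e X Λ) = QQi th e X Λ := by
      ext q
      rw [mem_filter]
      exact ⟨fun h => h.2, fun h => ⟨hQZ h, h⟩⟩
    rw [h1, hr]
    ring
  have e7 : ∑ q ∈ QQi th e X Λ, av (dV X Y n q) (r q) =
      ∑ q ∈ QQi th e X Λ \ Qs th e X Λ n K1', av (dV X Y n q) (r q) +
        ∑ q ∈ Qs th e X Λ n K1', av (dV X Y n q) (r q) := (sum_sdiff hQsub).symm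
  -- the series
  have e8 : ‖∑ q ∈ Icc 1 (ZE X), av (dV X Y n q) T -
      ∑ ψ₁ ∈ Y, ∑ ψ₂ ∈ Y, SP n ψ₁ ψ₂ * II X n T ψ₁ ψ₂‖ ≤ E0 := by
    rw [sc_expand, ← sum_sub_distrib]
    have h1 : ∀ ψ₁ ∈ Y, ‖∑ ψ₂ ∈ Y,
        (∑ q ∈ (Icc 1 (ZE X)).filter (fun q => ψ₁.1 ∣ q ∧ ψ₂.1 ∣ q), cc q n ψ₁ ψ₂) * II X n T ψ₁ ψ₂ -
        ∑ ψ₂ ∈ Y, SP n ψ₁ ψ₂ * II X n T ψ₁ ψ₂‖ ≤
        Y.card * ((X : ℝ) ^ (-(1 / 8) : ℝ) * (4 * T * X)) := by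
      intro ψ₁ hψ₁
      rw [← sum_sub_distrib]
      refine (norm_sum_le _ _).trans ?_
      rw [← nsmul_eq_mul]
      refine sum_le_card_nsmul _ _ _ fun ψ₂ hψ₂ => ?_
      rw [← sub_mul, norm_mul]
      refine mul_le_mul ?_ (II_le X n (by omega) T (by linarith) ψ₁ ψ₂) (norm_nonneg _)
        (by positivity)
      have h2 := (hX5 n hn0 hn2 ψ₁ ψ₂ (hYX ψ₁ hψ₁).1 (hYX ψ₂ hψ₂).1 (hYX ψ₁ hψ₁).2
        (hYX ψ₂ hψ₂).2).2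
      rw [norm_sub_rev]
      exact h2
    refine (norm_sum_le _ _).trans ((sum_le_card_nsmul _ _ _ h1).trans ?_)
    rw [nsmul_eq_mul, hE0, le_div_iff₀ (by positivity)]
    have hp : (X : ℝ) ^ (-(1 / 8) : ℝ) * (X : ℝ) ^ (1 / 8 : ℝ) = 1 := by
      rw [← Real.rpow_add hX0]
      norm_num
    have hpp : 0 < (X : ℝ) ^ (-(1 / 8) : ℝ) := by positivity
    have hcc : (Y.card : ℝ) * (Y.card : ℝ) ≤ L ^ C * L ^ C :=
      mul_le_mul hYc hYc (Nat.cast_nonneg _) (by positivity)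
    calc (Y.card : ℝ) * (Y.card * ((X : ℝ) ^ (-(1 / 8) : ℝ) * (4 * T * X))) * L ^ A1
        = (Y.card * Y.card : ℝ) * ((X : ℝ) ^ (-(1 / 8) : ℝ) * (4 * T * X) * L ^ A1) := by ring
      _ ≤ (L ^ C * L ^ C) * ((X : ℝ) ^ (-(1 / 8) : ℝ) * (4 * T * X) * L ^ A1) :=
          mul_le_mul_of_nonneg_right hcc (by positivity)
      _ = (4 * L ^ (2 * C + (K2 + 1) + A1)) * (X : ℝ) ^ (-(1 / 8) : ℝ) * X := by
          rw [hTd]
          ring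
      _ ≤ (X : ℝ) ^ (1 / 8 : ℝ) * (X : ℝ) ^ (-(1 / 8) : ℝ) * X := by
          refine mul_le_mul_of_nonneg_right (mul_le_mul_of_nonneg_right hX9 hpp.le) hX0.le
      _ = X := by rw [mul_comm ((X : ℝ) ^ (1 / 8 : ℝ)), hp, one_mul]
  -- the main term
  have e9 := hX7 n hev (by omega) hn2
  rw [← hLd, ← hE0] at e9
  rw [sc_id] at e1
  obtain ⟨ν, hν⟩ : ∃ ν : ℝ, ν = cvv (wP X) (wP X) n -
    cvv (fI gP X (wX D' X)) (fI gP X (wX D' X)) n := ⟨_, rfl⟩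
  have hν' : cvv (wP X) (wP X) n - cvv (fun m => fI gP X (wX D' X) m)
    (fun m => fI gP X (wX D' X) m) n = ν := hν.symm
  rw [← hν] at e9
  have e1' : ‖((ν : ℝ) : ℂ) - ∑ q ∈ QQi th e X Λ, av (dsc F X q) (rdi th e X Λ bb q)‖ ≤ E0 := by
    rw [← hν']
    exact e1
  have e3' : ‖∑ q ∈ QQi th e X Λ, av (dsc F X q) (rdi th e X Λ bb q) -
      ∑ q ∈ Qs th e X Λ n K1', av (dsc F X q) (r q)‖ ≤ E0 := by
    rw [hr]
    exact e3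
  obtain ⟨s1, hs1⟩ : ∃ s : ℂ, s = ∑ q ∈ QQi th e X Λ, av (dsc F X q) (rdi th e X Λ bb q) := ⟨_, rfl⟩
  obtain ⟨s2, hs2⟩ : ∃ s : ℂ, s = ∑ q ∈ Qs th e X Λ n K1', av (dsc F X q) (r q) := ⟨_, rfl⟩
  obtain ⟨s3, hs3⟩ : ∃ s : ℂ, s = ∑ q ∈ Qs th e X Λ n K1', av (dV X Y n q) (r q) := ⟨_, rfl⟩
  obtain ⟨s4, hs4⟩ : ∃ s : ℂ, s = ∑ q ∈ QQi th e X Λ \ Qs th e X Λ n K1',
    av (dV X Y n q) (r q) := ⟨_, rfl⟩
  obtain ⟨s5, hs5⟩ : ∃ s : ℂ, s = ∑ ψ₁ ∈ Y, ∑ ψ₂ ∈ Y, SP n ψ₁ ψ₂ * II X n T ψ₁ ψ₂ := ⟨_, rfl⟩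
  obtain ⟨s6, hs6⟩ : ∃ s : ℂ, s = PsiF X Y T th e Λ bb n := ⟨_, rfl⟩
  rw [← hs1] at e1' e3'
  rw [← hs2] at e3' e4
  rw [← hs3] at e4 e7
  rw [← hs4] at e5 e7
  rw [e6, e7, ← hs5, ← hs6] at e8
  rw [← hs6] at e2
  rw [← hLd, ← hTd, ← hs5]
  obtain ⟨m, hm⟩ : ∃ m : ℝ, m = (g n : ℝ) - SS n * JJ n := ⟨_, rfl⟩
  rw [← hm] at e9 ⊢
  have e9' : ‖((m : ℝ) : ℂ) - ((ν : ℝ) : ℂ)‖ ≤ E0 := by
    rw [← Complex.ofReal_sub, Complex.norm_real, Real.norm_eq_abs]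
    exact e9
  have hid : ((m : ℝ) : ℂ) - s5 = (((m : ℝ) : ℂ) - ((ν : ℝ) : ℂ)) + (((ν : ℝ) : ℂ) - s1) + (s1 - s2) +
      (s2 - s3) + (s6 + (s4 + s3) - s5) - s6 - s4 := by ring
  rw [hid]
  have hfin : 7 * E0 + E2 ≤ δ * ((n : ℝ) / (Nat.totient n : ℝ)) * (X / L ^ 2) := by
    have h0 : 7 * E0 ≤ E2 := by
      have h1 : 7 * E0 ≤ δ / 2 * (X / L ^ 2) := by
        have h2 : 7 * E0 ≤ 1 / L ^ A / 2 * (X / L ^ 2) := by
          have h3 : 1 / L ^ A / 2 * (X / L ^ 2) = L ^ 2 / 2 * (X / L ^ A1) := by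
            rw [hA1, pow_add]
            field_simp
          rw [h3, hE0]
          refine mul_le_mul_of_nonneg_right ?_ (by positivity)
          nlinarith
        refine h2.trans (mul_le_mul_of_nonneg_right ?_ (by positivity))
        linarith
      refine h1.trans ?_
      rw [hE2]
      have h8 : 0 ≤ δ / 2 := by linarith
      have h9 : 0 ≤ (X : ℝ) / L ^ 2 := by positivity
      calc δ / 2 * (X / L ^ 2) = δ / 2 * 1 * (X / L ^ 2) := by ring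
        _ ≤ _ := mul_le_mul_of_nonneg_right (mul_le_mul_of_nonneg_left hnp h8) h9
    have h1 : δ * ((n : ℝ) / (Nat.totient n : ℝ)) * (X / L ^ 2) = E2 + E2 := by
      rw [hE2]
      ring
    linarith
  refine le_trans ?_ hfin
  have t1 := norm_sub_le ((((m : ℝ) : ℂ) - ((ν : ℝ) : ℂ)) + (((ν : ℝ) : ℂ) - s1) + (s1 - s2) +
      (s2 - s3) + (s6 + (s4 + s3) - s5) - s6) s4
  have t2 := norm_sub_le ((((m : ℝ) : ℂ) - ((ν : ℝ) : ℂ)) + (((ν : ℝ) : ℂ) - s1) + (s1 - s2) +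
      (s2 - s3) + (s6 + (s4 + s3) - s5)) s6
  have t3 := norm_add_le ((((m : ℝ) : ℂ) - ((ν : ℝ) : ℂ)) + (((ν : ℝ) : ℂ) - s1) + (s1 - s2) +
      (s2 - s3)) (s6 + (s4 + s3) - s5)
  have t4 := norm_add_le ((((m : ℝ) : ℂ) - ((ν : ℝ) : ℂ)) + (((ν : ℝ) : ℂ) - s1) + (s1 - s2))
    (s2 - s3)
  have t5 := norm_add_le ((((m : ℝ) : ℂ) - ((ν : ℝ) : ℂ)) + (((ν : ℝ) : ℂ) - s1)) (s1 - s2)
  have t6 := norm_add_le (((m : ℝ) : ℂ) - ((ν : ℝ) : ℂ)) (((ν : ℝ) : ℂ) - s1)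
  linarith

theorem scaleG (hG : GenF) (hD : DiscF) (hA : ArcF) (hC : CntG) (hT : TailF) (hS : SerF)
    (hR : PruneF) : ScaleG := scaleG_of_H (scaleH hG hD hA hC hT hS hR)

end Pool.MP_dd84fd_nt.EF
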