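import Pool.Agent.Lib.MP_dd84fd_nt.EF.Last
import Pool.Agent.Lib.MP_dd84fd_nt.ZR.Pz

/-!
# EF-Zer: every character of the explicit formula has a zero near `1`
-/

set_option autoImplicit false

namespace Pool.MP_dd84fd_nt.EF

open Finset Pool.MP_67663b_nt.Odd Pool.MP_dd84fd_nt.En Pool.MP_dd84fd_nt.E2 Pool.MP_dd84fd_nt.LS
open Pool.MP_dd84fd_nt.GX Pool.MP_dd84fd_nt.HX Pool.MP_dd84fd_nt.IX
open Pool.MP_dd84fd_nt.BX (PC pv IsPC PR SX sN prc ind Rm cf GauBD h0 cP)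

open Classical in
/-- the final conclusions for one `X`, with zeros -/
def FnZ (θ ε : ℝ) (C B M K X : ℕ) (δ : ℝ) (Y : Finset PC) : Prop :=
  (Y.card : ℝ) ≤ C / δ ^ 18 ∧
  (∀ ψ ∈ Y, ψ.2.IsPrimitive ∧ Real.log X ^ K ≤ (ψ.1 : ℝ) ∧ (ψ.1 : ℝ) ≤ (X : ℝ) ^ (1 - θ) ∧
    (∃ ρ : ℂ, 1 - M * Real.log (Real.log X) / Real.log X ≤ ρ.re ∧ ρ.re < 1 ∧
      |ρ.im| ≤ Real.log X ^ M ∧ ∃ _ : NeZero ψ.1, ψ.2.LFunction ρ = 0) ∧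
    ∃ y : ℕ, (X : ℝ) ^ (1 / 11 : ℝ) ≤ y ∧ y ≤ X ∧ (y : ℝ) / Real.log X ^ M <
      ‖∑ p ∈ (Icc 1 y).filter Nat.Prime, ψ.2 (p : ZMod ψ.1)‖) ∧
  (∀ ψ₁ ∈ Y, ∀ ψ₂ ∈ Y, ∀ n : ℕ, 1 ≤ n → (Summable fun q : ℕ => ‖coE n ψ₁ ψ₂ q‖) ∧
    ‖∑' q : ℕ, coE n ψ₁ ψ₂ q‖ ≤ C * ((n : ℝ) / (Nat.totient n : ℝ)) *
      ((Nat.lcm ψ₁.1 ψ₂.1 / Nat.gcd (Nat.lcm ψ₁.1 ψ₂.1) n : ℕ) : ℝ) ^ (-(1 / 4 : ℝ)) ∧
    ‖IE X n (Real.log X ^ B / X) ψ₁ ψ₂‖ ≤ C * (X / Real.log X ^ 2)) ∧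
  (((Icc 1 X).filter (fun n : ℕ => X < 2 * n ∧ Even n ∧ δ * (SS n * JJ n) <
    ‖(((g n : ℝ) - SS n * JJ n : ℝ) : ℂ) - secE X n (Real.log X ^ B) Y‖)).card : ℝ) ≤
      (X : ℝ) ^ (θ + ε)

/-- a primitive character with a large sum over primes has a zero near `1` -/
theorem zro_of (M : ℕ) : ∃ M' : ℕ, M ≤ M' ∧ ∃ X0 : ℕ, ∀ X : ℕ, X0 ≤ X → ∀ ψ : PC,
    ψ.2.IsPrimitive → Real.log X ≤ (ψ.1 : ℝ) → (ψ.1 : ℝ) ≤ X → ∀ y : ℕ,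
    (X : ℝ) ^ (1 / 11 : ℝ) ≤ y → y ≤ X → (y : ℝ) / Real.log X ^ M <
      ‖∑ p ∈ (Icc 1 y).filter Nat.Prime, ψ.2 (p : ZMod ψ.1)‖ →
    ∃ ρ : ℂ, 1 - M' * Real.log (Real.log X) / Real.log X ≤ ρ.re ∧ ρ.re < 1 ∧
      |ρ.im| ≤ Real.log X ^ M' ∧ ∃ _ : NeZero ψ.1, ψ.2.LFunction ρ = 0 := by
  obtain ⟨N, X1, h⟩ := ZR.prime_zero (1 / 11) M (by norm_num)
  obtain ⟨X2, hX2⟩ := MP_log_large 2
  refine ⟨max M N, le_max_left _ _, max X1 X2, fun X hX ψ hp hr hrX y hy hyX hbig => ?_⟩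
  have hL := hX2 X ((le_max_right _ _).trans hX)
  have hL0 : 0 < Real.log X := by linarith
  have hr2 : (2 : ℝ) ≤ ψ.1 := hL.trans hr
  have hr2' : 2 ≤ ψ.1 := by exact_mod_cast hr2
  have hne : NeZero ψ.1 := ⟨by omega⟩
  have h1 : ψ.2 ≠ 1 := by
    intro h1
    have h2 : ψ.2.conductor = ψ.1 := hp
    rw [h1, DirichletCharacter.conductor_one] at h2
    omega
  obtain ⟨ρ, ρ1, ρ2, ρ3, ρ4⟩ := h X ((le_max_left _ _).trans hX) ψ.1 ψ.2 h1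
    (by exact_mod_cast hrX) y hy hyX hbig.le
  have hN : (N : ℝ) ≤ (max M N : ℕ) := by exact_mod_cast le_max_right M N
  refine ⟨ρ, le_trans ?_ ρ1, ρ2, ρ3.trans (pow_le_pow_right₀ (by linarith) (le_max_right _ _)),
    hne, ρ4⟩
  have hll : 0 ≤ Real.log (Real.log X) := Real.log_nonneg (by linarith)
  have h3 : N * Real.log (Real.log X) / Real.log X ≤
      (max M N : ℕ) * Real.log (Real.log X) / Real.log X :=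
    div_le_div_of_nonneg_right (mul_le_mul_of_nonneg_right hN hll) hL0.le
  linarith

open Classical in
/-- the final theorem, with zeros -/
theorem last_z (θ ε : ℝ) (h1 : 1 / 3 ≤ θ) (h2 : θ ≤ 1) (hε : 0 < ε) : ∃ C : ℕ,
    (∀ A K : ℕ, ∃ X0 : ℕ, ∀ X : ℕ, X0 ≤ X → ∀ δ : ℝ, 1 / Real.log X ^ A ≤ δ → δ ≤ 1 →
      (((Icc 1 X).filter (fun n => ∃ W : ℕ, n + W ≤ X ∧ C / δ ^ C + W / Real.log X ^ K <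
        (((Icc n (n + W)).filter (fun m : ℕ => Even m ∧
          δ * (SS m * JJ m) < |(g m : ℝ) - SS m * JJ m|)).card : ℝ))).card : ℝ) ≤
            (X : ℝ) ^ (θ + ε) ∧
      ∀ n W : ℕ, 1 ≤ n → n + W ≤ X → (X : ℝ) ^ (θ + ε) ≤ W →
        (((Icc n (n + W)).filter (fun m : ℕ => Even m ∧
          δ * (SS m * JJ m) < |(g m : ℝ) - SS m * JJ m|)).card : ℝ) ≤ W / Real.log X ^ K) ∧
    (∀ A K : ℕ, ∃ X0 : ℕ, ∀ X : ℕ, X0 ≤ X → ∀ N : Finset ℕ, (∀ n ∈ N, 1 ≤ n ∧ n ≤ X ∧ Even n) →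
      (∀ n ∈ N, ∀ m ∈ N, n ≠ m → (Nat.gcd n m : ℝ) < Real.log X ^ K) →
      ((N.filter (fun n : ℕ => (n : ℝ) / Real.log (n : ℝ) ^ A <
        |(g n : ℝ) - SS n * JJ n|)).card : ℝ) ≤ (X : ℝ) ^ (θ + ε)) ∧
    ∀ ν : ℝ, 0 < ν → ∃ N : ℕ, 1 ≤ N ∧ ∀ A : ℕ, ∃ B M : ℕ, ∀ K : ℕ, ∃ X0 : ℕ, ∀ X : ℕ,
      X0 ≤ X → ∀ δ : ℝ, 1 / Real.log X ^ A ≤ δ → δ ≤ 1 → ∃ Y : Finset PC, ∃ D : Finset ℕ,
        FnZ θ ε C B M K X δ Y ∧ CoD θ ε C N K X δ Y D ∧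
        (ν ≤ δ → (D.filter (fun d : ℕ => (d : ℝ) < (X : ℝ) ^ (1 / (N : ℝ)))).card ≤ 1 ∧
          NuC N M X Y) := by
  obtain ⟨C, hw, hf, hs⟩ := last θ ε h1 h2 hε
  refine ⟨C, hw, hf, fun ν hν => ?_⟩
  obtain ⟨N, hN, hs⟩ := hs ν hν
  refine ⟨N, hN, fun A => ?_⟩
  obtain ⟨B, M, hs⟩ := hs A
  obtain ⟨M', hM, X2, hz⟩ := zro_of M
  refine ⟨B, M', fun K => ?_⟩
  obtain ⟨X1, hs⟩ := hs (K + 1)
  obtain ⟨X3, hX3⟩ := MP_log_large 1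
  refine ⟨max X1 (max X2 (max X3 1)), fun X hX δ hδ hδ1 => ?_⟩
  simp only [max_le_iff] at hX
  obtain ⟨x1, x2, x3, x4⟩ := hX
  have hL1 := hX3 X x3
  have hX1 : (1 : ℝ) ≤ X := by exact_mod_cast x4
  have hL0 : 0 < Real.log X := by linarith
  have hK : Real.log X ^ K ≤ Real.log X ^ (K + 1) := pow_le_pow_right₀ hL1 (Nat.le_succ K)
  have hK1 : Real.log X ≤ Real.log X ^ (K + 1) := by
    calc Real.log X = Real.log X ^ 1 := (pow_one _).symm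
      _ ≤ Real.log X ^ (K + 1) := pow_le_pow_right₀ hL1 (by omega)
  have hMM : Real.log X ^ M ≤ Real.log X ^ M' := pow_le_pow_right₀ hL1 hM
  obtain ⟨Y, D, ⟨f1, f2, f3, f4⟩, ⟨d1, d2, d3⟩, hν'⟩ := hs X x1 δ hδ hδ1
  refine ⟨Y, D, ⟨f1, fun ψ hψ => ?_, f3, f4⟩, ⟨d1, fun d hd => ?_, d3⟩, fun hνδ => ?_⟩
  · obtain ⟨a, b, c, y, y1, y2, y3⟩ := f2 ψ hψ
    have hcX : (ψ.1 : ℝ) ≤ X := c.trans (by
      calc (X : ℝ) ^ (1 - θ) ≤ (X : ℝ) ^ (1 : ℝ) :=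
            Real.rpow_le_rpow_of_exponent_le hX1 (by linarith)
        _ = X := Real.rpow_one _)
    refine ⟨a, hK.trans b, c, hz X x2 ψ a (hK1.trans b) hcX y y1 y2 y3, y, y1, y2,
      lt_of_le_of_lt ?_ y3⟩
    exact div_le_div_of_nonneg_left (Nat.cast_nonneg _) (pow_pos hL0 _) hMM
  · obtain ⟨a, b, c⟩ := d2 d hd
    exact ⟨hK.trans a, b, c⟩
  · obtain ⟨a, b⟩ := hν' hνδ
    refine ⟨a, fun ψ hψ => ?_⟩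
    obtain ⟨⟨x, H, b1, b2, b3, b4, b5, b6⟩, c⟩ := b ψ hψ
    exact ⟨⟨x, H, b1, b2, b3, b4, b5.trans (mul_le_mul_of_nonneg_left hMM b1.le), b6⟩, c⟩

end Pool.MP_dd84fd_nt.EF
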